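import Pool.Agent.Helper69K1.Dbl

/-!
# The test for hidden Jordan algebras
-/

set_option linter.unusedSectionVars false

namespace Pool.Agent.Helper69K1

open Module Pool.Agent.NPC Pool.Agent.NPC.H532 Pool.Agent.H420_NCF Pool.Agent.H687R2.LLL

/-- The doubled input. -/
noncomputable def dbI (s : ℤ) (I : Inp) : Inp :=
  (I.1 ++ I.1, dblL I.1.length I.2 (cjF s I.1.length I.2))

theorem poly_dbI (s : ℤ) : Poly (dbI s) := by
  unfold dbI
  have h1 : Poly (fun I : Inp => I.1) := Poly.fst Poly.id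
  have h2 : UPoly (fun I : Inp => I.1.length) := UPoly.length h1
  have h3 : Poly (fun I : Inp => I.2) := Poly.snd Poly.id
  exact Poly.pair (Poly.append h1 h1) (poly_dblL h2 h3 (poly_cjF s h2 h3))

theorem length_dbI (s : ℤ) (I : Inp) : (dbI s I).1.length = I.1.length + I.1.length := by
  simp [dbI]

theorem det_dbI (s : ℤ) (I : Inp) :
    (∃ c, (cq (dbI s I).1.length (dbI s I).2 c).det ≠ 0) ↔
      (∃ X ∈ spB I.1.length I.2, X.det ≠ 0) ∧
        ∃ Y ∈ cj (s : ℚ) (spB I.1.length I.2), Y.det ≠ 0 := by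
  rw [length_dbI]
  have key : ∀ M : Matrix (Fin (I.1.length + I.1.length)) (Fin (I.1.length + I.1.length)) ℚ,
      (∃ c, M = cq (I.1.length + I.1.length) (dbI s I).2 c) ↔
      ∃ X ∈ spB I.1.length I.2, ∃ Y ∈ cj (s : ℚ) (spB I.1.length I.2),
        M = ee I.1.length (Matrix.fromBlocks 0 X Y 0) := by
    intro M
    rw [← mem_spB]
    change M ∈ spB (I.1.length + I.1.length) (dblL I.1.length I.2 (cjF s I.1.length I.2)) ↔ _
    rw [spB_dblL, spB_cjF]
    constructor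
    · rintro ⟨_, ⟨X, hX, Y, hY, rfl⟩, rfl⟩
      exact ⟨X, hX, Y, hY, rfl⟩
    · rintro ⟨X, hX, Y, hY, rfl⟩
      exact ⟨_, ⟨X, hX, Y, hY, rfl⟩, rfl⟩
  constructor
  · rintro ⟨c, hc⟩
    obtain ⟨X, hX, Y, hY, h⟩ := (key _).1 ⟨c, rfl⟩
    rw [h, det_ee, det_anti_ne] at hc
    exact ⟨⟨X, hX, hc.1⟩, Y, hY, hc.2⟩
  · rintro ⟨⟨X, hX, h1⟩, Y, hY, h2⟩
    obtain ⟨c, hc⟩ := (key _).2 ⟨X, hX, Y, hY, rfl⟩
    refine ⟨c, ?_⟩
    rw [← hc, det_ee, det_anti_ne]
    exact ⟨h1, h2⟩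

theorem triple_dbI (I : Inp) :
    IsTriple (spB (dbI 1 I).1.length (dbI 1 I).2) := by
  have key : ∀ m : ℕ, m = I.1.length + I.1.length → IsTriple (spB m (dbI 1 I).2) := by
    rintro m rfl
    change IsTriple (spB (I.1.length + I.1.length)
      (dblL I.1.length I.2 (cjF 1 I.1.length I.2)))
    rw [spB_dblL, spB_cjF]
    have h := pair_triple (spB I.1.length I.2)
    have h1 : ((1 : ℤ) : ℚ) = 1 := by norm_num
    rw [h1]
    exact triple_map h _
  exact key _ (length_dbI 1 I)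

theorem testJ_iff (I : Inp) : testL (dbI 1 I) = true ↔
    (∃ X ∈ spB I.1.length I.2, X.det ≠ 0) ∧
      ∃ Y ∈ cj 1 (spB I.1.length I.2), Y.det ≠ 0 := by
  have h := det_dbI 1 I
  have h1 : ((1 : ℤ) : ℚ) = 1 := by norm_num
  rw [h1] at h
  rw [← h]
  exact ⟨testL_sound, testL_complete (triple_dbI I)⟩

/-- The test on symbolic matrices. -/
noncomputable def symJ (A : SMat) : Bool :=
  (A.all fun r => decide (r.length = A.length)) && testL (dbI 1 (inp A))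

theorem poly_symJ : Poly symJ :=
  Poly.and (poly_isSquare Poly.id) (poly_testL.comp ((poly_dbI 1).comp (poly_inp Poly.id)))

theorem ex_det_iff (A : SMat) :
    (∃ X ∈ spB A.length (coeffs A), X.det ≠ 0) ↔ (symMat A).det ≠ 0 := by
  rw [det_ne_zero_iff]
  constructor
  · rintro ⟨X, hX, h⟩
    obtain ⟨c, rfl⟩ := mem_range_subst.2 hX
    exact ⟨c, h⟩
  · rintro ⟨c, hc⟩
    exact ⟨_, mem_range_subst.1 ⟨c, rfl⟩, hc⟩

theorem symJ_iff (A : SMat) : symJ A = true ↔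
    IsSquare A ∧ (symMat A).det ≠ 0 ∧ ∃ Y ∈ cj 1 (spB A.length (coeffs A)), Y.det ≠ 0 := by
  rw [symJ, Bool.and_eq_true, isSquare_iff, testJ_iff, ← ex_det_iff]
  have key : ∀ m : ℕ, m = A.length → (((∃ X ∈ spB m (inp A).2, X.det ≠ 0) ∧
      ∃ Y ∈ cj 1 (spB m (inp A).2), Y.det ≠ 0) ↔
      ((∃ X ∈ spB A.length (coeffs A), X.det ≠ 0) ∧
      ∃ Y ∈ cj 1 (spB A.length (coeffs A)), Y.det ≠ 0)) := by
    rintro m rfl
    exact Iff.rfl
  rw [key _ (length_inp A)]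

end Pool.Agent.Helper69K1
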