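import Pool.Agent.Helper69K1.SearchDef

/-!
# The local search with a context
-/

set_option linter.unusedSectionVars false

namespace Pool.Agent.Helper69K1

open Module Pool.Agent.NPC Pool.Agent.NPC.H532 Pool.Agent.H420_NCF Pool.Agent.H687R2.LLL

variable {κ : Type} [TEnc κ]

theorem poly_stepC {dirs : (κ × Inp) × List ℤ → List (List ℤ)} (hd : Poly dirs) (r : ℕ) :
    Poly (fun p : (κ × Inp) × List ℤ => step (fun q => dirs ((p.1.1, q.1), q.2)) r p.1.2 p.2) := by
  unfold step
  have hI : Poly (fun p : (κ × Inp) × List ℤ => p.1.2) := Poly.snd (Poly.fst Poly.id)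
  have h1 : Poly (fun p : (κ × Inp) × List ℤ =>
      moves p.1.2.1.length (dirs ((p.1.1, p.1.2), p.2)) r p.2) :=
    poly_moves (UPoly.length (Poly.fst hI))
      (hd.comp (Poly.pair (Poly.pair (Poly.fst (Poly.fst Poly.id)) hI) (Poly.snd Poly.id)))
      (Poly.snd Poly.id) r
  refine Poly.optGetD (Poly.optMap_fp (h := fun (p : (κ × Inp) × List ℤ) c' => shrink p.1.2 c')
    (Poly.head? (Poly.filter (p := fun (p : (κ × Inp) × List ℤ) c' =>
      decide (sr p.1.2 p.2 < sr p.1.2 c')) h1 ?_)) ?_) (Poly.snd Poly.id)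
  · exact Poly.decide_lt (poly_sr (hI.comp (Poly.fst Poly.id)) (Poly.snd (Poly.fst Poly.id)))
      (poly_sr (hI.comp (Poly.fst Poly.id)) (Poly.snd Poly.id))
  · exact poly_shrink (hI.comp (Poly.fst Poly.id)) (Poly.snd Poly.id)

theorem poly_locC {dirs : (κ × Inp) × List ℤ → List (List ℤ)} (hd : Poly dirs) (r : ℕ) :
    Poly (fun p : κ × Inp => loc (fun q => dirs ((p.1, q.1), q.2)) r p.2) := by
  unfold loc
  have hrep : Poly (fun p : κ × Inp => List.replicate p.2.2.length (0 : ℤ)) := by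
    refine (NPC.Poly.map (F := fun (_ : κ × Inp) (_ : Mat) => (0 : ℤ))
      (Poly.snd (Poly.snd Poly.id)) (NPC.Poly.const 0)).congr fun p => ?_
    rw [List.map_const']
  refine (Poly.iterLen (l := fun p : κ × Inp => () :: p.2.1)
    (F := fun p c => step (fun q => dirs ((p.1, q.1), q.2)) r p.2 c)
    (Poly.cons (NPC.Poly.const ()) (Poly.fst (Poly.snd Poly.id))) hrep (poly_stepC hd r)
    (Polynomial.X * (Polynomial.C 4 * Polynomial.X + Polynomial.C 6) + Polynomial.C 1)
    ?_).congr fun p => by rw [List.length_cons]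
  intro p k _
  obtain ⟨h1, h2⟩ := iter_bound (fun q => dirs ((p.1, q.1), q.2)) r p.2 k
  have h0 : sz p = sz p.1 + sz p.2 + 1 := sz_pair _ _
  have h3 : sz p.2 = sz p.2.1 + sz p.2.2 + 1 := sz_pair _ _
  have h4 := length_lt_sz p.2.1
  have h5 := length_lt_sz p.2.2
  have h6 : p.2.1.length < 2 ^ sz p := lt_of_lt_of_le (lt_two_pow_sz p.2.1)
    (Nat.pow_le_pow_right (by norm_num) (by omega))
  refine (Pool.Agent.NPC.H670R2.sz_vec_le (b := sz p) (e := sz p) (by omega) fun x hx =>
    lt_of_le_of_lt (h2 x hx) h6).trans ?_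
  simp only [Polynomial.eval_add, Polynomial.eval_mul, Polynomial.eval_C, Polynomial.eval_X]
  exact le_rfl

end Pool.Agent.Helper69K1
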