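import Pool.Agent.Helper69K1.AntiPair
import Pool.Agent.Helper69K1.SearchCtx
import Pool.Agent.Helper69K1.AlgJordan

/-!
# The test for hidden Lie algebras
-/

set_option linter.unusedSectionVars false

namespace Pool.Agent.Helper69K1

open Module Pool.Agent.NPC Pool.Agent.NPC.H532 Pool.Agent.H420_NCF Pool.Agent.H687R2.LLL

theorem mq_mmul (N : ℕ) (A B : Mat) : mq N (mmul N A B) = mq N A * mq N B := by
  ext i j
  rw [mq, mmul, entry_tab _ i.2 j.2, list_sum_range, Matrix.mul_apply]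
  refine Finset.sum_congr rfl fun k _ => ?_
  push_cast
  rfl

/-- zeros -/
def zer (l : List Mat) : List ℤ := l.map fun _ => 0

theorem getD_zer (l : List Mat) (k : ℕ) : (zer l).getD k 0 = 0 := by
  by_cases h : k < (zer l).length
  · rw [List.getD_eq_getElem _ _ h]; simp [zer]
  · rw [List.getD_eq_default _ _ (by omega)]

theorem cq_append (N : ℕ) (U L : List Mat) (c : ℕ → ℚ) :
    cq N (U ++ L) c = cq N U c + cq N L (fun k => c (U.length + k)) := by
  rw [cq, List.length_append, Finset.sum_range_add, cq, cq]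
  congr 1
  · refine Finset.sum_congr rfl fun k hk => ?_
    rw [List.getD_append _ _ _ _ (Finset.mem_range.1 hk)]
  · refine Finset.sum_congr rfl fun k hk => ?_
    rw [List.getD_append_right _ _ _ _ (by omega), Nat.add_sub_cancel_left]

theorem cq_zero_of (N : ℕ) (U : List Mat) {c : ℕ → ℚ} (h : ∀ k < U.length, c k = 0) :
    cq N U c = 0 := by
  rw [cq]
  refine Finset.sum_eq_zero fun k hk => ?_
  rw [h k (Finset.mem_range.1 hk), zero_smul]

theorem cq_pad_right {N : ℕ} {U L : List Mat} {u : List ℤ} (hu : u.length = U.length) :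
    cq N (U ++ L) (qv (u ++ zer L)) = cq N U (qv u) := by
  rw [cq_append, cq_zero_of N L, add_zero]
  · refine cq_congr _ _ fun k hk => ?_
    rw [qv, qv, List.getD_append _ _ _ _ (by omega)]
  · intro k hk
    rw [qv, List.getD_append_right _ _ _ _ (by omega), getD_zer]
    rfl

theorem cq_pad_left {N : ℕ} {U L : List Mat} {u : List ℤ} :
    cq N (U ++ L) (qv (zer U ++ u)) = cq N L (qv u) := by
  have hl : (zer U).length = U.length := by simp [zer]
  rw [cq_append, cq_zero_of N U, zero_add]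
  · refine cq_congr _ _ fun k hk => ?_
    rw [qv, qv, List.getD_append_right _ _ _ _ (by omega), hl, Nat.add_sub_cancel_left]
  · intro k hk
    rw [qv, List.getD_append _ _ _ _ (by omega), getD_zer]
    rfl

/-- The directions of the search. -/
noncomputable def dirA (p : ((List Mat × List Mat) × Inp) × List ℤ) : List (List ℤ) :=
  ((kdir p.1.2.1.length (p.1.2.1.length * p.1.2.1.length)
    (mmul p.1.2.1.length (cmb p.1.2.1.length p.1.2.2 p.2) (cmb p.1.2.1.length p.1.2.2 p.2))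
    p.1.1.1).map fun u => u ++ zer p.1.1.2) ++
  ((kdir p.1.2.1.length (p.1.2.1.length * p.1.2.1.length)
    (mmul p.1.2.1.length (cmb p.1.2.1.length p.1.2.2 p.2) (cmb p.1.2.1.length p.1.2.2 p.2))
    p.1.1.2).map fun u => zer p.1.1.1 ++ u)

theorem poly_zer {α : Type} [TEnc α] {l : α → List Mat} (hl : Poly l) :
    Poly (fun a => zer (l a)) :=
  NPC.Poly.map (F := fun _ (_ : Mat) => (0 : ℤ)) hl (NPC.Poly.const 0)

theorem poly_dirA : Poly dirA := by
  unfold dirA
  have hI : Poly (fun p : ((List Mat × List Mat) × Inp) × List ℤ => p.1.2) :=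
    Poly.snd (Poly.fst Poly.id)
  have hU : Poly (fun p : ((List Mat × List Mat) × Inp) × List ℤ => p.1.1.1) :=
    Poly.fst (Poly.fst (Poly.fst Poly.id))
  have hL : Poly (fun p : ((List Mat × List Mat) × Inp) × List ℤ => p.1.1.2) :=
    Poly.snd (Poly.fst (Poly.fst Poly.id))
  have hN : UPoly (fun p : ((List Mat × List Mat) × Inp) × List ℤ => p.1.2.1.length) :=
    UPoly.length (Poly.fst hI)
  have hx := poly_cmb hN (Poly.snd hI)
    (Poly.snd Poly.id : Poly (fun p : ((List Mat × List Mat) × Inp) × List ℤ => p.2))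
  have hx2 := Poly_mmul hN hx hx
  refine Poly.append
    (NPC.Poly.map (F := fun (p : ((List Mat × List Mat) × Inp) × List ℤ) u => u ++ zer p.1.1.2)
      (poly_kdir hN (hN.mul hN) hx2 hU) ?_)
    (NPC.Poly.map (F := fun (p : ((List Mat × List Mat) × Inp) × List ℤ) u => zer p.1.1.1 ++ u)
      (poly_kdir hN (hN.mul hN) hx2 hL) ?_)
  · exact Poly.append (Poly.snd Poly.id) (poly_zer (hL.comp (Poly.fst Poly.id)))
  · exact Poly.append (poly_zer (hU.comp (Poly.fst Poly.id))) (Poly.snd Poly.id)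

/-- The end of the search. -/
noncomputable def endA (p : (List Mat × List Mat) × List Unit) : List ℤ :=
  loc (fun q => dirA ((p.1, q.1), q.2)) 4 (p.2, p.1.1 ++ p.1.2)

/-- The test. -/
noncomputable def testA (p : (List Mat × List Mat) × List Unit) : Bool :=
  decide (p.2.length ≤ sr (p.2, p.1.1 ++ p.1.2) (endA p))

theorem poly_testA : Poly testA := by
  have h1 : Poly (fun p : (List Mat × List Mat) × List Unit =>
      ((p.2, p.1.1 ++ p.1.2) : Inp)) :=
    Poly.pair (Poly.snd Poly.id) (Poly.append (Poly.fst (Poly.fst Poly.id))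
      (Poly.snd (Poly.fst Poly.id)))
  have h2 : Poly (fun p : (List Mat × List Mat) × List Unit => endA p) := by
    unfold endA
    exact (poly_locC poly_dirA 4).comp (f := fun p : (List Mat × List Mat) × List Unit =>
      (p.1, (p.2, p.1.1 ++ p.1.2))) (Poly.pair (Poly.fst Poly.id) h1)
  have h3 : Poly (fun p : (List Mat × List Mat) × List Unit =>
      sr (p.2, p.1.1 ++ p.1.2) (endA p)) := poly_sr h1 h2
  have h4 : Poly (fun p : (List Mat × List Mat) × List Unit => p.2.length) :=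
    (UPoly.length (Poly.snd Poly.id)).toPoly
  exact Poly.decide_le h4 h3

theorem testA_sound {p : (List Mat × List Mat) × List Unit} (h : testA p = true) :
    ∃ c, (cq p.2.length (p.1.1 ++ p.1.2) c).det ≠ 0 :=
  ⟨_, det_ne_zero_of_sr (I := (p.2, p.1.1 ++ p.1.2)) (of_decide_eq_true h)⟩

theorem testA_complete {U L : List Mat} {un : List Unit}
    (hPP : ∀ p ∈ spB un.length U, ∀ p' ∈ spB un.length U, p * p' = 0)
    (hP : ∀ p ∈ spB un.length U, ∀ q ∈ spB un.length L, ∀ p' ∈ spB un.length U,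
      p * q * p' - p' * q * p ∈ spB un.length U)
    (hQQ : ∀ q ∈ spB un.length L, ∀ q' ∈ spB un.length L, q * q' = 0)
    (hQ : ∀ q ∈ spB un.length L, ∀ p ∈ spB un.length U, ∀ q' ∈ spB un.length L,
      q * p * q' - q' * p * q ∈ spB un.length L)
    (h : ∃ c, (cq un.length (U ++ L) c).det ≠ 0) : testA ((U, L), un) = true := by
  obtain ⟨d, hd⟩ := h
  obtain ⟨hlen, hst⟩ := loc_spec (fun q => dirA (((U, L), q.1), q.2)) 4 (un, U ++ L)
  by_contra hcon
  apply hd
  set N := un.length with hN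
  set c := loc (fun q => dirA (((U, L), q.1), q.2)) 4 (un, U ++ L) with hc
  set D := dirA (((U, L), (un, U ++ L)), c) with hD
  change ∀ w ∈ Ws D 4, srk (cq N (U ++ L) (qv c + w)) ≤ srk (cq N (U ++ L) (qv c)) at hst
  set a := cq N U (qv c) with ha
  set b := cq N L (fun k => qv c (U.length + k)) with hb
  have hx : cq N (U ++ L) (qv c) = a + b := cq_append _ _ _ _
  set K := kdir N (N * N) (mmul N (cmb N (U ++ L) c) (cmb N (U ++ L) c)) U with hK
  set K' := kdir N (N * N) (mmul N (cmb N (U ++ L) c) (cmb N (U ++ L) c)) L with hK'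
  have hxq : mq N (mmul N (cmb N (U ++ L) c) (cmb N (U ++ L) c)) = (a + b) * (a + b) := by
    rw [mq_mmul, mq_cmb, hx]
  obtain ⟨hk1, hk2⟩ := kdir_spec N (N * N) (mmul N (cmb N (U ++ L) c) (cmb N (U ++ L) c)) U
  obtain ⟨hk1', hk2'⟩ := kdir_spec N (N * N) (mmul N (cmb N (U ++ L) c) (cmb N (U ++ L) c)) L
  rw [hxq] at hk1 hk2 hk1' hk2'
  have hDe : D = (K.map fun u => u ++ zer L) ++ (K'.map fun u => zer U ++ u) := rfl
  have hmemD : ∀ u ∈ K, u ++ zer L ∈ D := fun u hu => by
    rw [hDe, List.mem_append, List.mem_map]; exact Or.inl ⟨u, hu, rfl⟩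
  have hmemD' : ∀ u ∈ K', zer U ++ u ∈ D := fun u hu => by
    rw [hDe, List.mem_append, List.mem_map, List.mem_map]; exact Or.inr ⟨u, hu, rfl⟩
  rw [cq_append]
  refine antiPair_main (m := K.length) (m' := K'.length) (E := N * N) hPP hP hQQ hQ
    (a := a) (b := b) (cq_mem_spB _ _ _) (cq_mem_spB _ _ _)
    (fun i => cq N U (qv K[i])) (fun i => cq N L (qv K'[i])) ?_ ?_ ?_ ?_ ?_ ?_ ?_
    (cq_mem_spB _ _ _) (cq_mem_spB _ _ _)
  · rw [Module.finrank_matrix]
    simp
  · intro i
    exact ⟨cq_mem_spB _ _ _, (hk1 _ (List.getElem_mem _)).2⟩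
  · intro i
    exact ⟨cq_mem_spB _ _ _, (hk1' _ (List.getElem_mem _)).2⟩
  · rintro M ⟨hM1, hM2⟩
    obtain ⟨e, rfl⟩ := mem_spB.1 hM1
    refine Submodule.span_mono ?_ (hk2 e hM2)
    rintro _ ⟨u, hu, rfl⟩
    obtain ⟨i, hi, rfl⟩ := List.getElem_of_mem hu
    exact ⟨⟨i, hi⟩, rfl⟩
  · rintro M ⟨hM1, hM2⟩
    obtain ⟨e, rfl⟩ := mem_spB.1 hM1
    refine Submodule.span_mono ?_ (hk2' e hM2)
    rintro _ ⟨u, hu, rfl⟩
    obtain ⟨i, hi, rfl⟩ := List.getElem_of_mem hu
    exact ⟨⟨i, hi⟩, rfl⟩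
  · intro i i' j j' s s' t t'
    have h1 := hst (s • qv (K[i] ++ zer L) + s' • qv (K[i'] ++ zer L) +
        t • qv (zer U ++ K'[j]) + t' • qv (zer U ++ K'[j']))
      ⟨_, ⟨_, ⟨_, ⟨0, rfl, K[i] ++ zer L, hmemD _ (List.getElem_mem _), s, by rw [zero_add]⟩,
        K[i'] ++ zer L, hmemD _ (List.getElem_mem _), s', rfl⟩,
        zer U ++ K'[j], hmemD' _ (List.getElem_mem _), t, rfl⟩,
        zer U ++ K'[j'], hmemD' _ (List.getElem_mem _), t', rfl⟩
    have e1 : ∀ i : Fin K.length, cq N (U ++ L) (qv (K[i] ++ zer L)) = cq N U (qv K[i]) :=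
      fun i => cq_pad_right (hk1 _ (List.getElem_mem _)).1
    have e2 : ∀ j : Fin K'.length, cq N (U ++ L) (qv (zer U ++ K'[j])) = cq N L (qv K'[j]) :=
      fun i => cq_pad_left
    rw [cq_add, cq_add, cq_add, cq_add, cq_smul, cq_smul, cq_smul, cq_smul, e1, e1, e2, e2, hx,
      add_assoc (s • cq N U (qv K[i]) + _)] at h1
    exact h1
  · by_contra hdet
    apply hcon
    rw [testA, decide_eq_true_iff, sr_eq]
    rw [← hx] at hdet
    have h1 := (srk_eq_card_iff (cq N (U ++ L) (qv c))).2 hdet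
    rw [Fintype.card_fin] at h1
    exact h1.ge

end Pool.Agent.Helper69K1
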