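import Pool.Agent.Helper69K1.Mod2

/-!
# Infinitesimal symmetries of a space of matrices
-/

set_option linter.unusedSectionVars false

namespace Pool.Agent.Helper69K1

open Module

section

variable {n m : Type} [Fintype n] [DecidableEq n] [Fintype m] [DecidableEq m]

/-- The space spanned by the generators. -/
def spn (Y : m → Matrix n n ℚ) : Submodule ℚ (Matrix n n ℚ) := Submodule.span ℚ (Set.range Y)

/-- The infinitesimal two-sided symmetries. -/
def sym (Y : m → Matrix n n ℚ) : Submodule ℚ (Matrix n n ℚ × Matrix n n ℚ) where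
  carrier := {p | ∀ j, p.1 * Y j - Y j * p.2 ∈ spn Y}
  add_mem' := fun {a b} ha hb j => by
    have e : (a + b).1 * Y j - Y j * (a + b).2 =
        (a.1 * Y j - Y j * a.2) + (b.1 * Y j - Y j * b.2) := by
      rw [Prod.fst_add, Prod.snd_add, add_mul, mul_add]; abel
    rw [e]
    exact (spn Y).add_mem (ha j) (hb j)
  zero_mem' := fun j => by
    rw [Prod.fst_zero, Prod.snd_zero, zero_mul, mul_zero, sub_zero]
    exact (spn Y).zero_mem
  smul_mem' := fun c a ha j => by
    have e : (c • a).1 * Y j - Y j * (c • a).2 = c • (a.1 * Y j - Y j * a.2) := by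
      rw [Prod.smul_fst, Prod.smul_snd, smul_mul_assoc, mul_smul_comm, smul_sub]
    rw [e]
    exact (spn Y).smul_mem _ (ha j)

theorem mem_sym {Y : m → Matrix n n ℚ} {p : Matrix n n ℚ × Matrix n n ℚ} :
    p ∈ sym Y ↔ ∀ j, p.1 * Y j - Y j * p.2 ∈ spn Y := Iff.rfl

theorem sym_apply {Y : m → Matrix n n ℚ} {p : Matrix n n ℚ × Matrix n n ℚ} (hp : p ∈ sym Y)
    {X : Matrix n n ℚ} (hX : X ∈ spn Y) : p.1 * X - X * p.2 ∈ spn Y := by
  induction hX using Submodule.span_induction with
  | mem x hx => obtain ⟨j, rfl⟩ := hx; exact hp j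
  | zero => rw [mul_zero, zero_mul, sub_zero]; exact (spn Y).zero_mem
  | add x y _ _ h1 h2 =>
      have e : p.1 * (x + y) - (x + y) * p.2 = (p.1 * x - x * p.2) + (p.1 * y - y * p.2) := by
        rw [mul_add, add_mul]; abel
      rw [e]
      exact (spn Y).add_mem h1 h2
  | smul c x _ h1 =>
      have e : p.1 * (c • x) - (c • x) * p.2 = c • (p.1 * x - x * p.2) := by
        rw [mul_smul_comm, smul_mul_assoc, smul_sub]
      rw [e]
      exact (spn Y).smul_mem _ h1

/-- The action on a matrix. -/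
def actL (X : Matrix n n ℚ) : (Matrix n n ℚ × Matrix n n ℚ) →ₗ[ℚ] Matrix n n ℚ where
  toFun p := p.1 * X - X * p.2
  map_add' a b := by rw [Prod.fst_add, Prod.snd_add, add_mul, mul_add]; abel
  map_smul' c a := by
    rw [Prod.smul_fst, Prod.smul_snd, smul_mul_assoc, mul_smul_comm, smul_sub, RingHom.id_apply]

theorem actL_apply (X : Matrix n n ℚ) (p : Matrix n n ℚ × Matrix n n ℚ) :
    actL X p = p.1 * X - X * p.2 := rfl

/-- The tangent space of the orbit. -/
def orb (Y : m → Matrix n n ℚ) (X : Matrix n n ℚ) : Submodule ℚ (Matrix n n ℚ) :=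
  (sym Y).map (actL X)

/-- the complex matrix -/
noncomputable def cx (M : Matrix n n ℚ) : Matrix n n ℂ := M.map (algebraMap ℚ ℂ)

theorem cx_add (M N : Matrix n n ℚ) : cx (M + N) = cx M + cx N :=
  Matrix.map_add _ (fun a b => map_add _ a b) _ _

theorem cx_mul (M N : Matrix n n ℚ) : cx (M * N) = cx M * cx N := Matrix.map_mul

theorem cx_apply (M : Matrix n n ℚ) (i j : n) : cx M i j = (M i j : ℂ) := rfl

/-- the complex combination -/
noncomputable def valC (Y : m → Matrix n n ℚ) (c : m → ℂ) : Matrix n n ℂ := ∑ j, c j • cx (Y j)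

/-- the rational combination -/
def valQ (Y : m → Matrix n n ℚ) (c : m → ℚ) : Matrix n n ℚ := ∑ j, c j • Y j

theorem valC_mem (Y : m → Matrix n n ℚ) (c : m → ℂ) :
    valC Y c ∈ Submodule.span ℂ (Set.range fun j => cx (Y j)) :=
  Submodule.sum_mem _ fun j _ => Submodule.smul_mem _ _ (Submodule.subset_span ⟨j, rfl⟩)

theorem exists_valC {Y : m → Matrix n n ℚ} {M : Matrix n n ℂ}
    (h : M ∈ Submodule.span ℂ (Set.range fun j => cx (Y j))) : ∃ c, M = valC Y c := by
  obtain ⟨c, hc⟩ := (Submodule.mem_span_range_iff_exists_fun ℂ).1 h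
  exact ⟨c, hc.symm⟩

/-- At most `μ` parameters up to symmetries. -/
def ModY (Y : m → Matrix n n ℚ) (μ : ℕ) : Prop :=
  ∃ k : Subfield ℂ, Countable k ∧ ∀ c : m → ℂ, ∃ P Q : Matrix n n ℂ, P.det ≠ 0 ∧ Q.det ≠ 0 ∧
    (∀ d : m → ℂ, ∃ e : m → ℂ, P * valC Y d * Q = valC Y e) ∧
    ∃ a : Fin μ → ℂ, ∀ i j,
      IsAlgebraic (IntermediateField.adjoin k (Set.range a)) ((P * valC Y c * Q) i j)

/-! ## Complexification -/

theorem cx_sum {ι : Type} (s : Finset ι) (f : ι → Matrix n n ℚ) :
    cx (∑ i ∈ s, f i) = ∑ i ∈ s, cx (f i) := by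
  classical
  induction s using Finset.induction_on with
  | empty => ext i j; simp [cx]
  | insert a s ha ih => rw [Finset.sum_insert ha, Finset.sum_insert ha, cx_add, ih]

/-- The coordinates of a complex matrix in a rational basis of the complex numbers. -/
theorem decompose {I : Type} (b : Basis I ℚ ℂ) (M : Matrix n n ℂ) : ∃ s : Finset I, ∀ s', s ⊆ s' →
    M = ∑ i ∈ s', b i • cx (M.map fun z => b.repr z i) := by
  classical
  refine ⟨Finset.univ.biUnion fun x : n × n => (b.repr (M x.1 x.2)).support, fun s' hs' => ?_⟩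
  ext x y
  rw [Matrix.sum_apply]
  have h1 : M x y = ∑ i ∈ (b.repr (M x y)).support, (b.repr (M x y) i) • b i := by
    conv_lhs => rw [← b.linearCombination_repr (M x y)]
    rw [Finsupp.linearCombination_apply, Finsupp.sum]
  rw [h1]
  refine (Finset.sum_subset ((Finset.subset_biUnion_of_mem
    (fun x : n × n => (b.repr (M x.1 x.2)).support) (Finset.mem_univ (x, y))).trans hs') ?_).trans ?_
  · intro i _ hi
    rw [Finsupp.notMem_support_iff.1 hi, zero_smul]
  · refine Finset.sum_congr rfl fun i _ => ?_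
    rw [Matrix.smul_apply, cx_apply, Matrix.map_apply, smul_eq_mul, Rat.smul_def, mul_comm]

theorem coord_mul {I : Type} (b : Basis I ℚ ℂ) (i : I) (M : Matrix n n ℂ) (N : Matrix n n ℚ) :
    (M * cx N).map (fun z => b.repr z i) = (M.map fun z => b.repr z i) * N := by
  ext x y
  rw [Matrix.map_apply, Matrix.mul_apply, Matrix.mul_apply, map_sum, Finsupp.finsetSum_apply]
  refine Finset.sum_congr rfl fun j _ => ?_
  have h1 : M x j * cx N j y = (N j y) • M x j := by
    rw [cx_apply, Rat.smul_def, mul_comm]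
  rw [h1, map_smul, Finsupp.smul_apply, smul_eq_mul, mul_comm, Matrix.map_apply]

theorem mul_coord {I : Type} (b : Basis I ℚ ℂ) (i : I) (M : Matrix n n ℂ) (N : Matrix n n ℚ) :
    (cx N * M).map (fun z => b.repr z i) = N * (M.map fun z => b.repr z i) := by
  ext x y
  rw [Matrix.map_apply, Matrix.mul_apply, Matrix.mul_apply, map_sum, Finsupp.finsetSum_apply]
  refine Finset.sum_congr rfl fun j _ => ?_
  have h1 : cx N x j * M j y = (N x j) • M j y := by
    rw [cx_apply, Rat.smul_def]
  rw [h1, map_smul, Finsupp.smul_apply, smul_eq_mul, Matrix.map_apply]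

theorem coord_valC {I : Type} (b : Basis I ℚ ℂ) (i : I) (Y : m → Matrix n n ℚ) (c : m → ℂ) :
    (valC Y c).map (fun z => b.repr z i) ∈ spn Y := by
  have h : (valC Y c).map (fun z => b.repr z i) = ∑ j, (b.repr (c j) i) • Y j := by
    ext x y
    rw [Matrix.map_apply, valC, Matrix.sum_apply, map_sum, Finsupp.finsetSum_apply,
      Matrix.sum_apply]
    refine Finset.sum_congr rfl fun j _ => ?_
    have h1 : (c j • cx (Y j)) x y = (Y j x y) • c j := by
      rw [Matrix.smul_apply, cx_apply, Rat.smul_def, smul_eq_mul, mul_comm]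
    rw [h1, map_smul, Finsupp.smul_apply, smul_eq_mul, Matrix.smul_apply, smul_eq_mul, mul_comm]
  rw [h]
  exact Submodule.sum_mem _ fun j _ => Submodule.smul_mem _ _ (Submodule.subset_span ⟨j, rfl⟩)

/-- Complex symmetries are combinations of rational ones. -/
theorem complex_sym {Y : m → Matrix n n ℚ} {P Q : Matrix n n ℂ}
    (h : ∀ j, P * cx (Y j) - cx (Y j) * Q ∈ Submodule.span ℂ (Set.range fun j => cx (Y j)))
    (Z : Matrix n n ℂ) :
    P * Z - Z * Q ∈ Submodule.span ℂ
      ((fun g : Matrix n n ℚ × Matrix n n ℚ => cx g.1 * Z - Z * cx g.2) '' (sym Y : Set _)) := by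
  classical
  let b := Basis.ofVectorSpace ℚ ℂ
  obtain ⟨s1, h1⟩ := decompose b P
  obtain ⟨s2, h2⟩ := decompose b Q
  have e1 := h1 (s1 ∪ s2) Finset.subset_union_left
  have e2 := h2 (s1 ∪ s2) Finset.subset_union_right
  have e3 : P * Z - Z * Q = ∑ i ∈ s1 ∪ s2, b i • (cx (P.map fun z => b.repr z i) * Z -
      Z * cx (Q.map fun z => b.repr z i)) := by
    conv_lhs => rw [e1, e2]
    rw [Finset.sum_mul, Finset.mul_sum, ← Finset.sum_sub_distrib]
    refine Finset.sum_congr rfl fun i _ => ?_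
    rw [smul_sub, smul_mul_assoc, mul_smul_comm]
  rw [e3]
  refine Submodule.sum_mem _ fun i _ => Submodule.smul_mem _ _ (Submodule.subset_span ?_)
  refine ⟨(P.map fun z => b.repr z i, Q.map fun z => b.repr z i), ?_, rfl⟩
  intro j
  obtain ⟨c, hc⟩ := exists_valC (h j)
  have h3 := coord_valC b i Y c
  rw [← hc] at h3
  have h4 : (P * cx (Y j) - cx (Y j) * Q).map (fun z => b.repr z i) =
      (P * cx (Y j)).map (fun z => b.repr z i) - (cx (Y j) * Q).map (fun z => b.repr z i) := by
    ext x y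
    simp [Matrix.map_apply]
  rw [h4, coord_mul, mul_coord] at h3
  exact h3

end

end Pool.Agent.Helper69K1
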