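import Pool.Agent.Helper69K1.Lay5
import Pool.Agent.Helper69K1.Mod3

/-!
# Perturbed layered spaces: few directions suffice
-/

set_option linter.unusedSectionVars false

namespace Pool.Agent.Helper69K1

open Module Filter Topology

section

variable {p : Type} [Fintype p] [DecidableEq p]

theorem count_layer (h : p → ℕ) (k : ℕ) (P : p → Prop) [DecidablePred P] :
    (Finset.univ.filter fun i => h i < k).card +
      ((Finset.univ.filter fun i => k < h i).card +
      ((Finset.univ.filter fun i => h i = k ∧ ¬ P i).card +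
      (Finset.univ.filter fun i => h i = k ∧ P i).card)) = Fintype.card p := by
  rw [← Finset.card_univ, Finset.card_eq_sum_card_fiberwise (s := (Finset.univ : Finset p))
      (f := fun i => if h i < k then (0 : ℕ) else if k < h i then 1 else
        if ¬ P i then 2 else 3) (t := {0, 1, 2, 3}) (by
          intro i _
          simp only
          split_ifs <;> simp)]
  rw [Finset.sum_insert (by simp), Finset.sum_insert (by simp), Finset.sum_insert (by simp),
    Finset.sum_singleton]
  refine congrArg₂ _ (congrArg _ ?_) (congrArg₂ _ (congrArg _ ?_)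
      (congrArg₂ _ (congrArg _ ?_) (congrArg _ ?_)))
  · ext i
    simp only [Finset.mem_filter, Finset.mem_univ, true_and]
    split_ifs <;> simp_all
  · ext i
    simp only [Finset.mem_filter, Finset.mem_univ, true_and]
    split_ifs <;> simp_all <;> omega
  · ext i
    simp only [Finset.mem_filter, Finset.mem_univ, true_and]
    split_ifs <;> simp_all <;> omega
  · ext i
    simp only [Finset.mem_filter, Finset.mem_univ, true_and]
    split_ifs <;> simp_all <;> omega

/-- Few vanishing diagonal entries in every layer. -/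
theorem rank_layer (T : Matrix p p ℂ) (h : p → ℕ)
    (hT : ∀ i j, i ≠ j → ¬ h i < h j → T i j = 0) (k : ℕ) :
    T.rank + (Finset.univ.filter fun i => h i = k ∧ T i i = 0).card ≤ Fintype.card p := by
  set E₁ : Matrix p p ℂ := Matrix.diagonal fun i => if h i < k then 1 else 0 with hE₁
  set E₂ : Matrix p p ℂ := Matrix.diagonal fun i => if h i < k then 0 else 1 with hE₂
  set E₃ : Matrix p p ℂ := Matrix.diagonal fun i => if k < h i then 1 else 0 with hE₃
  set E₄ : Matrix p p ℂ := Matrix.diagonal fun i => if h i = k then T i i else 0 with hE₄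
  have h1 : T = E₁ * T + (E₂ * T * E₃ + E₄) := by
    ext i j
    rw [Matrix.add_apply, Matrix.add_apply, hE₃, Matrix.mul_diagonal, hE₁, hE₂,
      Matrix.diagonal_mul, Matrix.diagonal_mul]
    by_cases hij : i = j
    · subst hij
      rw [hE₄, Matrix.diagonal_apply_eq]
      rcases lt_trichotomy (h i) k with h2 | h2 | h2
      · rw [if_pos h2, if_pos h2, if_neg (by omega), if_neg (by omega)]; ring
      · rw [if_neg (by omega), if_neg (by omega), if_neg (by omega), if_pos h2]; ring
      · rw [if_neg (by omega), if_neg (by omega), if_pos h2, if_neg (by omega)]; ring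
    · rw [hE₄, Matrix.diagonal_apply_ne _ hij]
      by_cases h2 : h i < k
      · rw [if_pos h2, if_pos h2]; ring
      · rw [if_neg h2, if_neg h2]
        by_cases h3 : k < h j
        · rw [if_pos h3]; ring
        · rw [if_neg h3, hT i j hij (by omega)]; ring
  have hr1 : (E₁ * T).rank ≤ (Finset.univ.filter fun i => h i < k).card := by
    refine (Matrix.rank_mul_le_left _ _).trans ?_
    rw [hE₁, Matrix.rank_diagonal, Fintype.card_subtype]
    apply Finset.card_le_card
    intro i
    simp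
  have hr2 : (E₂ * T * E₃).rank ≤ (Finset.univ.filter fun i => k < h i).card := by
    refine (Matrix.rank_mul_le_right _ _).trans ?_
    rw [hE₃, Matrix.rank_diagonal, Fintype.card_subtype]
    apply Finset.card_le_card
    intro i
    simp
  have hr3 : E₄.rank ≤ (Finset.univ.filter fun i => h i = k ∧ T i i ≠ 0).card := by
    rw [hE₄, Matrix.rank_diagonal, Fintype.card_subtype]
    apply Finset.card_le_card
    intro i
    simp
  have h2 := rank_add_le' (E₁ * T) (E₂ * T * E₃ + E₄)
  have h3 := rank_add_le' (E₂ * T * E₃) E₄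
  rw [← h1] at h2
  have h4 : (Finset.univ.filter fun i => h i < k).card +
      ((Finset.univ.filter fun i => k < h i).card +
      ((Finset.univ.filter fun i => h i = k ∧ T i i ≠ 0).card +
      (Finset.univ.filter fun i => h i = k ∧ T i i = 0).card)) = Fintype.card p := count_layer h k (fun i => T i i = 0)
  omega

/-- Few identically vanishing diagonal entries. -/
theorem zeros_le {V : Type} [AddCommGroup V] [Module ℂ V] {b c : ℕ}
    (T L : V →ₗ[ℂ] Matrix p p ℂ) (h : p → ℕ) (hb : ∀ i, h i < b)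
    (hT : ∀ x, ∀ i j, i ≠ j → ¬ h i < h j → T x i j = 0) (hL : ∀ x, (L x).rank ≤ c)
    (hne : ∃ x, (T x + L x).det ≠ 0) (I₀ : Finset p) (hI : ∀ i ∈ I₀, ∀ x, T x i i = 0) :
    I₀.card ≤ b * c := by
  obtain ⟨x, hx⟩ := hne
  have h1 : Fintype.card p ≤ (T x).rank + c := by
    have h2 : (T x + L x).rank = Fintype.card p :=
      Matrix.rank_of_isUnit _ ((Matrix.isUnit_iff_isUnit_det _).2 (isUnit_iff_ne_zero.2 hx))
    have h3 := rank_add_le' (T x) (L x)
    have h4 := hL x
    omega
  have h2 : ∀ k, (I₀.filter fun i => h i = k).card ≤ c := by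
    intro k
    have h3 := rank_layer (T x) h (hT x) k
    have h4 : (I₀.filter fun i => h i = k).card ≤
        (Finset.univ.filter fun i => h i = k ∧ T x i i = 0).card := by
      apply Finset.card_le_card
      intro i hi
      rw [Finset.mem_filter] at hi
      rw [Finset.mem_filter]
      exact ⟨Finset.mem_univ _, hi.2, hI i hi.1 x⟩
    omega
  rw [Finset.card_eq_sum_card_fiberwise (f := h) (t := Finset.range b)
    (fun i _ => Finset.mem_range.2 (hb i))]
  refine (Finset.sum_le_card_nsmul _ _ c fun k _ => h2 k).trans ?_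
  rw [Finset.card_range, smul_eq_mul]

end

section

variable {m : ℕ} {p : Type} [Fintype p] [DecidableEq p] [Nonempty p]

theorem span_single : Submodule.span ℂ (Set.range fun j : Fin m => (Pi.single j 1 : Fin m → ℂ))
    = ⊤ := by
  rw [eq_top_iff]
  intro x _
  rw [Submodule.mem_span_range_iff_exists_fun]
  refine ⟨x, ?_⟩
  funext i
  rw [Finset.sum_apply, Finset.sum_eq_single i]
  · rw [Pi.smul_apply, Pi.single_eq_same, smul_eq_mul, mul_one]
  · intro j _ hj
    rw [Pi.smul_apply, Pi.single_eq_of_ne (Ne.symm hj), smul_zero]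
  · intro h
    exact absurd (Finset.mem_univ i) h

/-- **Few directions suffice, normalised form.** -/
theorem layered_norm {b c e : ℕ} (he : b * c ≤ e) (T L : (Fin m → ℂ) →ₗ[ℂ] Matrix p p ℂ)
    (h : p → ℕ) (hb : ∀ i, h i < b)
    (hT : ∀ x, ∀ i j, i ≠ j → ¬ h i < h j → T x i j = 0) (hL : ∀ x, (L x).rank ≤ c)
    (hdiag : ∀ i, ∃ x, T x i i ≠ 0) (hne : ∃ x, (T x + L x).det ≠ 0) {B : ℕ}
    (hB : Fintype.card p ^ (e + 1) * m ≤ B) :
    ∃ (σ : Fin (e + 1) → ℕ) (J : Finset (Fin m)) (x : Fin m → ℂ), (∀ i, σ i < B + 1) ∧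
      J.card ≤ e ∧ x ∈ Submodule.span ℂ (Set.range fun i => momC m (σ i)) ⊔
        Submodule.span ℂ ((fun j : Fin m => (Pi.single j 1 : Fin m → ℂ)) '' J) ∧
      (T x + L x).det ≠ 0 := by
  classical
  let ℓ : p → (Fin m → ℂ) →ₗ[ℂ] ℂ := fun i =>
    (LinearMap.proj i).comp ((LinearMap.proj i).comp T)
  have hℓ : ∀ i x, ℓ i x = T x i i := fun i x => rfl
  obtain ⟨R, hR, hRd⟩ := exists_Rt T L h hb hT hL ℓ hℓ
  obtain ⟨σ, hσ, hW⟩ := exists_mom ℓ (e + 1) hB
  obtain ⟨i₀⟩ := (inferInstance : Nonempty p)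
  have hR' := Rt_mono (ℓ := ℓ) i₀ he hR
  -- the quotient does not vanish
  obtain ⟨w, -, hw⟩ := exists_genform ℓ ⊤ Set.univ (fun i _ => by
    obtain ⟨x, hx⟩ := hdiag i
    exact ⟨x, trivial, hx⟩)
  obtain ⟨x₀, hx₀⟩ := hne
  have hR0 : R ≠ 0 := by
    intro h0
    have hcont : Continuous fun t : ℂ => (T (x₀ + t • w) + L (x₀ + t • w)).det := by
      refine Continuous.matrix_det ?_
      refine continuous_matrix fun i j => ?_
      have h1 : (fun t : ℂ => (T (x₀ + t • w) + L (x₀ + t • w)) i j) =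
          fun t : ℂ => (T x₀ i j + t * T w i j) + (L x₀ i j + t * L w i j) := by
        funext t
        rw [map_add, map_add, map_smul, map_smul]
        simp only [Matrix.add_apply, Matrix.smul_apply, smul_eq_mul]
      rw [h1]
      fun_prop
    have h1 : ∀ᶠ t in 𝓝[≠] (0 : ℂ), (T (x₀ + t • w) + L (x₀ + t • w)).det ≠ 0 := by
      have h2 := hcont.tendsto 0
      simp only [zero_smul, add_zero] at h2
      exact (h2.mono_left nhdsWithin_le_nhds).eventually_ne hx₀
    have h2 : ∀ᶠ t in 𝓝[≠] (0 : ℂ), ∀ i, ℓ i (x₀ + t • w) ≠ 0 := by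
      rw [eventually_all]
      intro i
      have h3 := (rho_out (a := ℓ i x₀) (b := ℓ i w) (c := 0) (hw i trivial)).2
      filter_upwards [h3] with t ht
      rw [map_add, map_smul, smul_eq_mul]
      simpa using ht
    obtain ⟨t, ht1, ht2⟩ := (h1.and h2).exists
    apply ht1
    have h3 := hRd ⟨x₀ + t • w, ht2⟩
    rw [h0] at h3
    rw [h3]
    exact mul_zero _
  have key : ¬ ∀ J : Finset (Fin m), J.card ≤ e → ∀ x : Gd ℓ,
      (x : Fin m → ℂ) ∈ Submodule.span ℂ (Set.range fun i => momC m (σ i)) ⊔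
        Submodule.span ℂ ((fun j : Fin m => (Pi.single j 1 : Fin m → ℂ)) '' J) → R x = 0 := by
    intro hcon
    exact hR0 (Rt_zero span_single hdiag e hW R hR' hcon)
  push Not at key
  obtain ⟨J, hJ, x, hx, hRx⟩ := key
  refine ⟨σ, J, x, hσ, hJ, hx, ?_⟩
  rw [hRd x]
  exact mul_ne_zero (Finset.prod_ne_zero_iff.2 fun i _ => x.2 i) hRx

/-- **Few directions suffice.** -/
theorem layered_main {b c e : ℕ} (he : b * (b + 1) * c ≤ e)
    (F T L : (Fin m → ℂ) →ₗ[ℂ] Matrix p p ℂ) (P Q : Matrix p p ℂ) (hP : P.det ≠ 0)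
    (hQ : Q.det ≠ 0) (hdec : ∀ x, F x = P * T x * Q + L x)
    (h : p → ℕ) (hb : ∀ i, h i < b)
    (hT : ∀ x, ∀ i j, i ≠ j → ¬ h i < h j → T x i j = 0) (hL : ∀ x, (L x).rank ≤ c)
    (hne : ∃ x, (F x).det ≠ 0) {B : ℕ} (hB : Fintype.card p ^ (e + 1) * m ≤ B) :
    ∃ (σ : Fin (e + 1) → ℕ) (J : Finset (Fin m)) (x : Fin m → ℂ), (∀ i, σ i < B + 1) ∧
      J.card ≤ e ∧ x ∈ Submodule.span ℂ (Set.range fun i => momC m (σ i)) ⊔
        Submodule.span ℂ ((fun j : Fin m => (Pi.single j 1 : Fin m → ℂ)) '' J) ∧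
      (F x).det ≠ 0 := by
  classical
  -- remove `P` and `Q`
  let L₁ : (Fin m → ℂ) →ₗ[ℂ] Matrix p p ℂ :=
    { toFun := fun x => P⁻¹ * L x * Q⁻¹
      map_add' := fun x y => by rw [map_add, mul_add, add_mul]
      map_smul' := fun t x => by
        rw [map_smul, Matrix.mul_smul, Matrix.smul_mul, RingHom.id_apply] }
  have hL₁ : ∀ x, L₁ x = P⁻¹ * L x * Q⁻¹ := fun x => rfl
  have hPu : IsUnit P.det := isUnit_iff_ne_zero.2 hP
  have hQu : IsUnit Q.det := isUnit_iff_ne_zero.2 hQ
  have hF : ∀ x, F x = P * (T x + L₁ x) * Q := by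
    intro x
    have h1 : P * (P⁻¹ * L x * Q⁻¹) * Q = L x := by
      calc P * (P⁻¹ * L x * Q⁻¹) * Q = (P * P⁻¹) * L x * (Q⁻¹ * Q) := by noncomm_ring
        _ = L x := by
          rw [Matrix.mul_nonsing_inv _ hPu, Matrix.nonsing_inv_mul _ hQu, one_mul, mul_one]
    rw [hL₁, mul_add, add_mul, h1, hdec]
  have hFdet : ∀ x, (F x).det ≠ 0 ↔ (T x + L₁ x).det ≠ 0 := by
    intro x
    rw [hF, Matrix.det_mul, Matrix.det_mul]
    constructor
    · intro h1 h2
      exact h1 (by rw [h2]; ring)
    · intro h1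
      exact mul_ne_zero (mul_ne_zero hP h1) hQ
  have hL₁r : ∀ x, (L₁ x).rank ≤ c := by
    intro x
    rw [hL₁]
    exact ((Matrix.rank_mul_le_left _ _).trans (Matrix.rank_mul_le_right _ _)).trans (hL x)
  have hne₁ : ∃ x, (T x + L₁ x).det ≠ 0 := by
    obtain ⟨x, hx⟩ := hne
    exact ⟨x, (hFdet x).1 hx⟩
  -- there is a variable
  have hm : 0 < m := by
    rcases Nat.eq_zero_or_pos m with h0 | h0
    · exfalso
      subst h0
      obtain ⟨x, hx⟩ := hne
      have h1 : x = 0 := Subsingleton.elim _ _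
      rw [h1, map_zero] at hx
      exact hx Matrix.det_zero
    · exact h0
  let ℓ' : (Fin m → ℂ) →ₗ[ℂ] ℂ := LinearMap.proj ⟨0, hm⟩
  set I₀ : Finset p := Finset.univ.filter fun i => ∀ x, T x i i = 0 with hI₀
  have hcard : I₀.card ≤ b * c := zeros_le T L₁ h hb hT hL₁r hne₁ I₀ fun i hi =>
    (Finset.mem_filter.1 hi).2
  let E : (Fin m → ℂ) →ₗ[ℂ] Matrix p p ℂ := (Matrix.diagonalLinearMap p ℂ ℂ).comp
    (LinearMap.pi fun i => if i ∈ I₀ then ℓ' else 0)
  have hE : ∀ x, E x = Matrix.diagonal fun i => if i ∈ I₀ then ℓ' x else 0 := by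
    intro x
    change Matrix.diagonal _ = _
    congr 1
    funext i
    change (if i ∈ I₀ then ℓ' else 0) x = _
    split_ifs <;> rfl
  have hEr : ∀ x, (E x).rank ≤ b * c := by
    intro x
    rw [hE, Matrix.rank_diagonal, Fintype.card_subtype]
    refine le_trans (Finset.card_le_card ?_) hcard
    intro i
    simp only [Finset.mem_filter, Finset.mem_univ, true_and]
    intro h1
    by_contra h2
    exact h1 (if_neg h2)
  obtain ⟨σ, J, x, h1, h2, h3, h4⟩ := layered_norm (b := b) (c := c + b * c) (e := e)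
    (by refine le_trans (le_of_eq ?_) he; ring) (T + E) (L₁ - E) h hb (by
      intro x i j hij hh
      rw [LinearMap.add_apply, Matrix.add_apply, hT x i j hij hh, hE,
        Matrix.diagonal_apply_ne _ hij, add_zero]) (by
      intro x
      rw [LinearMap.sub_apply, sub_eq_add_neg]
      refine (rank_add_le' _ _).trans (Nat.add_le_add (hL₁r x) ?_)
      rw [← map_neg]
      exact hEr _) (by
      intro i
      by_cases hi : i ∈ I₀
      · refine ⟨Pi.single ⟨0, hm⟩ 1, ?_⟩
        rw [LinearMap.add_apply, Matrix.add_apply, (Finset.mem_filter.1 hi).2, hE,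
          Matrix.diagonal_apply_eq, if_pos hi, zero_add]
        change (Pi.single (⟨0, hm⟩ : Fin m) (1 : ℂ) : Fin m → ℂ) ⟨0, hm⟩ ≠ 0
        rw [Pi.single_eq_same]
        exact one_ne_zero
      · have h1 : ∃ x, T x i i ≠ 0 := by
          by_contra h2
          push Not at h2
          exact hi (Finset.mem_filter.2 ⟨Finset.mem_univ _, h2⟩)
        obtain ⟨x, hx⟩ := h1
        refine ⟨x, ?_⟩
        rw [LinearMap.add_apply, Matrix.add_apply, hE, Matrix.diagonal_apply_eq, if_neg hi,
          add_zero]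
        exact hx) (by
      obtain ⟨x, hx⟩ := hne₁
      refine ⟨x, ?_⟩
      rw [LinearMap.add_apply, LinearMap.sub_apply]
      have h5 : T x + E x + (L₁ x - E x) = T x + L₁ x := by abel
      rw [h5]
      exact hx) hB
  refine ⟨σ, J, x, h1, h2, h3, (hFdet x).2 ?_⟩
  rw [LinearMap.add_apply, LinearMap.sub_apply] at h4
  have h5 : T x + E x + (L₁ x - E x) = T x + L₁ x := by abel
  rwa [h5] at h4

end

end Pool.Agent.Helper69K1
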