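import Pool.Agent.Helper69K1.Lay7
import Pool.Agent.Helper69K1.Lay6

/-!
# Block triangular spaces with perturbed layered diagonal blocks
-/

set_option linter.unusedSectionVars false

namespace Pool.Agent.Helper69K1

open Module Filter Topology

section

variable {V : Type} [AddCommGroup V] [Module ℂ V] {ι : Type} [Fintype ι]

/-- Denominators in a subfamily. -/
theorem Rt_comap {κ : Type} [Fintype κ] (ℓ : ι → V →ₗ[ℂ] ℂ) (φ : κ → ι) {e : ℕ}
    {R : Gd (fun k => ℓ (φ k)) → ℂ} (hR : R ∈ Rt (fun k => ℓ (φ k)) e) :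
    (fun x : Gd ℓ => R ⟨(x : V), fun k => x.2 (φ k)⟩) ∈ Rt ℓ e := by
  let r : Gd ℓ → Gd (fun k => ℓ (φ k)) := fun x => ⟨(x : V), fun k => x.2 (φ k)⟩
  have h1 := Submodule.mem_map_of_mem (f := LinearMap.funLeft ℂ ℂ r) hR
  rw [Rt, Submodule.map_span] at h1
  refine Submodule.span_mono ?_ h1
  rintro _ ⟨_, ⟨μ, τ, rfl⟩, rfl⟩
  exact ⟨μ, fun k => φ (τ k), rfl⟩

theorem dense_pt {q : Type} [Fintype q] [DecidableEq q] (ℓ : ι → V →ₗ[ℂ] ℂ)
    (hℓ : ∀ i, ∃ x, ℓ i x ≠ 0) (F : V →ₗ[ℂ] Matrix q q ℂ) (hF : ∃ x, (F x).det ≠ 0) :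
    ∃ x ∈ Gd ℓ, (F x).det ≠ 0 := by
  obtain ⟨w, -, hw⟩ := exists_genform ℓ ⊤ Set.univ (fun i _ => by
    obtain ⟨x, hx⟩ := hℓ i
    exact ⟨x, trivial, hx⟩)
  obtain ⟨x₀, hx₀⟩ := hF
  have hcont : Continuous fun t : ℂ => (F (x₀ + t • w)).det := by
    refine Continuous.matrix_det ?_
    refine continuous_matrix fun i j => ?_
    have h1 : (fun t : ℂ => (F (x₀ + t • w)) i j) = fun t : ℂ => F x₀ i j + t * F w i j := by
      funext t
      rw [map_add, map_smul]
      simp only [Matrix.add_apply, Matrix.smul_apply, smul_eq_mul]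
    rw [h1]
    fun_prop
  have h1 : ∀ᶠ t in 𝓝[≠] (0 : ℂ), (F (x₀ + t • w)).det ≠ 0 := by
    have h2 := hcont.tendsto 0
    simp only [zero_smul, add_zero] at h2
    exact (h2.mono_left nhdsWithin_le_nhds).eventually_ne hx₀
  have h2 : ∀ᶠ t in 𝓝[≠] (0 : ℂ), ∀ i, ℓ i (x₀ + t • w) ≠ 0 := by
    rw [eventually_all]
    intro i
    have h3 := (rho_out (a := ℓ i x₀) (b := ℓ i w) (c := 0) (hw i trivial)).2
    filter_upwards [h3] with t ht
    rw [map_add, map_smul, smul_eq_mul]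
    simpa using ht
  obtain ⟨t, ht1, ht2⟩ := (h1.and h2).exists
  exact ⟨x₀ + t • w, ht2, ht1⟩

theorem poly_det {q : Type} [Fintype q] [DecidableEq q] (F : V →ₗ[ℂ] Matrix q q ℂ) {r : ℕ}
    (u : Fin r → V) : ∃ P : MvPolynomial (Fin r) ℂ, ∀ s : Fin r → ℂ,
      MvPolynomial.eval s P = (F (∑ i, s i • u i)).det := by
  let G : Matrix q q (MvPolynomial (Fin r) ℂ) :=
    ∑ i, (MvPolynomial.X i : MvPolynomial (Fin r) ℂ) • (F (u i)).map MvPolynomial.C
  refine ⟨G.det, fun s => ?_⟩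
  rw [RingHom.map_det]
  congr 1
  ext i j
  simp only [G, RingHom.mapMatrix_apply, Matrix.map_apply, Matrix.sum_apply,
    Matrix.smul_apply, smul_eq_mul, map_sum, map_mul, MvPolynomial.eval_X, MvPolynomial.eval_C,
    map_smul]

theorem common_pt {α : Type} (S : Finset α) {r : ℕ} (F : α → (Fin r → ℂ) → ℂ)
    (hP : ∀ a ∈ S, ∃ P : MvPolynomial (Fin r) ℂ, ∀ s, MvPolynomial.eval s P = F a s)
    (hne : ∀ a ∈ S, ∃ s, F a s ≠ 0) : ∃ s, ∀ a ∈ S, F a s ≠ 0 := by
  classical
  have hP' : ∀ a, ∃ P : MvPolynomial (Fin r) ℂ, a ∈ S → ∀ s, MvPolynomial.eval s P = F a s := by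
    intro a
    by_cases ha : a ∈ S
    · obtain ⟨P, h⟩ := hP a ha
      exact ⟨P, fun _ => h⟩
    · exact ⟨0, fun h => absurd h ha⟩
  choose P hP using hP'
  have h0 : ∏ a ∈ S, P a ≠ 0 := by
    rw [Finset.prod_ne_zero_iff]
    intro a ha h0
    obtain ⟨s, hs⟩ := hne a ha
    apply hs
    rw [← hP a ha, h0, map_zero]
  by_contra hcon
  push Not at hcon
  apply h0
  apply MvPolynomial.funext
  intro s
  obtain ⟨a, ha, h1⟩ := hcon s
  rw [map_zero, map_prod]
  exact Finset.prod_eq_zero ha (by rw [hP a ha, h1])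

end

section

variable {m : ℕ} {p : Type} [Fintype p] [DecidableEq p]

/-- The diagonal blocks as linear maps. -/
def blkL {V : Type} [AddCommGroup V] [Module ℂ V] (g : p → ℕ) (k : ℕ)
    (F : V →ₗ[ℂ] Matrix p p ℂ) : V →ₗ[ℂ] Matrix {i // g i = k} {i // g i = k} ℂ where
  toFun x := Matrix.toSquareBlock (F x) g k
  map_add' x y := by rw [map_add]; rfl
  map_smul' t x := by rw [map_smul]; rfl

/-- **Few moment vectors suffice for block triangular spaces.** -/
theorem block_main {b c e : ℕ} (he : b * (b + 1) * c ≤ e)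
    (M T : (Fin m → ℂ) →ₗ[ℂ] Matrix p p ℂ) (g h : p → ℕ) (hb : ∀ i, h i < b)
    (hM : ∀ x, ∀ i j, g j < g i → M x i j = 0)
    (hT : ∀ x, ∀ i j, i ≠ j → ¬ h i < h j → T x i j = 0)
    (hL : ∀ k x, (Matrix.toSquareBlock (M x - T x) g k).rank ≤ c)
    (hne : ∃ x, (M x).det ≠ 0) (hm : 0 < m) {B : ℕ}
    (hB : Fintype.card p ^ (e + 1) * m ≤ B) :
    ∃ (u : Fin (e + 1 + e) → ℕ) (s : Fin (e + 1 + e) → ℂ), (∀ i, u i < B + 1) ∧
      (M (∑ i, s i • momC m (u i))).det ≠ 0 := by
  classical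
  have hMb : ∀ x, (M x).BlockTriangular g := fun x i j hij => hM x i j hij
  have hdetM : ∀ x, (M x).det = ∏ k ∈ Finset.univ.image g, (Matrix.toSquareBlock (M x) g k).det :=
    fun x => (hMb x).det
  have hblk : ∀ (k : ℕ) (F : (Fin m → ℂ) →ₗ[ℂ] Matrix p p ℂ) (x : Fin m → ℂ), blkL g k F x = Matrix.toSquareBlock (F x) g k := fun _ _ _ => rfl
  -- repair vanishing diagonal entries
  let ℓ' : (Fin m → ℂ) →ₗ[ℂ] ℂ := LinearMap.proj ⟨0, hm⟩
  have hℓ' : ℓ' (Pi.single ⟨0, hm⟩ 1) = 1 := by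
    change (Pi.single (⟨0, hm⟩ : Fin m) (1 : ℂ) : Fin m → ℂ) ⟨0, hm⟩ = 1
    rw [Pi.single_eq_same]
  set I₀ : Finset p := Finset.univ.filter fun i => ∀ x, T x i i = 0 with hI₀
  let E : (Fin m → ℂ) →ₗ[ℂ] Matrix p p ℂ := (Matrix.diagonalLinearMap p ℂ ℂ).comp
    (LinearMap.pi fun i => if i ∈ I₀ then ℓ' else 0)
  have hE : ∀ x, E x = Matrix.diagonal fun i => if i ∈ I₀ then ℓ' x else 0 := by
    intro x
    change Matrix.diagonal _ = _
    congr 1
    funext i
    change (if i ∈ I₀ then ℓ' else 0) x = _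
    split_ifs <;> rfl
  let ℓ : p → (Fin m → ℂ) →ₗ[ℂ] ℂ := fun i =>
    (LinearMap.proj i).comp ((LinearMap.proj i).comp (T + E))
  have hℓv : ∀ i x, ℓ i x = (T + E) x i i := fun i x => rfl
  have hℓ : ∀ i, ∃ x, ℓ i x ≠ 0 := by
    intro i
    by_cases hi : i ∈ I₀
    · refine ⟨Pi.single ⟨0, hm⟩ 1, ?_⟩
      rw [hℓv, LinearMap.add_apply, Matrix.add_apply, (Finset.mem_filter.1 hi).2, hE,
        Matrix.diagonal_apply_eq, if_pos hi, zero_add, hℓ']
      exact one_ne_zero
    · have h1 : ∃ x, T x i i ≠ 0 := by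
        by_contra h2
        push Not at h2
        exact hi (Finset.mem_filter.2 ⟨Finset.mem_univ _, h2⟩)
      obtain ⟨x, hx⟩ := h1
      refine ⟨x, ?_⟩
      rw [hℓv, LinearMap.add_apply, Matrix.add_apply, hE, Matrix.diagonal_apply_eq, if_neg hi,
        add_zero]
      exact hx
  -- the quotients
  obtain ⟨x₀, hx₀⟩ := hne
  rw [hdetM, Finset.prod_ne_zero_iff] at hx₀
  have hkey : ∀ k, ∃ R : Gd ℓ → ℂ, k ∈ Finset.univ.image g → R ∈ Rt ℓ e ∧ R ≠ 0 ∧
      ∀ x : Gd ℓ, R x ≠ 0 → (Matrix.toSquareBlock (M (x : Fin m → ℂ)) g k).det ≠ 0 := by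
    intro k
    by_cases hk : k ∈ Finset.univ.image g
    swap
    · exact ⟨0, fun h => absurd h hk⟩
    obtain ⟨i₀, -, hi₀⟩ := Finset.mem_image.1 hk
    have : Nonempty {i // g i = k} := ⟨⟨i₀, hi₀⟩⟩
    have hrk : ∀ x, (blkL g k E x).rank ≤ b * c := by
      intro x
      have h1 : blkL g k E x = Matrix.diagonal fun i : {i // g i = k} =>
          if (i : p) ∈ I₀ then ℓ' x else 0 := by
        rw [hblk, hE]
        ext i j
        change (Matrix.diagonal (fun i : p => if i ∈ I₀ then ℓ' x else 0) : Matrix p p ℂ)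
          (i : p) (j : p) = _
        by_cases hij : i = j
        · subst hij
          rw [Matrix.diagonal_apply_eq, Matrix.diagonal_apply_eq]
        · rw [Matrix.diagonal_apply_ne _ hij, Matrix.diagonal_apply_ne]
          exact fun h => hij (Subtype.ext h)
      have h2 := zeros_le (b := b) (c := c) (blkL g k T) (blkL g k (M - T)) (fun i => h i)
        (fun i => hb i) (fun x i j hij hh => hT x i j (fun h => hij (Subtype.ext h)) hh)
        (fun x => hL k x) ⟨x₀, by
          have h3 : blkL g k T x₀ + blkL g k (M - T) x₀ = Matrix.toSquareBlock (M x₀) g k := by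
            ext i j
            change T x₀ i j + (M - T) x₀ i j = M x₀ i j
            rw [LinearMap.sub_apply, Matrix.sub_apply]
            ring
          rw [h3]
          exact hx₀ k hk⟩ (Finset.univ.filter fun i : {i // g i = k} => (i : p) ∈ I₀) (by
            intro i hi x
            exact (Finset.mem_filter.1 (Finset.mem_filter.1 hi).2).2 x)
      rw [h1, Matrix.rank_diagonal, Fintype.card_subtype]
      refine le_trans (Finset.card_le_card ?_) h2
      intro i
      simp only [Finset.mem_filter, Finset.mem_univ, true_and]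
      intro h3
      by_contra h4
      exact h3 (if_neg h4)
    obtain ⟨R, hR, hRd⟩ := exists_Rt (b := b) (c := c + b * c) (blkL g k (T + E))
      (blkL g k (M - T) - blkL g k E) (fun i => h i) (fun i => hb i) (by
        intro x i j hij hh
        have hij' : (i : p) ≠ (j : p) := fun h => hij (Subtype.ext h)
        change (T + E) x i j = 0
        rw [LinearMap.add_apply, Matrix.add_apply, hT x i j hij' hh, hE,
          Matrix.diagonal_apply_ne _ hij', add_zero]) (by
        intro x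
        rw [LinearMap.sub_apply, sub_eq_add_neg]
        refine (rank_add_le' _ _).trans (Nat.add_le_add (hL k x) ?_)
        rw [← map_neg]
        exact hrk _) (fun i : {i // g i = k} => ℓ i) (fun i x => rfl)
    have hsumM : ∀ x, blkL g k (T + E) x + (blkL g k (M - T) - blkL g k E) x =
        Matrix.toSquareBlock (M x) g k := by
      intro x
      ext i j
      change (T + E) x i j + ((M - T) x i j - E x i j) = M x i j
      rw [LinearMap.add_apply, LinearMap.sub_apply, Matrix.sub_apply, Matrix.add_apply]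
      ring
    have hR' := Rt_comap ℓ (fun i : {i // g i = k} => (i : p)) hR
    refine ⟨_, fun _ => ⟨Rt_mono i₀ ?_ hR', ?_, ?_⟩⟩
    · refine le_trans (le_of_eq ?_) he
      ring
    · intro h0
      obtain ⟨x, hxG, hx⟩ := dense_pt ℓ hℓ (blkL g k M) ⟨x₀, hx₀ k hk⟩
      apply hx
      have h1 := hRd ⟨x, fun i => hxG i⟩
      have h2 := congrFun h0 ⟨x, hxG⟩
      rw [hsumM] at h1
      rw [hblk, h1]
      have h3 : R ⟨x, fun i => hxG i⟩ = 0 := h2
      rw [h3, mul_zero]
    · intro x hx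
      have h1 := hRd ⟨(x : Fin m → ℂ), fun i => x.2 i⟩
      rw [hsumM] at h1
      rw [h1]
      exact mul_ne_zero (Finset.prod_ne_zero_iff.2 fun i _ => x.2 i) hx
  choose R hR using hkey
  have hcard : (Finset.univ.image g).card * m ≤ B := by
    refine le_trans (Nat.mul_le_mul_right _ ?_) hB
    refine Finset.card_image_le.trans ?_
    rw [Finset.card_univ]
    exact Nat.le_self_pow (by omega) _
  obtain ⟨σ, σ', hσ, hσ', hx⟩ := simul hℓ e (Finset.univ.image g) R
    (fun k hk => (hR k hk).1) (fun k hk => (hR k hk).2.1) hB hcard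
  let u : Fin (e + 1 + e) → ℕ := Fin.append σ σ'
  obtain ⟨s, hs⟩ := common_pt (Finset.univ.image g)
    (fun k (s : Fin (e + 1 + e) → ℂ) => (blkL g k M (∑ i, s i • momC m (u i))).det)
    (fun k _ => poly_det (blkL g k M) fun i => momC m (u i)) (by
      intro k hk
      obtain ⟨x, hxW, hxR⟩ := hx k hk
      rw [Submodule.mem_sup] at hxW
      obtain ⟨x₁, hx₁, x₂, hx₂, hxx⟩ := hxW
      rw [Submodule.mem_span_range_iff_exists_fun] at hx₁ hx₂
      obtain ⟨s₁, rfl⟩ := hx₁
      obtain ⟨s₂, rfl⟩ := hx₂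
      refine ⟨Fin.append s₁ s₂, ?_⟩
      have h1 : ∑ i, (Fin.append s₁ s₂ : Fin (e + 1 + e) → ℂ) i • momC m (u i) =
          (x : Fin m → ℂ) := by
        rw [Fin.sum_univ_add, ← hxx]
        simp only [u, Fin.append_left, Fin.append_right]
      rw [h1]
      exact (hR k hk).2.2 x hxR)
  refine ⟨u, s, fun i => ?_, ?_⟩
  · refine Fin.addCases (fun i => ?_) (fun i => ?_) i
    · simp only [u, Fin.append_left]
      exact hσ i
    · simp only [u, Fin.append_right]
      exact hσ' i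
  · rw [hdetM, Finset.prod_ne_zero_iff]
    exact fun k hk => hs k hk

end

end Pool.Agent.Helper69K1
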