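import Pool.Agent.Helper69K1.AlgMod
import Pool.Agent.Helper69K1.Lay8
import Pool.Agent.H532R2.RatPoly

/-!
# The test for perturbed layered spaces
-/

set_option linter.unusedSectionVars false

namespace Pool.Agent.Helper69K1

open Module Pool.Agent.NPC Pool.Agent.NPC.H532 Pool.Agent.H420_NCF Pool.Agent.H687R2.LLL
open Pool.Agent.H670R2

/-! ## Rational points -/

theorem rational_point {κ : Type} [Fintype κ] {n : Type} [Fintype n] [DecidableEq n]
    (M : κ → Matrix n n ℚ) (s : κ → ℂ) (h : (∑ k, s k • cx (M k)).det ≠ 0) :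
    ∃ s' : κ → ℚ, (∑ k, s' k • M k).det ≠ 0 := by
  classical
  by_contra hcon
  push Not at hcon
  let G : Matrix n n (MvPolynomial κ ℚ) :=
    ∑ k, (MvPolynomial.X k : MvPolynomial κ ℚ) • (M k).map MvPolynomial.C
  have h1 : G.det = 0 := by
    apply MvPolynomial.funext
    intro s'
    rw [map_zero, ← hcon s', ← MvPolynomial.coe_aeval_eq_eval, RingHom.map_det]
    congr 1
    ext i j
    simp only [G, RingHom.mapMatrix_apply, Matrix.map_apply, Matrix.sum_apply,
      Matrix.smul_apply, smul_eq_mul, map_sum, map_mul, RingHom.coe_coe, MvPolynomial.aeval_X,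
      MvPolynomial.aeval_C]
    rfl
  apply h
  have h2 : (∑ k, s k • cx (M k)) = (MvPolynomial.aeval s).toRingHom.mapMatrix G := by
    ext i j
    simp only [G, RingHom.mapMatrix_apply, Matrix.map_apply, Matrix.sum_apply,
      Matrix.smul_apply, smul_eq_mul, map_sum, map_mul, AlgHom.toRingHom_eq_coe,
      RingHom.coe_coe, MvPolynomial.aeval_X, MvPolynomial.aeval_C, cx_apply]
    rfl
  rw [h2, ← RingHom.map_det, h1, map_zero]

/-! ## Directions -/

theorem Ws_add {D : List (List ℤ)} {a : ℕ} {w : ℕ → ℚ} (hw : w ∈ Ws D a) {b : ℕ} {w' : ℕ → ℚ}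
    (hw' : w' ∈ Ws D b) : w + w' ∈ Ws D (a + b) := by
  induction b generalizing w' with
  | zero =>
      rw [Ws, Set.mem_singleton_iff] at hw'
      rw [hw']
      simpa using hw
  | succ b ih =>
      obtain ⟨v, hv, u, hu, t, rfl⟩ := hw'
      exact ⟨w + v, ih hv, u, hu, t, by rw [add_assoc]⟩

theorem Ws_sum {D : List (List ℤ)} {α : Type} (s : Finset α) (t : α → ℚ) (v : α → ℕ → ℚ)
    (h : ∀ a ∈ s, ∃ u ∈ D, qv u = v a) : ∑ a ∈ s, t a • v a ∈ Ws D s.card := by
  classical
  induction s using Finset.induction_on with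
  | empty => simp [Ws]
  | insert i s his ih =>
      obtain ⟨u, hu, hqu⟩ := h i (Finset.mem_insert_self _ _)
      rw [Finset.sum_insert his, Finset.card_insert_of_notMem his]
      exact ⟨_, ih fun j hj => h j (Finset.mem_insert_of_mem hj), u, hu, t i, by
        rw [hqu, add_comm]⟩

/-- A point of the moment curve. -/
def momL (m τ : ℕ) : List ℤ := (List.range m).map fun j => RP.pw m τ j

theorem poly_momL {α : Type} [TEnc α] {m τ : α → ℕ} (hm : UPoly m) (hτ : Poly τ) :
    Poly (fun a => momL (m a) (τ a)) := by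
  unfold momL
  refine NPC.Poly.map (F := fun a j => RP.pw (m a) (τ a : ℤ) j) hm.range ?_
  exact RP.Poly_pw (hm.comp (Poly.fst Poly.id)) (Poly_ofNat (hτ.comp (Poly.fst Poly.id)))
    (Poly.snd Poly.id)

theorem qv_momL {m τ j : ℕ} (hj : j < m) : qv (momL m τ) j = (τ : ℚ) ^ j := by
  rw [qv, momL, List.getD_eq_getElem _ _ (by simpa using hj)]
  simp only [List.getElem_map, List.getElem_range]
  rw [RP.pw_eq hj.le]
  push_cast
  rfl

/-- The directions. -/
def dirY (q : ℕ) (I : Inp) : List (List ℤ) :=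
  (List.range (I.1.length ^ q * I.2.length + 1)).map fun τ => momL I.2.length τ

theorem poly_dirY (q : ℕ) : Poly (dirY q) := by
  unfold dirY
  have hN : UPoly (fun I : Inp => I.1.length) := UPoly.length (Poly.fst Poly.id)
  have hM : UPoly (fun I : Inp => I.2.length) := UPoly.length (Poly.snd Poly.id)
  have hp : UPoly (fun I : Inp => I.1.length ^ q) := by
    have := UPoly.eval hN (Polynomial.X ^ q)
    simpa using this
  refine NPC.Poly.map (F := fun (I : Inp) τ => momL I.2.length τ)
    ((hp.mul hM).add (UPoly.const 1)).range ?_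
  exact poly_momL (hM.comp (Poly.fst Poly.id)) (Poly.snd Poly.id)

/-- The test. -/
noncomputable def testY (e : ℕ) (I : Inp) : Bool :=
  decide (I.1.length ≤ 0) ||
    (moves I.1.length (dirY (e + 1) I) ((e + 1) + e) (List.replicate I.2.length 0)).any
      fun c' => decide (I.1.length ≤ sr I c')

theorem poly_testY (e : ℕ) : Poly (testY e) := by
  unfold testY
  have hN : UPoly (fun I : Inp => I.1.length) := UPoly.length (Poly.fst Poly.id)
  have hrep : Poly (fun I : Inp => List.replicate I.2.length (0 : ℤ)) := by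
    refine (NPC.Poly.map (F := fun (_ : Inp) (_ : Mat) => (0 : ℤ)) (Poly.snd Poly.id)
      (NPC.Poly.const 0)).congr fun I => ?_
    rw [List.map_const']
  refine Poly.or (Poly.decide_le hN.toPoly (NPC.Poly.const 0)) ?_
  refine Poly.any (p := fun (I : Inp) c' => decide (I.1.length ≤ sr I c'))
    (poly_moves hN (poly_dirY (e + 1)) hrep ((e + 1) + e)) ?_
  exact Poly.decide_le (hN.toPoly.comp (Poly.fst Poly.id))
    (poly_sr (Poly.fst Poly.id) (Poly.snd Poly.id))

theorem testY_sound {e : ℕ} {I : Inp} (h : testY e I = true) :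
    ∃ c, (cq I.1.length I.2 c).det ≠ 0 := by
  rw [testY, Bool.or_eq_true] at h
  rcases h with h | h
  · have h0 : I.1.length ≤ 0 := of_decide_eq_true h
    refine ⟨0, ?_⟩
    have : IsEmpty (Fin I.1.length) := ⟨fun i => absurd i.2 (by omega)⟩
    rw [Matrix.det_isEmpty]
    exact one_ne_zero
  · rw [List.any_eq_true] at h
    obtain ⟨c', -, h2⟩ := h
    exact ⟨_, det_ne_zero_of_sr (of_decide_eq_true h2)⟩

/-- The complex values as a linear map. -/
noncomputable def valL {m : ℕ} {n : Type} [Fintype n] [DecidableEq n]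
    (Y : Fin m → Matrix n n ℚ) : (Fin m → ℂ) →ₗ[ℂ] Matrix n n ℂ where
  toFun := valC Y
  map_add' c d := by
    rw [valC, valC, valC, ← Finset.sum_add_distrib]
    exact Finset.sum_congr rfl fun j _ => by rw [Pi.add_apply, add_smul]
  map_smul' t c := by
    rw [valC, valC, Finset.smul_sum]
    exact Finset.sum_congr rfl fun j _ => by
      rw [Pi.smul_apply, smul_eq_mul, mul_smul, RingHom.id_apply]

theorem valC_cast {m : ℕ} {n : Type} [Fintype n] [DecidableEq n]
    (Y : Fin m → Matrix n n ℚ) (c : Fin m → ℚ) :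
    valC Y (fun j => (c j : ℂ)) = cx (valQ Y c) := by
  rw [valC, valQ, cx_sum]
  refine Finset.sum_congr rfl fun j _ => ?_
  ext i k
  rw [Matrix.smul_apply, cx_apply, cx_apply, Matrix.smul_apply, smul_eq_mul, smul_eq_mul]
  push_cast
  rfl

/-- Block triangular spaces with perturbed layered blocks, in terms of a spanning family. -/
def LayY {m : ℕ} {n : Type} [Fintype n] [DecidableEq n] (Y : Fin m → Matrix n n ℚ)
    (b c : ℕ) : Prop :=
  ∃ (P Q : Matrix n n ℂ) (M T : (Fin m → ℂ) →ₗ[ℂ] Matrix n n ℂ) (g h : n → ℕ),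
    P.det ≠ 0 ∧ Q.det ≠ 0 ∧ (∀ x, valC Y x = P * M x * Q) ∧
    (∀ x i j, g j < g i → M x i j = 0) ∧ (∀ i, h i < b) ∧
    (∀ x i j, i ≠ j → ¬ h i < h j → T x i j = 0) ∧
    ∀ k x, (Matrix.toSquareBlock (M x - T x) g k).rank ≤ c

theorem testY_complete {b c e : ℕ} (he : b * (b + 1) * c ≤ e) {I : Inp}
    (hlay : LayY (fam I.1.length I.2) b c)
    (h : ∃ c, (cq I.1.length I.2 c).det ≠ 0) : testY e I = true := by
  by_contra hcon
  set N := I.1.length with hN
  set m := I.2.length with hm
  have hN0 : 0 < N := by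
    by_contra h0
    apply hcon
    rw [testY, Bool.or_eq_true]
    left
    exact decide_eq_true (by omega)
  have hfail : ∀ c' ∈ moves N (dirY (e + 1) I) (e + 1 + e) (List.replicate m 0),
      ¬ (N ≤ sr I c') := by
    intro c' hc' hle
    apply hcon
    rw [testY, Bool.or_eq_true]
    right
    rw [List.any_eq_true]
    exact ⟨c', hc', decide_eq_true hle⟩
  -- the rational points reached have determinant zero
  have hzero : ∀ w ∈ Ws (dirY (e + 1) I) (e + 1 + e), (cq N I.2 w).det = 0 := by
    intro w hw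
    by_contra hdet
    have h1 := rational_moves (N := N) (Bs := I.2) (D := dirY (e + 1) I)
      (c := List.replicate m 0) (by rw [List.length_replicate]) (σ := N - 1) _ 0
      (fun c' hc' => by
        have h3 := hfail c' hc'
        rw [sr_eq] at h3
        rw [add_zero]
        have h4 : ¬ (N ≤ srk (cq N I.2 (qv c'))) := h3
        omega) w hw
    have h2 : qv (List.replicate m 0) = 0 := by
      funext k
      rw [qv]
      by_cases hk : k < m
      · rw [List.getD_eq_getElem _ _ (by rwa [List.length_replicate])]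
        simp
      · rw [List.getD_eq_default _ _ (by rw [List.length_replicate]; omega)]
        simp
    rw [h2, zero_add, add_zero] at h1
    have h3 := (srk_eq_card_iff (cq N I.2 w)).2 hdet
    rw [Fintype.card_fin] at h3
    omega
  obtain ⟨P, Q, M, T, g, ht, hP, hQ, hdec, hM, hb, hT, hL⟩ := hlay
  obtain ⟨d, hd⟩ := h
  have hdetM : ∀ x, (valC (fam N I.2) x).det ≠ 0 ↔ (M x).det ≠ 0 := by
    intro x
    rw [hdec, Matrix.det_mul, Matrix.det_mul]
    constructor
    · intro h1 h2
      exact h1 (by rw [h2]; ring)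
    · intro h1
      exact mul_ne_zero (mul_ne_zero hP h1) hQ
  have hd' : (valC (fam N I.2) fun j => (d j : ℂ)).det ≠ 0 := by
    rw [valC_cast, ← cq_valQ]
    intro h0
    apply hd
    have h1 : (cx (cq N I.2 d)).det = (((cq N I.2 d).det : ℚ) : ℂ) :=
      (RingHom.map_det (algebraMap ℚ ℂ) _).symm
    rw [h1] at h0
    exact_mod_cast h0
  have hm0 : 0 < m := by
    by_contra h0
    apply hd
    have h1 : cq N I.2 d = 0 := by
      have h2 : I.2.length = 0 := by omega
      rw [cq, h2, Finset.range_zero, Finset.sum_empty]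
    have : Nonempty (Fin N) := ⟨⟨0, hN0⟩⟩
    rw [h1]
    exact Matrix.det_zero
  obtain ⟨σ, s, hσ, hdet⟩ := block_main (e := e) he M T g ht hb hM hT hL
    ⟨fun j => (d j : ℂ), (hdetM _).1 hd'⟩ hm0 (B := N ^ (e + 1) * m)
    (by rw [Fintype.card_fin])
  rw [← hdetM] at hdet
  -- coordinates
  let U : Fin (e + 1 + e) → Matrix (Fin N) (Fin N) ℚ := fun i => cq N I.2 (qv (momL m (σ i)))
  have hU : valC (fam N I.2) (∑ i, s i • momC m (σ i)) = ∑ k, s k • cx (U k) := by
    change valL (fam N I.2) _ = _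
    rw [map_sum]
    refine Finset.sum_congr rfl fun i _ => ?_
    rw [map_smul]
    congr 1
    simp only [U]
    rw [cq_valQ, ← valC_cast]
    change valC (fam N I.2) _ = valC (fam N I.2) _
    congr 1
    funext j
    rw [momC, qv_momL j.2]
    push_cast
    rfl
  rw [hU] at hdet
  obtain ⟨s', hs'⟩ := rational_point U _ hdet
  apply hs'
  have h1 : ∑ i, s' i • U i = cq N I.2 (∑ i, s' i • qv (momL m (σ i))) := by
    change _ = cqL N I.2 _
    rw [map_sum]
    exact Finset.sum_congr rfl fun i _ => by rw [map_smul]; rfl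
  rw [h1]
  apply hzero
  have h2 := Ws_sum (D := dirY (e + 1) I) (Finset.univ : Finset (Fin (e + 1 + e)))
    s' (fun i => qv (momL m (σ i))) (fun i _ => ⟨_, by
      rw [dirY]
      exact List.mem_map.2 ⟨σ i, List.mem_range.2 (hσ i), rfl⟩, rfl⟩)
  rwa [Finset.card_univ, Fintype.card_fin] at h2

/-! ## Complex substitutions -/

/-- `A` is, up to equivalence, block upper triangular, and its diagonal blocks are sums of
triangular matrices with `b` layers and of matrices of rank at most `c`. -/
def IsLayered (b c : ℕ) (A : SMat) : Prop :=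
  ∃ (P Q : Matrix (Fin A.length) (Fin A.length) ℂ)
    (M T : (ℕ → ℂ) →ₗ[ℂ] Matrix (Fin A.length) (Fin A.length) ℂ) (g h : Fin A.length → ℕ),
    P.det ≠ 0 ∧ Q.det ≠ 0 ∧ (∀ x, substC A x = P * M x * Q) ∧
    (∀ x i j, g j < g i → M x i j = 0) ∧ (∀ i, h i < b) ∧
    (∀ x i j, i ≠ j → ¬ h i < h j → T x i j = 0) ∧
    ∀ k x, (Matrix.toSquareBlock (M x - T x) g k).rank ≤ c

theorem layY_of_isLayered {b c : ℕ} {A : SMat} (hA : IsLayered b c A) :
    LayY (fam A.length (coeffs A)) b c := by
  obtain ⟨P, Q, M, T, g, h, hP, hQ, hdec, hM, hb, hT, hL⟩ := hA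
  have hv : ∀ j : Fin (coeffs A).length, ∃ v : ℕ, coefM A v = (coeffs A)[j] := by
    intro j
    have h2 : (coeffs A)[j] ∈ coeffs A := List.getElem_mem _
    obtain ⟨v, -, h3⟩ := List.mem_map.1 h2
    exact ⟨v, h3⟩
  choose v hv using hv
  let S : (Fin (coeffs A).length → ℂ) →ₗ[ℂ] (ℕ → ℂ) :=
    ∑ j, (LinearMap.proj j : (Fin (coeffs A).length → ℂ) →ₗ[ℂ] ℂ).smulRight
      (Pi.single (v j) (1 : ℂ) : ℕ → ℂ)
  have hS : ∀ x, substC A (S x) = valC (fam A.length (coeffs A)) x := by
    intro x
    change substCL A (S x) = _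
    have h1 : S x = ∑ j, x j • (Pi.single (v j) (1 : ℂ) : ℕ → ℂ) := by
      rw [LinearMap.sum_apply]
      rfl
    rw [h1, map_sum, valC]
    refine Finset.sum_congr rfl fun j _ => ?_
    rw [map_smul]
    congr 1
    change substC A _ = _
    rw [substC_single, hv j]
    rfl
  refine ⟨P, Q, M.comp S, T.comp S, g, h, hP, hQ, fun x => ?_,
    fun x i j hij => hM (S x) i j hij, hb, fun x i j hij hh => hT (S x) i j hij hh,
    fun k x => hL k (S x)⟩
  rw [← hS, hdec]
  rfl

/-- The test on symbolic matrices. -/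
noncomputable def symY (e : ℕ) (A : SMat) : Bool :=
  (A.all fun r => decide (r.length = A.length)) && testY e (inp A)

theorem poly_symY (e : ℕ) : Poly (symY e) :=
  Poly.and (poly_isSquare Poly.id) ((poly_testY e).comp (poly_inp Poly.id))

theorem symY_sound {e : ℕ} {A : SMat} (h : symY e A = true) :
    IsSquare A ∧ (symMat A).det ≠ 0 := by
  rw [symY, Bool.and_eq_true] at h
  exact ⟨(isSquare_iff A).1 h.1, cast_det (testY_sound h.2)⟩

theorem symY_complete {b c e : ℕ} (he : b * (b + 1) * c ≤ e) {A : SMat} (hs : IsSquare A)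
    (hB : IsLayered b c A) (h : (symMat A).det ≠ 0) : symY e A = true := by
  rw [symY, Bool.and_eq_true]
  refine ⟨(isSquare_iff A).2 hs, testY_complete he ?_ (det_cast h)⟩
  rw [length_inp]
  exact layY_of_isLayered hB

end Pool.Agent.Helper69K1
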