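import Pool.Agent.Helper69K1.AlgAnti

/-!
# The test for hidden Lie algebras, on symbolic matrices
-/

set_option linter.unusedSectionVars false

namespace Pool.Agent.Helper69K1

open Module Pool.Agent.NPC Pool.Agent.NPC.H532 Pool.Agent.H420_NCF Pool.Agent.H687R2.LLL

section

variable {n : Type} [Fintype n] [DecidableEq n] {B : Submodule ℚ (Matrix n n ℚ)}

theorem mem_cjm {Y : Matrix n n ℚ} : Y ∈ cj (-1) B ↔
    ∀ X ∈ B, ∀ X' ∈ B, X * Y * X' - X' * Y * X ∈ B := by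
  rw [mem_cj]
  refine forall₂_congr fun X _ => forall₂_congr fun X' _ => ?_
  rw [neg_one_smul, sub_eq_add_neg]

/-- The second half of the anti-Jordan pair. -/
theorem cjm_dual {Y Y' Z : Matrix n n ℚ} (hY : Y ∈ cj (-1) B) (hY' : Y' ∈ cj (-1) B)
    (hZ : Z ∈ B) : Y * Z * Y' - Y' * Z * Y ∈ cj (-1) B := by
  rw [mem_cjm] at hY hY' ⊢
  set D : Matrix n n ℚ → Matrix n n ℚ → Matrix n n ℚ → Matrix n n ℚ := fun a b c =>
    b * (Y * a * Y' - Y' * a * Y) * c - c * (Y * a * Y' - Y' * a * Y) * b with hD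
  have hA : ∀ a b c, D a b c = -D a c b := by
    intro a b c
    simp only [hD]
    noncomm_ring
  have hS : ∀ {a b c}, a ∈ B → b ∈ B → c ∈ B → D a b c - D b a c ∈ B := by
    intro a b c ha hb hc
    have h1 := hY' _ (hY b hb a ha) c hc
    have h2 := hY _ (hY' b hb a ha) c hc
    have e : D a b c - D b a c =
        ((b * Y * a - a * Y * b) * Y' * c - c * Y' * (b * Y * a - a * Y * b)) -
        ((b * Y' * a - a * Y' * b) * Y * c - c * Y * (b * Y' * a - a * Y' * b)) := by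
      simp only [hD]
      noncomm_ring
    rw [e]
    exact B.sub_mem h1 h2
  intro X hX X' hX'
  refine mem_of_two ?_
  -- the chain of exchanges
  have e : (2 : ℚ) • D Z X X' = (D Z X X' - D X Z X') - (D X X' Z - D X' X Z) +
      (D X' Z X - D Z X' X) := by
    rw [hA X Z X', hA X' X Z, hA Z X' X, two_smul]
    abel
  change (2 : ℚ) • D Z X X' ∈ B
  rw [e]
  exact B.add_mem (B.sub_mem (hS hZ hX hX') (hS hX hX' hZ)) (hS hX' hZ hX)

end

/-- The upper right block. -/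
noncomputable def upL (N : ℕ) : Matrix (Fin N) (Fin N) ℚ →ₗ[ℚ]
    Matrix (Fin (N + N)) (Fin (N + N)) ℚ where
  toFun X := ee N (Matrix.fromBlocks 0 X 0 0)
  map_add' X Y := by
    rw [← map_add, Matrix.fromBlocks_add]; simp
  map_smul' c X := by
    rw [← map_smul, Matrix.fromBlocks_smul]; simp

/-- The lower left block. -/
noncomputable def loL (N : ℕ) : Matrix (Fin N) (Fin N) ℚ →ₗ[ℚ]
    Matrix (Fin (N + N)) (Fin (N + N)) ℚ where
  toFun X := ee N (Matrix.fromBlocks 0 0 X 0)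
  map_add' X Y := by
    rw [← map_add, Matrix.fromBlocks_add]; simp
  map_smul' c X := by
    rw [← map_smul, Matrix.fromBlocks_smul]; simp

theorem upL_apply (N : ℕ) (X : Matrix (Fin N) (Fin N) ℚ) :
    upL N X = ee N (Matrix.fromBlocks 0 X 0 0) := rfl

theorem loL_apply (N : ℕ) (X : Matrix (Fin N) (Fin N) ℚ) :
    loL N X = ee N (Matrix.fromBlocks 0 0 X 0) := rfl

theorem spB_up (N : ℕ) (Bs : List Mat) :
    spB (N + N) (Bs.map fun B => upM N B) = (spB N Bs).map (upL N) := by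
  rw [spB, spB, Submodule.map_span]
  congr 1
  ext M
  constructor
  · rintro ⟨_, hB', rfl⟩
    obtain ⟨B, hB, rfl⟩ := List.mem_map.1 hB'
    exact ⟨mq N B, ⟨B, hB, rfl⟩, (mq_upM N B).symm⟩
  · rintro ⟨_, ⟨B, hB, rfl⟩, rfl⟩
    exact ⟨_, List.mem_map.2 ⟨B, hB, rfl⟩, (mq_upM N B).symm⟩

theorem spB_lo (N : ℕ) (Bs : List Mat) :
    spB (N + N) (Bs.map fun B => loM N B) = (spB N Bs).map (loL N) := by
  rw [spB, spB, Submodule.map_span]
  congr 1
  ext M
  constructor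
  · rintro ⟨_, hB', rfl⟩
    obtain ⟨B, hB, rfl⟩ := List.mem_map.1 hB'
    exact ⟨mq N B, ⟨B, hB, rfl⟩, (mq_loM N B).symm⟩
  · rintro ⟨_, ⟨B, hB, rfl⟩, rfl⟩
    exact ⟨_, List.mem_map.2 ⟨B, hB, rfl⟩, (mq_loM N B).symm⟩

theorem up_up (N : ℕ) (X Y : Matrix (Fin N) (Fin N) ℚ) : upL N X * upL N Y = 0 := by
  rw [upL_apply, upL_apply, ← map_mul, Matrix.fromBlocks_multiply]
  simp

theorem lo_lo (N : ℕ) (X Y : Matrix (Fin N) (Fin N) ℚ) : loL N X * loL N Y = 0 := by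
  rw [loL_apply, loL_apply, ← map_mul, Matrix.fromBlocks_multiply]
  simp

theorem up_lo_up (N : ℕ) (X Y Z : Matrix (Fin N) (Fin N) ℚ) :
    upL N X * loL N Y * upL N Z = upL N (X * Y * Z) := by
  rw [upL_apply, upL_apply, upL_apply, loL_apply, ← map_mul, ← map_mul,
    Matrix.fromBlocks_multiply, Matrix.fromBlocks_multiply]
  simp

theorem lo_up_lo (N : ℕ) (X Y Z : Matrix (Fin N) (Fin N) ℚ) :
    loL N X * upL N Y * loL N Z = loL N (X * Y * Z) := by
  rw [upL_apply, loL_apply, loL_apply, loL_apply, ← map_mul, ← map_mul,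
    Matrix.fromBlocks_multiply, Matrix.fromBlocks_multiply]
  simp

theorem up_add_lo (N : ℕ) (X Y : Matrix (Fin N) (Fin N) ℚ) :
    upL N X + loL N Y = ee N (Matrix.fromBlocks 0 X Y 0) := by
  rw [upL_apply, loL_apply, ← map_add, Matrix.fromBlocks_add]
  simp

/-- The input of the test. -/
noncomputable def lieI (I : Inp) : (List Mat × List Mat) × List Unit :=
  ((I.2.map fun B => upM I.1.length B,
    (cjF (-1) I.1.length I.2).map fun B => loM I.1.length B), I.1 ++ I.1)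

theorem poly_lieI : Poly lieI := by
  unfold lieI
  have h1 : Poly (fun I : Inp => I.1) := Poly.fst Poly.id
  have h2 : UPoly (fun I : Inp => I.1.length) := UPoly.length h1
  have h3 : Poly (fun I : Inp => I.2) := Poly.snd Poly.id
  refine Poly.pair (Poly.pair
    (NPC.Poly.map (F := fun (I : Inp) B => upM I.1.length B) h3 ?_)
    (NPC.Poly.map (F := fun (I : Inp) B => loM I.1.length B) (poly_cjF (-1) h2 h3) ?_))
    (Poly.append h1 h1)
  · exact poly_upM (h2.comp (Poly.fst Poly.id)) (Poly.snd Poly.id)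
  · exact poly_loM (h2.comp (Poly.fst Poly.id)) (Poly.snd Poly.id)

theorem testLie_iff (I : Inp) : testA (lieI I) = true ↔
    (∃ X ∈ spB I.1.length I.2, X.det ≠ 0) ∧
      ∃ Y ∈ cj (-1) (spB I.1.length I.2), Y.det ≠ 0 := by
  obtain ⟨un, Bs⟩ := I
  set N := un.length with hN
  set U := Bs.map fun B => upM N B with hU
  set L := (cjF (-1) N Bs).map fun B => loM N B with hL
  have hlen : (un ++ un).length = N + N := by simp [hN]
  have hcj : spB N (cjF (-1) N Bs) = cj (-1) (spB N Bs) := by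
    rw [spB_cjF]; norm_num
  have h1 : ∀ m : ℕ, m = N + N → ((∃ c, (cq m (U ++ L) c).det ≠ 0) ↔
      (∃ X ∈ spB N Bs, X.det ≠ 0) ∧ ∃ Y ∈ cj (-1) (spB N Bs), Y.det ≠ 0) := by
    rintro m rfl
    have key : ∀ M : Matrix (Fin (N + N)) (Fin (N + N)) ℚ, (∃ c, M = cq (N + N) (U ++ L) c) ↔
        ∃ X ∈ spB N Bs, ∃ Y ∈ cj (-1) (spB N Bs), M = ee N (Matrix.fromBlocks 0 X Y 0) := by
      intro M
      rw [← mem_spB]
      change M ∈ spB (N + N) (dblL N Bs (cjF (-1) N Bs)) ↔ _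
      rw [spB_dblL, hcj]
      constructor
      · rintro ⟨_, ⟨X, hX, Y, hY, rfl⟩, rfl⟩
        exact ⟨X, hX, Y, hY, rfl⟩
      · rintro ⟨X, hX, Y, hY, rfl⟩
        exact ⟨_, ⟨X, hX, Y, hY, rfl⟩, rfl⟩
    constructor
    · rintro ⟨c, hc⟩
      obtain ⟨X, hX, Y, hY, h⟩ := (key _).1 ⟨c, rfl⟩
      rw [h, det_ee, det_anti_ne] at hc
      exact ⟨⟨X, hX, hc.1⟩, Y, hY, hc.2⟩
    · rintro ⟨⟨X, hX, h1⟩, Y, hY, h2⟩
      obtain ⟨c, hc⟩ := (key _).2 ⟨X, hX, Y, hY, rfl⟩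
      refine ⟨c, ?_⟩
      rw [← hc, det_ee, det_anti_ne]
      exact ⟨h1, h2⟩
  rw [← h1 _ hlen]
  constructor
  · exact fun h => testA_sound h
  · intro h
    have hm : ∀ m : ℕ, m = N + N → (∀ p ∈ spB m U, ∀ p' ∈ spB m U, p * p' = 0) ∧
        (∀ p ∈ spB m U, ∀ q ∈ spB m L, ∀ p' ∈ spB m U, p * q * p' - p' * q * p ∈ spB m U) ∧
        (∀ q ∈ spB m L, ∀ q' ∈ spB m L, q * q' = 0) ∧
        (∀ q ∈ spB m L, ∀ p ∈ spB m U, ∀ q' ∈ spB m L, q * p * q' - q' * p * q ∈ spB m L) := by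
      rintro m rfl
      rw [hU, hL, spB_up, spB_lo, hcj]
      refine ⟨?_, ?_, ?_, ?_⟩
      · rintro _ ⟨X, hX, rfl⟩ _ ⟨X', hX', rfl⟩
        exact up_up N X X'
      · rintro _ ⟨X, hX, rfl⟩ _ ⟨Y, hY, rfl⟩ _ ⟨X', hX', rfl⟩
        rw [up_lo_up, up_lo_up, ← map_sub]
        exact ⟨_, mem_cjm.1 hY X hX X' hX', rfl⟩
      · rintro _ ⟨X, hX, rfl⟩ _ ⟨X', hX', rfl⟩
        exact lo_lo N X X'
      · rintro _ ⟨X, hX, rfl⟩ _ ⟨Y, hY, rfl⟩ _ ⟨X', hX', rfl⟩
        rw [lo_up_lo, lo_up_lo, ← map_sub]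
        exact ⟨_, cjm_dual hX hX' hY, rfl⟩
    obtain ⟨g1, g2, g3, g4⟩ := hm _ hlen
    exact testA_complete g1 g2 g3 g4 h

/-- The test on symbolic matrices. -/
noncomputable def symLie (A : SMat) : Bool :=
  (A.all fun r => decide (r.length = A.length)) && testA (lieI (inp A))

theorem poly_symLie : Poly symLie :=
  Poly.and (poly_isSquare Poly.id) (poly_testA.comp (poly_lieI.comp (poly_inp Poly.id)))

theorem symLie_iff (A : SMat) : symLie A = true ↔
    IsSquare A ∧ (symMat A).det ≠ 0 ∧ ∃ Y ∈ cj (-1) (spB A.length (coeffs A)), Y.det ≠ 0 := by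
  rw [symLie, Bool.and_eq_true, isSquare_iff, testLie_iff, ← ex_det_iff]
  have key : ∀ m : ℕ, m = A.length → (((∃ X ∈ spB m (inp A).2, X.det ≠ 0) ∧
      ∃ Y ∈ cj (-1) (spB m (inp A).2), Y.det ≠ 0) ↔
      ((∃ X ∈ spB A.length (coeffs A), X.det ≠ 0) ∧
      ∃ Y ∈ cj (-1) (spB A.length (coeffs A)), Y.det ≠ 0)) := by
    rintro m rfl
    exact Iff.rfl
  rw [key _ (length_inp A)]

end Pool.Agent.Helper69K1
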