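import Pool.Agent.Helper69K1.SditInp

/-!
# The test for matrix spaces closed under double commutators
-/

set_option linter.unusedSectionVars false

namespace Pool.Agent.Helper69K1

open Module Pool.Agent.NPC Pool.Agent.NPC.H532 Pool.Agent.H420_NCF Pool.Agent.H687R2.LLL

/-- The directions of the search. -/
noncomputable def dirL (p : Inp × List ℤ) : List (List ℤ) :=
  kdir p.1.1.length (p.1.1.length * p.1.1.length) (cmb p.1.1.length p.1.2 p.2) p.1.2

theorem poly_dirL : Poly dirL := by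
  unfold dirL
  have h1 : Poly (fun p : Inp × List ℤ => p.1) := Poly.fst Poly.id
  have h2 : UPoly (fun p : Inp × List ℤ => p.1.1.length) := UPoly.length (Poly.fst h1)
  exact poly_kdir h2 (h2.mul h2) (poly_cmb h2 (Poly.snd h1) (Poly.snd Poly.id)) (Poly.snd h1)

/-- The test. -/
noncomputable def testL (I : Inp) : Bool := decide (I.1.length ≤ sr I (loc dirL 2 I))

theorem poly_testL : Poly testL := by
  unfold testL
  exact Poly.decide_le (UPoly.length (Poly.fst Poly.id)).toPoly
    (poly_sr Poly.id (poly_loc poly_dirL 2))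

theorem det_ne_zero_of_sr {I : Inp} {c : List ℤ} (h : I.1.length ≤ sr I c) :
    (cq I.1.length I.2 (qv c)).det ≠ 0 := by
  rw [sr_eq] at h
  have h1 := srk_le_card (cq I.1.length I.2 (qv c))
  rw [Fintype.card_fin] at h1
  rw [← srk_eq_card_iff, Fintype.card_fin]
  omega

theorem testL_sound {I : Inp} (h : testL I = true) : ∃ c, (cq I.1.length I.2 c).det ≠ 0 :=
  ⟨_, det_ne_zero_of_sr (of_decide_eq_true h)⟩

theorem testL_complete {I : Inp} (hB : IsTriple (spB I.1.length I.2))
    (h : ∃ c, (cq I.1.length I.2 c).det ≠ 0) : testL I = true := by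
  obtain ⟨d, hd⟩ := h
  obtain ⟨hlen, hst⟩ := loc_spec dirL 2 I
  by_contra hcon
  apply hd
  set N := I.1.length with hN
  set c := loc dirL 2 I with hc
  set D := dirL (I, c) with hD
  obtain ⟨hk1, hk2⟩ := kdir_spec N (N * N) (cmb N I.2 c) I.2
  have hxq : mq N (cmb N I.2 c) = cq N I.2 (qv c) := mq_cmb _ _ _
  rw [hxq] at hk1 hk2
  refine triple_main (m := D.length) (E := N * N) hB (cq_mem_spB N I.2 (qv c))
    (fun i => cq N I.2 (qv D[i])) ?_ ?_ ?_ ?_ ?_ (cq_mem_spB N I.2 d)
  · rw [Module.finrank_matrix]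
    simp
  · intro i
    exact ⟨cq_mem_spB _ _ _, (hk1 _ (List.getElem_mem _)).2⟩
  · rintro M ⟨hM1, hM2⟩
    obtain ⟨e, rfl⟩ := mem_spB.1 hM1
    refine Submodule.span_mono ?_ (hk2 e hM2)
    rintro _ ⟨u, hu, rfl⟩
    obtain ⟨i, hi, rfl⟩ := List.getElem_of_mem hu
    exact ⟨⟨i, hi⟩, rfl⟩
  · intro i j s t
    have h1 := hst (s • qv D[i] + t • qv D[j]) ⟨s • qv D[i],
      ⟨0, rfl, D[i], List.getElem_mem _, s, by rw [zero_add]⟩, D[j], List.getElem_mem _, t, rfl⟩
    rwa [cq_add, cq_add, cq_smul, cq_smul, ← add_assoc] at h1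
  · by_contra hdet
    apply hcon
    rw [testL, decide_eq_true_iff, sr_eq]
    have h1 := (srk_eq_card_iff (cq N I.2 (qv c))).2 hdet
    rw [Fintype.card_fin] at h1
    exact h1.ge

/-- The test on symbolic matrices. -/
noncomputable def symL (A : SMat) : Bool :=
  (A.all fun r => decide (r.length = A.length)) && testL (inp A)

theorem poly_symL : Poly symL :=
  Poly.and (poly_isSquare Poly.id) (poly_testL.comp (poly_inp Poly.id))

theorem cast_det {A : SMat} (h : ∃ c, (cq (inp A).1.length (inp A).2 c).det ≠ 0) :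
    (symMat A).det ≠ 0 := by
  rw [det_ne_zero_iff]
  obtain ⟨c, hc⟩ := h
  rw [length_inp] at hc
  obtain ⟨d, hd⟩ := mem_range_subst.2 (cq_mem_spB A.length (coeffs A) c)
  exact ⟨d, by rw [← hd]; exact hc⟩

theorem det_cast {A : SMat} (h : (symMat A).det ≠ 0) :
    ∃ c, (cq (inp A).1.length (inp A).2 c).det ≠ 0 := by
  obtain ⟨c, hc⟩ := (det_ne_zero_iff A).1 h
  obtain ⟨d, hd⟩ := mem_spB.1 (mem_range_subst.1 ⟨c, rfl⟩)
  rw [length_inp]
  exact ⟨d, by rw [hd] at hc; exact hc⟩

theorem symL_sound {A : SMat} (h : symL A = true) : IsSquare A ∧ (symMat A).det ≠ 0 := by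
  rw [symL, Bool.and_eq_true] at h
  exact ⟨(isSquare_iff A).1 h.1, cast_det (testL_sound h.2)⟩

theorem symL_complete {A : SMat} (hs : IsSquare A)
    (hB : IsTriple (spB A.length (coeffs A))) (h : (symMat A).det ≠ 0) : symL A = true := by
  rw [symL, Bool.and_eq_true]
  refine ⟨(isSquare_iff A).2 hs, testL_complete ?_ (det_cast h)⟩
  rw [length_inp]
  exact hB

end Pool.Agent.Helper69K1
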