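import Pool.Agent.Helper69K1.Mod10

/-!
# The test for spaces with few parameters
-/

set_option linter.unusedSectionVars false

namespace Pool.Agent.Helper69K1

open Module Pool.Agent.NPC Pool.Agent.NPC.H532 Pool.Agent.H420_NCF Pool.Agent.H687R2.LLL
open Pool.Agent.H670R2

/-- The doubled input. -/
noncomputable def dblI (I : Inp) : Inp :=
  (List.replicate ((symF I.1.length I.2).length + I.1.length * I.1.length) (),
    I.2.map fun B => dblM I.1.length (symF I.1.length I.2) B)

theorem poly_dblI : Poly dblI := by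
  have hN : UPoly (fun I : Inp => I.1.length) := UPoly.length (Poly.fst Poly.id)
  have hB : Poly (fun I : Inp => I.2) := Poly.snd Poly.id
  have hG : Poly (fun I : Inp => symF I.1.length I.2) := poly_symF hN hB
  have h1 : UPoly (fun I : Inp => (symF I.1.length I.2).length + I.1.length * I.1.length) :=
    (UPoly.length hG).add (hN.mul hN)
  refine Poly.pair h1 ?_
  refine NPC.Poly.map (F := fun (I : Inp) B => dblM I.1.length (symF I.1.length I.2) B) hB ?_
  exact poly_dblM (hN.comp (Poly.fst Poly.id)) (hG.comp (Poly.fst Poly.id)) (Poly.snd Poly.id)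

/-- The test. -/
noncomputable def testM (K : ℕ) (I : Inp) : Bool :=
  (loc dirU K (dblI I) :: moves I.1.length (idL I.2.length) K (loc dirU K (dblI I))).any
    fun c' => decide (I.1.length ≤ sr I c')

theorem poly_testM (K : ℕ) : Poly (testM K) := by
  unfold testM
  have hN : UPoly (fun I : Inp => I.1.length) := UPoly.length (Poly.fst Poly.id)
  have hc : Poly (fun I : Inp => loc dirU K (dblI I)) := (poly_loc poly_dirU K).comp poly_dblI
  have hD : Poly (fun I : Inp => idL I.2.length) :=
    Pool.Agent.NPC.H670R2.poly_idL (UPoly.length (Poly.snd Poly.id))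
  refine Poly.any (p := fun (I : Inp) c' => decide (I.1.length ≤ sr I c'))
    (Poly.cons hc (poly_moves hN hD hc K)) ?_
  exact Poly.decide_le (hN.toPoly.comp (Poly.fst Poly.id))
    (poly_sr (Poly.fst Poly.id) (Poly.snd Poly.id))

theorem testM_sound {K : ℕ} {I : Inp} (h : testM K I = true) :
    ∃ c, (cq I.1.length I.2 c).det ≠ 0 := by
  rw [testM, List.any_eq_true] at h
  obtain ⟨c', -, h2⟩ := h
  exact ⟨_, det_ne_zero_of_sr (of_decide_eq_true h2)⟩

theorem cq_valQ (N : ℕ) (Bs : List Mat) (c : ℕ → ℚ) :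
    cq N Bs c = valQ (fam N Bs) fun j => c j := by
  rw [cq, valQ, ← Fin.sum_univ_eq_sum_range (fun k => c k • mq N (Bs.getD k [])) Bs.length]
  refine Finset.sum_congr rfl fun j _ => ?_
  rw [List.getD_eq_getElem _ _ j.2]
  rfl

theorem fin_sum_mem_Ws {m : ℕ} : ∀ (e : ℕ) (j : Fin e → Fin m) (t : Fin e → ℚ),
    ∑ l, t l • (Pi.single (j l : ℕ) (1 : ℚ) : ℕ → ℚ) ∈ Ws (idL m) e := by
  intro e
  induction e with
  | zero => intro j t; simp [Ws]
  | succ e ih =>
      intro j t
      rw [Fin.sum_univ_castSucc]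
      obtain ⟨u, hu, hqu⟩ := unit_mem (j (Fin.last e)).2
      exact ⟨_, ih (fun l => j l.castSucc) (fun l => t l.castSucc), u, hu, t (Fin.last e), by
        rw [hqu]⟩

theorem cq_fin_sum (N : ℕ) (Bs : List Mat) {e : ℕ} (j : Fin e → Fin Bs.length) (t : Fin e → ℚ)
    (x : ℕ → ℚ) :
    cq N Bs (x + ∑ l, t l • (Pi.single (j l : ℕ) (1 : ℚ) : ℕ → ℚ)) =
      valQ (fam N Bs) (fun i => x i) + ∑ l, t l • fam N Bs (j l) := by
  rw [cq_add, cq_valQ]
  congr 1
  change cqL N Bs _ = _
  rw [map_sum]
  refine Finset.sum_congr rfl fun l _ => ?_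
  rw [map_smul]
  congr 1
  change cq N Bs _ = _
  rw [cq_single (j l).2, List.getD_eq_getElem _ _ (j l).2]
  rfl

theorem testM_complete {μ K : ℕ} (hμ : μ < K) {I : Inp} (hmod : ModY (fam I.1.length I.2) μ)
    (h : ∃ c, (cq I.1.length I.2 c).det ≠ 0) : testM K I = true := by
  obtain ⟨d, hd⟩ := h
  obtain ⟨hlen, hst⟩ := loc_spec dirU K (dblI I)
  by_contra hcon
  set N := I.1.length with hN
  set c := loc dirU K (dblI I) with hc
  have hl2 : (dblI I).2.length = I.2.length := by simp [dblI]
  have hl1 : (dblI I).1.length = (symF N I.2).length + N * N := by simp [dblI, hN]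
  have hdir : dirU (dblI I, c) = idL I.2.length := by
    change idL (dblI I).2.length = _
    rw [hl2]
  have hfail : ∀ c' ∈ c :: moves N (idL I.2.length) K c, ¬ (N ≤ sr I c') := by
    intro c' hc' hle
    apply hcon
    rw [testM, List.any_eq_true]
    exact ⟨c', hc', decide_eq_true hle⟩
  have hN0 : 0 < N := by
    by_contra h0
    exact hfail c List.mem_cons_self (by omega)
  have hM : cq N I.2 d ∈ spn (fam N I.2) := by
    rw [spn_fam]
    exact cq_mem_spB _ _ _
  have hsrk : ∀ w : ℕ → ℚ, srk (cq (dblI I).1.length (dblI I).2 w) =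
      2 * finrank ℚ (orb (fam N I.2) (cq N I.2 w)) := by
    intro w
    rw [← srk_orb]
    have e1 : (dblI I).2 = I.2.map (dblM N (symF N I.2)) := rfl
    have e2 : ∀ (a b : ℕ) (_ : a = b) (L : List Mat), srk (cq a L w) = srk (cq b L w) := by
      rintro a _ rfl L
      rfl
    rw [e1]
    exact e2 _ _ hl1 _
  have hstuck : ∀ (j : Fin K → Fin I.2.length) (t : Fin K → ℚ),
      finrank ℚ (orb (fam N I.2) (valQ (fam N I.2) (fun i => qv c i) +
        ∑ l, t l • fam N I.2 (j l))) ≤
      finrank ℚ (orb (fam N I.2) (valQ (fam N I.2) fun i => qv c i)) := by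
    intro j t
    have h1 := hst (∑ l, t l • (Pi.single (j l : ℕ) (1 : ℚ) : ℕ → ℚ))
      (by rw [hdir]; exact fin_sum_mem_Ws K j t)
    rw [hsrk, hsrk, cq_fin_sum, cq_valQ] at h1
    omega
  obtain ⟨e, j, t, he, hdet⟩ := modality_main hμ hmod (fun i => qv c i) hstuck hM hd
  have hfull : ∀ X : Matrix (Fin N) (Fin N) ℚ, X.det ≠ 0 → srk X = N := by
    intro X hX
    have h1 := (srk_eq_card_iff X).2 hX
    rwa [Fintype.card_fin] at h1
  rcases Nat.eq_zero_or_pos I.2.length with h0 | h0
  · apply hfail c List.mem_cons_self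
    rw [sr_eq]
    refine (hfull _ ?_).ge
    have h1 : ∀ w, cq N I.2 w = 0 := by
      intro w
      rw [cq, h0, Finset.range_zero, Finset.sum_empty]
    rw [h1]
    rw [h1] at hd
    exact hd
  · obtain ⟨u, hu, -⟩ := unit_mem h0
    have hw := fin_sum_mem_Ws e j t
    obtain ⟨r, hr⟩ := Nat.exists_eq_add_of_le he
    have hw' := Ws_mono hu hw r
    rw [← hr] at hw'
    have h2 := rational_moves (N := N) (Bs := I.2) (D := idL I.2.length) (c := c)
      (by rw [hlen, hl2]) (σ := N - 1) K 0 (fun c' hc' => by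
        have h3 : ¬ (N ≤ srk (cq N I.2 (qv c'))) := by
          have h4 := hfail c' (List.mem_cons_of_mem _ hc')
          rwa [sr_eq] at h4
        rw [add_zero]
        omega) _ hw'
    rw [add_zero, cq_fin_sum, hfull _ hdet] at h2
    omega

/-! ## Complex substitutions -/

/-- The matrix obtained by substituting the complex numbers `c 0, c 1, ...` for the
indeterminates. -/
noncomputable def substC (A : SMat) (c : ℕ → ℂ) : Matrix (Fin A.length) (Fin A.length) ℂ :=
  fun i j => MvPolynomial.aeval c (symMat A i j)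

/-- A pair of invertible complex matrices which carries the values of `A` to values of `A`. -/
def IsSymmetry (A : SMat) (P Q : Matrix (Fin A.length) (Fin A.length) ℂ) : Prop :=
  P.det ≠ 0 ∧ Q.det ≠ 0 ∧ ∀ c : ℕ → ℂ, ∃ d : ℕ → ℂ, P * substC A c * Q = substC A d

/-- Up to symmetries the values of `A` depend on at most `μ` parameters: there is a countable
field `k` such that every value of `A` is carried by a symmetry of `A` to a matrix whose entries
are algebraic over an extension of `k` by `μ` complex numbers. -/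
def HasModality (μ : ℕ) (A : SMat) : Prop :=
  ∃ k : Subfield ℂ, Countable k ∧ ∀ c : ℕ → ℂ, ∃ P Q : Matrix (Fin A.length) (Fin A.length) ℂ,
    IsSymmetry A P Q ∧ ∃ a : Fin μ → ℂ, ∀ i j,
      IsAlgebraic (IntermediateField.adjoin k (Set.range a)) ((P * substC A c * Q) i j)

theorem aeval_linFormC (c : ℕ → ℂ) (e : List (ℤ × ℕ)) :
    MvPolynomial.aeval c (linForm e) = (e.map fun t => (t.1 : ℂ) * c t.2).sum := by
  unfold linForm
  induction e with
  | nil => simp
  | cons t e ih =>
      rw [List.map_cons, List.sum_cons, map_add, ih, List.map_cons, List.sum_cons, map_mul,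
        MvPolynomial.aeval_X, MvPolynomial.aeval_C]
      simp

/-- substitution as a linear map -/
noncomputable def substCL (A : SMat) : (ℕ → ℂ) →ₗ[ℂ] Matrix (Fin A.length) (Fin A.length) ℂ where
  toFun := substC A
  map_add' c d := by
    ext i j
    simp only [substC, symMat, aeval_linFormC, Matrix.add_apply]
    generalize ((A.getD i []).getD j []) = e
    induction e with
    | nil => simp
    | cons t e ih =>
        rw [List.map_cons, List.sum_cons, ih, List.map_cons, List.sum_cons, List.map_cons,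
          List.sum_cons, Pi.add_apply]
        ring
  map_smul' s c := by
    ext i j
    simp only [substC, symMat, aeval_linFormC, Matrix.smul_apply, RingHom.id_apply, smul_eq_mul]
    generalize ((A.getD i []).getD j []) = e
    induction e with
    | nil => simp
    | cons t e ih =>
        rw [List.map_cons, List.sum_cons, ih, List.map_cons, List.sum_cons, Pi.smul_apply,
          smul_eq_mul]
        ring

theorem substC_single (A : SMat) (v : ℕ) :
    substC A (Pi.single v 1) = cx (mq A.length (coefM A v)) := by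
  ext i j
  rw [cx_apply, mq, coefM, entry_tab _ i.2 j.2]
  simp only [substC, symMat, aeval_linFormC]
  generalize ((A.getD i []).getD j []) = e
  induction e with
  | nil => simp
  | cons t e ih =>
      rw [List.map_cons, List.sum_cons, ih, List.map_cons, List.sum_cons]
      push_cast
      congr 1
      by_cases h : t.2 = v
      · rw [h]; simp
      · rw [Pi.single_eq_of_ne h]; simp [h]

theorem sum_splitC (c : ℕ → ℂ) (F : Finset ℕ) (e : List (ℤ × ℕ)) (he : ∀ t ∈ e, t.2 ∈ F) :
    (e.map fun t => (t.1 : ℂ) * c t.2).sum =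
      ∑ v ∈ F, c v * (((e.map fun t => if t.2 = v then t.1 else 0).sum : ℤ) : ℂ) := by
  induction e with
  | nil => simp
  | cons t e ih =>
      rw [List.map_cons, List.sum_cons, ih fun s hs => he s (List.mem_cons_of_mem _ hs)]
      have h1 : (t.1 : ℂ) * c t.2 = ∑ v ∈ F, c v * ((if t.2 = v then t.1 else 0 : ℤ) : ℂ) := by
        rw [Finset.sum_eq_single t.2]
        · rw [if_pos rfl]; ring
        · intro b _ hb
          rw [if_neg (Ne.symm hb)]; simp
        · intro h
          exact absurd (he t (by simp)) h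
      rw [h1, ← Finset.sum_add_distrib]
      refine Finset.sum_congr rfl fun v _ => ?_
      rw [List.map_cons, List.sum_cons]
      push_cast
      ring

theorem substC_eq_sum (A : SMat) (c : ℕ → ℂ) :
    substC A c = ∑ v ∈ (vars A).toFinset, c v • cx (mq A.length (coefM A v)) := by
  ext i j
  rw [Matrix.sum_apply]
  simp only [substC, symMat, aeval_linFormC]
  rw [sum_splitC c (vars A).toFinset]
  · refine Finset.sum_congr rfl fun v _ => ?_
    rw [Matrix.smul_apply, smul_eq_mul, cx_apply, mq, coefM, entry_tab _ i.2 j.2,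
      Rat.cast_intCast]
  · intro t ht
    rw [List.mem_toFinset]
    unfold vars
    rw [List.mem_flatMap]
    have h1 : (i : ℕ) < A.length := i.2
    rw [List.getD_eq_getElem _ _ h1] at ht
    by_cases h2 : (j : ℕ) < A[(i : ℕ)].length
    · rw [List.getD_eq_getElem _ _ h2] at ht
      exact ⟨_, List.getElem_mem h1, List.mem_flatMap.2 ⟨_, List.getElem_mem h2,
        List.mem_map.2 ⟨t, ht, rfl⟩⟩⟩
    · rw [List.getD_eq_default _ _ (not_lt.1 h2)] at ht
      simp at ht

theorem exists_valC_substC (A : SMat) (c : ℕ → ℂ) :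
    ∃ d, substC A c = valC (fam A.length (coeffs A)) d := by
  apply exists_valC
  rw [substC_eq_sum]
  refine Submodule.sum_mem _ fun v hv => Submodule.smul_mem _ _ (Submodule.subset_span ?_)
  have h1 : coefM A v ∈ coeffs A := List.mem_map.2 ⟨v, List.mem_toFinset.1 hv, rfl⟩
  obtain ⟨i, hi, h2⟩ := List.getElem_of_mem h1
  exact ⟨⟨i, hi⟩, by rw [← h2]; rfl⟩

theorem exists_substC_valC (A : SMat) (d : Fin (coeffs A).length → ℂ) :
    ∃ c, valC (fam A.length (coeffs A)) d = substC A c := by
  have h1 : valC (fam A.length (coeffs A)) d ∈ LinearMap.range (substCL A) := by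
    refine Submodule.sum_mem _ fun j _ => Submodule.smul_mem _ _ ?_
    have h2 : (coeffs A)[j] ∈ coeffs A := List.getElem_mem _
    obtain ⟨v, -, h3⟩ := List.mem_map.1 h2
    refine ⟨Pi.single v 1, ?_⟩
    change substC A _ = _
    rw [substC_single, h3]
    rfl
  obtain ⟨c, hc⟩ := h1
  exact ⟨c, hc.symm⟩

theorem modY_of_hasModality {μ : ℕ} {A : SMat} (h : HasModality μ A) :
    ModY (fam A.length (coeffs A)) μ := by
  obtain ⟨k, hk, h1⟩ := h
  refine ⟨k, hk, fun c => ?_⟩
  obtain ⟨c', hc'⟩ := exists_substC_valC A c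
  obtain ⟨P, Q, ⟨hP, hQ, hPQ⟩, a, ha⟩ := h1 c'
  refine ⟨P, Q, hP, hQ, fun d => ?_, a, fun i j => ?_⟩
  · obtain ⟨d', hd'⟩ := exists_substC_valC A d
    obtain ⟨e', he'⟩ := hPQ d'
    obtain ⟨e, he⟩ := exists_valC_substC A e'
    exact ⟨e, by rw [hd', he', he]⟩
  · rw [hc']
    exact ha i j

/-- The test on symbolic matrices. -/
noncomputable def symM (K : ℕ) (A : SMat) : Bool :=
  (A.all fun r => decide (r.length = A.length)) && testM K (inp A)

theorem poly_symM (K : ℕ) : Poly (symM K) :=
  Poly.and (poly_isSquare Poly.id) ((poly_testM K).comp (poly_inp Poly.id))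

theorem symM_sound {K : ℕ} {A : SMat} (h : symM K A = true) :
    IsSquare A ∧ (symMat A).det ≠ 0 := by
  rw [symM, Bool.and_eq_true] at h
  exact ⟨(isSquare_iff A).1 h.1, cast_det (testM_sound h.2)⟩

theorem symM_complete {μ K : ℕ} (hμ : μ < K) {A : SMat} (hs : IsSquare A)
    (hB : HasModality μ A) (h : (symMat A).det ≠ 0) : symM K A = true := by
  rw [symM, Bool.and_eq_true]
  refine ⟨(isSquare_iff A).2 hs, testM_complete hμ ?_ (det_cast h)⟩
  rw [length_inp]
  exact modY_of_hasModality hB

end Pool.Agent.Helper69K1
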