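import Pool.Agent.Helper69K1.Pow5
import Pool.Agent.Helper69K1.AlgLts

/-!
# The test for matrix spaces closed under a power
-/

set_option linter.unusedSectionVars false

namespace Pool.Agent.Helper69K1

open Module Pool.Agent.NPC Pool.Agent.NPC.H532 Pool.Agent.H420_NCF Pool.Agent.H687R2.LLL
open Pool.Agent.H670R2

/-- The directions of the search: the unit vectors. -/
def dirU (p : Inp × List ℤ) : List (List ℤ) := idL p.1.2.length

theorem poly_dirU : Poly dirU := by
  unfold dirU
  exact Pool.Agent.NPC.H670R2.poly_idL (UPoly.length (Poly.snd (Poly.fst Poly.id)))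

theorem unit_mem {m i : ℕ} (hi : i < m) : ∃ u ∈ idL m, qv u = Pi.single i (1 : ℚ) := by
  refine ⟨(List.range m).map fun j => if i = j then (1 : ℤ) else 0, ?_, ?_⟩
  · unfold idL
    exact List.mem_map.2 ⟨i, List.mem_range.2 hi, rfl⟩
  · funext j
    rw [qv]
    by_cases hj : j < m
    · rw [List.getD_eq_getElem _ _ (by simpa using hj)]
      by_cases hij : i = j
      · subst hij
        simp
      · rw [Pi.single_eq_of_ne (Ne.symm hij)]
        simp [hij]
    · rw [List.getD_eq_default _ _ (by simpa using not_lt.1 hj), Pi.single_eq_of_ne (by omega)]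
      rfl

theorem Ws_mono {D : List (List ℤ)} {u : List ℤ} (hu : u ∈ D) {k : ℕ} {w : ℕ → ℚ}
    (hw : w ∈ Ws D k) (j : ℕ) : w ∈ Ws D (k + j) := by
  induction j with
  | zero => exact hw
  | succ j ih => exact zero_mem_Ws_succ hu ih

theorem sum_mem_Ws {m : ℕ} (τ : ℕ → ℚ) (s : Finset ℕ) (hs : ∀ i ∈ s, i < m) :
    ∑ i ∈ s, τ i • (Pi.single i (1 : ℚ) : ℕ → ℚ) ∈ Ws (idL m) s.card := by
  classical
  induction s using Finset.induction_on with
  | empty => simp [Ws]
  | insert i s his ih =>
      obtain ⟨u, hu, hqu⟩ := unit_mem (hs i (Finset.mem_insert_self _ _))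
      rw [Finset.sum_insert his, Finset.card_insert_of_notMem his]
      exact ⟨_, ih fun j hj => hs j (Finset.mem_insert_of_mem hj), u, hu, τ i, by
        rw [hqu, add_comm]⟩

theorem stuck_support {N : ℕ} {Bs : List Mat} {c : List ℤ} {r : ℕ}
    (hst : ∀ w ∈ Ws (idL Bs.length) r,
      srk (cq N Bs (qv c + w)) ≤ srk (cq N Bs (qv c)))
    (τ : Fin Bs.length → ℚ) (hτ : (Finset.univ.filter fun i => τ i ≠ 0).card ≤ r) :
    srk (cq N Bs (qv c) + ∑ i, τ i • mq N Bs[i]) ≤ srk (cq N Bs (qv c)) := by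
  classical
  set τ' : ℕ → ℚ := fun k => if h : k < Bs.length then τ ⟨k, h⟩ else 0 with hτ'
  set s : Finset ℕ := (Finset.univ.filter fun i => τ i ≠ 0).map Fin.valEmbedding with hs
  have hcard : s.card ≤ r := by rw [hs, Finset.card_map]; exact hτ
  have hslt : ∀ i ∈ s, i < Bs.length := by
    intro i hi
    rw [hs, Finset.mem_map] at hi
    obtain ⟨j, -, rfl⟩ := hi
    exact j.2
  have h1 : cq N Bs (∑ i ∈ s, τ' i • (Pi.single i (1 : ℚ) : ℕ → ℚ)) =
      ∑ i, τ i • mq N Bs[i] := by
    have h2 : ∀ k < Bs.length, (∑ i ∈ s, τ' i • (Pi.single i (1 : ℚ) : ℕ → ℚ)) k = τ' k := by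
      intro k hk
      rw [Finset.sum_apply]
      by_cases hks : k ∈ s
      · rw [Finset.sum_eq_single k]
        · simp
        · intro b _ hb
          rw [Pi.smul_apply, Pi.single_eq_of_ne (Ne.symm hb), smul_zero]
        · intro h
          exact absurd hks h
      · rw [Finset.sum_eq_zero]
        · have : τ ⟨k, hk⟩ = 0 := by
            by_contra h
            apply hks
            rw [hs, Finset.mem_map]
            exact ⟨⟨k, hk⟩, Finset.mem_filter.2 ⟨Finset.mem_univ _, h⟩, rfl⟩
          rw [hτ']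
          simp only [dif_pos hk, this]
        · intro b hb
          have : b ≠ k := fun h => hks (h ▸ hb)
          rw [Pi.smul_apply, Pi.single_eq_of_ne (Ne.symm this), smul_zero]
    rw [cq_congr N Bs h2, cq, ← Fin.sum_univ_eq_sum_range (fun k => τ' k • mq N (Bs.getD k []))
      Bs.length]
    refine Finset.sum_congr rfl fun i _ => ?_
    rw [hτ']
    simp only [dif_pos i.2, List.getD_eq_getElem _ _ i.2]
    rfl
  rw [← h1, ← cq_add]
  rcases Finset.eq_empty_or_nonempty s with h0 | ⟨i, hi⟩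
  · rw [h0, Finset.sum_empty, add_zero]
  · obtain ⟨u, hu, -⟩ := unit_mem (hslt i hi)
    obtain ⟨j, rfl⟩ := Nat.exists_eq_add_of_le hcard
    exact hst _ (Ws_mono hu (sum_mem_Ws τ' s hslt) j)

/-- The test. -/
noncomputable def testP (q : ℕ) (I : Inp) : Bool :=
  decide (I.1.length ≤ sr I (loc dirU (q - 1) I))

theorem poly_testP (q : ℕ) : Poly (testP q) := by
  unfold testP
  exact Poly.decide_le (UPoly.length (Poly.fst Poly.id)).toPoly
    (poly_sr Poly.id (poly_loc poly_dirU (q - 1)))

theorem testP_sound {q : ℕ} {I : Inp} (h : testP q I = true) :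
    ∃ c, (cq I.1.length I.2 c).det ≠ 0 :=
  ⟨_, det_ne_zero_of_sr (of_decide_eq_true h)⟩

theorem testP_complete {q k : ℕ} (hk2 : 2 ≤ k) (hkq : k ≤ q) {I : Inp}
    (hB : ∀ X ∈ spB I.1.length I.2, X ^ k ∈ spB I.1.length I.2)
    (h : ∃ c, (cq I.1.length I.2 c).det ≠ 0) : testP q I = true := by
  obtain ⟨d, hd⟩ := h
  obtain ⟨hlen, hst⟩ := loc_spec dirU (q - 1) I
  by_contra hcon
  apply hd
  set N := I.1.length with hN
  set c := loc dirU (q - 1) I with hc
  have hdet : (cq N I.2 (qv c)).det = 0 := by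
    by_contra hdet
    apply hcon
    rw [testP, decide_eq_true_iff, sr_eq]
    have h1 := (srk_eq_card_iff (cq N I.2 (qv c))).2 hdet
    rw [Fintype.card_fin] at h1
    exact h1.ge
  have hst' : ∀ τ : Fin I.2.length → ℚ, (Finset.univ.filter fun i => τ i ≠ 0).card ≤ k - 1 →
      srk (cq N I.2 (qv c) + ∑ i, τ i • mq N I.2[i]) ≤ srk (cq N I.2 (qv c)) :=
    fun τ hτ => stuck_support (r := q - 1) hst τ (hτ.trans (by omega))
  refine power_main (ν := k - 1) (by omega) ?_ (cq_mem_spB N I.2 (qv c)) hdet ?_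
    (cq_mem_spB N I.2 d)
  · intro X hX
    have e : 1 + (k - 1) = k := by omega
    rw [e]
    exact hB X hX
  · intro w hw j hj
    obtain ⟨e, rfl⟩ := mem_spB.1 hw
    have h2 := stuck_dvd (fun i => mq N I.2[i]) (cq N I.2 (qv c)) hst' (fun i => e i) hj
    have h3 : cq N I.2 e = ∑ i : Fin I.2.length, e i • mq N I.2[i] := by
      rw [cq, ← Fin.sum_univ_eq_sum_range (fun k => e k • mq N (I.2.getD k [])) I.2.length]
      refine Finset.sum_congr rfl fun i _ => ?_
      rw [List.getD_eq_getElem _ _ i.2]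
      rfl
    rw [h3]
    exact h2

/-- The test on symbolic matrices. -/
noncomputable def symP (q : ℕ) (A : SMat) : Bool :=
  (A.all fun r => decide (r.length = A.length)) && testP q (inp A)

theorem poly_symP (q : ℕ) : Poly (symP q) :=
  Poly.and (poly_isSquare Poly.id) ((poly_testP q).comp (poly_inp Poly.id))

theorem symP_sound {q : ℕ} {A : SMat} (h : symP q A = true) :
    IsSquare A ∧ (symMat A).det ≠ 0 := by
  rw [symP, Bool.and_eq_true] at h
  exact ⟨(isSquare_iff A).1 h.1, cast_det (testP_sound h.2)⟩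

theorem symP_complete {q k : ℕ} (hk2 : 2 ≤ k) (hkq : k ≤ q) {A : SMat} (hs : IsSquare A)
    (hB : ∀ X ∈ spB A.length (coeffs A), X ^ k ∈ spB A.length (coeffs A))
    (h : (symMat A).det ≠ 0) : symP q A = true := by
  rw [symP, Bool.and_eq_true]
  refine ⟨(isSquare_iff A).2 hs, testP_complete hk2 hkq ?_ (det_cast h)⟩
  rw [length_inp]
  exact hB

/-- Closure under a polynomial gives closure under its top power. -/
theorem pow_of_poly {n : Type} [Fintype n] [DecidableEq n] {B : Submodule ℚ (Matrix n n ℚ)}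
    {p : Polynomial ℚ} (hp : 2 ≤ p.natDegree) (h : ∀ X ∈ B, Polynomial.aeval X p ∈ B)
    {X : Matrix n n ℚ} (hX : X ∈ B) : X ^ p.natDegree ∈ B := by
  have h1 := extract (B := B) (c := fun i => p.coeff i • X ^ i) (d := p.natDegree + 1)
    (fun t => by
      have h2 := h (t • X) (B.smul_mem t hX)
      rw [Polynomial.aeval_eq_sum_range] at h2
      convert! h2 using 1
      refine Finset.sum_congr rfl fun i _ => ?_
      rw [smul_pow, smul_comm]) (Nat.lt_succ_self _)
  have hl : p.coeff p.natDegree ≠ 0 := by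
    rw [Polynomial.coeff_natDegree, Polynomial.leadingCoeff_ne_zero]
    rintro rfl
    simp at hp
  have h3 := B.smul_mem (p.coeff p.natDegree)⁻¹ h1
  simp only [smul_smul, inv_mul_cancel₀ hl, one_smul] at h3
  exact h3

end Pool.Agent.Helper69K1
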