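import Pool.Agent.Helper69K1.Nil

/-!
# Nilpotency in anti-Jordan pairs of endomorphisms
-/

set_option linter.unusedSectionVars false

namespace Pool.Agent.Helper69K1

open Module
open scoped Pointwise

section

variable {A : Type*} [Ring A] [Algebra ℚ A]

theorem multi2 (f : A →ₗ[ℚ] ℚ) {S T : Set A} (h : ∀ p ∈ S, ∀ q ∈ T, f (p * q) = 0)
    {p q : A} (hp : p ∈ Submodule.span ℚ S) (hq : q ∈ Submodule.span ℚ T) : f (p * q) = 0 := by
  have h1 : p * q ∈ Submodule.span ℚ (S * T) := by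
    rw [← Submodule.span_mul_span]
    exact Submodule.mul_mem_mul hp hq
  have h2 : Submodule.span ℚ (S * T) ≤ LinearMap.ker f := by
    refine Submodule.span_le.2 ?_
    rintro _ ⟨a, ha, b, hb, rfl⟩
    exact h a ha b hb
  exact h2 h1

theorem multi4 (f : A →ₗ[ℚ] ℚ) {S T : Set A}
    (h : ∀ p ∈ S, ∀ q ∈ T, ∀ p' ∈ S, ∀ q' ∈ T, f (p * q * p' * q') = 0)
    {p q p' q' : A} (hp : p ∈ Submodule.span ℚ S) (hq : q ∈ Submodule.span ℚ T)
    (hp' : p' ∈ Submodule.span ℚ S) (hq' : q' ∈ Submodule.span ℚ T) :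
    f (p * q * p' * q') = 0 := by
  have h1 : p * q * p' * q' ∈ Submodule.span ℚ (S * T * S * T) := by
    rw [← Submodule.span_mul_span, ← Submodule.span_mul_span, ← Submodule.span_mul_span]
    exact Submodule.mul_mem_mul (Submodule.mul_mem_mul (Submodule.mul_mem_mul hp hq) hp') hq'
  have h2 : Submodule.span ℚ (S * T * S * T) ≤ LinearMap.ker f := by
    refine Submodule.span_le.2 ?_
    rintro _ ⟨_, ⟨_, ⟨a, ha, b, hb, rfl⟩, c, hc, rfl⟩, d, hd, rfl⟩
    exact h a ha b hb c hc d hd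
  exact h2 h1

variable {P Q : Submodule ℚ A}

/-- The even part. -/
def evH (P Q : Submodule ℚ A) : Submodule ℚ A :=
  Submodule.span ℚ {h | ∃ p ∈ P, ∃ q ∈ Q, h = p * q + q * p}

theorem evH_mem {p q : A} (hp : p ∈ P) (hq : q ∈ Q) : p * q + q * p ∈ evH P Q :=
  Submodule.subset_span ⟨p, hp, q, hq, rfl⟩

theorem evH_actP (hPP : ∀ p ∈ P, ∀ p' ∈ P, p * p' = 0)
    (hP : ∀ p ∈ P, ∀ q ∈ Q, ∀ p' ∈ P, p * q * p' - p' * q * p ∈ P) {h : A} (hh : h ∈ evH P Q)
    {p : A} (hp : p ∈ P) : h * p - p * h ∈ P := by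
  induction hh using Submodule.span_induction with
  | mem x hx =>
      obtain ⟨a, ha, b, hb, rfl⟩ := hx
      have e : (a * b + b * a) * p - p * (a * b + b * a) = (a * b * p - p * b * a) +
          (b * (a * p) - (p * a) * b) := by noncomm_ring
      rw [e, hPP a ha p hp, hPP p hp a ha, mul_zero, zero_mul, sub_zero, add_zero]
      exact hP a ha b hb p hp
  | zero => rw [zero_mul, mul_zero, sub_zero]; exact P.zero_mem
  | add x y _ _ h1 h2 =>
      have e : (x + y) * p - p * (x + y) = (x * p - p * x) + (y * p - p * y) := by noncomm_ring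
      rw [e]
      exact P.add_mem h1 h2
  | smul c x _ h1 =>
      have e : (c • x) * p - p * (c • x) = c • (x * p - p * x) := by
        rw [smul_mul_assoc, mul_smul_comm, smul_sub]
      rw [e]
      exact P.smul_mem _ h1

theorem evH_symm (P Q : Submodule ℚ A) : evH P Q = evH Q P := by
  unfold evH
  congr 1
  ext h
  constructor
  · rintro ⟨p, hp, q, hq, rfl⟩
    exact ⟨q, hq, p, hp, add_comm _ _⟩
  · rintro ⟨p, hp, q, hq, rfl⟩
    exact ⟨q, hq, p, hp, add_comm _ _⟩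

theorem evH_actQ (hQQ : ∀ q ∈ Q, ∀ q' ∈ Q, q * q' = 0)
    (hQ : ∀ q ∈ Q, ∀ p ∈ P, ∀ q' ∈ Q, q * p * q' - q' * p * q ∈ Q) {h : A} (hh : h ∈ evH P Q)
    {q : A} (hq : q ∈ Q) : h * q - q * h ∈ Q := by
  rw [evH_symm] at hh
  exact evH_actP hQQ hQ hh hq

theorem evH_lie (hPP : ∀ p ∈ P, ∀ p' ∈ P, p * p' = 0)
    (hP : ∀ p ∈ P, ∀ q ∈ Q, ∀ p' ∈ P, p * q * p' - p' * q * p ∈ P)
    (hQQ : ∀ q ∈ Q, ∀ q' ∈ Q, q * q' = 0)
    (hQ : ∀ q ∈ Q, ∀ p ∈ P, ∀ q' ∈ Q, q * p * q' - q' * p * q ∈ Q)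
    {h h' : A} (hh : h ∈ evH P Q) (hh' : h' ∈ evH P Q) : h * h' - h' * h ∈ evH P Q := by
  induction hh' using Submodule.span_induction with
  | mem x hx =>
      obtain ⟨p, hp, q, hq, rfl⟩ := hx
      have e : h * (p * q + q * p) - (p * q + q * p) * h =
          ((h * p - p * h) * q + q * (h * p - p * h)) +
          (p * (h * q - q * h) + (h * q - q * h) * p) := by noncomm_ring
      rw [e]
      exact Submodule.add_mem _ (evH_mem (evH_actP hPP hP hh hp) hq)
        (evH_mem hp (evH_actQ hQQ hQ hh hq))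
  | zero => rw [zero_mul, mul_zero, sub_zero]; exact Submodule.zero_mem _
  | add x y _ _ h1 h2 =>
      have e : h * (x + y) - (x + y) * h = (h * x - x * h) + (h * y - y * h) := by noncomm_ring
      rw [e]
      exact Submodule.add_mem _ h1 h2
  | smul c x _ h1 =>
      have e : h * (c • x) - (c • x) * h = c • (h * x - x * h) := by
        rw [smul_mul_assoc, mul_smul_comm, smul_sub]
      rw [e]
      exact Submodule.smul_mem _ _ h1

end

section

variable {W : Type*} [AddCommGroup W] [Module ℚ W] [FiniteDimensional ℚ W]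

theorem trace_nil {T : End ℚ W} (hT : IsNilpotent T) : LinearMap.trace ℚ W T = 0 :=
  (LinearMap.isNilpotent_trace_of_isNilpotent hT).eq_zero

theorem rot (a b c d : End ℚ W) :
    LinearMap.trace ℚ W (a * b * c * d) = LinearMap.trace ℚ W (c * d * a * b) := by
  rw [mul_assoc (a * b), LinearMap.trace_mul_comm]
  simp only [mul_assoc]

theorem rot1 (a b c d : End ℚ W) :
    LinearMap.trace ℚ W (a * b * c * d) = LinearMap.trace ℚ W (d * a * b * c) := by
  rw [LinearMap.trace_mul_comm]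
  simp only [mul_assoc]

variable {P Q : Submodule ℚ (End ℚ W)}

/-- **An anti-Jordan pair of endomorphisms is nil** if small combinations of spanning elements are
nilpotent. -/
theorem pair_nil (hPP : ∀ p ∈ P, ∀ p' ∈ P, p * p' = 0)
    (hP : ∀ p ∈ P, ∀ q ∈ Q, ∀ p' ∈ P, p * q * p' - p' * q * p ∈ P)
    (hQQ : ∀ q ∈ Q, ∀ q' ∈ Q, q * q' = 0)
    (hQ : ∀ q ∈ Q, ∀ p ∈ P, ∀ q' ∈ Q, q * p * q' - q' * p * q ∈ Q)
    {m m' : ℕ} (Z : Fin m → End ℚ W) (Z' : Fin m' → End ℚ W) (hZ : ∀ i, Z i ∈ P)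
    (hZ' : ∀ j, Z' j ∈ Q) (hPZ : P ≤ Submodule.span ℚ (Set.range Z))
    (hQZ : Q ≤ Submodule.span ℚ (Set.range Z'))
    (hnil : ∀ i i' j j' (s s' t t' : ℚ),
      IsNilpotent (s • Z i + s' • Z i' + (t • Z' j + t' • Z' j')))
    {p q : End ℚ W} (hp : p ∈ P) (hq : q ∈ Q) : IsNilpotent (p + q) := by
  have hPeq : P = Submodule.span ℚ (Set.range Z) := le_antisymm hPZ (Submodule.span_le.2 (by
    rintro _ ⟨i, rfl⟩; exact hZ i))
  have hQeq : Q = Submodule.span ℚ (Set.range Z') := le_antisymm hQZ (Submodule.span_le.2 (by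
    rintro _ ⟨i, rfl⟩; exact hZ' i))
  -- traces of squares and fourth powers
  have hsq : ∀ {a b : End ℚ W}, a ∈ P → b ∈ Q → (a + b) ^ 2 = a * b + b * a := by
    intro a b ha hb
    have e : (a + b) ^ 2 = a * a + (a * b + b * a) + b * b := by
      rw [pow_two]; noncomm_ring
    rw [e, hPP a ha a ha, hQQ b hb b hb, zero_add, add_zero]
  have htr2 : ∀ {a b : End ℚ W}, a ∈ P → b ∈ Q → IsNilpotent (a + b) →
      LinearMap.trace ℚ W (a * b) = 0 := by
    intro a b ha hb h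
    have h1 := trace_nil (h.pow_of_pos (n := 2) (by norm_num))
    rw [hsq ha hb, map_add, LinearMap.trace_mul_comm (f := b)] at h1
    linarith
  have htr4 : ∀ {a b : End ℚ W}, a ∈ P → b ∈ Q → IsNilpotent (a + b) →
      LinearMap.trace ℚ W (a * b * a * b) = 0 := by
    intro a b ha hb h
    have h1 := trace_nil (h.pow_of_pos (n := 4) (by norm_num))
    have e : (a + b) ^ 4 = a * b * a * b + a * (b * b) * a + (b * (a * a) * b + b * a * b * a) := by
      rw [show (4 : ℕ) = 2 * 2 by norm_num, pow_mul, hsq ha hb, pow_two]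
      noncomm_ring
    rw [e, hPP a ha a ha, hQQ b hb b hb] at h1
    simp only [mul_zero, zero_mul, add_zero, zero_add, map_add] at h1
    rw [rot1 b a b a] at h1
    linarith
  have hT2 : ∀ {a b : End ℚ W}, a ∈ P → b ∈ Q → LinearMap.trace ℚ W (a * b) = 0 := by
    intro a b ha hb
    rw [hPeq] at ha
    rw [hQeq] at hb
    refine multi2 _ ?_ ha hb
    rintro _ ⟨i, rfl⟩ _ ⟨j, rfl⟩
    refine htr2 (hZ i) (hZ' j) ?_
    have := hnil i i j j 1 0 1 0
    simpa using this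
  have hT4 : ∀ {a b a' b' : End ℚ W}, a ∈ P → b ∈ Q → a' ∈ P → b' ∈ Q →
      LinearMap.trace ℚ W (a * b * a' * b') = 0 := by
    intro a b a' b' ha hb ha' hb'
    rw [hPeq] at ha ha'
    rw [hQeq] at hb hb'
    refine multi4 _ ?_ ha hb ha' hb'
    rintro _ ⟨i, rfl⟩ _ ⟨j, rfl⟩ _ ⟨i', rfl⟩ _ ⟨j', rfl⟩
    have c1 : ∀ s s' t t' : ℚ, LinearMap.trace ℚ W ((s • Z i + s' • Z i') *
        (t • Z' j + t' • Z' j') * (s • Z i + s' • Z i') * (t • Z' j + t' • Z' j')) = 0 := by
      intro s s' t t'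
      exact htr4 (P.add_mem (P.smul_mem _ (hZ i)) (P.smul_mem _ (hZ i')))
        (Q.add_mem (Q.smul_mem _ (hZ' j)) (Q.smul_mem _ (hZ' j'))) (hnil i i' j j' s s' t t')
    have d11 := c1 1 1 1 1
    have d10 := c1 1 1 1 0
    have d01 := c1 1 1 0 1
    have e10 := c1 1 0 1 1
    have e01 := c1 0 1 1 1
    have f1 := c1 1 0 1 0
    have f2 := c1 1 0 0 1
    have f3 := c1 0 1 1 0
    have f4 := c1 0 1 0 1
    simp only [one_smul, zero_smul, add_zero, zero_add] at d11 d10 d01 e10 e01 f1 f2 f3 f4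
    have key : (Z i + Z i') * (Z' j + Z' j') * (Z i + Z i') * (Z' j + Z' j') =
        (Z i + Z i') * Z' j * (Z i + Z i') * Z' j + (Z i + Z i') * Z' j' * (Z i + Z i') * Z' j' +
        (Z i * (Z' j + Z' j') * Z i * (Z' j + Z' j') +
          Z i' * (Z' j + Z' j') * Z i' * (Z' j + Z' j')) -
        (Z i * Z' j * Z i * Z' j + Z i * Z' j' * Z i * Z' j' + Z i' * Z' j * Z i' * Z' j +
          Z i' * Z' j' * Z i' * Z' j') +
        (Z i * Z' j * Z i' * Z' j' + Z i * Z' j' * Z i' * Z' j +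
          (Z i' * Z' j * Z i * Z' j' + Z i' * Z' j' * Z i * Z' j)) := by noncomm_ring
    have h1 := congrArg (LinearMap.trace ℚ W) key
    rw [d11] at h1
    simp only [map_add, map_sub, d10, d01, e10, e01, f1, f2, f3, f4] at h1
    rw [rot (Z i') (Z' j) (Z i) (Z' j'), rot (Z i') (Z' j') (Z i) (Z' j)] at h1
    have h2 := hT2 (hP (Z i) (hZ i) (Z' j) (hZ' j) (Z i') (hZ i')) (hZ' j')
    rw [sub_mul, map_sub, rot (Z i') (Z' j) (Z i) (Z' j')] at h2
    linarith
  -- the even part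
  have hHH : ∀ a ∈ evH P Q, ∀ b ∈ evH P Q, a * b - b * a ∈ evH P Q := fun a ha b hb =>
    evH_lie hPP hP hQQ hQ ha hb
  have hHtr : ∀ a ∈ evH P Q, ∀ b ∈ evH P Q, LinearMap.trace ℚ W (a * b) = 0 := by
    intro a ha b hb
    refine multi2 _ ?_ ha hb
    rintro _ ⟨a, ha, b, hb, rfl⟩ _ ⟨a', ha', b', hb', rfl⟩
    have e : (a * b + b * a) * (a' * b' + b' * a') = a * b * a' * b' + a * (b * b') * a' +
        (b * (a * a') * b' + b * a * b' * a') := by noncomm_ring
    rw [e, hQQ b hb b' hb', hPP a ha a' ha']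
    simp only [mul_zero, zero_mul, add_zero, zero_add, map_add]
    rw [hT4 ha hb ha' hb', rot1 b a b' a', hT4 ha' hb ha hb', add_zero]
  obtain ⟨r, hr⟩ := comms_nil hHH hHtr
  have hDH : comms (evH P Q) ≤ evH P Q := by
    refine Submodule.span_le.2 ?_
    rintro _ ⟨a, ha, b, hb, rfl⟩
    exact hHH a ha b hb
  set Y : Fin (m * m') → End ℚ W := fun k =>
    Z (finProdFinEquiv.symm k).1 * Z' (finProdFinEquiv.symm k).2 +
      Z' (finProdFinEquiv.symm k).2 * Z (finProdFinEquiv.symm k).1 with hY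
  have hYH : ∀ k, Y k ∈ evH P Q := fun k => evH_mem (hZ _) (hZ' _)
  have hHY : evH P Q ≤ Submodule.span ℚ (Set.range Y) := by
    refine Submodule.span_le.2 ?_
    rintro _ ⟨a, ha, b, hb, rfl⟩
    obtain ⟨c, rfl⟩ := (Submodule.mem_span_range_iff_exists_fun ℚ).1 (hPZ ha)
    obtain ⟨c', rfl⟩ := (Submodule.mem_span_range_iff_exists_fun ℚ).1 (hQZ hb)
    have e : (∑ i, c i • Z i) * (∑ j, c' j • Z' j) + (∑ j, c' j • Z' j) * (∑ i, c i • Z i) =
        ∑ i, ∑ j, (c i * c' j) • (Z i * Z' j + Z' j * Z i) := by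
      rw [Finset.sum_mul_sum, Finset.sum_mul_sum, Finset.sum_comm (s := Finset.univ (α := Fin m')),
        ← Finset.sum_add_distrib]
      refine Finset.sum_congr rfl fun i _ => ?_
      rw [← Finset.sum_add_distrib]
      refine Finset.sum_congr rfl fun j _ => ?_
      rw [smul_mul_smul_comm, smul_mul_smul_comm, smul_add, mul_comm (c' j)]
    rw [e]
    refine Submodule.sum_mem _ fun i _ => Submodule.sum_mem _ fun j _ =>
      Submodule.smul_mem _ _ (Submodule.subset_span ⟨finProdFinEquiv (i, j), ?_⟩)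
    simp only [hY, Equiv.symm_apply_apply]
  obtain ⟨M, hM⟩ := nil_span hr Y (fun k => by
      have h1 := (hnil (finProdFinEquiv.symm k).1 (finProdFinEquiv.symm k).1
        (finProdFinEquiv.symm k).2 (finProdFinEquiv.symm k).2 1 0 1 0).pow_of_pos
        (n := 2) (by norm_num)
      simp only [one_smul, zero_smul, add_zero] at h1
      rw [hsq (hZ _) (hZ' _)] at h1
      exact h1)
    (fun i j => comms_mem (hYH i) (hYH j))
    (fun i a ha => comms_mem (hYH i) (hDH ha))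
  have h1 : p * q + q * p ∈ comms (evH P Q) ⊔ Submodule.span ℚ (Set.range Y) :=
    Submodule.mem_sup_right (hHY (evH_mem hp hq))
  have h2 := Submodule.pow_mem_pow _ h1 M
  rw [hM, Submodule.mem_bot] at h2
  refine ⟨2 * M, ?_⟩
  rw [pow_mul, hsq hp hq, h2]

end

end Pool.Agent.Helper69K1
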