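import Pool.Agent.Helper69K1.Fit

/-!
# Fitting decompositions of a square
-/

set_option linter.unusedSectionVars false

namespace Pool.Agent.Helper69K1

open Module

section

variable {V : Type*} [AddCommGroup V] [Module ℚ V] [FiniteDimensional ℚ V]

/-- If the stable rank does not increase on the lines through `X` and `w`, and `w` preserves the
Fitting components of `X`, then `w` is nilpotent on the null component of `X`. -/
theorem nil_of_stuck_gen {X w : End ℚ V} {d : ℕ} (hd : finrank ℚ V ≤ d)
    (w0 : ∀ v, (X ^ d) v = 0 → (X ^ d) (w v) = 0)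
    (w1 : ∀ v ∈ LinearMap.range (X ^ d), w v ∈ LinearMap.range (X ^ d))
    (hst : ∀ e : ℚ, e ≠ 0 → finrank ℚ (LinearMap.range ((w + e • X) ^ d)) ≤
      finrank ℚ (LinearMap.range (X ^ d))) {v : V} (hv : (X ^ d) v = 0) : (w ^ d) v = 0 := by
  have hX : (adE X ^ 1) X = 0 := by rw [pow_one, adE_apply, sub_self]
  set V0 := LinearMap.ker (X ^ d) with hV0
  set V1 := LinearMap.range (X ^ d) with hV1
  have hcompl : IsCompl V0 V1 := fitting X hd
  have s1 : ∀ e : ℚ, ∀ u ∈ V1, (w + e • X) u ∈ V1 := fun e u hu => by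
    rw [LinearMap.add_apply, LinearMap.smul_apply]
    exact V1.add_mem (w1 u hu) (V1.smul_mem _ (range_stable hd hX hu))
  have s0 : ∀ e : ℚ, ∀ u ∈ V0, (w + e • X) u ∈ V0 := fun e u hu => by
    rw [LinearMap.add_apply, LinearMap.smul_apply]
    exact V0.add_mem (w0 u hu) (V0.smul_mem _ (ker_stable hd hX hu))
  have X1 : ∀ u ∈ V1, X u ∈ V1 := fun u hu => range_stable hd hX hu
  -- `X` is bijective on `V1`
  have hinj : Function.Injective (X.restrict X1) := by
    rw [← LinearMap.ker_eq_bot, LinearMap.ker_eq_bot']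
    rintro ⟨u, hu⟩ h0
    have h1 : X u = 0 := congrArg Subtype.val h0
    have h2 : u ∈ V0 := by
      rcases Nat.eq_zero_or_pos d with hd0 | hd0
      · have : finrank ℚ V = 0 := by omega
        have : Subsingleton V := Module.finrank_zero_iff.1 this
        rw [Subsingleton.elim u 0]; exact V0.zero_mem
      · rw [hV0, LinearMap.mem_ker, ← Nat.sub_add_cancel hd0, pow_add, pow_one,
          Module.End.mul_apply, h1, map_zero]
    exact Subtype.ext (Submodule.disjoint_def.1 hcompl.disjoint u h2 hu)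
  let E : V1 ≃ₗ[ℚ] V1 := LinearEquiv.ofInjectiveEndo _ hinj
  let T : End ℚ V1 := E.symm.toLinearMap ∘ₗ (w.restrict w1)
  have hfin : {e : ℚ | (T.HasEigenvalue (-e))}.Finite := by
    have h1 := Module.End.finite_hasEigenvalue (f := T)
    exact h1.preimage neg_injective.injOn
  have key : ∀ e : ℚ, ¬ T.HasEigenvalue (-e) → e ≠ 0 → ((w + e • X) ^ d) v = 0 := by
    intro e he he0
    have hinj2 : ∀ u ∈ V1, (w + e • X) u = 0 → u = 0 := by
      intro u hu h0
      by_contra hne
      apply he
      refine Module.End.hasEigenvalue_of_hasEigenvector (x := ⟨u, hu⟩) ⟨?_, fun h => hne ?_⟩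
      · rw [Module.End.mem_eigenspace_iff]
        change E.symm (w.restrict w1 ⟨u, hu⟩) = _
        rw [LinearEquiv.symm_apply_eq]
        refine Subtype.ext ?_
        have h2 : ((E ((-e) • (⟨u, hu⟩ : V1)) : V1) : V) = (-e) • X u := by
          rw [map_smul]
          rfl
        rw [h2]
        change w u = _
        rw [LinearMap.add_apply, LinearMap.smul_apply] at h0
        rw [neg_smul]
        exact eq_neg_of_add_eq_zero_left h0
      · exact congrArg Subtype.val h
    -- the range contains `V1`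
    have hsurj : ∀ k : ℕ, ∀ u ∈ V1, ∃ u' ∈ V1, ((w + e • X) ^ k) u' = u := by
      have h1 : Function.Surjective ((w + e • X).restrict (s1 e)) := by
        rw [← LinearMap.injective_iff_surjective, ← LinearMap.ker_eq_bot, LinearMap.ker_eq_bot']
        rintro ⟨u, hu⟩ h0
        exact Subtype.ext (hinj2 u hu (congrArg Subtype.val h0))
      intro k
      induction k with
      | zero => intro u hu; exact ⟨u, hu, by simp⟩
      | succ k ih =>
          intro u hu
          obtain ⟨⟨u1, hu1⟩, h2⟩ := h1 ⟨u, hu⟩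
          obtain ⟨u2, hu2, h3⟩ := ih u1 hu1
          refine ⟨u2, hu2, ?_⟩
          rw [pow_succ', Module.End.mul_apply, h3]
          exact congrArg Subtype.val h2
    have hle : V1 ≤ LinearMap.range ((w + e • X) ^ d) := by
      intro u hu
      obtain ⟨u', -, hu'⟩ := hsurj d u hu
      exact ⟨u', hu'⟩
    have heq : V1 = LinearMap.range ((w + e • X) ^ d) :=
      Submodule.eq_of_le_of_finrank_le hle (hst e he0)
    have h3 : ((w + e • X) ^ d) v ∈ V1 := by rw [heq]; exact ⟨v, rfl⟩
    have h4 : ∀ k : ℕ, ((w + e • X) ^ k) v ∈ V0 := by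
      intro k
      induction k with
      | zero => rw [pow_zero]; exact hv
      | succ k ih =>
          rw [pow_succ', Module.End.mul_apply]
          exact s0 e _ ih
    exact Submodule.disjoint_def.1 hcompl.disjoint _ (h4 d) h3
  refine (Module.forall_dual_apply_eq_zero_iff ℚ _).1 fun φ => ?_
  exact pow_line (φ ∘ₗ (LinearMap.applyₗ v)) w X d ((hfin.insert 0).infinite_compl)
    fun e he => by
      change φ (((w + e • X) ^ d) v) = 0
      rw [key e (fun h => he (Set.mem_insert_of_mem _ h))
        (fun h => he (by rw [h]; exact Set.mem_insert _ _)), map_zero]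

theorem ker_pow_add {X : End ℚ V} {d k : ℕ} (hd : finrank ℚ V ≤ d) (hk : d ≤ k) :
    LinearMap.ker (X ^ k) = LinearMap.ker (X ^ d) := by
  ext u
  rw [LinearMap.mem_ker, LinearMap.mem_ker]
  refine ⟨fun h => mem_ker_of_pow hd h, fun h => ?_⟩
  rw [← Nat.sub_add_cancel hk, pow_add, Module.End.mul_apply, h, map_zero]

theorem range_pow_add {X : End ℚ V} {d k : ℕ} (hd : finrank ℚ V ≤ d) (hk : d ≤ k) :
    LinearMap.range (X ^ k) = LinearMap.range (X ^ d) := by
  refine Submodule.eq_of_le_of_finrank_eq ?_ ?_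
  · rintro _ ⟨u, rfl⟩
    exact ⟨(X ^ (k - d)) u, by rw [← Module.End.mul_apply, ← pow_add, Nat.add_sub_cancel' hk]⟩
  · have h1 := LinearMap.finrank_range_add_finrank_ker (X ^ k)
    have h2 := LinearMap.finrank_range_add_finrank_ker (X ^ d)
    rw [ker_pow_add hd hk] at h1
    omega

theorem ker_stable_pow {X Z : End ℚ V} {N d q : ℕ} (hq : 0 < q) (hd : finrank ℚ V ≤ d)
    (h : (adE (X ^ q) ^ N) Z = 0) {v : V} (hv : (X ^ d) v = 0) : (X ^ d) (Z v) = 0 := by
  have hle : d ≤ q * d := Nat.le_mul_of_pos_left _ hq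
  have h1 : ((X ^ q) ^ d) v = 0 := by
    rw [← pow_mul, ← LinearMap.mem_ker, ker_pow_add hd hle, LinearMap.mem_ker]; exact hv
  have h2 := ker_stable hd h h1
  rw [← pow_mul, ← LinearMap.mem_ker, ker_pow_add hd hle, LinearMap.mem_ker] at h2
  exact h2

theorem range_stable_pow {X Z : End ℚ V} {N d q : ℕ} (hq : 0 < q) (hd : finrank ℚ V ≤ d)
    (h : (adE (X ^ q) ^ N) Z = 0) {v : V} (hv : v ∈ LinearMap.range (X ^ d)) :
    Z v ∈ LinearMap.range (X ^ d) := by
  have hle : d ≤ q * d := Nat.le_mul_of_pos_left _ hq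
  rw [← range_pow_add hd hle, pow_mul] at hv ⊢
  exact range_stable hd h hv

end

end Pool.Agent.Helper69K1
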