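import Pool.Agent.Helper69K1.Lts
import Pool.Agent.Helper69K1.Fit2
import Pool.Agent.Helper69K1.AntiNil

/-!
# Stuck points in anti-Jordan pairs of matrices
-/

set_option linter.unusedSectionVars false

namespace Pool.Agent.Helper69K1

open Module

variable {n : Type} [Fintype n] [DecidableEq n]

theorem adR_mul (x a b : Matrix n n ℚ) :
    adR ℚ x (a * b) = adR ℚ x a * b + a * adR ℚ x b := by
  rw [adR_apply, adR_apply, adR_apply]
  noncomm_ring

theorem adR_pow_mul {x : Matrix n n ℚ} : ∀ (N k l : ℕ) (a b : Matrix n n ℚ), k + l = N →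
    (adR ℚ x ^ k) a = 0 → (adR ℚ x ^ l) b = 0 → (adR ℚ x ^ N) (a * b) = 0 := by
  intro N
  induction N with
  | zero =>
      intro k l a b h ha hb
      have hk : k = 0 := by omega
      subst hk
      have h1 : a = 0 := ha
      rw [h1, zero_mul, map_zero]
  | succ N ih =>
      intro k l a b h ha hb
      rcases Nat.eq_zero_or_pos k with hk | hk
      · subst hk
        have h1 : a = 0 := ha
        rw [h1, zero_mul, map_zero]
      rcases Nat.eq_zero_or_pos l with hl | hl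
      · subst hl
        have h1 : b = 0 := hb
        rw [h1, mul_zero, map_zero]
      rw [pow_succ, Module.End.mul_apply, adR_mul, map_add, ih (k - 1) l _ _ (by omega) ?_ hb,
        ih k (l - 1) _ _ (by omega) ha ?_, add_zero]
      · rw [← Module.End.mul_apply, ← pow_succ, Nat.sub_add_cancel hl]; exact hb
      · rw [← Module.End.mul_apply, ← pow_succ, Nat.sub_add_cancel hk]; exact ha

theorem ker_mul {x a b : Matrix n n ℚ} {E : ℕ} (hE : finrank ℚ (Matrix n n ℚ) ≤ E)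
    (ha : (adR ℚ x ^ E) a = 0) (hb : (adR ℚ x ^ E) b = 0) : (adR ℚ x ^ E) (a * b) = 0 :=
  mem_ker_of_pow hE (adR_pow_mul (E + E) E E a b rfl ha hb)

/-- The Fitting decomposition of a stable subspace. -/
theorem fitting_decomp {B : Submodule ℚ (Matrix n n ℚ)} {T : End ℚ (Matrix n n ℚ)}
    (hTB : ∀ y ∈ B, T y ∈ B) {E : ℕ} (hE : finrank ℚ (Matrix n n ℚ) ≤ E) {Y : Matrix n n ℚ}
    (hY : Y ∈ B) : ∃ s ∈ B, (T ^ E) s = 0 ∧ ∃ y ∈ B, Y = s + T y := by
  set TB : End ℚ B := T.restrict hTB with hTBdef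
  have hfin : finrank ℚ B ≤ E + 1 := ((Submodule.finrank_le B).trans hE).trans (by omega)
  have hc := fitting TB hfin
  have h1 : (⟨Y, hY⟩ : B) ∈ LinearMap.ker (TB ^ (E + 1)) ⊔ LinearMap.range (TB ^ (E + 1)) := by
    rw [hc.sup_eq_top]; trivial
  obtain ⟨⟨s, hsB⟩, hs, _, ⟨⟨y, hyB⟩, rfl⟩, hsum⟩ := Submodule.mem_sup.1 h1
  have hpow : ∀ (k : ℕ) (u : B), ((TB ^ k) u : Matrix n n ℚ) = (T ^ k) u := by
    intro k u
    induction k with
    | zero => rfl
    | succ k ih =>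
        rw [pow_succ', Module.End.mul_apply, pow_succ', Module.End.mul_apply, ← ih]
        rfl
  have hs' : (T ^ (E + 1)) s = 0 := by
    rw [← hpow (E + 1) ⟨s, hsB⟩, LinearMap.mem_ker.1 hs]; rfl
  refine ⟨s, hsB, mem_ker_of_pow hE hs', (((TB ^ E) ⟨y, hyB⟩ : B) : Matrix n n ℚ),
    ((TB ^ E) ⟨y, hyB⟩).2, ?_⟩
  have h2 : Y = s + (((TB ^ (E + 1)) ⟨y, hyB⟩ : B) : Matrix n n ℚ) := by
    have := congrArg Subtype.val hsum
    exact this.symm
  rw [h2, pow_succ', Module.End.mul_apply]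
  rfl

section

variable {P Q : Submodule ℚ (Matrix n n ℚ)} {a b : Matrix n n ℚ}

theorem evH_norm (hPP : ∀ p ∈ P, ∀ p' ∈ P, p * p' = 0)
    (hP : ∀ p ∈ P, ∀ q ∈ Q, ∀ p' ∈ P, p * q * p' - p' * q * p ∈ P)
    (hQQ : ∀ q ∈ Q, ∀ q' ∈ Q, q * q' = 0)
    (hQ : ∀ q ∈ Q, ∀ p ∈ P, ∀ q' ∈ Q, q * p * q' - q' * p * q ∈ Q)
    {h : Matrix n n ℚ} (hh : h ∈ evH P Q) : h ∈ normB (P ⊔ Q) := by
  intro w hw
  obtain ⟨p, hp, q, hq, rfl⟩ := Submodule.mem_sup.1 hw
  have e : h * (p + q) - (p + q) * h = (h * p - p * h) + (h * q - q * h) := by noncomm_ring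
  rw [e]
  exact Submodule.add_mem _ (Submodule.mem_sup_left (evH_actP hPP hP hh hp))
    (Submodule.mem_sup_right (evH_actQ hQQ hQ hh hq))

theorem sq_eq (hPP : ∀ p ∈ P, ∀ p' ∈ P, p * p' = 0) (hQQ : ∀ q ∈ Q, ∀ q' ∈ Q, q * q' = 0)
    (ha : a ∈ P) (hb : b ∈ Q) : (a + b) * (a + b) = a * b + b * a := by
  have e : (a + b) * (a + b) = a * a + (a * b + b * a) + b * b := by noncomm_ring
  rw [e, hPP a ha a ha, hQQ b hb b hb, zero_add, add_zero]

theorem anti_decomp (hPP : ∀ p ∈ P, ∀ p' ∈ P, p * p' = 0)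
    (hP : ∀ p ∈ P, ∀ q ∈ Q, ∀ p' ∈ P, p * q * p' - p' * q * p ∈ P)
    (hQQ : ∀ q ∈ Q, ∀ q' ∈ Q, q * q' = 0)
    (ha : a ∈ P) (hb : b ∈ Q) {E : ℕ}
    (hE : finrank ℚ (Matrix n n ℚ) ≤ E) {Y : Matrix n n ℚ} (hY : Y ∈ P) :
    ∃ s ∈ nullC P ((a + b) * (a + b)) E, ∃ M ∈ evH P Q,
      Y = s + (M * (a + b) - (a + b) * M) := by
  have hTB : ∀ y ∈ P, adR ℚ ((a + b) * (a + b)) y ∈ P := fun y hy => by
    rw [adR_apply, sq_eq hPP hQQ ha hb]
    exact evH_actP hPP hP (evH_mem ha hb) hy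
  obtain ⟨s, hs, hs0, y, hy, rfl⟩ := fitting_decomp hTB hE hY
  refine ⟨s, ⟨hs, LinearMap.mem_ker.2 hs0⟩, -(y * b + b * y),
    Submodule.neg_mem _ (evH_mem hy hb), ?_⟩
  rw [adR_apply]
  congr 1
  have e1 : (a + b) * (a + b) * y - y * ((a + b) * (a + b)) = a * b * y - y * b * a +
      ((a * a) * y + b * (a * y) + (b * b) * y - y * (a * a) - (y * a) * b - y * (b * b)) := by
    noncomm_ring
  have e2 : -(y * b + b * y) * (a + b) - (a + b) * -(y * b + b * y) = a * b * y - y * b * a +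
      ((b * b) * y - y * (b * b) + (a * y) * b - b * (y * a)) := by
    noncomm_ring
  rw [e1, e2, hPP y hy a ha, hPP a ha y hy, hPP a ha a ha, hQQ b hb b hb]
  simp

/-- **Local maximality of the stable rank decides singularity** for anti-Jordan pairs. -/
theorem antiPair_main (hPP : ∀ p ∈ P, ∀ p' ∈ P, p * p' = 0)
    (hP : ∀ p ∈ P, ∀ q ∈ Q, ∀ p' ∈ P, p * q * p' - p' * q * p ∈ P)
    (hQQ : ∀ q ∈ Q, ∀ q' ∈ Q, q * q' = 0)
    (hQ : ∀ q ∈ Q, ∀ p ∈ P, ∀ q' ∈ Q, q * p * q' - q' * p * q ∈ Q)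
    (ha : a ∈ P) (hb : b ∈ Q) {m m' E : ℕ} (z : Fin m → Matrix n n ℚ)
    (w : Fin m' → Matrix n n ℚ) (hE : finrank ℚ (Matrix n n ℚ) ≤ E)
    (hz : ∀ i, z i ∈ nullC P ((a + b) * (a + b)) E)
    (hw : ∀ j, w j ∈ nullC Q ((a + b) * (a + b)) E)
    (hzs : nullC P ((a + b) * (a + b)) E ≤ Submodule.span ℚ (Set.range z))
    (hws : nullC Q ((a + b) * (a + b)) E ≤ Submodule.span ℚ (Set.range w))
    (hst : ∀ i i' j j' (s s' t t' : ℚ),
      srk (a + b + (s • z i + s' • z i' + (t • w j + t' • w j'))) ≤ srk (a + b))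
    (hdet : (a + b).det = 0) {p q : Matrix n n ℚ} (hp : p ∈ P) (hq : q ∈ Q) :
    (p + q).det = 0 := by
  set x := a + b with hxdef
  set X := Matrix.toLin' x with hX
  set d := Fintype.card n with hd
  have hfin : finrank ℚ (n → ℚ) ≤ d := by simp [hd]
  set V0 := LinearMap.ker (X ^ d) with hV0
  have hXX : Matrix.toLin' (x * x) = X ^ 2 := by
    rw [Matrix.toLin'_mul, pow_two]; rfl
  have hy0 : ∀ y : Matrix n n ℚ, (adR ℚ (x * x) ^ E) y = 0 →
      (adE (X ^ 2) ^ E) (Matrix.toLin' y) = 0 := fun y hy => by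
    rw [← hXX, adE_toLin, hy, map_zero]
  have stab : ∀ y : Matrix n n ℚ, (adR ℚ (x * x) ^ E) y = 0 → ∀ v ∈ V0,
      Matrix.toLin' y v ∈ V0 := fun y hy v hv =>
    ker_stable_pow (by norm_num) hfin (hy0 y hy) hv
  have stab1 : ∀ y : Matrix n n ℚ, (adR ℚ (x * x) ^ E) y = 0 → ∀ v ∈ LinearMap.range (X ^ d),
      Matrix.toLin' y v ∈ LinearMap.range (X ^ d) := fun y hy v hv =>
    range_stable_pow (by norm_num) hfin (hy0 y hy) hv
  have kadd : ∀ {y y' : Matrix n n ℚ}, (adR ℚ (x * x) ^ E) y = 0 → (adR ℚ (x * x) ^ E) y' = 0 →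
      (adR ℚ (x * x) ^ E) (y + y') = 0 := fun h h' => by rw [map_add, h, h', add_zero]
  have ksmul : ∀ {y : Matrix n n ℚ} (c : ℚ), (adR ℚ (x * x) ^ E) y = 0 →
      (adR ℚ (x * x) ^ E) (c • y) = 0 := fun c h => by rw [map_smul, h, smul_zero]
  -- nilpotency of small combinations
  have nil : ∀ i i' j j' (s s' t t' : ℚ), ∀ v ∈ V0,
      ((Matrix.toLin' (s • z i + s' • z i' + (t • w j + t' • w j'))) ^ d) v = 0 := by
    intro i i' j j' s s' t t' v hv
    have hk : (adR ℚ (x * x) ^ E) (s • z i + s' • z i' + (t • w j + t' • w j')) = 0 :=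
      kadd (kadd (ksmul _ (hz i).2) (ksmul _ (hz i').2)) (kadd (ksmul _ (hw j).2) (ksmul _ (hw j').2))
    refine nil_of_stuck_gen hfin (fun v hv => stab _ hk v hv) (fun v hv => stab1 _ hk v hv)
      (fun e he => ?_) hv
    have h1 : Matrix.toLin' (s • z i + s' • z i' + (t • w j + t' • w j')) + e • X =
        Matrix.toLin' (e • (x + ((s / e) • z i + (s' / e) • z i' +
          ((t / e) • w j + (t' / e) • w j')))) := by
      rw [hX, ← map_smul, ← map_add]
      congr 1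
      simp only [smul_add, smul_smul, mul_div_cancel₀ _ he]
      abel
    rw [h1, ← srk_eq, ← srk_eq, srk_smul _ he]
    exact hst i i' j j' _ _ _ _
  -- the restrictions to the null space
  let R : Submodule ℚ (Matrix n n ℚ) → Submodule ℚ (End ℚ V0) := fun S =>
    { carrier := {T | ∃ y ∈ nullC S (x * x) E, ∀ u : V0, (T u : n → ℚ) = Matrix.toLin' y u}
      add_mem' := fun {U T} ⟨a, ha, ha'⟩ ⟨b, hb, hb'⟩ =>
        ⟨a + b, Submodule.add_mem _ ha hb, fun u => by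
          rw [LinearMap.add_apply, Submodule.coe_add, ha', hb', map_add, LinearMap.add_apply]⟩
      zero_mem' := ⟨0, Submodule.zero_mem _, fun u => by simp⟩
      smul_mem' := fun c T ⟨a, ha, ha'⟩ => ⟨c • a, Submodule.smul_mem _ c ha, fun u => by
          rw [LinearMap.smul_apply, Submodule.coe_smul, ha', map_smul, LinearMap.smul_apply]⟩ }
  have hRR : ∀ {S : Submodule ℚ (Matrix n n ℚ)}, (∀ p ∈ S, ∀ p' ∈ S, p * p' = 0) →
      ∀ T ∈ R S, ∀ T' ∈ R S, T * T' = 0 := by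
    rintro S hS T ⟨y, hy, hT⟩ T' ⟨y', hy', hT'⟩
    refine LinearMap.ext fun u => Subtype.ext ?_
    rw [Module.End.mul_apply, hT, hT', Matrix.toLin'_apply, Matrix.toLin'_apply,
      Matrix.mulVec_mulVec, hS y hy.1 y' hy'.1, Matrix.zero_mulVec]
    rfl
  have hR3 : ∀ {S S' : Submodule ℚ (Matrix n n ℚ)},
      (∀ p ∈ S, ∀ q ∈ S', ∀ p' ∈ S, p * q * p' - p' * q * p ∈ S) →
      ∀ T ∈ R S, ∀ U ∈ R S', ∀ T' ∈ R S, T * U * T' - T' * U * T ∈ R S := by
    rintro S S' hS T ⟨y, hy, hT⟩ U ⟨u, hu, hU⟩ T' ⟨y', hy', hT'⟩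
    refine ⟨y * u * y' - y' * u * y, ⟨hS y hy.1 u hu.1 y' hy'.1, LinearMap.mem_ker.2 ?_⟩,
      fun v => ?_⟩
    · rw [map_sub, ker_mul hE (ker_mul hE hy.2 hu.2) hy'.2,
        ker_mul hE (ker_mul hE hy'.2 hu.2) hy.2, sub_zero]
    · simp only [LinearMap.sub_apply, Module.End.mul_apply, Submodule.coe_sub, hT, hT', hU,
        map_sub, Matrix.toLin'_mul, LinearMap.comp_apply]
  set Z : Fin m → End ℚ V0 := fun i => (Matrix.toLin' (z i)).restrict (stab _ (hz i).2) with hZdef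
  set Z' : Fin m' → End ℚ V0 := fun i => (Matrix.toLin' (w i)).restrict (stab _ (hw i).2)
    with hZdef'
  have hZapp : ∀ i (u : V0), (Z i u : n → ℚ) = Matrix.toLin' (z i) u := fun i u => rfl
  have hZapp' : ∀ i (u : V0), (Z' i u : n → ℚ) = Matrix.toLin' (w i) u := fun i u => rfl
  have hspan : ∀ {S : Submodule ℚ (Matrix n n ℚ)} {k : ℕ} (y : Fin k → Matrix n n ℚ)
      (Y : Fin k → End ℚ V0), (∀ i (u : V0), (Y i u : n → ℚ) = Matrix.toLin' (y i) u) →
      nullC S (x * x) E ≤ Submodule.span ℚ (Set.range y) →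
      R S ≤ Submodule.span ℚ (Set.range Y) := by
    rintro S k y Y hYy hle T ⟨y0, hy, hT⟩
    obtain ⟨c, hc⟩ := (Submodule.mem_span_range_iff_exists_fun ℚ).1 (hle hy)
    rw [Submodule.mem_span_range_iff_exists_fun]
    refine ⟨c, LinearMap.ext fun u => Subtype.ext ?_⟩
    rw [hT, ← hc, LinearMap.sum_apply, map_sum, LinearMap.sum_apply, Submodule.coe_sum]
    refine Finset.sum_congr rfl fun i _ => ?_
    rw [LinearMap.smul_apply, Submodule.coe_smul, hYy, map_smul, LinearMap.smul_apply]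
  have hpow : ∀ (T : End ℚ V0) (y : Matrix n n ℚ), (∀ u : V0, (T u : n → ℚ) = Matrix.toLin' y u) →
      ∀ (k : ℕ) (u : V0), ((T ^ k) u : n → ℚ) = ((Matrix.toLin' y) ^ k) u := by
    intro T y hT k u
    induction k with
    | zero => rfl
    | succ k ih => rw [pow_succ', Module.End.mul_apply, hT, ih, pow_succ', Module.End.mul_apply]
  -- all elements of the null component are singular
  obtain ⟨v, hv0, hv⟩ := Matrix.exists_mulVec_eq_zero_iff.2 hdet
  have hd0 : 0 < d := by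
    rw [hd, Fintype.card_pos_iff]
    by_contra h
    rw [not_nonempty_iff] at h
    exact hv0 (Subsingleton.elim _ _)
  have hvV : v ∈ V0 := by
    rw [hV0, LinearMap.mem_ker, ← Nat.sub_add_cancel hd0, pow_add, pow_one, Module.End.mul_apply,
      hX, Matrix.toLin'_apply, hv, map_zero]
  have hsing : ∀ s ∈ nullC P (x * x) E ⊔ nullC Q (x * x) E, s.det = 0 := by
    intro s hs
    obtain ⟨p', hp', q', hq', rfl⟩ := Submodule.mem_sup.1 hs
    obtain ⟨k, hk⟩ := pair_nil (P := R P) (Q := R Q) (hRR hPP) (hR3 hP) (hRR hQQ) (hR3 hQ) Z Z'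
      (fun i => ⟨z i, hz i, fun u => rfl⟩) (fun i => ⟨w i, hw i, fun u => rfl⟩)
      (hspan z Z hZapp hzs) (hspan w Z' hZapp' hws) (fun i i' j j' s s' t t' => by
        refine ⟨d, LinearMap.ext fun u => Subtype.ext ?_⟩
        rw [hpow _ (s • z i + s' • z i' + (t • w j + t' • w j')) (fun u => by
          simp only [LinearMap.add_apply, Submodule.coe_add, LinearMap.smul_apply,
            Submodule.coe_smul, hZapp, hZapp', map_add, map_smul]), nil i i' j j' s s' t t' u u.2]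
        rfl)
      (p := (Matrix.toLin' p').restrict (stab p' hp'.2)) ⟨p', hp', fun u => rfl⟩
      (q := (Matrix.toLin' q').restrict (stab q' hq'.2)) ⟨q', hq', fun u => rfl⟩
    have h1 := hpow ((Matrix.toLin' p').restrict (stab p' hp'.2) +
      (Matrix.toLin' q').restrict (stab q' hq'.2)) (p' + q') (fun u => by
        rw [LinearMap.add_apply, Submodule.coe_add, map_add, LinearMap.add_apply]; rfl) k ⟨v, hvV⟩
    rw [hk, ← Matrix.toLin'_pow, Matrix.toLin'_apply] at h1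
    have h2 : Matrix.mulVec ((p' + q') ^ k) v = 0 := h1.symm
    have h3 := Matrix.exists_mulVec_eq_zero_iff.1 ⟨v, hv0, h2⟩
    rw [Matrix.det_pow] at h3
    exact eq_zero_of_pow_eq_zero h3
  -- `x` lies in the null component
  have hadx : ∀ y, x * x * y - y * (x * x) = 0 → (adR ℚ (x * x) ^ E) y = 0 := by
    intro y hy
    have hE0 : 0 < E := by
      refine lt_of_lt_of_le ?_ hE
      rw [Module.finrank_matrix]
      simp only [finrank_self, mul_one]
      exact Nat.mul_pos hd0 hd0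
    rw [← Nat.sub_add_cancel hE0, pow_add, pow_one, Module.End.mul_apply, adR_apply, hy, map_zero]
  have hxx : x * x = a * b + b * a := sq_eq hPP hQQ ha hb
  have haN : a ∈ nullC P (x * x) E := by
    refine ⟨ha, LinearMap.mem_ker.2 (hadx a ?_)⟩
    rw [hxx]
    have e : (a * b + b * a) * a - a * (a * b + b * a) = b * (a * a) - (a * a) * b := by
      noncomm_ring
    rw [e, hPP a ha a ha]
    simp
  have hbN : b ∈ nullC Q (x * x) E := by
    refine ⟨hb, LinearMap.mem_ker.2 (hadx b ?_)⟩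
    rw [hxx]
    have e : (a * b + b * a) * b - b * (a * b + b * a) = a * (b * b) - (b * b) * a := by
      noncomm_ring
    rw [e, hQQ b hb b hb]
    simp
  refine slice (B := P ⊔ Q) (S := nullC P (x * x) E ⊔ nullC Q (x * x) E) (k := normB (P ⊔ Q))
    (x := x) (sup_le_sup inf_le_left inf_le_left) (fun M hM Y hY => hM Y hY) ?_
    (Submodule.add_mem _ (Submodule.mem_sup_left haN) (Submodule.mem_sup_right hbN)) hsing
    (Submodule.add_mem _ (Submodule.mem_sup_left hp) (Submodule.mem_sup_right hq))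
  intro Y hY
  obtain ⟨p', hp', q', hq', rfl⟩ := Submodule.mem_sup.1 hY
  obtain ⟨s, hs, M, hM, h1⟩ := anti_decomp hPP hP hQQ ha hb hE hp'
  obtain ⟨s', hs', M', hM', h2⟩ := anti_decomp (P := Q) (Q := P) hQQ hQ hPP hb ha hE hq'
  rw [← evH_symm] at hM'
  rw [add_comm b a] at hs' h2
  refine ⟨s + s', Submodule.add_mem _ (Submodule.mem_sup_left hs) (Submodule.mem_sup_right hs'),
    M + M', Submodule.add_mem _ (evH_norm hPP hP hQQ hQ hM) (evH_norm hPP hP hQQ hQ hM'), ?_⟩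
  rw [h1, h2, hxdef]
  noncomm_ring

end

end Pool.Agent.Helper69K1
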