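import Pool.Agent.Helper69K1.Pair

/-!
# The conjugate space, computed
-/

set_option linter.unusedSectionVars false

namespace Pool.Agent.Helper69K1

open Module Pool.Agent.NPC Pool.Agent.NPC.H532 Pool.Agent.H420_NCF Pool.Agent.H687R2.LLL

section

variable {n : Type} [Fintype n] [DecidableEq n]

/-- The matrices `Y` such that `X Y X' + s X' Y X` lies in `B` for all `X`, `X'` in `B`. -/
def cj (s : ℚ) (B : Submodule ℚ (Matrix n n ℚ)) : Submodule ℚ (Matrix n n ℚ) where
  carrier := {Y | ∀ X ∈ B, ∀ X' ∈ B, X * Y * X' + s • (X' * Y * X) ∈ B}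
  add_mem' := fun {a b} ha hb X hX X' hX' => by
    have e : X * (a + b) * X' + s • (X' * (a + b) * X) =
        (X * a * X' + s • (X' * a * X)) + (X * b * X' + s • (X' * b * X)) := by
      rw [mul_add, add_mul, mul_add, add_mul, smul_add]; abel
    rw [e]
    exact B.add_mem (ha X hX X' hX') (hb X hX X' hX')
  zero_mem' := fun X _ X' _ => by
    rw [mul_zero, zero_mul, mul_zero, zero_mul, smul_zero, add_zero]
    exact B.zero_mem
  smul_mem' := fun c a ha X hX X' hX' => by
    have e : X * (c • a) * X' + s • (X' * (c • a) * X) = c • (X * a * X' + s • (X' * a * X)) := by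
      rw [mul_smul_comm, smul_mul_assoc, mul_smul_comm, smul_mul_assoc, smul_add, smul_comm s c]
    rw [e]
    exact B.smul_mem _ (ha X hX X' hX')

theorem mem_cj {s : ℚ} {B : Submodule ℚ (Matrix n n ℚ)} {Y : Matrix n n ℚ} :
    Y ∈ cj s B ↔ ∀ X ∈ B, ∀ X' ∈ B, X * Y * X' + s • (X' * Y * X) ∈ B := Iff.rfl

theorem mem_cj_span {s : ℚ} {S : Set (Matrix n n ℚ)} {Y : Matrix n n ℚ} :
    Y ∈ cj s (Submodule.span ℚ S) ↔
      ∀ X ∈ S, ∀ X' ∈ S, X * Y * X' + s • (X' * Y * X) ∈ Submodule.span ℚ S := by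
  constructor
  · intro h X hX X' hX'
    exact h X (Submodule.subset_span hX) X' (Submodule.subset_span hX')
  · intro h X hX X' hX'
    induction hX, hX' using Submodule.span_induction₂ with
    | mem_mem x y hx hy => exact h x hx y hy
    | zero_left y hy =>
        rw [zero_mul, zero_mul, mul_zero, smul_zero, add_zero]; exact Submodule.zero_mem _
    | zero_right x hx =>
        rw [zero_mul, zero_mul, mul_zero, smul_zero, add_zero]; exact Submodule.zero_mem _
    | add_left x y z hx hy hz h1 h2 =>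
        have e : (x + y) * Y * z + s • (z * Y * (x + y)) =
            (x * Y * z + s • (z * Y * x)) + (y * Y * z + s • (z * Y * y)) := by
          rw [add_mul, add_mul, mul_add, smul_add]; abel
        rw [e]
        exact Submodule.add_mem _ h1 h2
    | add_right x y z hx hy hz h1 h2 =>
        have e : x * Y * (y + z) + s • ((y + z) * Y * x) =
            (x * Y * y + s • (y * Y * x)) + (x * Y * z + s • (z * Y * x)) := by
          rw [add_mul, add_mul, mul_add, smul_add]; abel
        rw [e]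
        exact Submodule.add_mem _ h1 h2
    | smul_left c x y hx hy h1 =>
        have e : (c • x) * Y * y + s • (y * Y * (c • x)) = c • (x * Y * y + s • (y * Y * x)) := by
          rw [smul_mul_assoc, smul_mul_assoc, mul_smul_comm, smul_add, smul_comm s c]
        rw [e]
        exact Submodule.smul_mem _ _ h1
    | smul_right c x y hx hy h1 =>
        have e : x * Y * (c • y) + s • ((c • y) * Y * x) = c • (x * Y * y + s • (y * Y * x)) := by
          rw [smul_mul_assoc, smul_mul_assoc, mul_smul_comm, smul_add, smul_comm s c]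
        rw [e]
        exact Submodule.smul_mem _ _ h1

end

variable {α : Type} [TEnc α]

/-- The conditions. -/
noncomputable def colsF (N : ℕ) (Bs : List Mat) : List (Mat × Mat × List ℤ) :=
  Bs.flatMap fun B => Bs.flatMap fun B' => (annF N Bs).map fun l => (B, B', l)

theorem mem_colsF {N : ℕ} {Bs : List Mat} {x : Mat × Mat × List ℤ} :
    x ∈ colsF N Bs ↔ x.1 ∈ Bs ∧ x.2.1 ∈ Bs ∧ x.2.2 ∈ annF N Bs := by
  obtain ⟨B, B', l⟩ := x
  simp [colsF]

theorem poly_colsF {N : α → ℕ} {Bs : α → List Mat} (hN : UPoly N) (hB : Poly Bs) :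
    Poly (fun a => colsF (N a) (Bs a)) := by
  unfold colsF
  refine Poly.flatMap (F := fun a B => (Bs a).flatMap fun B' =>
    (annF (N a) (Bs a)).map fun l => (B, B', l)) hB ?_
  refine Poly.flatMap (α := α × Mat) (l := fun p => Bs p.1) (F := fun p B' =>
    (annF (N p.1) (Bs p.1)).map fun l => (p.2, B', l)) (hB.comp (Poly.fst Poly.id)) ?_
  refine NPC.Poly.map (α := (α × Mat) × Mat) (l := fun p => annF (N p.1.1) (Bs p.1.1))
    (F := fun p l => (p.1.2, p.2, l))
    (poly_annF (hN.comp (Poly.fst (Poly.fst Poly.id))) (hB.comp (Poly.fst (Poly.fst Poly.id)))) ?_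
  exact Poly.pair (Poly.snd (Poly.fst (Poly.fst Poly.id)))
    (Poly.pair (Poly.snd (Poly.fst Poly.id)) (Poly.snd Poly.id))

/-- The value of a condition at a matrix unit. -/
def phiF (N : ℕ) (s : ℤ) (x : Mat × Mat × List ℤ) (k : ℕ) : ℤ :=
  ((List.range (N * N)).map fun t => x.2.2.getD t 0 *
    (entry x.1 (t / N) (k / N) * entry x.2.1 (k % N) (t % N) +
      s * (entry x.2.1 (t / N) (k / N) * entry x.1 (k % N) (t % N)))).sum

theorem poly_phiF {N k : α → ℕ} {x : α → Mat × Mat × List ℤ} (s : ℤ) (hN : UPoly N)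
    (hx : Poly x) (hk : Poly k) : Poly (fun a => phiF (N a) s (x a) (k a)) := by
  unfold phiF
  refine Poly_sumZ (NPC.Poly.map (F := fun a t => (x a).2.2.getD t 0 *
    (entry (x a).1 (t / N a) (k a / N a) * entry (x a).2.1 (k a % N a) (t % N a) +
      s * (entry (x a).2.1 (t / N a) (k a / N a) * entry (x a).1 (k a % N a) (t % N a))))
    (hN.mul hN).range ?_)
  have h0 : Poly (fun p : α × ℕ => p.1) := Poly.fst Poly.id
  have hNN : Poly (fun p : α × ℕ => N p.1) := hN.toPoly.comp h0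
  have hX := hx.comp h0
  have hK := hk.comp h0
  have ht : Poly (fun p : α × ℕ => p.2) := Poly.snd Poly.id
  have t1 := NPC.Poly.div ht hNN
  have t2 := NPC.Poly.mod ht hNN
  have k1 := NPC.Poly.div hK hNN
  have k2 := NPC.Poly.mod hK hNN
  exact Poly_mulZ (Poly.getD (Poly.snd (Poly.snd hX)) ht (NPC.Poly.const 0))
    (Poly_addZ (Poly_mulZ (Poly_entry (Poly.fst hX) t1 k1)
      (Poly_entry (Poly.fst (Poly.snd hX)) k2 t2))
      (Poly_mulZ (NPC.Poly.const s) (Poly_mulZ (Poly_entry (Poly.fst (Poly.snd hX)) t1 k1)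
        (Poly_entry (Poly.fst hX) k2 t2))))

theorem phiF_sum (N : ℕ) (s : ℤ) (x : Mat × Mat × List ℤ) (c : ℕ → ℚ) :
    ∑ k ∈ Finset.range (N * N), c k * (phiF N s x k : ℚ) =
      pr N (qv x.2.2) (mq N x.1 * um N c * mq N x.2.1 +
        (s : ℚ) • (mq N x.2.1 * um N c * mq N x.1)) := by
  have h1 : ∀ k, (phiF N s x k : ℚ) = ∑ a : Fin N, ∑ b : Fin N, qv x.2.2 (a * N + b) *
      ((entry x.1 a (k / N) : ℚ) * (entry x.2.1 (k % N) b : ℚ) +
        (s : ℚ) * ((entry x.2.1 a (k / N) : ℚ) * (entry x.1 (k % N) b : ℚ))) := by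
    intro k
    rw [phiF, list_sum_range, Fin.sum_univ_eq_sum_range (fun t => ((x.2.2.getD t 0 *
      (entry x.1 (t / N) (k / N) * entry x.2.1 (k % N) (t % N) +
      s * (entry x.2.1 (t / N) (k / N) * entry x.1 (k % N) (t % N))) : ℤ) : ℚ)) (N * N), sum_idx]
    refine Finset.sum_congr rfl fun a _ => Finset.sum_congr rfl fun b _ => ?_
    obtain ⟨h2, h3⟩ := idx_div a b
    rw [h2, h3]
    push_cast
    rfl
  rw [Finset.sum_congr rfl fun k _ => by rw [h1 k], sum_idx, pr]
  have h4 : ∀ a b : Fin N, (mq N x.1 * um N c * mq N x.2.1 +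
        (s : ℚ) • (mq N x.2.1 * um N c * mq N x.1)) a b =
      ∑ i : Fin N, ∑ j : Fin N, c (i * N + j) *
        ((entry x.1 a i : ℚ) * (entry x.2.1 j b : ℚ) +
        (s : ℚ) * ((entry x.2.1 a i : ℚ) * (entry x.1 j b : ℚ))) := by
    intro a b
    have e1 : ∀ P Q : Mat, (mq N P * um N c * mq N Q) a b = ∑ i : Fin N, ∑ j : Fin N,
        c (i * N + j) * ((entry P a i : ℚ) * (entry Q j b : ℚ)) := by
      intro P Q
      rw [Matrix.mul_apply, Finset.sum_comm]
      refine Finset.sum_congr rfl fun j _ => ?_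
      rw [Matrix.mul_apply, Finset.sum_mul]
      refine Finset.sum_congr rfl fun i _ => ?_
      simp only [mq, um]
      ring
    rw [Matrix.add_apply, Matrix.smul_apply, e1, e1, smul_eq_mul, Finset.mul_sum,
      ← Finset.sum_add_distrib]
    refine Finset.sum_congr rfl fun i _ => ?_
    rw [Finset.mul_sum, ← Finset.sum_add_distrib]
    refine Finset.sum_congr rfl fun j _ => ?_
    ring
  have h5 : ∀ i j : Fin N, ((i : ℕ) * N + j) / N = i ∧ ((i : ℕ) * N + j) % N = j :=
    fun i j => idx_div i j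
  calc ∑ i : Fin N, ∑ j : Fin N, c (i * N + j) * ∑ a : Fin N, ∑ b : Fin N,
        qv x.2.2 (a * N + b) * ((entry x.1 a ((i * N + j) / N) : ℚ) *
          (entry x.2.1 ((i * N + j) % N) b : ℚ) +
        (s : ℚ) * ((entry x.2.1 a ((i * N + j) / N) : ℚ) * (entry x.1 ((i * N + j) % N) b : ℚ)))
      = ∑ i : Fin N, ∑ j : Fin N, ∑ a : Fin N, ∑ b : Fin N, qv x.2.2 (a * N + b) *
        (c (i * N + j) * ((entry x.1 a i : ℚ) * (entry x.2.1 j b : ℚ) +
        (s : ℚ) * ((entry x.2.1 a i : ℚ) * (entry x.1 j b : ℚ)))) := by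
        refine Finset.sum_congr rfl fun i _ => Finset.sum_congr rfl fun j _ => ?_
        rw [Finset.mul_sum, (h5 i j).1, (h5 i j).2]
        refine Finset.sum_congr rfl fun a _ => ?_
        rw [Finset.mul_sum]
        refine Finset.sum_congr rfl fun b _ => ?_
        ring
    _ = ∑ a : Fin N, ∑ b : Fin N, ∑ i : Fin N, ∑ j : Fin N, qv x.2.2 (a * N + b) *
        (c (i * N + j) * ((entry x.1 a i : ℚ) * (entry x.2.1 j b : ℚ) +
        (s : ℚ) * ((entry x.2.1 a i : ℚ) * (entry x.1 j b : ℚ)))) := by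
        rw [Finset.sum_congr rfl fun i _ => Finset.sum_comm, Finset.sum_comm]
        refine Finset.sum_congr rfl fun a _ => ?_
        rw [Finset.sum_congr rfl fun i _ => Finset.sum_comm, Finset.sum_comm]
    _ = _ := by
        refine Finset.sum_congr rfl fun a _ => Finset.sum_congr rfl fun b _ => ?_
        rw [h4, Finset.mul_sum]
        refine Finset.sum_congr rfl fun i _ => ?_
        rw [Finset.mul_sum]

/-- A basis of the conjugate space. -/
noncomputable def cjF (s : ℤ) (N : ℕ) (Bs : List Mat) : List Mat :=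
  (kerT (N * N) (colsF N Bs) (phiF N s)).map fun u => unflat N u

theorem poly_unflat {N : α → ℕ} {u : α → List ℤ} (hN : UPoly N) (hu : Poly u) :
    Poly (fun a => unflat (N a) (u a)) := by
  unfold unflat
  refine Poly_tab (f := fun a i j => (u a).getD (i * N a + j) 0) hN ?_
  have h1 : Poly (fun p : (α × ℕ) × ℕ => p.1.1) := Poly.fst (Poly.fst Poly.id)
  exact Poly.getD (hu.comp h1) (Poly.add (Poly.mul (Poly.snd (Poly.fst Poly.id))
    (hN.toPoly.comp h1)) (Poly.snd Poly.id)) (NPC.Poly.const 0)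

theorem poly_cjF {N : α → ℕ} {Bs : α → List Mat} (s : ℤ) (hN : UPoly N) (hB : Poly Bs) :
    Poly (fun a => cjF s (N a) (Bs a)) := by
  unfold cjF
  refine NPC.Poly.map (F := fun a u => unflat (N a) u)
    (poly_kerT (φ := fun a x k => phiF (N a) s x k) (hN.mul hN) (poly_colsF hN hB) ?_) ?_
  · exact poly_phiF s (hN.comp (Poly.fst (Poly.fst Poly.id))) (Poly.snd Poly.id)
      (Poly.snd (Poly.fst Poly.id))
  · exact poly_unflat (hN.comp (Poly.fst Poly.id)) (Poly.snd Poly.id)

/-- the matrix of a vector, as a linear map -/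
noncomputable def umL (N : ℕ) : (Fin (N * N) → ℚ) →ₗ[ℚ] Matrix (Fin N) (Fin N) ℚ where
  toFun d := um N fun k => if h : k < N * N then d ⟨k, h⟩ else 0
  map_add' a b := by
    ext i j
    simp only [um, Matrix.add_apply]
    rw [dif_pos (idx_lt i j), dif_pos (idx_lt i j), dif_pos (idx_lt i j)]
    rfl
  map_smul' c a := by
    ext i j
    simp only [um, Matrix.smul_apply, RingHom.id_apply]
    rw [dif_pos (idx_lt i j), dif_pos (idx_lt i j)]
    rfl

theorem umL_apply (N : ℕ) (c : ℕ → ℚ) : umL N (fun k => c k) = um N c := by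
  ext i j
  change um N (fun k => if h : k < N * N then (fun k : Fin (N * N) => c k) ⟨k, h⟩ else 0) i j = _
  rw [um, dif_pos (idx_lt i j)]
  rfl

theorem spB_cjF (s : ℤ) (N : ℕ) (Bs : List Mat) : spB N (cjF s N Bs) = cj s (spB N Bs) := by
  obtain ⟨h1, h2⟩ := kerT_spec (N * N) (colsF N Bs) (phiF N s)
  have key : ∀ c : ℕ → ℚ, (∀ x ∈ colsF N Bs, ∑ k ∈ Finset.range (N * N),
      c k * (phiF N s x k : ℚ) = 0) ↔ um N c ∈ cj s (spB N Bs) := by
    intro c
    rw [spB, mem_cj_span]
    constructor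
    · rintro h _ ⟨B, hB, rfl⟩ _ ⟨B', hB', rfl⟩
      refine mem_spB_iff_ann.2 fun l hl => ?_
      have h3 := h (B, B', l) (mem_colsF.2 ⟨hB, hB', hl⟩)
      rw [phiF_sum] at h3
      exact h3
    · intro h x hx
      obtain ⟨h3, h4, h5⟩ := mem_colsF.1 hx
      rw [phiF_sum]
      exact mem_spB_iff_ann.1 (h _ ⟨_, h3, rfl⟩ _ ⟨_, h4, rfl⟩) _ h5
  apply le_antisymm
  · refine Submodule.span_le.2 ?_
    rintro _ ⟨C, hC, rfl⟩
    obtain ⟨u, hu, rfl⟩ := List.mem_map.1 hC
    rw [mq_unflat]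
    refine (key _).1 fun x hx => ?_
    have h3 := (h1 u hu).2 x hx
    have h4 : ((∑ k ∈ Finset.range (N * N), u.getD k 0 * phiF N s x k : ℤ) : ℚ) = 0 := by
      rw [h3]; rfl
    push_cast at h4
    exact h4
  · intro Y hY
    have h3 : um N (fm N Y) ∈ cj s (spB N Bs) := by rw [um_fm]; exact hY
    have h4 := h2 (fm N Y) ((key _).2 h3)
    rw [← um_fm N Y, ← umL_apply]
    have h5 := Submodule.mem_map_of_mem (f := umL N) h4
    rw [vspan, Submodule.map_span] at h5
    refine Submodule.span_mono ?_ h5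
    rintro _ ⟨_, ⟨u, hu, rfl⟩, rfl⟩
    refine ⟨unflat N u, List.mem_map.2 ⟨u, hu, rfl⟩, ?_⟩
    rw [mq_unflat, ← umL_apply]
    rfl

end Pool.Agent.Helper69K1
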