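import Pool.Agent.Helper69K1.Conj

/-!
# Doubled matrix spaces
-/

set_option linter.unusedSectionVars false

namespace Pool.Agent.Helper69K1

open Module Pool.Agent.NPC Pool.Agent.NPC.H532 Pool.Agent.H420_NCF Pool.Agent.H687R2.LLL

section

variable {n : Type} [Fintype n] [DecidableEq n]

/-- The antidiagonal block matrices. -/
def pairS (B C : Submodule ℚ (Matrix n n ℚ)) : Submodule ℚ (Matrix (n ⊕ n) (n ⊕ n) ℚ) where
  carrier := {M | ∃ X ∈ B, ∃ Y ∈ C, M = Matrix.fromBlocks 0 X Y 0}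
  add_mem' := by
    rintro _ _ ⟨X, hX, Y, hY, rfl⟩ ⟨X', hX', Y', hY', rfl⟩
    exact ⟨X + X', B.add_mem hX hX', Y + Y', C.add_mem hY hY', by
      rw [Matrix.fromBlocks_add, add_zero]⟩
  zero_mem' := ⟨0, B.zero_mem, 0, C.zero_mem, by rw [Matrix.fromBlocks_zero]⟩
  smul_mem' := by
    rintro c _ ⟨X, hX, Y, hY, rfl⟩
    exact ⟨c • X, B.smul_mem _ hX, c • Y, C.smul_mem _ hY, by
      rw [Matrix.fromBlocks_smul, smul_zero]⟩

theorem det_anti (X Y : Matrix n n ℚ) :
    (Matrix.fromBlocks 0 X Y 0).det ^ 2 = (X.det * Y.det) ^ 2 := by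
  rw [← Matrix.det_pow, pow_two, Matrix.fromBlocks_multiply]
  simp only [zero_mul, mul_zero, zero_add, add_zero]
  rw [Matrix.det_fromBlocks_zero₁₂, Matrix.det_mul, Matrix.det_mul]
  ring

theorem det_anti_ne (X Y : Matrix n n ℚ) :
    (Matrix.fromBlocks 0 X Y 0).det ≠ 0 ↔ X.det ≠ 0 ∧ Y.det ≠ 0 := by
  have h := det_anti X Y
  constructor
  · intro h1
    have h2 : (X.det * Y.det) ^ 2 ≠ 0 := by rw [← h]; exact pow_ne_zero _ h1
    exact mul_ne_zero_iff.1 (by
      intro h3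
      apply h2
      rw [h3]
      ring)
  · rintro ⟨h1, h2⟩ h3
    rw [h3] at h
    have : (X.det * Y.det) ^ 2 ≠ 0 := pow_ne_zero _ (mul_ne_zero h1 h2)
    apply this
    rw [← h]
    ring

/-- Half of a symmetric expression. -/
theorem mem_of_two {B : Submodule ℚ (Matrix n n ℚ)} {X : Matrix n n ℚ} (h : (2 : ℚ) • X ∈ B) :
    X ∈ B := by
  have := B.smul_mem (1 / 2 : ℚ) h
  rwa [smul_smul, show (1 / 2 : ℚ) * 2 = 1 by norm_num, one_smul] at this

theorem cj_quad {B : Submodule ℚ (Matrix n n ℚ)} {Y : Matrix n n ℚ}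
    (h : ∀ X ∈ B, X * Y * X ∈ B) : Y ∈ cj 1 B := by
  intro X hX X' hX'
  have e : X * Y * X' + (1 : ℚ) • (X' * Y * X) =
      (X + X') * Y * (X + X') - X * Y * X - X' * Y * X' := by
    rw [one_smul]; noncomm_ring
  rw [e]
  exact B.sub_mem (B.sub_mem (h _ (B.add_mem hX hX')) (h _ hX)) (h _ hX')

theorem cj_quad' {B : Submodule ℚ (Matrix n n ℚ)} {Y : Matrix n n ℚ} (hY : Y ∈ cj 1 B)
    {X : Matrix n n ℚ} (hX : X ∈ B) : X * Y * X ∈ B := by
  refine mem_of_two ?_
  have h := hY X hX X hX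
  rw [one_smul] at h
  rwa [two_smul]

/-- The second half of the Jordan pair. -/
theorem cj_dual {B : Submodule ℚ (Matrix n n ℚ)} {Y Y' X : Matrix n n ℚ} (hY : Y ∈ cj 1 B)
    (hY' : Y' ∈ cj 1 B) (hX : X ∈ B) : Y * X * Y' + Y' * X * Y ∈ cj 1 B := by
  have key : ∀ W ∈ cj 1 B, W * X * W ∈ cj 1 B := by
    intro W hW
    refine cj_quad fun Z hZ => mem_of_two ?_
    have h1 : Z * W * X + X * W * Z ∈ B := by
      have := hW Z hZ X hX
      rwa [one_smul] at this
    have h2 : Z * W * (Z * W * X + X * W * Z) + (Z * W * X + X * W * Z) * W * Z ∈ B := by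
      have := hW Z hZ _ h1
      rwa [one_smul] at this
    have h3 : (Z * W * Z) * W * X + X * W * (Z * W * Z) ∈ B := by
      have := hW _ (cj_quad' hW hZ) X hX
      rwa [one_smul] at this
    have e : (2 : ℚ) • (Z * (W * X * W) * Z) =
        (Z * W * (Z * W * X + X * W * Z) + (Z * W * X + X * W * Z) * W * Z) -
        ((Z * W * Z) * W * X + X * W * (Z * W * Z)) := by
      rw [two_smul]; noncomm_ring
    rw [e]
    exact B.sub_mem h2 h3
  have e : Y * X * Y' + Y' * X * Y =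
      (Y + Y') * X * (Y + Y') - Y * X * Y - Y' * X * Y' := by noncomm_ring
  rw [e]
  exact Submodule.sub_mem _ (Submodule.sub_mem _ (key _ (Submodule.add_mem _ hY hY')) (key _ hY))
    (key _ hY')

theorem pair_triple (B : Submodule ℚ (Matrix n n ℚ)) : IsTriple (pairS B (cj 1 B)) := by
  rintro _ ⟨X, hX, Y, hY, rfl⟩ _ ⟨X', hX', Y', hY', rfl⟩ _ ⟨X'', hX'', Y'', hY'', rfl⟩
  have t : ∀ {P Q R : Matrix n n ℚ}, P ∈ B → Q ∈ cj 1 B → R ∈ B → P * Q * R + R * Q * P ∈ B := by
    intro P Q R hP hQ hR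
    have := hQ P hP R hR
    rwa [one_smul] at this
  refine ⟨(X * Y' * X'' + X'' * Y' * X) - (X * Y'' * X' + X' * Y'' * X),
    B.sub_mem (t hX hY' hX'') (t hX hY'' hX'),
    (Y * X' * Y'' + Y'' * X' * Y) - (Y * X'' * Y' + Y' * X'' * Y),
    Submodule.sub_mem _ (cj_dual hY hY'' hX') (cj_dual hY hY' hX''), ?_⟩
  simp only [Matrix.fromBlocks_multiply, zero_mul, mul_zero, zero_add, add_zero]
  have hs : ∀ (A B' C D A' B'' C' D' : Matrix n n ℚ), Matrix.fromBlocks A B' C D -
      Matrix.fromBlocks A' B'' C' D' = Matrix.fromBlocks (A - A') (B' - B'') (C - C') (D - D') := by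
    intro A B' C D A' B'' C' D'
    ext i j
    rcases i with i | i <;> rcases j with j | j <;> rfl
  rw [hs, Matrix.fromBlocks_multiply, Matrix.fromBlocks_multiply, hs]
  congr 1 <;> simp <;> noncomm_ring

theorem triple_map {m : Type} [Fintype m] [DecidableEq m] {B : Submodule ℚ (Matrix n n ℚ)}
    (hB : IsTriple B) (e : Matrix n n ℚ ≃ₐ[ℚ] Matrix m m ℚ) :
    IsTriple (B.map (e.toLinearMap : Matrix n n ℚ →ₗ[ℚ] Matrix m m ℚ)) := by
  rintro _ ⟨a, ha, rfl⟩ _ ⟨b, hb, rfl⟩ _ ⟨c, hc, rfl⟩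
  refine ⟨_, hB a ha b hb c hc, ?_⟩
  simp [map_sub, map_mul]

end

/-! ## Lists -/

variable {α : Type} [TEnc α]

/-- The upper right block. -/
def upM (N : ℕ) (B : Mat) : Mat :=
  tab (N + N) fun i j => if i < N then (if j < N then 0 else entry B i (j - N)) else 0

/-- The lower left block. -/
def loM (N : ℕ) (B : Mat) : Mat :=
  tab (N + N) fun i j => if j < N then (if i < N then 0 else entry B (i - N) j) else 0

theorem poly_upM {N : α → ℕ} {B : α → Mat} (hN : UPoly N) (hB : Poly B) :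
    Poly (fun a => upM (N a) (B a)) := by
  unfold upM
  refine Poly_tab (f := fun a i j => if i < N a then (if j < N a then 0 else
    entry (B a) i (j - N a)) else 0) (hN.add hN) ?_
  have h0 : Poly (fun p : (α × ℕ) × ℕ => p.1.1) := Poly.fst (Poly.fst Poly.id)
  have hNN := hN.toPoly.comp h0
  have hi : Poly (fun p : (α × ℕ) × ℕ => p.1.2) := Poly.snd (Poly.fst Poly.id)
  have hj : Poly (fun p : (α × ℕ) × ℕ => p.2) := Poly.snd Poly.id
  refine Poly.ite (p := fun p : (α × ℕ) × ℕ => p.1.2 < N p.1.1) (Poly.decide_lt hi hNN) ?_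
    (NPC.Poly.const 0)
  refine Poly.ite (p := fun p : (α × ℕ) × ℕ => p.2 < N p.1.1) (Poly.decide_lt hj hNN)
    (NPC.Poly.const 0) ?_
  exact Poly_entry (hB.comp h0) hi (Poly.sub hj hNN)

theorem poly_loM {N : α → ℕ} {B : α → Mat} (hN : UPoly N) (hB : Poly B) :
    Poly (fun a => loM (N a) (B a)) := by
  unfold loM
  refine Poly_tab (f := fun a i j => if j < N a then (if i < N a then 0 else
    entry (B a) (i - N a) j) else 0) (hN.add hN) ?_
  have h0 : Poly (fun p : (α × ℕ) × ℕ => p.1.1) := Poly.fst (Poly.fst Poly.id)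
  have hNN := hN.toPoly.comp h0
  have hi : Poly (fun p : (α × ℕ) × ℕ => p.1.2) := Poly.snd (Poly.fst Poly.id)
  have hj : Poly (fun p : (α × ℕ) × ℕ => p.2) := Poly.snd Poly.id
  refine Poly.ite (p := fun p : (α × ℕ) × ℕ => p.2 < N p.1.1) (Poly.decide_lt hj hNN) ?_
    (NPC.Poly.const 0)
  refine Poly.ite (p := fun p : (α × ℕ) × ℕ => p.1.2 < N p.1.1) (Poly.decide_lt hi hNN)
    (NPC.Poly.const 0) ?_
  exact Poly_entry (hB.comp h0) (Poly.sub hi hNN) hj

/-- The identification of block matrices. -/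
noncomputable def ee (N : ℕ) : Matrix (Fin N ⊕ Fin N) (Fin N ⊕ Fin N) ℚ ≃ₐ[ℚ]
    Matrix (Fin (N + N)) (Fin (N + N)) ℚ := Matrix.reindexAlgEquiv ℚ ℚ finSumFinEquiv

theorem det_ee (N : ℕ) (M : Matrix (Fin N ⊕ Fin N) (Fin N ⊕ Fin N) ℚ) : (ee N M).det = M.det := by
  rw [ee, Matrix.coe_reindexAlgEquiv, Matrix.det_reindex_self]

theorem ee_ext {N : ℕ} {M : Matrix (Fin (N + N)) (Fin (N + N)) ℚ}
    {M' : Matrix (Fin N ⊕ Fin N) (Fin N ⊕ Fin N) ℚ}
    (h : ∀ i j, M (finSumFinEquiv i) (finSumFinEquiv j) = M' i j) : M = ee N M' := by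
  ext i j
  obtain ⟨i, rfl⟩ := finSumFinEquiv.surjective i
  obtain ⟨j, rfl⟩ := finSumFinEquiv.surjective j
  rw [h, ee, Matrix.coe_reindexAlgEquiv, Matrix.reindex_apply, Matrix.submatrix_apply,
    Equiv.symm_apply_apply, Equiv.symm_apply_apply]

theorem mq_upM (N : ℕ) (B : Mat) :
    mq (N + N) (upM N B) = ee N (Matrix.fromBlocks 0 (mq N B) 0 0) := by
  refine ee_ext fun i j => ?_
  rw [mq, upM, entry_tab _ (finSumFinEquiv i).2 (finSumFinEquiv j).2]
  rcases i with i | i <;> rcases j with j | j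
  · simp
  · simp [mq]
  · simp
  · simp

theorem mq_loM (N : ℕ) (B : Mat) :
    mq (N + N) (loM N B) = ee N (Matrix.fromBlocks 0 0 (mq N B) 0) := by
  refine ee_ext fun i j => ?_
  rw [mq, loM, entry_tab _ (finSumFinEquiv i).2 (finSumFinEquiv j).2]
  rcases i with i | i <;> rcases j with j | j
  · simp
  · simp
  · simp [mq]
  · simp

/-- The doubled list. -/
def dblL (N : ℕ) (Bs Cs : List Mat) : List Mat :=
  (Bs.map fun B => upM N B) ++ (Cs.map fun C => loM N C)

theorem poly_dblL {N : α → ℕ} {Bs Cs : α → List Mat} (hN : UPoly N) (hB : Poly Bs)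
    (hC : Poly Cs) : Poly (fun a => dblL (N a) (Bs a) (Cs a)) := by
  unfold dblL
  refine Poly.append (NPC.Poly.map (F := fun a B => upM (N a) B) hB ?_)
    (NPC.Poly.map (F := fun a B => loM (N a) B) hC ?_)
  · exact poly_upM (hN.comp (Poly.fst Poly.id)) (Poly.snd Poly.id)
  · exact poly_loM (hN.comp (Poly.fst Poly.id)) (Poly.snd Poly.id)

theorem spB_dblL (N : ℕ) (Bs Cs : List Mat) :
    spB (N + N) (dblL N Bs Cs) = (pairS (spB N Bs) (spB N Cs)).map (ee N).toLinearMap := by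
  apply le_antisymm
  · refine Submodule.span_le.2 ?_
    rintro _ ⟨D, hD, rfl⟩
    rw [dblL, List.mem_append, List.mem_map, List.mem_map] at hD
    rcases hD with ⟨B, hB, rfl⟩ | ⟨C, hC, rfl⟩
    · exact ⟨_, ⟨mq N B, Submodule.subset_span ⟨B, hB, rfl⟩, 0, Submodule.zero_mem _, rfl⟩,
        (mq_upM N B).symm⟩
    · exact ⟨_, ⟨0, Submodule.zero_mem _, mq N C, Submodule.subset_span ⟨C, hC, rfl⟩, rfl⟩,
        (mq_loM N C).symm⟩
  · rintro _ ⟨_, ⟨X, hX, Y, hY, rfl⟩, rfl⟩
    have hX' : ∀ X ∈ spB N Bs, (ee N) (Matrix.fromBlocks 0 X 0 0) ∈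
        spB (N + N) (dblL N Bs Cs) := by
      intro X hX
      induction hX using Submodule.span_induction with
      | mem x hx =>
          obtain ⟨B, hB, rfl⟩ := hx
          rw [← mq_upM]
          exact Submodule.subset_span ⟨_, by
            rw [dblL, List.mem_append, List.mem_map]
            exact Or.inl ⟨B, hB, rfl⟩, rfl⟩
      | zero => rw [Matrix.fromBlocks_zero, map_zero]; exact Submodule.zero_mem _
      | add x y _ _ h1 h2 =>
          have : (Matrix.fromBlocks 0 (x + y) 0 0 : Matrix (Fin N ⊕ Fin N) (Fin N ⊕ Fin N) ℚ) =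
              Matrix.fromBlocks 0 x 0 0 + Matrix.fromBlocks 0 y 0 0 := by
            rw [Matrix.fromBlocks_add]; simp
          rw [this, map_add]
          exact Submodule.add_mem _ h1 h2
      | smul a x _ h1 =>
          have : (Matrix.fromBlocks 0 (a • x) 0 0 : Matrix (Fin N ⊕ Fin N) (Fin N ⊕ Fin N) ℚ) =
              a • Matrix.fromBlocks 0 x 0 0 := by
            rw [Matrix.fromBlocks_smul]; simp
          rw [this, map_smul]
          exact Submodule.smul_mem _ _ h1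
    have hY' : ∀ Y ∈ spB N Cs, (ee N) (Matrix.fromBlocks 0 0 Y 0) ∈
        spB (N + N) (dblL N Bs Cs) := by
      intro X hX
      induction hX using Submodule.span_induction with
      | mem x hx =>
          obtain ⟨B, hB, rfl⟩ := hx
          rw [← mq_loM]
          exact Submodule.subset_span ⟨_, by
            rw [dblL, List.mem_append, List.mem_map, List.mem_map]
            exact Or.inr ⟨B, hB, rfl⟩, rfl⟩
      | zero => rw [Matrix.fromBlocks_zero, map_zero]; exact Submodule.zero_mem _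
      | add x y _ _ h1 h2 =>
          have : (Matrix.fromBlocks 0 0 (x + y) 0 : Matrix (Fin N ⊕ Fin N) (Fin N ⊕ Fin N) ℚ) =
              Matrix.fromBlocks 0 0 x 0 + Matrix.fromBlocks 0 0 y 0 := by
            rw [Matrix.fromBlocks_add]; simp
          rw [this, map_add]
          exact Submodule.add_mem _ h1 h2
      | smul a x _ h1 =>
          have : (Matrix.fromBlocks 0 0 (a • x) 0 : Matrix (Fin N ⊕ Fin N) (Fin N ⊕ Fin N) ℚ) =
              a • Matrix.fromBlocks 0 0 x 0 := by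
            rw [Matrix.fromBlocks_smul]; simp
          rw [this, map_smul]
          exact Submodule.smul_mem _ _ h1
    have e : (Matrix.fromBlocks 0 X Y 0 : Matrix (Fin N ⊕ Fin N) (Fin N ⊕ Fin N) ℚ) =
        Matrix.fromBlocks 0 X 0 0 + Matrix.fromBlocks 0 0 Y 0 := by
      rw [Matrix.fromBlocks_add]; simp
    rw [e]
    change (ee N) (_ + _) ∈ _
    rw [map_add]
    exact Submodule.add_mem _ (hX' X hX) (hY' Y hY)

end Pool.Agent.Helper69K1
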