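import Mathlib

/-!
# Spaces of nilpotent matrices closed under double commutators

A space `L` of endomorphisms closed under `[a, [b, c]]` and spanned by nilpotent elements with
pairwise trace zero consists of nilpotent elements.
-/

set_option linter.unusedSectionVars false

namespace Pool.Agent.Helper69K1

section Engel

variable {K A : Type*} [Field K] [Ring A] [Algebra K A]

/-- Moving elements of `I` to the right of powers of `Z`. -/
theorem mul_pow_le {I : Submodule K A} {Z : A} (hI : ∀ a ∈ I, Z * a - a * Z ∈ I) (a : ℕ) :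
    I * Submodule.span K {Z} ^ a ≤ ⨆ a' ∈ Finset.range (a + 1), Submodule.span K {Z} ^ a' * I := by
  induction a with
  | zero => simp
  | succ a ih =>
      rw [pow_succ, ← mul_assoc]
      refine (mul_le_mul_left ih _).trans ?_
      rw [Submodule.iSup_mul]
      refine iSup_le fun a' => ?_
      rw [Submodule.iSup_mul]
      refine iSup_le fun ha' => ?_
      rw [mul_assoc]
      have h1 : I * Submodule.span K {Z} ≤ Submodule.span K {Z} * I ⊔ I := by
        rw [Submodule.mul_le]
        intro m hm w hw
        obtain ⟨c, rfl⟩ := Submodule.mem_span_singleton.1 hw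
        rw [mul_smul_comm]
        refine Submodule.smul_mem _ _ ?_
        have e : m * Z = Z * m + -(Z * m - m * Z) := by abel
        rw [e]
        refine Submodule.add_mem_sup (Submodule.mul_mem_mul (Submodule.mem_span_singleton_self _) hm)
          (Submodule.neg_mem _ (hI m hm))
      refine (mul_le_mul_right h1 _).trans ?_
      rw [Submodule.mul_sup, ← mul_assoc, ← pow_succ]
      have ha := Finset.mem_range.1 ha'
      refine sup_le ?_ ?_
      · exact le_iSup₂_of_le (a' + 1) (Finset.mem_range.2 (by omega)) le_rfl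
      · exact le_iSup₂_of_le a' (Finset.mem_range.2 (by omega)) le_rfl

/-- The key step. -/
theorem nil_step {I : Submodule K A} {Z : A} {p q : ℕ} (hI : ∀ a ∈ I, Z * a - a * Z ∈ I)
    (hp : I ^ p = ⊥) (hq : Z ^ q = 0) : ∃ M, (I ⊔ Submodule.span K {Z}) ^ M = ⊥ := by
  have hq' : Submodule.span K {Z} ^ q = ⊥ := by
    rw [Submodule.span_pow, Set.singleton_pow, hq, Submodule.span_zero_singleton]
  set F : ℕ → Submodule K A := fun m => ⨆ a, ⨆ b, ⨆ _ : m ≤ b * q + a,
    Submodule.span K {Z} ^ a * I ^ b with hF
  have h1 : ∀ m, (I ⊔ Submodule.span K {Z}) * F m ≤ F (m + 1) := by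
    intro m
    rw [Submodule.sup_mul, hF]
    simp only
    refine sup_le ?_ ?_
    · rw [Submodule.mul_iSup]
      refine iSup_le fun a => ?_
      rw [Submodule.mul_iSup]
      refine iSup_le fun b => ?_
      rw [Submodule.mul_iSup]
      refine iSup_le fun hab => ?_
      rw [← mul_assoc]
      by_cases ha : q ≤ a
      · have : Submodule.span K {Z} ^ a = ⊥ := by
          rw [← Nat.sub_add_cancel ha, pow_add, hq', Submodule.mul_bot]
        rw [this, Submodule.mul_bot, Submodule.bot_mul]
        exact bot_le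
      · refine (mul_le_mul_left (mul_pow_le hI a) _).trans ?_
        rw [Submodule.iSup_mul]
        refine iSup_le fun a' => ?_
        rw [Submodule.iSup_mul]
        refine iSup_le fun ha' => ?_
        rw [mul_assoc, ← pow_succ']
        refine le_iSup_of_le a' (le_iSup_of_le (b + 1) (le_iSup_of_le ?_ le_rfl))
        rw [add_mul]
        omega
    · rw [Submodule.mul_iSup]
      refine iSup_le fun a => ?_
      rw [Submodule.mul_iSup]
      refine iSup_le fun b => ?_
      rw [Submodule.mul_iSup]
      refine iSup_le fun hab => ?_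
      rw [← mul_assoc, ← pow_succ']
      exact le_iSup_of_le (a + 1) (le_iSup_of_le b (le_iSup_of_le (by omega) le_rfl))
  have h2 : ∀ m, (I ⊔ Submodule.span K {Z}) ^ m ≤ F m := by
    intro m
    induction m with
    | zero =>
        rw [pow_zero]
        refine le_iSup_of_le 0 (le_iSup_of_le 0 (le_iSup_of_le (by omega) ?_))
        rw [pow_zero, pow_zero, mul_one]
    | succ m ih =>
        rw [pow_succ']
        exact (mul_le_mul_right ih _).trans (h1 m)
  refine ⟨p * q, le_bot_iff.1 ((h2 _).trans ?_)⟩
  refine iSup_le fun a => iSup_le fun b => iSup_le fun hab => ?_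
  by_cases hb : p ≤ b
  · have : I ^ b = ⊥ := by
      rw [← Nat.sub_add_cancel hb, pow_add, hp, Submodule.mul_bot]
    rw [this, Submodule.mul_bot]
  · have ha : q ≤ a := by
      have h3 : (b + 1) * q ≤ p * q := Nat.mul_le_mul_right _ (by omega)
      rw [add_mul] at h3
      omega
    have : Submodule.span K {Z} ^ a = ⊥ := by
      rw [← Nat.sub_add_cancel ha, pow_add, hq', Submodule.mul_bot]
    rw [this, Submodule.bot_mul]

/-- A space spanned by a nilpotent `D` and finitely many nilpotent elements that commute modulo `D`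
and normalise `D`. -/
theorem nil_span {m : ℕ} {D : Submodule K A} {p : ℕ} (hp : D ^ p = ⊥) (Z : Fin m → A)
    (hZ : ∀ i, IsNilpotent (Z i)) (h1 : ∀ i j, Z i * Z j - Z j * Z i ∈ D)
    (h2 : ∀ i, ∀ a ∈ D, Z i * a - a * Z i ∈ D) :
    ∃ M, (D ⊔ Submodule.span K (Set.range Z)) ^ M = ⊥ := by
  classical
  have key : ∀ s : Finset (Fin m), ∃ M, (D ⊔ Submodule.span K (Z '' s)) ^ M = ⊥ := by
    intro s
    induction s using Finset.induction_on with
    | empty => exact ⟨p, by simpa using hp⟩
    | insert i s hi ih =>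
        obtain ⟨M, hM⟩ := ih
        obtain ⟨q, hq⟩ := hZ i
        have h3 : ∀ a ∈ D ⊔ Submodule.span K (Z '' s),
            Z i * a - a * Z i ∈ D ⊔ Submodule.span K (Z '' s) := by
          intro a ha
          obtain ⟨d, hd, t, ht, rfl⟩ := Submodule.mem_sup.1 ha
          have e : Z i * (d + t) - (d + t) * Z i = (Z i * d - d * Z i) + (Z i * t - t * Z i) := by
            rw [mul_add, add_mul]; abel
          rw [e]
          refine Submodule.mem_sup_left (Submodule.add_mem _ (h2 i d hd) ?_)
          refine Submodule.span_induction (p := fun t _ => Z i * t - t * Z i ∈ D) ?_ ?_ ?_ ?_ ht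
          · rintro _ ⟨j, -, rfl⟩
            exact h1 i j
          · simp
          · intro a b _ _ ha hb
            have e : Z i * (a + b) - (a + b) * Z i = (Z i * a - a * Z i) + (Z i * b - b * Z i) := by
              rw [mul_add, add_mul]; abel
            rw [e]
            exact Submodule.add_mem _ ha hb
          · intro c a _ ha
            rw [mul_smul_comm, smul_mul_assoc, ← smul_sub]
            exact Submodule.smul_mem _ _ ha
        obtain ⟨M', hM'⟩ := nil_step h3 hM hq
        refine ⟨M', ?_⟩
        rw [← hM', Finset.coe_insert, Set.image_insert_eq, Submodule.span_insert]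
        congr 1
        rw [sup_comm (Submodule.span K {Z i}), sup_assoc]
  obtain ⟨M, hM⟩ := key Finset.univ
  exact ⟨M, by simpa using hM⟩

end Engel

section Cartan

attribute [local instance 100] LieRing.ofAssociativeRing

variable {V : Type*} [AddCommGroup V] [Module ℚ V] [FiniteDimensional ℚ V]

/-- The space spanned by the commutators of elements of `L`. -/
def comms {K A : Type*} [Field K] [Ring A] [Algebra K A] (L : Submodule K A) : Submodule K A :=
  Submodule.span K {c | ∃ a ∈ L, ∃ b ∈ L, c = a * b - b * a}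

theorem comms_mem {K A : Type*} [Field K] [Ring A] [Algebra K A] {L : Submodule K A} {a b : A}
    (ha : a ∈ L) (hb : b ∈ L) : a * b - b * a ∈ comms L :=
  Submodule.subset_span ⟨a, ha, b, hb, rfl⟩

/-- A Lie algebra of endomorphisms with vanishing trace form has a nilpotent derived algebra. -/
theorem comms_nil {L : Submodule ℚ (Module.End ℚ V)}
    (hL : ∀ a ∈ L, ∀ b ∈ L, a * b - b * a ∈ L)
    (htr : ∀ a ∈ L, ∀ b ∈ L, LinearMap.trace ℚ V (a * b) = 0) : ∃ p, (comms L) ^ p = ⊥ := by
  let G : LieSubalgebra ℚ (Module.End ℚ V) :=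
    { L with lie_mem' := fun {a b} ha hb => hL a ha b hb }
  have h0 : LieModule.traceForm ℚ G V = 0 := by
    ext ⟨a, ha⟩ ⟨b, hb⟩
    rw [LieModule.traceForm_apply_apply]
    exact htr a ha b hb
  have h1 := LieModule.isNilpotent_derivedSeries_of_traceForm_eq_zero h0
  obtain ⟨k, hk⟩ := (LieModule.isNilpotent_iff ℚ (LieAlgebra.derivedSeries ℚ G 1) V).1 h1
  have key : ∀ j, ∀ f ∈ (comms L) ^ j, ∀ v : V,
      f v ∈ LieModule.lowerCentralSeries ℚ (LieAlgebra.derivedSeries ℚ G 1) V j := by
    intro j
    induction j with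
    | zero =>
        intro f _ v
        rw [LieModule.lowerCentralSeries_zero]
        exact LieSubmodule.mem_top _
    | succ j ih =>
        intro f hf v
        rw [pow_succ'] at hf
        refine Submodule.mul_induction_on hf ?_ ?_
        · intro d hd g hg
          refine Submodule.span_induction (p := fun d _ => (d * g) v ∈
            LieModule.lowerCentralSeries ℚ (LieAlgebra.derivedSeries ℚ G 1) V (j + 1))
            ?_ ?_ ?_ ?_ hd
          · rintro _ ⟨a, ha, b, hb, rfl⟩
            rw [LieModule.lowerCentralSeries_succ]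
            have hab : ⁅(⟨a, ha⟩ : G), (⟨b, hb⟩ : G)⁆ ∈ LieAlgebra.derivedSeries ℚ G 1 := by
              rw [LieAlgebra.derivedSeries_def, LieAlgebra.derivedSeriesOfIdeal_succ,
                LieAlgebra.derivedSeriesOfIdeal_zero]
              exact LieSubmodule.lie_mem_lie (LieSubmodule.mem_top _) (LieSubmodule.mem_top _)
            exact LieSubmodule.lie_mem_lie
              (x := (⟨⁅(⟨a, ha⟩ : G), (⟨b, hb⟩ : G)⁆, hab⟩ : LieAlgebra.derivedSeries ℚ G 1))
              (LieSubmodule.mem_top _) (ih g hg v)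
          · rw [zero_mul, LinearMap.zero_apply]; exact Submodule.zero_mem _
          · intro a b _ _ ha hb
            rw [add_mul, LinearMap.add_apply]
            exact Submodule.add_mem _ ha hb
          · intro c a _ ha
            rw [smul_mul_assoc, LinearMap.smul_apply]
            exact Submodule.smul_mem _ _ ha
        · intro a b ha hb
          rw [LinearMap.add_apply]
          exact Submodule.add_mem _ ha hb
  refine ⟨k, le_bot_iff.1 fun f hf => ?_⟩
  rw [Submodule.mem_bot]
  refine LinearMap.ext fun v => ?_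
  have := key k f hf v
  rw [hk, LieSubmodule.mem_bot] at this
  rw [this, LinearMap.zero_apply]

end Cartan

section Triple

variable {W : Type*} [AddCommGroup W] [Module ℚ W] [FiniteDimensional ℚ W]

/-- The diagonal embedding. -/
def ev (k : Module.End ℚ W) : Module.End ℚ (W × W) := LinearMap.prodMap k k

/-- The swap. -/
def sw : Module.End ℚ (W × W) := LinearMap.prod (LinearMap.snd ℚ W W) (LinearMap.fst ℚ W W)

theorem ev_mul (a b : Module.End ℚ W) : ev (a * b) = ev a * ev b := rfl

theorem ev_add (a b : Module.End ℚ W) : ev (a + b) = ev a + ev b := rfl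

theorem ev_sub (a b : Module.End ℚ W) : ev (a - b) = ev a - ev b := rfl

theorem ev_smul (c : ℚ) (a : Module.End ℚ W) : ev (c • a) = c • ev a := rfl

theorem sw_sw : (sw : Module.End ℚ (W × W)) * sw = 1 := rfl

theorem sw_ev (a : Module.End ℚ W) : sw * ev a = ev a * sw := rfl

theorem ev_inj {a b : Module.End ℚ W} (h : ev a = ev b) : a = b := by
  refine LinearMap.ext fun w => ?_
  have := congrArg (fun f => (f (w, 0)).1) h
  exact this

/-- the diagonal embedding as a linear map -/
def evL : Module.End ℚ W →ₗ[ℚ] Module.End ℚ (W × W) where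
  toFun := ev
  map_add' := ev_add
  map_smul' := ev_smul

/-- the antidiagonal embedding as a linear map -/
def odL : Module.End ℚ W →ₗ[ℚ] Module.End ℚ (W × W) where
  toFun := fun a => ev a * sw
  map_add' := fun a b => by rw [ev_add, add_mul]
  map_smul' := fun c a => by rw [ev_smul, smul_mul_assoc]; rfl

theorem mul_formula (k z k' z' : Module.End ℚ W) :
    (ev k + ev z * sw) * (ev k' + ev z' * sw) =
      ev (k * k' + z * z') + ev (k * z' + z * k') * sw := by
  simp only [ev_add, ev_mul, add_mul, mul_add]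
  have e1 : ev z * sw * ev k' = ev z * ev k' * sw := by rw [mul_assoc, sw_ev, mul_assoc]
  have e2 : ev z * sw * (ev z' * sw) = ev z * ev z' := by
    rw [mul_assoc, ← mul_assoc sw, sw_ev, mul_assoc (ev z'), sw_sw, mul_one]
  rw [e1, e2]
  simp only [mul_assoc]
  abel

theorem trace_ev (a : Module.End ℚ W) :
    LinearMap.trace ℚ (W × W) (ev a) = 2 * LinearMap.trace ℚ W a := by
  rw [ev, LinearMap.trace_prodMap', two_mul]

theorem trace_od (a : Module.End ℚ W) : LinearMap.trace ℚ (W × W) (ev a * sw) = 0 := by
  set τ : Module.End ℚ (W × W) := LinearMap.prodMap 1 (-1) with hτ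
  have h1 : τ * τ = 1 := by
    refine LinearMap.ext fun w => ?_
    simp [hτ]
  have h2 : τ * (ev a * sw) * τ = -(ev a * sw) := by
    refine LinearMap.ext fun w => ?_
    simp [hτ, ev, sw]
  have h3 := congrArg (LinearMap.trace ℚ (W × W)) h2
  rw [LinearMap.trace_mul_comm, ← mul_assoc, h1, one_mul, map_neg] at h3
  linarith

variable {L : Submodule ℚ (Module.End ℚ W)}

theorem comm_comms (hL : ∀ a ∈ L, ∀ b ∈ L, ∀ c ∈ L,
      a * (b * c - c * b) - (b * c - c * b) * a ∈ L) {a k : Module.End ℚ W} (ha : a ∈ L)
    (hk : k ∈ comms L) : a * k - k * a ∈ L := by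
  refine Submodule.span_induction (p := fun k _ => a * k - k * a ∈ L) ?_ ?_ ?_ ?_ hk
  · rintro _ ⟨b, hb, c, hc, rfl⟩
    exact hL a ha b hb c hc
  · rw [mul_zero, zero_mul, sub_zero]; exact Submodule.zero_mem _
  · intro b c _ _ hb hc
    have e : a * (b + c) - (b + c) * a = (a * b - b * a) + (a * c - c * a) := by
      rw [mul_add, add_mul]; abel
    rw [e]
    exact Submodule.add_mem _ hb hc
  · intro r b _ hb
    rw [mul_smul_comm, smul_mul_assoc, ← smul_sub]
    exact Submodule.smul_mem _ _ hb

theorem comms_comms (hL : ∀ a ∈ L, ∀ b ∈ L, ∀ c ∈ L,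
      a * (b * c - c * b) - (b * c - c * b) * a ∈ L) {k k' : Module.End ℚ W} (hk : k ∈ comms L)
    (hk' : k' ∈ comms L) : k * k' - k' * k ∈ comms L := by
  refine Submodule.span_induction (p := fun k _ => k * k' - k' * k ∈ comms L) ?_ ?_ ?_ ?_ hk
  · rintro _ ⟨a, ha, b, hb, rfl⟩
    have e : (a * b - b * a) * k' - k' * (a * b - b * a) =
        ((a * k' - k' * a) * b - b * (a * k' - k' * a)) +
        (a * (b * k' - k' * b) - (b * k' - k' * b) * a) := by noncomm_ring
    rw [e]
    exact Submodule.add_mem _ (comms_mem (comm_comms hL ha hk') hb)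
      (comms_mem ha (comm_comms hL hb hk'))
  · rw [mul_zero, zero_mul, sub_zero]; exact Submodule.zero_mem _
  · intro b c _ _ hb hc
    have e : (b + c) * k' - k' * (b + c) = (b * k' - k' * b) + (c * k' - k' * c) := by
      rw [mul_add, add_mul]; abel
    rw [e]
    exact Submodule.add_mem _ hb hc
  · intro r b _ hb
    rw [mul_smul_comm, smul_mul_assoc, ← smul_sub]
    exact Submodule.smul_mem _ _ hb

/-- **A space of endomorphisms closed under double commutators, spanned by nilpotent elements whose
pairwise products have trace zero, consists of nilpotent elements.** -/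
theorem triple_nil {m : ℕ} (hL : ∀ a ∈ L, ∀ b ∈ L, ∀ c ∈ L,
      a * (b * c - c * b) - (b * c - c * b) * a ∈ L) (Z : Fin m → Module.End ℚ W)
    (hZL : ∀ i, Z i ∈ L) (hLZ : L ≤ Submodule.span ℚ (Set.range Z))
    (hZ : ∀ i, IsNilpotent (Z i)) (htr : ∀ i j, LinearMap.trace ℚ W (Z i * Z j) = 0)
    {z : Module.End ℚ W} (hz : z ∈ L) : IsNilpotent z := by
  -- the trace form vanishes
  have ht : ∀ a ∈ L, ∀ b ∈ L, LinearMap.trace ℚ W (a * b) = 0 := by
    intro a ha b hb
    refine Submodule.span_induction (p := fun a _ => LinearMap.trace ℚ W (a * b) = 0)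
      ?_ ?_ ?_ ?_ (hLZ ha)
    · rintro _ ⟨i, rfl⟩
      refine Submodule.span_induction (p := fun b _ => LinearMap.trace ℚ W (Z i * b) = 0)
        ?_ ?_ ?_ ?_ (hLZ hb)
      · rintro _ ⟨j, rfl⟩
        exact htr i j
      · simp
      · intro c d _ _ hc hd
        rw [mul_add, map_add, hc, hd, add_zero]
      · intro r c _ hc
        rw [mul_smul_comm, map_smul, hc, smul_zero]
    · simp
    · intro c d _ _ hc hd
      rw [add_mul, map_add, hc, hd, add_zero]
    · intro r c _ hc
      rw [smul_mul_assoc, map_smul, hc, smul_zero]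
  have ht2 : ∀ k ∈ comms L, ∀ k' ∈ comms L, LinearMap.trace ℚ W (k * k') = 0 := by
    intro k hk k' hk'
    refine Submodule.span_induction (p := fun k _ => LinearMap.trace ℚ W (k * k') = 0)
      ?_ ?_ ?_ ?_ hk
    · rintro _ ⟨a, ha, b, hb, rfl⟩
      have h1 := ht a ha _ (comm_comms hL hb hk')
      rw [mul_sub, map_sub, ← mul_assoc, LinearMap.trace_mul_comm (f := a) (g := k' * b),
        mul_assoc k'] at h1
      rw [sub_mul, map_sub, LinearMap.trace_mul_comm (f := b * a) (g := k')]
      exact h1
    · simp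
    · intro c d _ _ hc hd
      rw [add_mul, map_add, hc, hd, add_zero]
    · intro r c _ hc
      rw [smul_mul_assoc, map_smul, hc, smul_zero]
  -- the doubled Lie algebra
  set G : Submodule ℚ (Module.End ℚ (W × W)) := (comms L).map evL ⊔ L.map odL with hG
  have hmem : ∀ f, f ∈ G ↔ ∃ k ∈ comms L, ∃ z ∈ L, f = ev k + ev z * sw := by
    intro f
    rw [hG, Submodule.mem_sup]
    constructor
    · rintro ⟨_, ⟨k, hk, rfl⟩, _, ⟨z, hz, rfl⟩, rfl⟩
      exact ⟨k, hk, z, hz, rfl⟩
    · rintro ⟨k, hk, z, hz, rfl⟩
      exact ⟨_, ⟨k, hk, rfl⟩, _, ⟨z, hz, rfl⟩, rfl⟩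
  have hG1 : ∀ a ∈ G, ∀ b ∈ G, a * b - b * a ∈ G := by
    intro a ha b hb
    obtain ⟨k, hk, z, hz, rfl⟩ := (hmem a).1 ha
    obtain ⟨k', hk', z', hz', rfl⟩ := (hmem b).1 hb
    rw [hmem]
    refine ⟨(k * k' - k' * k) + (z * z' - z' * z),
      Submodule.add_mem _ (comms_comms hL hk hk') (comms_mem hz hz'),
      (z * k' - k' * z) - (z' * k - k * z'),
      Submodule.sub_mem _ (comm_comms hL hz hk') (comm_comms hL hz' hk), ?_⟩
    rw [mul_formula, mul_formula]
    simp only [ev_add, ev_sub, add_mul, sub_mul]
    abel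
  have hG2 : ∀ a ∈ G, ∀ b ∈ G, LinearMap.trace ℚ (W × W) (a * b) = 0 := by
    intro a ha b hb
    obtain ⟨k, hk, z, hz, rfl⟩ := (hmem a).1 ha
    obtain ⟨k', hk', z', hz', rfl⟩ := (hmem b).1 hb
    rw [mul_formula, map_add, trace_ev, trace_od, map_add, ht2 k hk k' hk', ht z hz z' hz']
    ring
  obtain ⟨p, hp⟩ := comms_nil hG1 hG2
  have hZG : ∀ i, odL (Z i) ∈ G := fun i => Submodule.mem_sup_right ⟨Z i, hZL i, rfl⟩
  have hDG : comms G ≤ G := by
    refine Submodule.span_le.2 ?_
    rintro _ ⟨a, ha, b, hb, rfl⟩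
    exact hG1 a ha b hb
  have hpow : ∀ (a : Module.End ℚ W) (j : ℕ), (odL a) ^ (2 * j) = ev (a ^ (2 * j)) := by
    intro a j
    induction j with
    | zero => rfl
    | succ j ih =>
        have e : odL a ^ 2 = ev (a ^ 2) := by
          have := mul_formula 0 a 0 a
          rw [pow_two, pow_two]
          change (ev a * sw) * (ev a * sw) = ev (a * a)
          rw [mul_assoc, ← mul_assoc sw, sw_ev, mul_assoc (ev a), sw_sw, mul_one, ev_mul]
        rw [mul_add, mul_one, pow_add, ih, e, pow_add, ev_mul]
  obtain ⟨M, hM⟩ := nil_span hp (fun i => odL (Z i)) (fun i => by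
      obtain ⟨q, hq⟩ := hZ i
      refine ⟨2 * q, ?_⟩
      rw [hpow, mul_comm, pow_mul, hq]
      rcases Nat.eq_zero_or_pos q with h0 | h0
      · subst h0
        rw [pow_zero] at hq
        refine LinearMap.ext fun w => ?_
        have h1 : ∀ v : W, v = 0 := fun v => by
          have := congrArg (fun f => f v) hq
          simpa using this
        exact Prod.ext (h1 _) (h1 _)
      · rw [zero_pow (by omega)]; rfl)
    (fun i j => comms_mem (hZG i) (hZG j))
    (fun i a ha => comms_mem (hZG i) (hDG ha))
  have h1 : odL z ∈ comms G ⊔ Submodule.span ℚ (Set.range fun i => odL (Z i)) := by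
    refine Submodule.mem_sup_right ?_
    have h2 : Submodule.map odL (Submodule.span ℚ (Set.range Z)) =
        Submodule.span ℚ (Set.range fun i => odL (Z i)) := by
      rw [Submodule.map_span, ← Set.range_comp]; rfl
    rw [← h2]
    exact ⟨z, hLZ hz, rfl⟩
  have h2 := Submodule.pow_mem_pow _ h1 M
  rw [hM, Submodule.mem_bot] at h2
  refine ⟨2 * M, ev_inj ?_⟩
  rw [← hpow, mul_comm, pow_mul, h2]
  rcases Nat.eq_zero_or_pos M with h0 | h0
  · subst h0
    rw [pow_zero] at h2
    rw [pow_two, mul_zero]
    rfl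
  · rw [zero_pow (by omega)]; rfl

end Triple

end Pool.Agent.Helper69K1
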