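import Pool.Agent.Helper69K1.Slice
import Pool.Agent.Helper69K1.Nil

/-!
# Fitting decompositions
-/

set_option linter.unusedSectionVars false

namespace Pool.Agent.Helper69K1

open Module

section Fitting

variable {V : Type*} [AddCommGroup V] [Module ℚ V] [FiniteDimensional ℚ V]

theorem mem_ker_of_pow {X : End ℚ V} {d k : ℕ} (hd : finrank ℚ V ≤ d) {v : V}
    (h : (X ^ k) v = 0) : (X ^ d) v = 0 := by
  have h1 : v ∈ LinearMap.ker (X ^ finrank ℚ V) :=
    Module.End.ker_pow_le_ker_pow_finrank X k (LinearMap.mem_ker.2 h)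
  rw [LinearMap.mem_ker] at h1
  rw [← Nat.sub_add_cancel hd, pow_add, Module.End.mul_apply, h1, map_zero]

theorem fitting (X : End ℚ V) {d : ℕ} (hd : finrank ℚ V ≤ d) :
    IsCompl (LinearMap.ker (X ^ d)) (LinearMap.range (X ^ d)) := by
  have hdis : Disjoint (LinearMap.ker (X ^ d)) (LinearMap.range (X ^ d)) := by
    rw [Submodule.disjoint_def]
    rintro _ hv ⟨u, rfl⟩
    rw [LinearMap.mem_ker, ← Module.End.mul_apply, ← pow_add] at hv
    exact mem_ker_of_pow hd hv
  refine ⟨hdis, codisjoint_iff.2 (Submodule.eq_top_of_disjoint _ _ ?_ hdis)⟩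
  rw [add_comm]
  exact (LinearMap.finrank_range_add_finrank_ker (X ^ d)).ge

theorem neg_pow_apply {M : Type*} [AddCommGroup M] [Module ℚ M] (f : End ℚ M) (k : ℕ) (z : M) :
    ((-f) ^ k) z = (-1 : ℚ) ^ k • (f ^ k) z := by
  induction k with
  | zero => simp
  | succ k ih =>
      rw [pow_succ', Module.End.mul_apply, ih, map_smul, pow_succ' f, Module.End.mul_apply,
        LinearMap.neg_apply, pow_succ]
      simp

/-- The commutator with an endomorphism. -/
def adE (X : End ℚ V) : End ℚ V →ₗ[ℚ] End ℚ V := LinearMap.mulLeft ℚ X - LinearMap.mulRight ℚ X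

theorem adE_apply (X Z : End ℚ V) : adE X Z = X * Z - Z * X := rfl

theorem adE_comm_right (X : End ℚ V) : Commute (adE X) (LinearMap.mulRight ℚ X) :=
  (LinearMap.commute_mulLeft_right X X).sub_left (Commute.refl _)

theorem adE_comm_left (X : End ℚ V) : Commute (adE X) (LinearMap.mulLeft ℚ X) :=
  (Commute.refl _).sub_left (LinearMap.commute_mulLeft_right X X).symm

theorem adE_pow_zero {X Z : End ℚ V} {N i : ℕ} (h : (adE X ^ N) Z = 0) (hi : N ≤ i) :
    (adE X ^ i) Z = 0 := by
  rw [← Nat.sub_add_cancel hi, pow_add, Module.End.mul_apply, h, map_zero]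

theorem ker_stable {X Z : End ℚ V} {N d : ℕ} (hd : finrank ℚ V ≤ d) (h : (adE X ^ N) Z = 0)
    {v : V} (hv : (X ^ d) v = 0) : (X ^ d) (Z v) = 0 := by
  refine mem_ker_of_pow (k := d + N) hd ?_
  have h1 : X ^ (d + N) * Z = ((LinearMap.mulLeft ℚ X) ^ (d + N)) Z := by
    rw [LinearMap.pow_mulLeft, LinearMap.mulLeft_apply]
  have h2 : LinearMap.mulLeft ℚ X = LinearMap.mulRight ℚ X + adE X := by
    rw [adE]; abel
  have h3 : ((LinearMap.mulLeft ℚ X) ^ (d + N)) Z = ∑ m ∈ Finset.range (d + N + 1),
      ((d + N).choose m : ℚ) • ((adE X ^ (d + N - m)) Z * X ^ m) := by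
    rw [h2, (adE_comm_right X).symm.add_pow, LinearMap.sum_apply]
    refine Finset.sum_congr rfl fun m _ => ?_
    rw [← Nat.cast_commute, ← nsmul_eq_mul, LinearMap.smul_apply, Module.End.mul_apply,
      LinearMap.pow_mulRight, LinearMap.mulRight_apply, Nat.cast_smul_eq_nsmul]
  rw [← Module.End.mul_apply, h1, h3, LinearMap.sum_apply]
  refine Finset.sum_eq_zero fun m hm => ?_
  rw [LinearMap.smul_apply, Module.End.mul_apply]
  by_cases hmd : d ≤ m
  · rw [← Nat.sub_add_cancel hmd, pow_add, Module.End.mul_apply, hv, map_zero, map_zero, smul_zero]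
  · rw [adE_pow_zero h (by omega), LinearMap.zero_apply, smul_zero]

theorem range_stable {X Z : End ℚ V} {N d : ℕ} (hd : finrank ℚ V ≤ d) (h : (adE X ^ N) Z = 0)
    {v : V} (hv : v ∈ LinearMap.range (X ^ d)) : Z v ∈ LinearMap.range (X ^ d) := by
  -- the range is stable
  have hr : LinearMap.range (X ^ (d + N)) = LinearMap.range (X ^ d) := by
    refine Submodule.eq_of_le_of_finrank_eq ?_ ?_
    · rintro _ ⟨u, rfl⟩
      exact ⟨(X ^ N) u, by rw [← Module.End.mul_apply, ← pow_add]⟩
    · have h1 := LinearMap.finrank_range_add_finrank_ker (X ^ (d + N))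
      have h2 := LinearMap.finrank_range_add_finrank_ker (X ^ d)
      have h3 : LinearMap.ker (X ^ (d + N)) = LinearMap.ker (X ^ d) := by
        ext u
        rw [LinearMap.mem_ker, LinearMap.mem_ker]
        refine ⟨fun h => mem_ker_of_pow hd h, fun h => ?_⟩
        rw [add_comm, pow_add, Module.End.mul_apply, h, map_zero]
      rw [h3] at h1
      omega
  rw [← hr] at hv
  obtain ⟨u, rfl⟩ := hv
  have h1 : Z * X ^ (d + N) = ((LinearMap.mulRight ℚ X) ^ (d + N)) Z := by
    rw [LinearMap.pow_mulRight, LinearMap.mulRight_apply]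
  have h2 : LinearMap.mulRight ℚ X = LinearMap.mulLeft ℚ X + -adE X := by
    rw [adE]; abel
  have h3 : ((LinearMap.mulRight ℚ X) ^ (d + N)) Z = ∑ m ∈ Finset.range (d + N + 1),
      ((d + N).choose m : ℚ) • (X ^ m * ((-adE X) ^ (d + N - m)) Z) := by
    rw [h2, (adE_comm_left X).symm.neg_right.add_pow, LinearMap.sum_apply]
    refine Finset.sum_congr rfl fun m _ => ?_
    rw [← Nat.cast_commute, ← nsmul_eq_mul, LinearMap.smul_apply, Module.End.mul_apply,
      LinearMap.pow_mulLeft, LinearMap.mulLeft_apply, Nat.cast_smul_eq_nsmul]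
  rw [← Module.End.mul_apply, h1, h3, LinearMap.sum_apply]
  refine Submodule.sum_mem _ fun m hm => ?_
  rw [LinearMap.smul_apply, Module.End.mul_apply]
  refine Submodule.smul_mem _ _ ?_
  by_cases hmd : d ≤ m
  · rw [← Nat.add_sub_cancel' hmd, pow_add, Module.End.mul_apply]
    exact ⟨_, rfl⟩
  · have : ((-adE X) ^ (d + N - m)) Z = 0 := by
      rw [neg_pow_apply, adE_pow_zero h (by omega), smul_zero]
    rw [this, LinearMap.zero_apply, map_zero]
    exact Submodule.zero_mem _

/-- The powers of a line of elements are polynomial. -/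
theorem pow_expand {A : Type*} [Ring A] [Algebra ℚ A] (a b : A) (d : ℕ) :
    ∃ c : ℕ → A, c 0 = a ^ d ∧
      ∀ e : ℚ, (a + e • b) ^ d = ∑ i ∈ Finset.range (d + 1), e ^ i • c i := by
  induction d with
  | zero => exact ⟨fun _ => 1, by simp, fun e => by simp⟩
  | succ d ih =>
      obtain ⟨c, hc0, hc⟩ := ih
      refine ⟨fun i => a * (if i ≤ d then c i else 0) +
        (if i = 0 then 0 else b * c (i - 1)), by simp [hc0, pow_succ'], fun e => ?_⟩
      rw [pow_succ', hc]
      simp only [smul_add, Finset.sum_add_distrib]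
      rw [add_mul, Finset.sum_range_succ _ (d + 1), Finset.sum_range_succ' _ (d + 1)]
      simp only [add_tsub_cancel_right, Nat.add_eq_zero_iff, one_ne_zero, and_false,
        if_false, if_true, smul_zero, add_zero, Finset.mul_sum]
      have h1 : ¬ (d + 1 ≤ d) := by omega
      simp only [h1, if_false, mul_zero, smul_zero, add_zero]
      congr 1
      · refine Finset.sum_congr rfl fun i hi => ?_
        have : i ≤ d := by have := Finset.mem_range.1 hi; omega
        rw [if_pos this, mul_smul_comm]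
      · refine Finset.sum_congr rfl fun i hi => ?_
        rw [smul_mul_smul_comm, pow_succ']

/-- A functional of the powers of a line of endomorphisms. -/
theorem pow_line {A : Type*} [Ring A] [Algebra ℚ A] (f : A →ₗ[ℚ] ℚ) (a b : A) (d : ℕ)
    {s : Set ℚ} (hs : s.Infinite) (h : ∀ e ∈ s, f ((a + e • b) ^ d) = 0) : f (a ^ d) = 0 := by
  obtain ⟨c, hc0, hc⟩ := pow_expand a b d
  set p : Polynomial ℚ := ∑ i ∈ Finset.range (d + 1), Polynomial.monomial i (f (c i)) with hp
  have h1 : ∀ e, p.eval e = f ((a + e • b) ^ d) := by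
    intro e
    rw [hc, map_sum, hp, Polynomial.eval_finsetSum]
    refine Finset.sum_congr rfl fun i _ => ?_
    rw [map_smul, Polynomial.eval_monomial, smul_eq_mul, mul_comm]
  have h2 : p = 0 := by
    refine Polynomial.eq_zero_of_infinite_isRoot p (hs.mono fun e he => ?_)
    rw [Set.mem_ofPred_eq, Polynomial.IsRoot, h1]
    exact h e he
  have h3 := h1 0
  rw [h2, Polynomial.eval_zero, zero_smul, add_zero] at h3
  exact h3.symm

/-- If the stable rank does not increase on the lines through `X` and `w`, then `w` is nilpotent on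
the null component of `X`. -/
theorem nil_of_stuck {X w : End ℚ V} {N d : ℕ} (hd : finrank ℚ V ≤ d) (h : (adE X ^ N) w = 0)
    (hst : ∀ e : ℚ, e ≠ 0 → finrank ℚ (LinearMap.range ((w + e • X) ^ d)) ≤
      finrank ℚ (LinearMap.range (X ^ d))) {v : V} (hv : (X ^ d) v = 0) : (w ^ d) v = 0 := by
  have hX : (adE X ^ 1) X = 0 := by rw [pow_one, adE_apply, sub_self]
  set V0 := LinearMap.ker (X ^ d) with hV0
  set V1 := LinearMap.range (X ^ d) with hV1
  have hcompl : IsCompl V0 V1 := fitting X hd
  have s1 : ∀ e : ℚ, ∀ u ∈ V1, (w + e • X) u ∈ V1 := fun e u hu => by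
    rw [LinearMap.add_apply, LinearMap.smul_apply]
    exact V1.add_mem (range_stable hd h hu) (V1.smul_mem _ (range_stable hd hX hu))
  have s0 : ∀ e : ℚ, ∀ u ∈ V0, (w + e • X) u ∈ V0 := fun e u hu => by
    rw [LinearMap.add_apply, LinearMap.smul_apply]
    exact V0.add_mem (ker_stable hd h hu) (V0.smul_mem _ (ker_stable hd hX hu))
  have w1 : ∀ u ∈ V1, w u ∈ V1 := fun u hu => range_stable hd h hu
  have X1 : ∀ u ∈ V1, X u ∈ V1 := fun u hu => range_stable hd hX hu
  -- `X` is bijective on `V1`
  have hinj : Function.Injective (X.restrict X1) := by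
    rw [← LinearMap.ker_eq_bot, LinearMap.ker_eq_bot']
    rintro ⟨u, hu⟩ h0
    have h1 : X u = 0 := congrArg Subtype.val h0
    have h2 : u ∈ V0 := by
      rcases Nat.eq_zero_or_pos d with hd0 | hd0
      · have : finrank ℚ V = 0 := by omega
        have : Subsingleton V := Module.finrank_zero_iff.1 this
        rw [Subsingleton.elim u 0]; exact V0.zero_mem
      · rw [hV0, LinearMap.mem_ker, ← Nat.sub_add_cancel hd0, pow_add, pow_one,
          Module.End.mul_apply, h1, map_zero]
    exact Subtype.ext (Submodule.disjoint_def.1 hcompl.disjoint u h2 hu)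
  let E : V1 ≃ₗ[ℚ] V1 := LinearEquiv.ofInjectiveEndo _ hinj
  let T : End ℚ V1 := E.symm.toLinearMap ∘ₗ (w.restrict w1)
  have hfin : {e : ℚ | (T.HasEigenvalue (-e))}.Finite := by
    have h1 := Module.End.finite_hasEigenvalue (f := T)
    exact h1.preimage neg_injective.injOn
  have key : ∀ e : ℚ, ¬ T.HasEigenvalue (-e) → e ≠ 0 → ((w + e • X) ^ d) v = 0 := by
    intro e he he0
    have hinj2 : ∀ u ∈ V1, (w + e • X) u = 0 → u = 0 := by
      intro u hu h0
      by_contra hne
      apply he
      refine Module.End.hasEigenvalue_of_hasEigenvector (x := ⟨u, hu⟩) ⟨?_, fun h => hne ?_⟩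
      · rw [Module.End.mem_eigenspace_iff]
        change E.symm (w.restrict w1 ⟨u, hu⟩) = _
        rw [LinearEquiv.symm_apply_eq]
        refine Subtype.ext ?_
        have h2 : ((E ((-e) • (⟨u, hu⟩ : V1)) : V1) : V) = (-e) • X u := by
          rw [map_smul]
          rfl
        rw [h2]
        change w u = _
        rw [LinearMap.add_apply, LinearMap.smul_apply] at h0
        rw [neg_smul]
        exact eq_neg_of_add_eq_zero_left h0
      · exact congrArg Subtype.val h
    -- the range contains `V1`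
    have hsurj : ∀ k : ℕ, ∀ u ∈ V1, ∃ u' ∈ V1, ((w + e • X) ^ k) u' = u := by
      have h1 : Function.Surjective ((w + e • X).restrict (s1 e)) := by
        rw [← LinearMap.injective_iff_surjective, ← LinearMap.ker_eq_bot, LinearMap.ker_eq_bot']
        rintro ⟨u, hu⟩ h0
        exact Subtype.ext (hinj2 u hu (congrArg Subtype.val h0))
      intro k
      induction k with
      | zero => intro u hu; exact ⟨u, hu, by simp⟩
      | succ k ih =>
          intro u hu
          obtain ⟨⟨u1, hu1⟩, h2⟩ := h1 ⟨u, hu⟩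
          obtain ⟨u2, hu2, h3⟩ := ih u1 hu1
          refine ⟨u2, hu2, ?_⟩
          rw [pow_succ', Module.End.mul_apply, h3]
          exact congrArg Subtype.val h2
    have hle : V1 ≤ LinearMap.range ((w + e • X) ^ d) := by
      intro u hu
      obtain ⟨u', -, hu'⟩ := hsurj d u hu
      exact ⟨u', hu'⟩
    have heq : V1 = LinearMap.range ((w + e • X) ^ d) :=
      Submodule.eq_of_le_of_finrank_le hle (hst e he0)
    have h3 : ((w + e • X) ^ d) v ∈ V1 := by rw [heq]; exact ⟨v, rfl⟩
    have h4 : ∀ k : ℕ, ((w + e • X) ^ k) v ∈ V0 := by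
      intro k
      induction k with
      | zero => rw [pow_zero]; exact hv
      | succ k ih =>
          rw [pow_succ', Module.End.mul_apply]
          exact s0 e _ ih
    exact Submodule.disjoint_def.1 hcompl.disjoint _ (h4 d) h3
  refine (Module.forall_dual_apply_eq_zero_iff ℚ _).1 fun φ => ?_
  exact pow_line (φ ∘ₗ (LinearMap.applyₗ v)) w X d ((hfin.insert 0).infinite_compl)
    fun e he => by
      change φ (((w + e • X) ^ d) v) = 0
      rw [key e (fun h => he (Set.mem_insert_of_mem _ h))
        (fun h => he (by rw [h]; exact Set.mem_insert _ _)), map_zero]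

end Fitting

end Pool.Agent.Helper69K1
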