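import Pool.Agent.Helper69K1.AlgLts

/-!
# The conjugate space of a matrix space
-/

set_option linter.unusedSectionVars false

namespace Pool.Agent.Helper69K1

open Module Pool.Agent.NPC Pool.Agent.NPC.H532 Pool.Agent.H420_NCF Pool.Agent.H687R2.LLL

variable {α γ : Type} [TEnc α] [TEnc γ]

/-! ## Kernels of tables -/

/-- The vectors of length `M` which are killed by the functionals `φ x`. -/
noncomputable def kerT (M : ℕ) (cols : List γ) (φ : γ → ℕ → ℤ) : List (List ℤ) :=
  kerF ((List.range M).map fun k => cols.map fun x => φ x k)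

theorem poly_kerT {M : α → ℕ} {cols : α → List γ} {φ : α → γ → ℕ → ℤ} (hM : UPoly M)
    (hc : Poly cols) (hφ : Poly (fun p : (α × ℕ) × γ => φ p.1.1 p.2 p.1.2)) :
    Poly (fun a => kerT (M a) (cols a) (φ a)) := by
  unfold kerT
  refine poly_kerF.comp (NPC.Poly.map (F := fun a k => (cols a).map fun x => φ a x k) hM.range ?_)
  exact NPC.Poly.map (α := α × ℕ) (l := fun p => cols p.1) (F := fun p x => φ p.1 x p.2)
    (hc.comp (Poly.fst Poly.id)) hφ

theorem kerT_spec (M : ℕ) (cols : List γ) (φ : γ → ℕ → ℤ) :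
    (∀ u ∈ kerT M cols φ, u.length = M ∧
      ∀ x ∈ cols, ∑ k ∈ Finset.range M, u.getD k 0 * φ x k = 0) ∧
    ∀ c : ℕ → ℚ, (∀ x ∈ cols, ∑ k ∈ Finset.range M, c k * (φ x k : ℚ) = 0) →
      (fun k : Fin M => c k) ∈ vspan M (kerT M cols φ) := by
  set X : List (List ℤ) := (List.range M).map fun k => cols.map fun x => φ x k with hX
  have hXl : X.length = M := by simp [hX]
  have hXg : ∀ k < M, X.getD k [] = cols.map fun x => φ x k := by
    intro k hk
    rw [List.getD_eq_getElem _ _ (by omega)]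
    simp [hX]
  obtain ⟨h1, h2⟩ := kerF_spec X cols.length (by
    intro r hr
    rw [hX, List.mem_map] at hr
    obtain ⟨k, -, rfl⟩ := hr
    simp)
  constructor
  · intro u hu
    obtain ⟨h3, h4⟩ := h1 u hu
    refine ⟨h3.trans hXl, fun x hx => ?_⟩
    obtain ⟨j, hj, rfl⟩ := List.getElem_of_mem hx
    have h5 := h4 j
    rw [form, hXl] at h5
    refine Eq.trans ?_ h5
    refine Finset.sum_congr rfl fun k hk => ?_
    rw [hXg k (Finset.mem_range.1 hk)]
    have h6 : (cols.map fun x => φ x k).getD j 0 = φ cols[j] k := by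
      rw [List.getD_eq_getElem _ _ (by simpa using hj), List.getElem_map]
    rw [h6]
    rfl
  · intro c hc
    have key : ∀ (M' : ℕ), X.length = M' → (fun k : Fin M' => c k) ∈ vspan M' (kerF X) := by
      rintro M' rfl
      refine h2 (fun i => c i) ?_
      funext j
      rw [Finset.sum_apply, Pi.zero_apply, ← hc _ (List.getElem_mem j.2), ← hXl,
        ← Fin.sum_univ_eq_sum_range (fun k => c k * (φ cols[(j : ℕ)] k : ℚ)) X.length]
      refine Finset.sum_congr rfl fun k _ => ?_
      rw [Pi.smul_apply, smul_eq_mul, vq, hXg k (by omega),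
        List.getD_eq_getElem _ _ (by simp)]
      simp
    exact key M hXl

/-! ## Vectors as matrices -/

/-- The matrix of a sequence. -/
def um (N : ℕ) (c : ℕ → ℚ) : Matrix (Fin N) (Fin N) ℚ := fun i j => c (i * N + j)

/-- The matrix of a list. -/
def unflat (N : ℕ) (u : List ℤ) : Mat := tab N fun i j => u.getD (i * N + j) 0

theorem mq_unflat (N : ℕ) (u : List ℤ) : mq N (unflat N u) = um N (qv u) := by
  ext i j
  rw [mq, unflat, entry_tab _ i.2 j.2]
  rfl

theorem idx_lt {N : ℕ} (i j : Fin N) : (i : ℕ) * N + j < N * N := by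
  have h1 : (i : ℕ) * N + j < (i + 1) * N := by
    have := j.2
    rw [add_mul, one_mul]
    omega
  exact lt_of_lt_of_le h1 (Nat.mul_le_mul_right _ i.2)

theorem idx_div {N : ℕ} (i j : Fin N) : ((i : ℕ) * N + j) / N = i ∧ ((i : ℕ) * N + j) % N = j := by
  have hN : 0 < N := lt_of_le_of_lt (Nat.zero_le _) i.2
  constructor
  · rw [Nat.mul_comm, Nat.mul_add_div hN, Nat.div_eq_of_lt j.2, Nat.add_zero]
  · rw [Nat.mul_comm, Nat.mul_add_mod, Nat.mod_eq_of_lt j.2]

/-- A sequence with a given matrix. -/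
def fm (N : ℕ) (Y : Matrix (Fin N) (Fin N) ℚ) : ℕ → ℚ := fun k =>
  if h : k < N * N then
    Y ⟨k / N, Nat.div_lt_of_lt_mul h⟩ ⟨k % N, Nat.mod_lt _ (Nat.pos_of_ne_zero (by
      rintro rfl; simp at h))⟩ else 0

theorem um_fm (N : ℕ) (Y : Matrix (Fin N) (Fin N) ℚ) : um N (fm N Y) = Y := by
  ext i j
  rw [um, fm, dif_pos (idx_lt i j)]
  obtain ⟨h1, h2⟩ := idx_div i j
  congr 1
  · exact Fin.ext h1
  · exact Fin.ext h2

theorem sum_idx (N : ℕ) (f : ℕ → ℚ) :
    ∑ k ∈ Finset.range (N * N), f k = ∑ i : Fin N, ∑ j : Fin N, f (i * N + j) := by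
  rw [← Fin.sum_univ_eq_sum_range, ← Fintype.sum_prod_type' (fun i j : Fin N => f (i * N + j))]
  refine (Fintype.sum_equiv finProdFinEquiv (fun p : Fin N × Fin N => f (p.1 * N + p.2))
    (fun k => f k) fun p => ?_).symm
  rw [finProdFinEquiv_apply_val]
  congr 1
  ring

/-- The pairing of a sequence with a matrix. -/
def pr (N : ℕ) (c : ℕ → ℚ) (M : Matrix (Fin N) (Fin N) ℚ) : ℚ :=
  ∑ i : Fin N, ∑ j : Fin N, c (i * N + j) * M i j

theorem pr_mq (N : ℕ) (c : ℕ → ℚ) (B : Mat) :
    ∑ k ∈ Finset.range (N * N), c k * ((entry B (k / N) (k % N) : ℤ) : ℚ) = pr N c (mq N B) := by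
  rw [sum_idx, pr]
  refine Finset.sum_congr rfl fun i _ => Finset.sum_congr rfl fun j _ => ?_
  obtain ⟨h1, h2⟩ := idx_div i j
  rw [h1, h2]
  rfl

/-- The pairing with a fixed matrix. -/
noncomputable def prL (N : ℕ) (M : Matrix (Fin N) (Fin N) ℚ) : (Fin (N * N) → ℚ) →ₗ[ℚ] ℚ :=
  ∑ k : Fin (N * N), fm N M k • LinearMap.proj k

theorem prL_apply (N : ℕ) (M : Matrix (Fin N) (Fin N) ℚ) (c : ℕ → ℚ) :
    prL N M (fun k => c k) = pr N c M := by
  rw [prL, LinearMap.sum_apply]
  have h1 : ∀ k : Fin (N * N), (fm N M k • (LinearMap.proj k : (Fin (N * N) → ℚ) →ₗ[ℚ] ℚ))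
      (fun k => c k) = (fun k : ℕ => c k * fm N M k) k := fun k => by
    simp [mul_comm]
  rw [Finset.sum_congr rfl fun k _ => h1 k,
    Fin.sum_univ_eq_sum_range (fun k => c k * fm N M k) (N * N), sum_idx, pr]
  refine Finset.sum_congr rfl fun i _ => Finset.sum_congr rfl fun j _ => ?_
  have := congrFun (congrFun (um_fm N M) i) j
  rw [um] at this
  rw [this]

/-- The functionals which vanish on the combinations. -/
noncomputable def annF (N : ℕ) (Bs : List Mat) : List (List ℤ) :=
  kerT (N * N) Bs fun B k => entry B (k / N) (k % N)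

theorem poly_annF {N : α → ℕ} {Bs : α → List Mat} (hN : UPoly N) (hB : Poly Bs) :
    Poly (fun a => annF (N a) (Bs a)) := by
  unfold annF
  refine poly_kerT (φ := fun a B k => entry B (k / N a) (k % N a)) (hN.mul hN) hB ?_
  have h1 : Poly (fun p : (α × ℕ) × Mat => N p.1.1) :=
    hN.toPoly.comp (Poly.fst (Poly.fst Poly.id))
  exact Poly_entry (Poly.snd Poly.id) (NPC.Poly.div (Poly.snd (Poly.fst Poly.id)) h1)
    (NPC.Poly.mod (Poly.snd (Poly.fst Poly.id)) h1)

theorem mem_spB_iff_ann {N : ℕ} {Bs : List Mat} {M : Matrix (Fin N) (Fin N) ℚ} :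
    M ∈ spB N Bs ↔ ∀ l ∈ annF N Bs, pr N (qv l) M = 0 := by
  obtain ⟨h1, h2⟩ := kerT_spec (N * N) Bs fun B k => entry B (k / N) (k % N)
  constructor
  · intro h l hl
    obtain ⟨c, rfl⟩ := mem_spB.1 h
    obtain ⟨-, h3⟩ := h1 l hl
    have h4 : ∀ B ∈ Bs, pr N (qv l) (mq N B) = 0 := by
      intro B hB
      rw [← pr_mq]
      have := h3 B hB
      have h5 : ((∑ k ∈ Finset.range (N * N), l.getD k 0 * entry B (k / N) (k % N) : ℤ) : ℚ) = 0 := by
        rw [this]; rfl
      push_cast at h5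
      exact h5
    unfold pr at h4 ⊢
    simp only [cq, Matrix.sum_apply, Matrix.smul_apply, smul_eq_mul, Finset.mul_sum]
    calc ∑ i : Fin N, ∑ j : Fin N, ∑ k ∈ Finset.range Bs.length,
          qv l (i * N + j) * (c k * mq N (Bs.getD k []) i j)
        = ∑ k ∈ Finset.range Bs.length, c k * ∑ i : Fin N, ∑ j : Fin N,
          qv l (i * N + j) * mq N (Bs.getD k []) i j := by
          rw [Finset.sum_congr rfl fun i _ => Finset.sum_comm, Finset.sum_comm]
          refine Finset.sum_congr rfl fun k _ => ?_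
          rw [Finset.mul_sum]
          refine Finset.sum_congr rfl fun i _ => ?_
          rw [Finset.mul_sum]
          refine Finset.sum_congr rfl fun j _ => ?_
          ring
      _ = 0 := by
          refine Finset.sum_eq_zero fun k hk => ?_
          have hk' := Finset.mem_range.1 hk
          rw [List.getD_eq_getElem _ _ hk', h4 _ (List.getElem_mem _), mul_zero]
  · intro h
    by_contra hM
    obtain ⟨f, hf1, hf2⟩ := Submodule.exists_le_ker_of_notMem hM
    set c : ℕ → ℚ := fm N (fun i j => f (Matrix.single i j 1)) with hc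
    have hpr : ∀ X : Matrix (Fin N) (Fin N) ℚ, pr N c X = f X := by
      intro X
      conv_rhs => rw [Matrix.matrix_eq_sum_single X, map_sum]
      rw [pr]
      refine Finset.sum_congr rfl fun i _ => ?_
      rw [map_sum]
      refine Finset.sum_congr rfl fun j _ => ?_
      have h3 := congrFun (congrFun (um_fm N (fun i j => f (Matrix.single i j 1))) i) j
      rw [um] at h3
      rw [hc, h3]
      have h4 : Matrix.single i j (X i j) = X i j • Matrix.single i j (1 : ℚ) := by
        rw [Matrix.smul_single, smul_eq_mul, mul_one]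
      rw [h4, map_smul, smul_eq_mul, mul_comm]
    apply hf1
    rw [← hpr, ← prL_apply]
    have h5 := h2 c fun B hB => by
      rw [pr_mq, hpr]
      exact hf2 (Submodule.subset_span ⟨B, hB, rfl⟩)
    have h6 : vspan (N * N) (annF N Bs) ≤ LinearMap.ker (prL N M) := by
      refine Submodule.span_le.2 ?_
      rintro _ ⟨l, hl, rfl⟩
      have := prL_apply N M (qv l)
      rw [h l hl] at this
      exact this
    exact h6 h5

end Pool.Agent.Helper69K1
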