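import Pool.Agent.TH335.LS.Net

set_option autoImplicit false

/-!
# A half twist on four strands of an alternating link: the argument at the points of an ordered set

`BNet` is the network of the white regions of an alternating diagram with one additional vertex of
valence eight (the box), at a point `r` of an ordered set on which the group acts. `HS` collects what
the maximum principle gives for the eight regions at the box, together with the relations of the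
half twist.
-/

namespace Pool.Agent.Helper69K1.HT

open Pool.Agent.TH335.LS Relation

section
variable {H X : Type*} [Group H] [CompleteLinearOrder X]

/-! ### The network with a box -/

section net
variable {V R : Type*} {star : V → List (R ⊕ Fin 4)} {opp : R → V} {u : R ⊕ Fin 4 → H}
  {val : V → X} {x : Fin 4 → V}

/-- The data of a network at the point `r`: potentials `val`, currents `u`; `x i` are the nodes at
the box. -/
structure BNet (ρ : Act H X) (star : V → List (R ⊕ Fin 4)) (opp : R → V) (u : R ⊕ Fin 4 → H)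
    (val : V → X) (x : Fin 4 → V) (r : X) : Prop where
  le : ∀ n, ∀ k, Sum.inl k ∈ star n → val (opp k) ≤ val n → ρ.f (u (Sum.inl k)) r ≤ r
  ge : ∀ n, ∀ k, Sum.inl k ∈ star n → val n ≤ val (opp k) → r ≤ ρ.f (u (Sum.inl k)) r
  eq : ∀ n, ∀ k, Sum.inl k ∈ star n → ρ.f (u (Sum.inl k)) r = r → val (opp k) = val n
  closed : ∀ n, ((star n).map u).prod = 1
  box : ∀ n i, Sum.inr i ∈ star n → x i = n
  conn : ∀ n, ∃ i, ReflTransGen (fun a b => ∃ k, Sum.inl k ∈ star a ∧ opp k = b) n (x i)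
  link : ReflTransGen (fun a b => (∃ k, Sum.inl k ∈ star a ∧ opp k = b) ∧ b ≠ x 0 ∧ b ≠ x 2)
    (x 1) (x 3)
  ne02 : x 0 ≠ x 2
  ne10 : x 1 ≠ x 0
  ne12 : x 1 ≠ x 2
  corner : ∀ i, Sum.inr i ∈ star (x i)

variable {ρ : Act H X} {r : X}

theorem BNet.dual (h : BNet ρ star opp u val x r) :
    BNet (X := Xᵒᵈ) ρ.dual star opp u val x r :=
  ⟨h.ge, h.le, h.eq, h.closed, h.box, h.conn, h.link, h.ne02, h.ne10, h.ne12, h.corner⟩

theorem BNet.ne30 (h : BNet ρ star opp u val x r) : x 3 ≠ x 0 ∧ x 3 ≠ x 2 := by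
  have : ∀ n, ReflTransGen (fun a b => (∃ k, Sum.inl k ∈ star a ∧ opp k = b) ∧ b ≠ x 0 ∧ b ≠ x 2)
      (x 1) n → n ≠ x 0 ∧ n ≠ x 2 := by
    intro n hn
    induction hn with
    | refl => exact ⟨h.ne10, h.ne12⟩
    | tail _ hab _ => exact hab.2
  exact this _ h.link

/-- Local maximum principle. -/
theorem BNet.fix (h : BNet ρ star opp u val x r) {n : V}
    (hmax : ∀ k, Sum.inl k ∈ star n → val (opp k) ≤ val n)
    (hbox : ∀ i, x i = n → ρ.f (u (Sum.inr i)) r ≤ r) :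
    (∀ k, Sum.inl k ∈ star n → val (opp k) = val n) ∧
      ∀ i, x i = n → ρ.f (u (Sum.inr i)) r = r := by
  have h1 : ∀ g ∈ (star n).map u, ρ.f g r ≤ r := by
    intro g hg
    obtain ⟨k, hk, rfl⟩ := List.mem_map.mp hg
    rcases k with k | i
    · exact h.le n k hk (hmax k hk)
    · exact hbox i (h.box n i hk)
  have h2 := ρ.list_eq ((star n).map u) h1 (by rw [h.closed, ρ.one])
  refine ⟨fun k hk => h.eq n k hk (h2 _ (List.mem_map_of_mem hk)), fun i hi => ?_⟩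
  subst hi
  exact h2 _ (List.mem_map_of_mem (h.corner i))

/-- Some node at the box is a maximum. -/
theorem BNet.port_max [Finite V] (h : BNet ρ star opp u val x r) :
    ∃ i, ∀ n, val n ≤ val (x i) := by
  obtain ⟨M, hM⟩ : ∃ M, ∀ n, val n ≤ val M := by
    have : Nonempty V := ⟨x 0⟩
    exact Finite.exists_max val
  obtain ⟨i, hi⟩ := h.conn M
  have : ∀ n m, ReflTransGen (fun a b => ∃ k, Sum.inl k ∈ star a ∧ opp k = b) n m →
      (∃ i, x i = m) → val n = val M → ∃ i, val (x i) = val M := by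
    intro n m hnm
    induction hnm using ReflTransGen.head_induction_on with
    | refl => rintro ⟨i, rfl⟩ h1; exact ⟨i, h1⟩
    | @head a b hab _ ih =>
      intro hm ha
      by_cases hp : ∃ i, x i = a
      · obtain ⟨i, rfl⟩ := hp; exact ⟨i, ha⟩
      · obtain ⟨k, hk, rfl⟩ := hab
        refine ih hm ?_
        rw [(h.fix (fun k _ => ha ▸ hM _) (fun i hi => absurd ⟨i, hi⟩ hp)).1 k hk, ha]
  obtain ⟨j, hj⟩ := this _ _ hi ⟨i, rfl⟩ rfl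
  exact ⟨j, fun n => hj ▸ hM n⟩

/-- A maximum at `x 1` is passed on to `x 3`. -/
theorem BNet.link_max (h : BNet ρ star opp u val x r) (h1 : ∀ n, val n ≤ val (x 1))
    (hu : ρ.f (u (Sum.inr 1)) r ≤ r) : val (x 3) = val (x 1) := by
  by_contra hcon
  have key : ∀ n, ReflTransGen
      (fun a b => (∃ k, Sum.inl k ∈ star a ∧ opp k = b) ∧ b ≠ x 0 ∧ b ≠ x 2) (x 1) n →
      val n = val (x 1) ∧ n ≠ x 0 ∧ n ≠ x 2 := by
    intro n hn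
    induction hn with
    | refl => exact ⟨rfl, h.ne10, h.ne12⟩
    | @tail a b _ hab ih =>
      obtain ⟨⟨k, hk, rfl⟩, hb⟩ := hab
      refine ⟨?_, hb⟩
      rw [← ih.1]
      refine (h.fix (fun k _ => ih.1 ▸ h1 _) (fun i hi => ?_)).1 k hk
      fin_cases i
      · exact absurd hi.symm ih.2.1
      · exact hu
      · exact absurd hi.symm ih.2.2
      · exfalso
        apply hcon
        have : x 3 = a := hi
        rw [this]; exact ih.1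
  exact hcon (key _ h.link).1

/-- `x 3` is a maximum if `x 1` is not below `x 0`, `x 2` and the current at `x 1` flows out. -/
theorem BNet.pA [Finite V] (h : BNet ρ star opp u val x r) (h0 : val (x 0) ≤ val (x 1))
    (h2 : val (x 2) ≤ val (x 1)) (hu : ρ.f (u (Sum.inr 1)) r ≤ r) :
    (∀ n, val n ≤ val (x 3)) ∧ r ≤ ρ.f (u (Sum.inr 3)) r := by
  have h3 : ∀ n, val n ≤ val (x 3) := by
    obtain ⟨i, hi⟩ := h.port_max
    have h4 : (∀ n, val n ≤ val (x 1)) → ∀ n, val n ≤ val (x 3) := fun h5 n => by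
      rw [h.link_max h5 hu]; exact h5 n
    fin_cases i
    · exact h4 fun n => (hi n).trans h0
    · exact h4 hi
    · exact h4 fun n => (hi n).trans h2
    · exact hi
  refine ⟨h3, ?_⟩
  by_contra hcon
  rw [not_le] at hcon
  refine absurd ((h.fix (fun k _ => h3 _) (fun i hi => ?_)).2 3 rfl) (ne_of_lt hcon)
  fin_cases i
  · exact absurd hi.symm h.ne30.1
  · exact hu
  · exact absurd hi.symm h.ne30.2
  · exact hcon.le

theorem BNet.pB [Finite V] (h : BNet ρ star opp u val x r) (h0 : val (x 0) < val (x 3))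
    (h2 : val (x 2) < val (x 3)) (hu : ρ.f (u (Sum.inr 3)) r < r) :
    val (x 0) < val (x 1) ∧ val (x 2) < val (x 1) ∧ r < ρ.f (u (Sum.inr 1)) r := by
  have h4 : (∀ n, val n ≤ val (x 3)) → r < ρ.f (u (Sum.inr 1)) r ∧ x 1 = x 3 := by
    intro h3
    have h5 : ∀ P : Prop, (x 1 = x 3 → ρ.f (u (Sum.inr 1)) r ≤ r ∨ P) → P := by
      intro P hP
      by_contra hcon
      refine absurd ((h.fix (fun k _ => h3 _) (fun i hi => ?_)).2 3 rfl) (ne_of_lt hu)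
      fin_cases i
      · exact absurd hi.symm h.ne30.1
      · exact (hP hi).resolve_right hcon
      · exact absurd hi.symm h.ne30.2
      · exact hu.le
    refine ⟨h5 _ fun _ => ?_, h5 _ fun h6 => Or.inr h6⟩
    exact le_or_gt _ _
  obtain ⟨i, hi⟩ := h.port_max
  fin_cases i
  · exact absurd (hi (x 3)) (not_le.mpr h0)
  · have h5 : ∀ n, val n ≤ val (x 1) := hi
    refine ⟨h0.trans_le (h5 _), h2.trans_le (h5 _), ?_⟩
    by_contra hcon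
    rw [not_lt] at hcon
    have h6 := h.link_max h5 hcon
    exact absurd (h4 fun n => h6 ▸ h5 n).1 (not_lt.mpr hcon)
  · exact absurd (hi (x 3)) (not_le.mpr h2)
  · have h5 : ∀ n, val n ≤ val (x 3) := hi
    have h6 := h4 h5
    rw [h6.2]
    exact ⟨h0, h2, h6.1⟩

theorem BNet.pC [Finite V] (h : BNet ρ star opp u val x r) (h0 : val (x 0) < val (x 3))
    (h2 : val (x 2) < val (x 3)) (h1 : val (x 1) < val (x 3)) :
    r ≤ ρ.f (u (Sum.inr 3)) r := by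
  obtain ⟨i, hi⟩ := h.port_max
  fin_cases i
  · exact absurd (hi (x 3)) (not_le.mpr h0)
  · exact absurd (hi (x 3)) (not_le.mpr h1)
  · exact absurd (hi (x 3)) (not_le.mpr h2)
  · by_contra hcon
    rw [not_le] at hcon
    have h5 : ∀ n, val n ≤ val (x 3) := hi
    refine absurd ((h.fix (fun k _ => h5 _) (fun i hi => ?_)).2 3 rfl) (ne_of_lt hcon)
    fin_cases i
    · exact absurd hi.symm h.ne30.1
    · have : x 1 = x 3 := hi
      rw [this] at h1; exact absurd h1 (lt_irrefl _)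
    · exact absurd hi.symm h.ne30.2
    · exact hcon.le

theorem BNet.all_le [Finite V] (h : BNet ρ star opp u val x r) {i : Fin 4}
    (hi : ∀ j, val (x j) ≤ val (x i)) (n : V) : val n ≤ val (x i) := by
  obtain ⟨j, hj⟩ := h.port_max
  exact (hj n).trans (hi j)

theorem BNet.pD [Finite V] (h : BNet ρ star opp u val x r)
    (hi : ∀ j, val (x j) ≤ val (x 0)) : r ≤ ρ.f (u (Sum.inr 0)) r := by
  by_contra hcon
  rw [not_le] at hcon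
  refine absurd ((h.fix (fun k _ => h.all_le hi _) (fun i hi => ?_)).2 0 rfl) (ne_of_lt hcon)
  fin_cases i
  · exact hcon.le
  · exact absurd hi h.ne10
  · exact absurd hi.symm h.ne02
  · exact absurd hi h.ne30.1

theorem BNet.pE [Finite V] (h : BNet ρ star opp u val x r)
    (hi : ∀ j, val (x j) ≤ val (x 2)) : r ≤ ρ.f (u (Sum.inr 2)) r := by
  by_contra hcon
  rw [not_le] at hcon
  refine absurd ((h.fix (fun k _ => h.all_le hi _) (fun i hi => ?_)).2 2 rfl) (ne_of_lt hcon)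
  fin_cases i
  · exact absurd hi h.ne02
  · exact absurd hi h.ne12
  · exact hcon.le
  · exact absurd hi h.ne30.2

end net

/-! ### The half twist -/

/-- The relations of the half twist and the maximum principles. `1, w, l, w'` are the white regions
`x 0, x 1, x 2, x 3` at the box, `b₁, b₃, b₃', b₁'` the black regions `y 0, y 1, y 2, y 3`. -/
structure HS (ρ : Act H X) (w l w' b₁ b₃ b₃' b₁' : H) : Prop where
  r1 : b₃ = b₁' * l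
  r2 : w = w'⁻¹ * l
  r3 : b₁ = b₁' * w' * b₁'⁻¹ * b₃' * w'⁻¹ * l
  /-- minimum at `w` -/
  a : ∀ r, ρ.f w r ≤ r → ρ.f b₁ r ≤ ρ.f b₃ r → ρ.f w r ≤ ρ.f l r →
    ρ.f w' r ≤ r ∧ ρ.f b₁' r ≤ ρ.f b₃' r ∧ ρ.f w' r ≤ ρ.f l r
  /-- maximum at `w` -/
  a' : ∀ r, r ≤ ρ.f w r → ρ.f b₃ r ≤ ρ.f b₁ r → ρ.f l r ≤ ρ.f w r →
    r ≤ ρ.f w' r ∧ ρ.f b₃' r ≤ ρ.f b₁' r ∧ ρ.f l r ≤ ρ.f w' r
  b : ∀ r, ρ.f w' r < r → ρ.f b₃' r < ρ.f b₁' r → ρ.f w' r < ρ.f l r →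
    ρ.f w r < r ∧ ρ.f b₃ r < ρ.f b₁ r ∧ ρ.f w r < ρ.f l r
  b' : ∀ r, r < ρ.f w' r → ρ.f b₁' r < ρ.f b₃' r → ρ.f l r < ρ.f w' r →
    r < ρ.f w r ∧ ρ.f b₁ r < ρ.f b₃ r ∧ ρ.f l r < ρ.f w r
  c : ∀ r, ρ.f w' r < r → ρ.f w' r < ρ.f l r → ρ.f w' r < ρ.f w r → ρ.f b₁' r ≤ ρ.f b₃' r
  c' : ∀ r, r < ρ.f w' r → ρ.f l r < ρ.f w' r → ρ.f w r < ρ.f w' r → ρ.f b₃' r ≤ ρ.f b₁' r
  d : ∀ r, ρ.f w r ≤ r → ρ.f w' r ≤ r → ρ.f l r ≤ r → ρ.f b₁' r ≤ ρ.f b₁ r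
  d' : ∀ r, r ≤ ρ.f w r → r ≤ ρ.f w' r → r ≤ ρ.f l r → ρ.f b₁ r ≤ ρ.f b₁' r
  e : ∀ r, ρ.f l r ≤ ρ.f w r → ρ.f l r ≤ ρ.f w' r → ρ.f l r ≤ r → ρ.f b₃' r ≤ ρ.f b₃ r
  e' : ∀ r, ρ.f w r ≤ ρ.f l r → ρ.f w' r ≤ ρ.f l r → r ≤ ρ.f l r → ρ.f b₃ r ≤ ρ.f b₃' r

variable {ρ : Act H X} {w l w' b₁ b₃ b₃' b₁' : H}

theorem HS.dual (h : HS ρ w l w' b₁ b₃ b₃' b₁') :
    HS (X := Xᵒᵈ) ρ.dual w l w' b₁ b₃ b₃' b₁' :=
  ⟨h.r1, h.r2, h.r3, h.a', h.a, h.b', h.b, h.c', h.c, h.d', h.d, h.e', h.e⟩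

/-- fixed points -/
def Fx (ρ : Act H X) (w l b₁ b₃ : H) (r : X) : Prop :=
  ρ.f w r = r ∧ ρ.f l r = r ∧ ρ.f b₁ r = ρ.f b₃ r

theorem HS.w_inv (h : HS ρ w l w' b₁ b₃ b₃' b₁') (r : X) : ρ.f w (ρ.f w⁻¹ r) = r :=
  ρ.self_inv w r

theorem HS.l_inv (h : HS ρ w l w' b₁ b₃ b₃' b₁') (r : X) : ρ.f l (ρ.f w⁻¹ r) = ρ.f w' r := by
  rw [← ρ.mul]; congr 2; rw [h.r2]; group

theorem HS.inv_le (h : HS ρ w l w' b₁ b₃ b₃' b₁') (r : X) :
    ρ.f w⁻¹ r ≤ r ↔ ρ.f w' r ≤ ρ.f l r := by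
  rw [← h.l_inv, (ρ.f l).le_iff_le]

theorem HS.le_inv (h : HS ρ w l w' b₁ b₃ b₃' b₁') (r : X) :
    r ≤ ρ.f w⁻¹ r ↔ ρ.f l r ≤ ρ.f w' r := by
  rw [← h.l_inv, (ρ.f l).le_iff_le]

theorem HS.b_inv (h : HS ρ w l w' b₁ b₃ b₃' b₁') (r : X) :
    ρ.f b₃ (ρ.f w⁻¹ r) ≤ ρ.f b₁ (ρ.f w⁻¹ r) ↔ ρ.f b₁' r ≤ ρ.f b₃' r := by
  rw [← ρ.inv_mul_le b₁ b₃, ← ρ.inv_mul_le b₃' b₁', ← ρ.mul,
    show b₁⁻¹ * b₃ * w⁻¹ = w⁻¹ * (b₃'⁻¹ * b₁') by rw [h.r1, h.r2, h.r3]; group, ρ.mul,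
    (ρ.f w⁻¹).le_iff_le]

theorem HS.b_inv' (h : HS ρ w l w' b₁ b₃ b₃' b₁') (r : X) :
    ρ.f b₁ (ρ.f w⁻¹ r) ≤ ρ.f b₃ (ρ.f w⁻¹ r) ↔ ρ.f b₃' r ≤ ρ.f b₁' r :=
  HS.b_inv (X := Xᵒᵈ) h.dual r

theorem HS.pos (h : HS ρ w l w' b₁ b₃ b₃' b₁') {r : X} (h1 : ρ.f w r ≤ r)
    (h2 : ρ.f b₁ r ≤ ρ.f b₃ r) (h3 : ρ.f w r ≤ ρ.f l r) : Fx ρ w l b₁ b₃ r := by
  obtain ⟨h4, h5, h6⟩ := h.a r h1 h2 h3
  have h7 : ρ.f w⁻¹ r = r := le_antisymm ((h.inv_le r).mpr h6) ((ρ.le_inv w r).mpr h1)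
  have h8 : ρ.f w r = r := by
    have := h.w_inv r
    rwa [h7] at this
  have h9 := (h.b_inv r).mpr h5
  rw [h7] at h9
  have h10 := h.l_inv r
  rw [h7] at h10
  rw [← h10] at h4
  rw [h8] at h3
  exact ⟨h8, le_antisymm h4 h3, le_antisymm h2 h9⟩

theorem HS.neg (h : HS ρ w l w' b₁ b₃ b₃' b₁') {r : X} (h1 : r ≤ ρ.f w r)
    (h2 : ρ.f b₃ r ≤ ρ.f b₁ r) (h3 : ρ.f l r ≤ ρ.f w r) : Fx ρ w l b₁ b₃ r :=
  HS.pos (X := Xᵒᵈ) h.dual (r := r) h1 h2 h3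

theorem Fx.of_inv {r : X} (h : Fx ρ w l b₁ b₃ (ρ.f w⁻¹ r)) : Fx ρ w l b₁ b₃ r := by
  have h1 : ρ.f w⁻¹ r = r := by
    have := h.1
    rw [ρ.self_inv] at this
    exact this.symm
  rwa [h1] at h

theorem HS.posR (h : HS ρ w l w' b₁ b₃ b₃' b₁') {r : X} (h1 : ρ.f w' r ≤ r)
    (h2 : ρ.f b₁' r ≤ ρ.f b₃' r) (h3 : ρ.f w' r ≤ ρ.f l r) : Fx ρ w l b₁ b₃ r := by
  apply Fx.of_inv
  apply h.neg
  · rw [ρ.self_inv]; exact (h.inv_le r).mpr h3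
  · exact (h.b_inv r).mpr h2
  · rw [ρ.self_inv, h.l_inv]; exact h1

theorem HS.negR (h : HS ρ w l w' b₁ b₃ b₃' b₁') {r : X} (h1 : r ≤ ρ.f w' r)
    (h2 : ρ.f b₃' r ≤ ρ.f b₁' r) (h3 : ρ.f l r ≤ ρ.f w' r) : Fx ρ w l b₁ b₃ r :=
  HS.posR (X := Xᵒᵈ) h.dual (r := r) h1 h2 h3

theorem HS.noR (h : HS ρ w l w' b₁ b₃ b₃' b₁') {r : X} (h1 : ρ.f w' r < r)
    (h2 : ρ.f b₃' r < ρ.f b₁' r) (h3 : ρ.f w' r < ρ.f l r) : False := by
  have h4 := (h.b r h1 h2 h3).1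
  have h5 := (h.inv_le r).mpr h3.le
  rw [ρ.inv_le] at h5
  exact absurd h4 (not_lt.mpr h5)

theorem HS.noR' (h : HS ρ w l w' b₁ b₃ b₃' b₁') {r : X} (h1 : r < ρ.f w' r)
    (h2 : ρ.f b₁' r < ρ.f b₃' r) (h3 : ρ.f l r < ρ.f w' r) : False :=
  HS.noR (X := Xᵒᵈ) h.dual (r := r) h1 h2 h3

theorem HS.noL (h : HS ρ w l w' b₁ b₃ b₃' b₁') {r : X} (h1 : ρ.f w r < r)
    (h2 : ρ.f b₃ r < ρ.f b₁ r) (h3 : ρ.f w r < ρ.f l r) : False := by
  have h4 : ρ.f w⁻¹ (ρ.f w r) = r := ρ.inv_self w r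
  refine h.noR' (r := ρ.f w r) ?_ ?_ ?_
  · rw [← h.l_inv, h4]; exact h3
  · rw [← not_le, ← h.b_inv', h4, not_le]; exact h2
  · rw [← not_le, ← h.inv_le, h4, not_le]; exact h1

theorem HS.step (h : HS ρ w l w' b₁ b₃ b₃' b₁') {r : X} (h1 : ρ.f w r ≤ r)
    (h2 : ρ.f l r ≤ ρ.f w r) : Fx ρ w l b₁ b₃ r ∨
      (ρ.f w' r ≤ r ∧ ρ.f l r ≤ ρ.f w' r ∧ ρ.f b₃ r ≤ ρ.f b₁' r ∧ ρ.f b₁' r ≤ ρ.f b₁ r ∧
        ρ.f b₃' r ≤ ρ.f b₃ r) := by
  by_cases h3 : ρ.f w' r ≤ r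
  · by_cases h4 : ρ.f l r ≤ ρ.f w' r
    · refine Or.inr ⟨h3, h4, ?_, h.d r h1 h3 (h2.trans h1), h.e r h2 h4 (h2.trans h1)⟩
      rw [h.r1, ρ.mul]
      exact (ρ.f b₁').monotone (h2.trans h1)
    · rw [not_le] at h4
      have h5 := h.c r (h4.trans_le (h2.trans h1)) h4 (h4.trans_le h2)
      exact Or.inl (h.posR h3 h5 h4.le)
  · rw [not_le] at h3
    have h5 := h.c' r h3 ((h2.trans h1).trans_lt h3) (h1.trans_lt h3)
    exact Or.inl (h.negR h3.le h5 ((h2.trans h1).trans_lt h3).le)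

theorem HS.inner (h : HS ρ w l w' b₁ b₃ b₃' b₁') {r : X} (h1 : ρ.f w r ≤ r)
    (h2 : ρ.f l r ≤ ρ.f w r) : Fx ρ w l b₁ b₃ r := by
  rcases h.step h1 h2 with h3 | ⟨h3, h4, h5, h6, h7⟩
  · exact h3
  rcases h.step (r := ρ.f w⁻¹ r) (by rw [ρ.self_inv]; exact (h.le_inv r).mpr h4)
    (by rw [ρ.self_inv, h.l_inv]; exact h3) with h8 | ⟨-, -, h8, h9, -⟩
  · exact h8.of_inv
  have h10 := (h.b_inv r).mp (h8.trans h9)
  have h11 : ρ.f b₁' (ρ.f l r) = ρ.f b₁' r := by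
    rw [← ρ.mul, ← h.r1]
    exact le_antisymm h5 (h10.trans h7)
  have h12 : ρ.f l r = r := (ρ.f b₁').injective h11
  rw [h12] at h2
  refine h.neg h2 (h5.trans h6) ?_
  rw [h12]; exact h2

theorem HS.inner' (h : HS ρ w l w' b₁ b₃ b₃' b₁') {r : X} (h1 : r ≤ ρ.f w r)
    (h2 : ρ.f w r ≤ ρ.f l r) : Fx ρ w l b₁ b₃ r :=
  HS.inner (X := Xᵒᵈ) h.dual (r := r) h1 h2

theorem HS.fx (h : HS ρ w l w' b₁ b₃ b₃' b₁') (r : X) : Fx ρ w l b₁ b₃ r := by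
  rcases le_or_gt (ρ.f w r) r with h1 | h1
  · rcases le_or_gt (ρ.f l r) (ρ.f w r) with h2 | h2
    · exact h.inner h1 h2
    · rcases h1.lt_or_eq with h3 | h3
      · rcases le_or_gt (ρ.f b₁ r) (ρ.f b₃ r) with h4 | h4
        · exact h.pos h1 h4 h2.le
        · exact (h.noL h3 h4 h2).elim
      · exact h.inner' h3.ge h2.le
  · rcases le_or_gt (ρ.f w r) (ρ.f l r) with h2 | h2
    · exact h.inner' h1.le h2
    · rcases le_or_gt (ρ.f b₃ r) (ρ.f b₁ r) with h4 | h4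
      · exact h.neg h1.le h4 h2.le
      · exact (HS.noL (X := Xᵒᵈ) h.dual (r := r) h1 h4 h2).elim

theorem HS.fx' (h : HS ρ w l w' b₁ b₃ b₃' b₁') (r : X) :
    ρ.f w' r = r ∧ ρ.f b₁' r = ρ.f b₃' r := by
  obtain ⟨h1, h2, h3⟩ := h.fx (ρ.f w⁻¹ r)
  have h4 : ρ.f w⁻¹ r = r := by rw [ρ.self_inv] at h1; exact h1.symm
  refine ⟨?_, le_antisymm ((h.b_inv r).mp h3.ge) ((h.b_inv' r).mp h3.le)⟩
  rw [← h.l_inv, h2, h4]

end

end Pool.Agent.Helper69K1.HT
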