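import Pool.Agent.Helper69K1.Search

/-!
# Kernels of iterated commutators in polynomial time
-/

set_option linter.unusedSectionVars false

namespace Pool.Agent.Helper69K1

open Module Pool.Agent.NPC Pool.Agent.NPC.H532 Pool.Agent.H420_NCF Pool.Agent.H687R2.LLL

variable {α : Type} [TEnc α]

/-- The commutator. -/
def brk (N : ℕ) (p B : Mat) : Mat :=
  tab N fun i j => ((List.range N).map fun k =>
    entry p i k * entry B k j - entry B i k * entry p k j).sum

theorem poly_brk {N : α → ℕ} {p B : α → Mat} (hN : UPoly N) (hp : Poly p) (hB : Poly B) :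
    Poly (fun a => brk (N a) (p a) (B a)) := by
  unfold brk
  refine Poly_tab (f := fun a i j => ((List.range (N a)).map fun k =>
    entry (p a) i k * entry (B a) k j - entry (B a) i k * entry (p a) k j).sum) hN ?_
  refine Poly_sumZ ?_
  have h1 : Poly (fun p : (α × ℕ) × ℕ => p.1.1) := Poly.fst (Poly.fst Poly.id)
  refine NPC.Poly.map (α := (α × ℕ) × ℕ)
    (F := fun q k => entry (p q.1.1) q.1.2 k * entry (B q.1.1) k q.2 -
      entry (B q.1.1) q.1.2 k * entry (p q.1.1) k q.2) (hN.comp h1).range ?_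
  have h2 : Poly (fun p : ((α × ℕ) × ℕ) × ℕ => p.1.1.1) := Poly.fst (Poly.fst (Poly.fst Poly.id))
  have h3 : Poly (fun p : ((α × ℕ) × ℕ) × ℕ => p.1.1.2) := Poly.snd (Poly.fst (Poly.fst Poly.id))
  have h4 : Poly (fun p : ((α × ℕ) × ℕ) × ℕ => p.1.2) := Poly.snd (Poly.fst Poly.id)
  have h5 : Poly (fun p : ((α × ℕ) × ℕ) × ℕ => p.2) := Poly.snd Poly.id
  exact Poly_subZ
    (Poly_mulZ (Poly_entry (hp.comp h2) h3 h5) (Poly_entry (hB.comp h2) h5 h4))
    (Poly_mulZ (Poly_entry (hB.comp h2) h3 h5) (Poly_entry (hp.comp h2) h5 h4))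

theorem list_sum_range (N : ℕ) (f : ℕ → ℤ) :
    (((List.range N).map f).sum : ℚ) = ∑ k : Fin N, (f k : ℚ) := by
  rw [Fin.sum_univ_eq_sum_range (fun k => (f k : ℚ)) N]
  induction N with
  | zero => simp
  | succ N ih =>
      rw [List.range_succ, List.map_append, List.sum_append, Finset.sum_range_succ]
      push_cast
      push_cast at ih
      rw [ih]
      simp

theorem mq_brk (N : ℕ) (p B : Mat) :
    mq N (brk N p B) = mq N p * mq N B - mq N B * mq N p := by
  ext i j
  rw [mq, brk, entry_tab _ i.2 j.2, list_sum_range, Matrix.sub_apply, Matrix.mul_apply,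
    Matrix.mul_apply, ← Finset.sum_sub_distrib]
  refine Finset.sum_congr rfl fun k _ => ?_
  push_cast
  rfl

theorem mq_brk_iter (N : ℕ) (p B : Mat) (E : ℕ) :
    mq N ((brk N p)^[E] B) = (adR ℚ (mq N p) ^ E) (mq N B) := by
  induction E with
  | zero => rfl
  | succ E ih =>
      rw [Function.iterate_succ_apply', mq_brk, ih, pow_succ', Module.End.mul_apply, adR_apply]

theorem MB_brk {N : ℕ} {p B : Mat} {a b : ℕ} (hp : MB p a) (hB : MB B b) :
    MB (brk N p B) (b + (a + 1 + N.size)) := by
  refine MB_tab fun i _ j _ => ?_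
  have := ib_list_sum ((List.range N).map fun k =>
    entry p i k * entry B k j - entry B i k * entry p k j) (a + b + 1) (by
    intro z hz
    simp only [List.mem_map, List.mem_range] at hz
    obtain ⟨k, _, rfl⟩ := hz
    have h1 := ib_mul (entry p i k) (entry B k j)
    have h2 := ib_entry_le hp i k
    have h3 := ib_entry_le hB k j
    have h4 := ib_mul (entry B i k) (entry p k j)
    have h5 := ib_entry_le hB i k
    have h6 := ib_entry_le hp k j
    have h7 := ib_add (entry p i k * entry B k j) (-(entry B i k * entry p k j))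
    rw [ib_neg] at h7
    rw [sub_eq_add_neg]
    have h8 : max (ib (entry p i k * entry B k j)) (ib (entry B i k * entry p k j)) ≤ a + b := by
      rw [max_le_iff]
      omega
    omega)
  simp only [List.length_map, List.length_range] at this
  omega

theorem MB_iter {N : ℕ} {p B : Mat} {a b : ℕ} (hp : MB p a) (hB : MB B b) (k : ℕ) :
    MB ((brk N p)^[k] B) (b + k * (a + 1 + N.size)) := by
  induction k with
  | zero => simpa using hB
  | succ k ih =>
      rw [Function.iterate_succ_apply']
      have h1 : b + (k + 1) * (a + 1 + N.size) =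
          b + k * (a + 1 + N.size) + (a + 1 + N.size) := by ring
      rw [h1]
      exact MB_brk hp ih

theorem poly_brk_iter {N E : α → ℕ} {p B : α → Mat} (hN : UPoly N) (hE : UPoly E) (hp : Poly p)
    (hB : Poly B) : Poly (fun a => (brk (N a) (p a))^[E a] (B a)) := by
  obtain ⟨rp, hrp⟩ := hp.sz_le
  obtain ⟨rB, hrB⟩ := hB.sz_le
  obtain ⟨rN, hrN⟩ := hN.sz_le
  obtain ⟨rE, hrE⟩ := hE.sz_le
  refine (Poly.iterLen (l := fun a => List.replicate (E a) ()) (s := B)
    (F := fun a s => brk (N a) (p a) s) hE hB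
    (poly_brk (hN.comp (Poly.fst Poly.id)) (hp.comp (Poly.fst Poly.id)) (Poly.snd Poly.id))
    (rB + rN * (rN * (Polynomial.C 4 * (rB + rE * (rp + Polynomial.C 1 + rN)) + Polynomial.C 6) +
      Polynomial.C 2) + Polynomial.C 1) ?_).congr fun a => by rw [List.length_replicate]
  intro a k hk
  change sz ((brk (N a) (p a))^[k] (B a)) ≤ _
  rw [List.length_replicate] at hk
  have hpa := hrp a
  have hBa := hrB a
  have hNa := hrN a
  have hEa := hrE a
  have hN1 : N a ≤ rN.eval (sz a) := by
    have := length_lt_sz (List.replicate (N a) ())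
    rw [List.length_replicate] at this
    omega
  have hE1 : E a ≤ rE.eval (sz a) := by
    have := length_lt_sz (List.replicate (E a) ())
    rw [List.length_replicate] at this
    omega
  simp only [Polynomial.eval_add, Polynomial.eval_mul, Polynomial.eval_C]
  cases k with
  | zero =>
      rw [Function.iterate_zero, id_eq]
      omega
  | succ k =>
      rw [Function.iterate_succ_apply']
      have hmb := MB_iter (N := N a) (MB_sz (p a)) (MB_sz (B a)) (k + 1)
      rw [Function.iterate_succ_apply'] at hmb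
      have hs := Poly.size_le_self (N a)
      have hkk : (k + 1) * (sz (p a) + 1 + (N a).size) ≤
          rE.eval (sz a) * (rp.eval (sz a) + 1 + rN.eval (sz a)) :=
        Nat.mul_le_mul (by omega) (by omega)
      have h1 : sz (brk (N a) (p a) ((brk (N a) (p a))^[k] (B a))) ≤ N a * (N a *
          (4 * (rB.eval (sz a) + rE.eval (sz a) * (rp.eval (sz a) + 1 + rN.eval (sz a))) + 6) + 2)
          + 1 := by
        rw [brk]
        refine sz_tab_le fun i hi j hj => ?_
        have := ib_entry_le hmb i j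
        rw [brk, entry_tab _ hi hj] at this
        omega
      have h2 : N a * (4 * (rB.eval (sz a) + rE.eval (sz a) *
          (rp.eval (sz a) + 1 + rN.eval (sz a))) + 6) ≤ rN.eval (sz a) * (4 * (rB.eval (sz a) +
          rE.eval (sz a) * (rp.eval (sz a) + 1 + rN.eval (sz a))) + 6) :=
        Nat.mul_le_mul_right _ hN1
      have h3 := Nat.mul_le_mul hN1 (Nat.add_le_add_right h2 2)
      omega

/-- The list of the entries. -/
def flat (N : ℕ) (B : Mat) : List ℤ := (List.range (N * N)).map fun k => entry B (k / N) (k % N)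

theorem poly_flat {N : α → ℕ} {B : α → Mat} (hN : UPoly N) (hB : Poly B) :
    Poly (fun a => flat (N a) (B a)) := by
  unfold flat
  refine NPC.Poly.map (F := fun a k => entry (B a) (k / N a) (k % N a)) (hN.mul hN).range ?_
  have h1 : Poly (fun p : α × ℕ => N p.1) := hN.toPoly.comp (Poly.fst Poly.id)
  exact Poly_entry (hB.comp (Poly.fst Poly.id)) (NPC.Poly.div (Poly.snd Poly.id) h1)
    (NPC.Poly.mod (Poly.snd Poly.id) h1)

theorem length_flat (N : ℕ) (B : Mat) : (flat N B).length = N * N := by simp [flat]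

theorem getD_flat (N : ℕ) (B : Mat) {k : ℕ} (hk : k < N * N) :
    (flat N B).getD k 0 = entry B (k / N) (k % N) := by
  rw [List.getD_eq_getElem _ _ (by rw [length_flat]; exact hk)]
  simp [flat]

/-- The kernel of an iterated commutator. -/
noncomputable def kdir (N E : ℕ) (p : Mat) (Bs : List Mat) : List (List ℤ) :=
  kerF (Bs.map fun B => flat N ((brk N p)^[E] B))

theorem poly_kdir {N E : α → ℕ} {p : α → Mat} {Bs : α → List Mat} (hN : UPoly N) (hE : UPoly E)
    (hp : Poly p) (hB : Poly Bs) : Poly (fun a => kdir (N a) (E a) (p a) (Bs a)) := by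
  unfold kdir
  refine poly_kerF.comp (NPC.Poly.map (F := fun a B => flat (N a) ((brk (N a) (p a))^[E a] B))
    hB ?_)
  exact poly_flat (hN.comp (Poly.fst Poly.id)) (poly_brk_iter (hN.comp (Poly.fst Poly.id))
    (hE.comp (Poly.fst Poly.id)) (hp.comp (Poly.fst Poly.id)) (Poly.snd Poly.id))

theorem eq_zero_iff_flat (N : ℕ) (f : ℕ → ℕ → ℚ) :
    (∀ i j : Fin N, f i j = 0) ↔ ∀ k < N * N, f (k / N) (k % N) = 0 := by
  constructor
  · intro h k hk
    have hN : 0 < N := by
      rcases Nat.eq_zero_or_pos N with h0 | h0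
      · subst h0; simp at hk
      · exact h0
    exact h ⟨k / N, Nat.div_lt_of_lt_mul hk⟩ ⟨k % N, Nat.mod_lt _ hN⟩
  · intro h i j
    have h1 := h (i * N + j) (by
      have : (i : ℕ) * N + j < (i + 1) * N := by
        have := j.2
        rw [add_mul, one_mul]
        omega
      exact lt_of_lt_of_le this (Nat.mul_le_mul_right _ i.2))
    have hN : 0 < N := lt_of_le_of_lt (Nat.zero_le _) i.2
    rwa [Nat.mul_comm, Nat.mul_add_div hN, Nat.div_eq_of_lt j.2, Nat.add_zero,
      Nat.mul_add_mod, Nat.mod_eq_of_lt j.2] at h1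

/-- Relations between the flattened images are relations between the images. -/
theorem rel_flat (N : ℕ) (Bs : List Mat) (g : Mat → Mat) (c : ℕ → ℚ) :
    (∀ k < N * N, ∑ i ∈ Finset.range Bs.length, c i * (((flat N (g (Bs.getD i []))).getD k 0 : ℤ) : ℚ)
      = 0) ↔ ∑ i ∈ Finset.range Bs.length, c i • mq N (g (Bs.getD i [])) = 0 := by
  have h1 := eq_zero_iff_flat N fun a b =>
    ∑ i ∈ Finset.range Bs.length, c i * ((entry (g (Bs.getD i [])) a b : ℤ) : ℚ)
  constructor
  · intro h
    have h2 := h1.2 fun k hk => by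
      rw [← h k hk]
      refine Finset.sum_congr rfl fun i _ => ?_
      rw [getD_flat N _ hk]
    ext a b
    rw [Matrix.sum_apply, Matrix.zero_apply]
    exact h2 a b
  · intro h k hk
    have h2 : ∀ a b : Fin N, ∑ i ∈ Finset.range Bs.length,
        c i * ((entry (g (Bs.getD i [])) a b : ℤ) : ℚ) = 0 := by
      intro a b
      have h3 := congrFun (congrFun h a) b
      rw [Matrix.sum_apply, Matrix.zero_apply] at h3
      exact h3
    rw [← h1.1 h2 k hk]
    refine Finset.sum_congr rfl fun i _ => ?_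
    rw [getD_flat N _ hk]

theorem kdir_spec (N E : ℕ) (p : Mat) (Bs : List Mat) :
    (∀ u ∈ kdir N E p Bs, u.length = Bs.length ∧ (adR ℚ (mq N p) ^ E) (cq N Bs (qv u)) = 0) ∧
    ∀ c : ℕ → ℚ, (adR ℚ (mq N p) ^ E) (cq N Bs c) = 0 →
      cq N Bs c ∈ Submodule.span ℚ {M | ∃ u ∈ kdir N E p Bs, M = cq N Bs (qv u)} := by
  set g : Mat → Mat := fun B => (brk N p)^[E] B with hg
  set X : List (List ℤ) := Bs.map fun B => flat N (g B) with hX
  have hXl : X.length = Bs.length := by rw [hX, List.length_map]
  have hXg : ∀ i < Bs.length, X.getD i [] = flat N (g (Bs.getD i [])) := by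
    intro i hi
    rw [List.getD_eq_getElem _ _ (by omega), List.getD_eq_getElem _ _ hi]
    simp only [hX, List.getElem_map]
  obtain ⟨h1, h2⟩ := kerF_spec X (N * N) (by
    intro r hr
    rw [hX, List.mem_map] at hr
    obtain ⟨B, -, rfl⟩ := hr
    exact length_flat _ _)
  have himg : ∀ c : ℕ → ℚ, (adR ℚ (mq N p) ^ E) (cq N Bs c) =
      ∑ i ∈ Finset.range Bs.length, c i • mq N (g (Bs.getD i [])) := by
    intro c
    rw [cq, map_sum]
    refine Finset.sum_congr rfl fun i _ => ?_
    rw [map_smul, hg, mq_brk_iter]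
  refine ⟨fun u hu => ?_, fun c hc => ?_⟩
  · obtain ⟨h3, h4⟩ := h1 u hu
    refine ⟨h3.trans hXl, ?_⟩
    rw [himg, ← rel_flat]
    intro k _
    have h5 := h4 k
    rw [form, hXl] at h5
    have h6 : ((∑ i ∈ Finset.range Bs.length, ent u i * (X.getD i []).getD k 0 : ℤ) : ℚ) = 0 := by
      rw [h5]; rfl
    push_cast at h6
    rw [← h6]
    refine Finset.sum_congr rfl fun i hi => ?_
    rw [hXg i (Finset.mem_range.1 hi)]
    rfl
  · have h5 := h2 (fun i => c i) (by
      rw [himg, ← rel_flat] at hc
      funext k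
      rw [Finset.sum_apply, Pi.zero_apply, ← hc k k.2]
      rw [← hXl, ← Fin.sum_univ_eq_sum_range (fun i => c i *
        (((flat N (g (Bs.getD i []))).getD k 0 : ℤ) : ℚ)) X.length]
      refine Finset.sum_congr rfl fun i _ => ?_
      rw [Pi.smul_apply, smul_eq_mul, vq, hXg i (by omega)])
    set L : (Fin X.length → ℚ) →ₗ[ℚ] Matrix (Fin N) (Fin N) ℚ :=
      ∑ i : Fin X.length, (LinearMap.proj i : (Fin X.length → ℚ) →ₗ[ℚ] ℚ).smulRight
        (mq N (Bs.getD i [])) with hL
    have hLc : ∀ d : ℕ → ℚ, L (fun i => d i) = cq N Bs d := by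
      intro d
      rw [hL, LinearMap.sum_apply, cq, ← hXl,
        ← Fin.sum_univ_eq_sum_range (fun i => d i • mq N (Bs.getD i [])) X.length]
      refine Finset.sum_congr rfl fun i _ => ?_
      simp [LinearMap.smulRight_apply]
    rw [← hLc]
    have h6 := Submodule.mem_map_of_mem (f := L) h5
    rw [vspan, Submodule.map_span] at h6
    refine Submodule.span_mono ?_ h6
    rintro _ ⟨_, ⟨u, hu, rfl⟩, rfl⟩
    exact ⟨u, hu, hLc (qv u)⟩

end Pool.Agent.Helper69K1
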