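import Mathlib

/-!
# Sums of products of quotients of linear forms: limits
-/

set_option linter.unusedSectionVars false

namespace Pool.Agent.Helper69K1

open Filter Topology

section limits

theorem rho_out {a b c : ℂ} (hb : b ≠ 0) :
    Tendsto (fun t : ℂ => t ^ 2 / (a + t * b + t ^ 2 * c)) (𝓝[≠] 0) (𝓝 0) ∧
      ∀ᶠ t in 𝓝[≠] (0 : ℂ), a + t * b + t ^ 2 * c ≠ 0 := by
  by_cases ha : a = 0
  · subst ha
    have h1 : Tendsto (fun t : ℂ => b + t * c) (𝓝[≠] 0) (𝓝 b) := by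
      have : ContinuousAt (fun t : ℂ => b + t * c) 0 := by fun_prop
      have h := this.tendsto
      simp only [zero_mul, add_zero] at h
      exact h.mono_left nhdsWithin_le_nhds
    have h2 : Tendsto (fun t : ℂ => t) (𝓝[≠] 0) (𝓝 0) :=
      tendsto_id.mono_left nhdsWithin_le_nhds
    have h3 : ∀ᶠ t in 𝓝[≠] (0 : ℂ), b + t * c ≠ 0 := h1.eventually_ne hb
    have h4 : ∀ᶠ t in 𝓝[≠] (0 : ℂ), t ≠ 0 := eventually_mem_nhdsWithin
    refine ⟨?_, ?_⟩
    · have h5 := h2.div h1 hb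
      rw [zero_div] at h5
      refine h5.congr' ?_
      filter_upwards [h3, h4] with t ht ht0
      have : (0 : ℂ) + t * b + t ^ 2 * c = t * (b + t * c) := by ring
      rw [this, pow_two, Pi.div_apply, mul_div_mul_left _ _ ht0]
    · filter_upwards [h3, h4] with t ht ht0
      have : (0 : ℂ) + t * b + t ^ 2 * c = t * (b + t * c) := by ring
      rw [this]
      exact mul_ne_zero ht0 ht
  · have h1 : Tendsto (fun t : ℂ => a + t * b + t ^ 2 * c) (𝓝[≠] 0) (𝓝 a) := by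
      have : ContinuousAt (fun t : ℂ => a + t * b + t ^ 2 * c) 0 := by fun_prop
      have h := this.tendsto
      simp only [zero_mul, add_zero, ne_eq, OfNat.ofNat_ne_zero, not_false_eq_true, zero_pow] at h
      exact h.mono_left nhdsWithin_le_nhds
    have h2 : Tendsto (fun t : ℂ => t ^ 2) (𝓝[≠] 0) (𝓝 0) := by
      have : ContinuousAt (fun t : ℂ => t ^ 2) 0 := by fun_prop
      have h := this.tendsto
      simp only [ne_eq, OfNat.ofNat_ne_zero, not_false_eq_true, zero_pow] at h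
      exact h.mono_left nhdsWithin_le_nhds
    refine ⟨?_, h1.eventually_ne ha⟩
    have h5 := h2.div h1 ha
    rw [zero_div] at h5
    exact h5

end limits

section

variable {V : Type} [AddCommGroup V] [Module ℂ V] {ι : Type} [Fintype ι]

/-- The curve used in the limit. -/
noncomputable def crv (x w y : V) (t : ℂ) : V := x + t • w + t ^ 2 • y

theorem crv_apply (f : V →ₗ[ℂ] ℂ) (x w y : V) (t : ℂ) :
    f (crv x w y t) = f x + t * f w + t ^ 2 * f y := by
  rw [crv, map_add, map_add, map_smul, map_smul, smul_eq_mul, smul_eq_mul]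

/-- **The leading coefficient along a curve.** -/
theorem lead_zero (ℓ : ι → V →ₗ[ℂ] ℂ) {α : Type} [Fintype α] (e : ℕ) (c : α → ℂ)
    (μ : α → Fin e → V →ₗ[ℂ] ℂ) (τ : α → Fin e → ι) (x w y : V) (Z : Set ι)
    (h1 : ∀ i ∈ Z, ℓ i x = 0) (h2 : ∀ i ∈ Z, ℓ i w = 0) (h3 : ∀ i ∈ Z, ℓ i y ≠ 0)
    (h4 : ∀ i ∉ Z, ℓ i w ≠ 0)
    (hR : ∀ t : ℂ, (∀ i, ℓ i (crv x w y t) ≠ 0) →
      ∑ a, c a * ((∏ k, μ a k (crv x w y t)) / ∏ k, ℓ (τ a k) (crv x w y t)) = 0)
    (S : Finset α) (hS : ∀ a, a ∈ S ↔ ∀ k, τ a k ∈ Z) :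
    ∑ a ∈ S, c a * ((∏ k, μ a k x) / ∏ k, ℓ (τ a k) y) = 0 := by
  classical
  -- the individual factors
  have hρ : ∀ i, Tendsto (fun t : ℂ => t ^ 2 / ℓ i (crv x w y t)) (𝓝[≠] 0)
      (𝓝 (if i ∈ Z then 1 / ℓ i y else 0)) := by
    intro i
    by_cases hi : i ∈ Z
    · rw [if_pos hi]
      refine (tendsto_const_nhds (x := 1 / ℓ i y)).congr' ?_
      have h5 : ∀ᶠ t in 𝓝[≠] (0 : ℂ), t ≠ 0 := eventually_mem_nhdsWithin
      filter_upwards [h5] with t ht
      rw [crv_apply, h1 i hi, h2 i hi, mul_zero, zero_add, zero_add]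
      have h6 : t ^ 2 ≠ 0 := pow_ne_zero 2 ht
      rw [div_mul_eq_div_div, div_self h6]
    · rw [if_neg hi]
      have := (rho_out (a := ℓ i x) (c := ℓ i y) (h4 i hi)).1
      refine this.congr fun t => ?_
      rw [crv_apply]
  have hG : ∀ᶠ t in 𝓝[≠] (0 : ℂ), ∀ i, ℓ i (crv x w y t) ≠ 0 := by
    rw [eventually_all]
    intro i
    by_cases hi : i ∈ Z
    · have h5 : ∀ᶠ t in 𝓝[≠] (0 : ℂ), t ≠ 0 := eventually_mem_nhdsWithin
      filter_upwards [h5] with t ht
      rw [crv_apply, h1 i hi, h2 i hi, mul_zero, zero_add, zero_add]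
      exact mul_ne_zero (pow_ne_zero 2 ht) (h3 i hi)
    · have := (rho_out (a := ℓ i x) (c := ℓ i y) (h4 i hi)).2
      filter_upwards [this] with t ht
      rwa [crv_apply]
  have hμ : ∀ f : V →ₗ[ℂ] ℂ, Tendsto (fun t : ℂ => f (crv x w y t)) (𝓝[≠] 0) (𝓝 (f x)) := by
    intro f
    have h5 : ContinuousAt (fun t : ℂ => f x + t * f w + t ^ 2 * f y) 0 := by fun_prop
    have h6 := h5.tendsto
    simp only [zero_mul, add_zero, ne_eq, OfNat.ofNat_ne_zero, not_false_eq_true, zero_pow] at h6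
    refine (h6.mono_left nhdsWithin_le_nhds).congr fun t => ?_
    rw [crv_apply]
  have hlim : Tendsto (fun t : ℂ => ∑ a, c a * ((∏ k, μ a k (crv x w y t)) *
      ∏ k, (t ^ 2 / ℓ (τ a k) (crv x w y t)))) (𝓝[≠] 0)
      (𝓝 (∑ a, c a * ((∏ k, μ a k x) * ∏ k, if τ a k ∈ Z then 1 / ℓ (τ a k) y else 0))) := by
    refine tendsto_finsetSum _ fun a _ => ?_
    refine Tendsto.const_mul _ (Tendsto.mul ?_ ?_)
    · exact tendsto_finsetProd _ fun k _ => hμ _
    · exact tendsto_finsetProd _ fun k _ => hρ _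
  have hzero : Tendsto (fun t : ℂ => ∑ a, c a * ((∏ k, μ a k (crv x w y t)) *
      ∏ k, (t ^ 2 / ℓ (τ a k) (crv x w y t)))) (𝓝[≠] 0) (𝓝 0) := by
    refine (tendsto_const_nhds (x := (0 : ℂ))).congr' ?_
    filter_upwards [hG] with t ht
    have h5 := hR t ht
    have h6 : ∀ a, c a * ((∏ k, μ a k (crv x w y t)) *
        ∏ k, (t ^ 2 / ℓ (τ a k) (crv x w y t))) = (t ^ 2) ^ e *
        (c a * ((∏ k, μ a k (crv x w y t)) / ∏ k, ℓ (τ a k) (crv x w y t))) := by
      intro a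
      rw [Finset.prod_div_distrib, Finset.prod_const, Finset.card_univ, Fintype.card_fin]
      ring
    simp only [h6]
    rw [← Finset.mul_sum, h5, mul_zero]
  have h7 := tendsto_nhds_unique hlim hzero
  rw [← h7]
  have h8 : ∀ a, a ∉ S → c a * ((∏ k, μ a k x) *
      ∏ k, if τ a k ∈ Z then 1 / ℓ (τ a k) y else 0) = 0 := by
    intro a ha
    rw [hS] at ha
    push Not at ha
    obtain ⟨k, hk⟩ := ha
    have h9 : ∏ k, (if τ a k ∈ Z then 1 / ℓ (τ a k) y else 0) = 0 :=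
      Finset.prod_eq_zero (Finset.mem_univ k) (if_neg hk)
    rw [h9, mul_zero, mul_zero]
  rw [← Finset.sum_subset (Finset.subset_univ S) (fun a _ ha => h8 a ha)]
  refine Finset.sum_congr rfl fun a ha => ?_
  have h9 : ∏ k, (if τ a k ∈ Z then 1 / ℓ (τ a k) y else 0) = ∏ k, (1 / ℓ (τ a k) y) :=
    Finset.prod_congr rfl fun k _ => if_pos ((hS a).1 ha k)
  rw [h9, Finset.prod_div_distrib, Finset.prod_const_one, one_div, div_eq_mul_inv]

end

end Pool.Agent.Helper69K1
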