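import Pool.Agent.Helper69K1.Lay1

/-!
# Functions of bounded degree on sets; generic vectors; projections
-/

set_option linter.unusedSectionVars false

namespace Pool.Agent.Helper69K1

section lemmaC

variable {κ : Type} [DecidableEq κ]

/-- A set function of degree at most `e`. -/
def SDeg (e : ℕ) (F : Finset κ → ℂ) : Prop :=
  ∃ Q : Finset κ → ℂ, (∀ J, F J = ∑ K ∈ J.powerset, Q K) ∧ ∀ K, e < K.card → Q K = 0

theorem SDeg.add {e : ℕ} {F G : Finset κ → ℂ} (hF : SDeg e F) (hG : SDeg e G) :
    SDeg e (fun J => F J + G J) := by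
  obtain ⟨Q, h1, h2⟩ := hF
  obtain ⟨P, h3, h4⟩ := hG
  refine ⟨fun K => Q K + P K, fun J => ?_, fun K hK => ?_⟩
  · rw [Finset.sum_add_distrib, ← h1, ← h3]
  · change Q K + P K = 0
    rw [h2 K hK, h4 K hK, add_zero]

theorem SDeg.smul {e : ℕ} {F : Finset κ → ℂ} (c : ℂ) (hF : SDeg e F) :
    SDeg e (fun J => c * F J) := by
  obtain ⟨Q, h1, h2⟩ := hF
  refine ⟨fun K => c * Q K, fun J => ?_, fun K hK => ?_⟩
  · rw [← Finset.mul_sum, ← h1]
  · change c * Q K = 0
    rw [h2 K hK, mul_zero]

theorem SDeg.zero' (e : ℕ) : SDeg e (fun _ : Finset κ => (0 : ℂ)) :=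
  ⟨fun _ => 0, fun _ => by simp, fun _ _ => rfl⟩

theorem SDeg.sum {e : ℕ} {α : Type} (s : Finset α) {F : α → Finset κ → ℂ}
    (h : ∀ a ∈ s, SDeg e (F a)) : SDeg e (fun J => ∑ a ∈ s, F a J) := by
  classical
  induction s using Finset.induction_on with
  | empty => simpa using SDeg.zero' e
  | insert a s ha ih =>
      have h1 := (h a (Finset.mem_insert_self a s)).add
        (ih fun b hb => h b (Finset.mem_insert_of_mem hb))
      convert h1 using 2 with J
      rw [Finset.sum_insert ha]

/-- multiplication by the indicator of an element -/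
theorem SDeg.ind {e : ℕ} {F : Finset κ → ℂ} (hF : SDeg e F) (j : κ) :
    SDeg (e + 1) (fun J => if j ∈ J then F J else 0) := by
  obtain ⟨Q, h1, h2⟩ := hF
  refine ⟨fun K => if j ∈ K then Q K + Q (K.erase j) else 0, fun J => ?_, fun K hK => ?_⟩
  · by_cases hj : j ∈ J
    · simp only [if_pos hj]
      obtain ⟨J', hJ', rfl⟩ : ∃ J', j ∉ J' ∧ J = insert j J' :=
        ⟨J.erase j, Finset.notMem_erase j J, (Finset.insert_erase hj).symm⟩
      rw [h1, Finset.sum_powerset_insert hJ', Finset.sum_powerset_insert hJ']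
      have h3 : ∑ t ∈ J'.powerset, (if j ∈ t then Q t + Q (t.erase j) else 0) = 0 := by
        refine Finset.sum_eq_zero fun t ht => ?_
        rw [if_neg fun h => hJ' (Finset.mem_powerset.1 ht h)]
      rw [h3, zero_add, ← Finset.sum_add_distrib]
      refine Finset.sum_congr rfl fun t ht => ?_
      rw [if_pos (Finset.mem_insert_self j t),
        Finset.erase_insert fun h => hJ' (Finset.mem_powerset.1 ht h)]
      ring
    · simp only [if_neg hj]
      symm
      refine Finset.sum_eq_zero fun t ht => ?_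
      rw [if_neg fun h => hj (Finset.mem_powerset.1 ht h)]
  · by_cases hj : j ∈ K
    · have h3 := Finset.card_erase_add_one hj
      simp only [if_pos hj]
      rw [h2 K (by omega), h2 (K.erase j) (by omega), add_zero]
    · simp only [if_neg hj]

theorem SDeg.mono {e f : ℕ} (h : e ≤ f) {F : Finset κ → ℂ} (hF : SDeg e F) : SDeg f F := by
  obtain ⟨Q, h1, h2⟩ := hF
  exact ⟨Q, h1, fun K hK => h2 K (by omega)⟩

theorem SDeg.lin [Fintype κ] {e : ℕ} {F : Finset κ → ℂ} (hF : SDeg e F) (a : ℂ) (b : κ → ℂ) :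
    SDeg (e + 1) (fun J => (a + ∑ j ∈ J, b j) * F J) := by
  have h1 : SDeg (e + 1) (fun J => a * F J + ∑ j, b j * (if j ∈ J then F J else 0)) :=
    ((hF.smul a).mono (Nat.le_succ e)).add (SDeg.sum Finset.univ fun j _ => (hF.ind j).smul (b j))
  convert h1 using 2 with J
  rw [add_mul]
  congr 1
  rw [Finset.sum_mul, ← Finset.sum_filter_add_sum_filter_not Finset.univ (· ∈ J)
    (fun j => b j * (if j ∈ J then F J else 0))]
  have h2 : ∑ j ∈ Finset.univ.filter (fun j => ¬ j ∈ J), b j * (if j ∈ J then F J else 0) = 0 := by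
    refine Finset.sum_eq_zero fun j hj => ?_
    rw [if_neg (Finset.mem_filter.1 hj).2, mul_zero]
  rw [h2, add_zero]
  have h3 : Finset.univ.filter (· ∈ J) = J := by ext j; simp
  rw [h3]
  refine Finset.sum_congr rfl fun j hj => ?_
  rw [if_pos hj]

theorem SDeg.prod [Fintype κ] : ∀ (e : ℕ) (a : Fin e → ℂ) (b : Fin e → κ → ℂ),
    SDeg e (fun J => ∏ k, (a k + ∑ j ∈ J, b k j)) := by
  intro e
  induction e with
  | zero =>
      intro a b
      refine ⟨fun K => if K = ∅ then 1 else 0, fun J => ?_, fun K hK => ?_⟩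
      · simp
      · change (if K = ∅ then (1 : ℂ) else 0) = 0
        rw [if_neg]
        rintro rfl
        simp at hK
  | succ e ih =>
      intro a b
      have h1 := (ih (fun k => a k.succ) (fun k => b k.succ)).lin (a 0) (b 0)
      convert h1 using 2 with J
      rw [Fin.prod_univ_succ]

/-- A set function of degree at most `e` which vanishes on the small sets vanishes. -/
theorem SDeg.eq_zero {e : ℕ} {F : Finset κ → ℂ} (hF : SDeg e F)
    (h : ∀ J, J.card ≤ e → F J = 0) (J : Finset κ) : F J = 0 := by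
  obtain ⟨Q, h1, h2⟩ := hF
  have h3 : ∀ K, Q K = 0 := by
    intro K
    induction K using Finset.strongInduction with
    | H K ih =>
        by_cases hK : K.card ≤ e
        · have h4 := h K hK
          rw [h1, ← Finset.add_sum_erase _ _ (Finset.mem_powerset_self K)] at h4
          rw [Finset.sum_eq_zero, add_zero] at h4
          · exact h4
          · intro T hT
            rw [Finset.mem_erase, Finset.mem_powerset] at hT
            exact ih T (lt_of_le_of_ne hT.2 hT.1)
        · exact h2 K (by omega)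
  rw [h1]
  exact Finset.sum_eq_zero fun K _ => h3 K

end lemmaC

section

variable {V : Type} [AddCommGroup V] [Module ℂ V]

/-- A form of degree `e` which vanishes at the sums of few vectors vanishes at all sums. -/
theorem form_zero {κ : Type} [Fintype κ] [DecidableEq κ] {α : Type} (S : Finset α) (e : ℕ)
    (c : α → ℂ)
    (μ : α → Fin e → V →ₗ[ℂ] ℂ) (w : V) (u : κ → V)
    (h : ∀ J : Finset κ, J.card ≤ e → ∑ a ∈ S, c a * ∏ k, μ a k (w + ∑ j ∈ J, u j) = 0) :
    ∑ a ∈ S, c a * ∏ k, μ a k (w + ∑ j, u j) = 0 := by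
  have h1 : SDeg e (fun J : Finset κ => ∑ a ∈ S, c a * ∏ k, μ a k (w + ∑ j ∈ J, u j)) := by
    refine SDeg.sum S fun a _ => SDeg.smul _ ?_
    have h2 := SDeg.prod e (fun k => μ a k w) (fun k j => μ a k (u j))
    convert h2 using 2 with J
    refine Finset.prod_congr rfl fun k _ => ?_
    rw [map_add, map_sum]
  exact h1.eq_zero h Finset.univ

/-- Finitely many forms, each nonzero on `U`, are simultaneously nonzero at some vector. -/
theorem exists_genform {ι : Type} [Fintype ι] (ℓ : ι → V →ₗ[ℂ] ℂ) (U : Submodule ℂ V)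
    (s : Set ι) (h : ∀ i ∈ s, ∃ w ∈ U, ℓ i w ≠ 0) : ∃ w ∈ U, ∀ i ∈ s, ℓ i w ≠ 0 := by
  classical
  let F : Finset (Submodule ℂ U) := (Finset.univ.filter (· ∈ s)).image fun i =>
    LinearMap.ker ((ℓ i).comp U.subtype)
  have h1 : (⊤ : Submodule ℂ U) ∉ F := by
    intro hF
    rw [Finset.mem_image] at hF
    obtain ⟨i, hi, h2⟩ := hF
    obtain ⟨w, hw, h3⟩ := h i (Finset.mem_filter.1 hi).2
    apply h3
    have h4 : (⟨w, hw⟩ : U) ∈ LinearMap.ker ((ℓ i).comp U.subtype) := by rw [h2]; trivial
    exact h4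
  have h5 := Subspace.biUnion_ne_univ_of_top_notMem h1
  rw [Set.ne_univ_iff_exists_notMem] at h5
  obtain ⟨w, hw⟩ := h5
  refine ⟨w, w.2, fun i hi h6 => hw ?_⟩
  rw [Set.mem_iUnion₂]
  refine ⟨LinearMap.ker ((ℓ i).comp U.subtype), Finset.mem_image.2 ⟨i, by simpa using hi, rfl⟩, ?_⟩
  exact h6

/-- Projections onto the common zeros of finitely many forms. -/
theorem exists_proj (Z : Submodule ℂ (Module.Dual ℂ V)) [FiniteDimensional ℂ Z] :
    ∃ π : V →ₗ[ℂ] V, (∀ f ∈ Z, ∀ x, f (π x) = 0) ∧
      ∀ f : Module.Dual ℂ V, f - f.comp π ∈ Z := by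
  obtain ⟨q, hq⟩ := Submodule.exists_isCompl (Submodule.dualCoannihilator Z)
  refine ⟨Submodule.projection _ q hq, fun f hf x => ?_, fun f => ?_⟩
  · have h1 : Submodule.projection _ q hq x ∈ Submodule.dualCoannihilator Z := by
      exact Submodule.projection_apply_mem hq x
    rw [Submodule.mem_dualCoannihilator] at h1
    exact h1 f hf
  · have h2 : f - f.comp (Submodule.projection _ q hq) ∈
        (Submodule.dualCoannihilator Z).dualAnnihilator := by
      rw [Submodule.mem_dualAnnihilator]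
      intro w hw
      rw [LinearMap.sub_apply, LinearMap.comp_apply]
      have h3 : Submodule.projection _ q hq w = w := by
        exact Submodule.projection_apply_left hq ⟨w, hw⟩
      rw [h3, sub_self]
    rwa [Subspace.dualCoannihilator_dualAnnihilator_eq] at h2

/-- A form outside a finite-dimensional space of forms is nonzero at a common zero. -/
theorem exists_sep (Z : Submodule ℂ (Module.Dual ℂ V)) [FiniteDimensional ℂ Z]
    {f : Module.Dual ℂ V} (hf : f ∉ Z) : ∃ y, (∀ g ∈ Z, g y = 0) ∧ f y ≠ 0 := by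
  by_contra hcon
  push Not at hcon
  apply hf
  have h2 : f ∈ (Submodule.dualCoannihilator Z).dualAnnihilator := by
    rw [Submodule.mem_dualAnnihilator]
    intro w hw
    rw [Submodule.mem_dualCoannihilator] at hw
    exact hcon w hw
  rwa [Subspace.dualCoannihilator_dualAnnihilator_eq] at h2

end

end Pool.Agent.Helper69K1
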