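import Pool.Agent.Helper69K1.Lay2

/-!
# Sums of products of quotients of linear forms are determined on few directions
-/

set_option linter.unusedSectionVars false

namespace Pool.Agent.Helper69K1

section

variable {V : Type} [AddCommGroup V] [Module ℂ V] {ι : Type} [Fintype ι]

/-- The points at which all forms are nonzero. -/
def Gd (ℓ : ι → V →ₗ[ℂ] ℂ) : Set V := {x | ∀ i, ℓ i x ≠ 0}

/-- Products of `e` quotients of linear forms, with denominators among the given forms. -/
def Gen (ℓ : ι → V →ₗ[ℂ] ℂ) (e : ℕ) : Set (Gd ℓ → ℂ) :=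
  {φ | ∃ (μ : Fin e → V →ₗ[ℂ] ℂ) (τ : Fin e → ι),
    φ = fun x : Gd ℓ => (∏ k, μ k (x : V)) / ∏ k, ℓ (τ k) (x : V)}

/-- Sums of such products. -/
def Rt (ℓ : ι → V →ₗ[ℂ] ℂ) (e : ℕ) : Submodule ℂ (Gd ℓ → ℂ) := Submodule.span ℂ (Gen ℓ e)

theorem mem_Rt_iff {ℓ : ι → V →ₗ[ℂ] ℂ} {e : ℕ} {R : Gd ℓ → ℂ} (h : R ∈ Rt ℓ e) :
    ∃ (n : ℕ) (c : Fin n → ℂ) (μ : Fin n → Fin e → V →ₗ[ℂ] ℂ) (τ : Fin n → Fin e → ι),
      ∀ x : Gd ℓ, R x = ∑ a, c a * ((∏ k, μ a k (x : V)) / ∏ k, ℓ (τ a k) (x : V)) := by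
  rw [Rt, Submodule.mem_span_set'] at h
  obtain ⟨n, c, g, hR⟩ := h
  have hg : ∀ a, ∃ (μ : Fin e → V →ₗ[ℂ] ℂ) (τ : Fin e → ι),
      (g a : Gd ℓ → ℂ) = fun x : Gd ℓ => (∏ k, μ k (x : V)) / ∏ k, ℓ (τ k) (x : V) :=
    fun a => (g a).2
  choose μ τ hμ using hg
  refine ⟨n, c, μ, τ, fun x => ?_⟩
  rw [← hR, Finset.sum_apply]
  refine Finset.sum_congr rfl fun a _ => ?_
  rw [Pi.smul_apply, smul_eq_mul, hμ a]

/-- Replacing one of the numerators by a denominator cancels a quotient. -/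
theorem cancel_mem {ℓ : ι → V →ₗ[ℂ] ℂ} {e : ℕ} (f : Fin (e + 1) → V →ₗ[ℂ] ℂ)
    (τ : Fin (e + 1) → ι) (j : Fin (e + 1))
    (hj : f j ∈ Submodule.span ℂ (Set.range fun k => (ℓ (τ k) : Module.Dual ℂ V))) :
    (fun x : Gd ℓ => (∏ k, f k (x : V)) / ∏ k, ℓ (τ k) (x : V)) ∈ Rt ℓ e := by
  rw [Submodule.mem_span_range_iff_exists_fun] at hj
  obtain ⟨c, hc⟩ := hj
  have h1 : (fun x : Gd ℓ => (∏ k, f k (x : V)) / ∏ k, ℓ (τ k) (x : V)) =
      ∑ i, c i • (fun x : Gd ℓ => (∏ k, f (j.succAbove k) (x : V)) /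
        ∏ k, ℓ (τ (i.succAbove k)) (x : V)) := by
    funext x
    rw [Finset.sum_apply]
    have h2 : f j (x : V) = ∑ i, c i * ℓ (τ i) (x : V) := by
      have h3 := congrArg (fun g : Module.Dual ℂ V => g (x : V)) hc
      simp only [LinearMap.sum_apply, LinearMap.smul_apply, smul_eq_mul] at h3
      exact h3.symm
    rw [Fin.prod_univ_succAbove _ j, h2, Finset.sum_mul, Finset.sum_div]
    refine Finset.sum_congr rfl fun i _ => ?_
    rw [Pi.smul_apply, smul_eq_mul, Fin.prod_univ_succAbove (fun k => ℓ (τ k) (x : V)) i,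
      mul_comm (c i), mul_assoc, mul_div_mul_left _ _ (x.2 (τ i)), mul_div_assoc]
  rw [h1]
  exact Submodule.sum_mem _ fun i _ => Submodule.smul_mem _ _ (Submodule.subset_span
    ⟨fun k => f (j.succAbove k), fun k => τ (i.succAbove k), rfl⟩)

theorem split_mem {ℓ : ι → V →ₗ[ℂ] ℂ} {e : ℕ} (f : Fin (e + 1) → V →ₗ[ℂ] ℂ)
    (τ : Fin (e + 1) → ι) (π : V →ₗ[ℂ] V)
    (hπ : ∀ g : V →ₗ[ℂ] ℂ, (g - g.comp π : Module.Dual ℂ V) ∈
      Submodule.span ℂ (Set.range fun k => (ℓ (τ k) : Module.Dual ℂ V))) :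
    (fun x : Gd ℓ => (∏ k, f k (x : V)) / (∏ k, ℓ (τ k) (x : V)) -
      (∏ k, f k (π (x : V))) / ∏ k, ℓ (τ k) (x : V)) ∈ Rt ℓ e := by
  classical
  have h1 : (fun x : Gd ℓ => (∏ k, f k (x : V)) / (∏ k, ℓ (τ k) (x : V)) -
      (∏ k, f k (π (x : V))) / ∏ k, ℓ (τ k) (x : V)) =
      ∑ s ∈ (Finset.univ : Finset (Finset (Fin (e + 1)))).erase ∅,
        fun x : Gd ℓ => (∏ k, (if k ∈ s then f k - (f k).comp π else (f k).comp π) (x : V)) /
          ∏ k, ℓ (τ k) (x : V) := by
    funext x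
    rw [Finset.sum_apply, ← sub_div, ← Finset.sum_div]
    congr 1
    have h2 : ∀ k, f k (x : V) = (f k - (f k).comp π) (x : V) + (f k).comp π (x : V) := by
      intro k
      rw [LinearMap.sub_apply]
      ring
    have h3 : ∏ k, f k (x : V) = ∑ s : Finset (Fin (e + 1)),
        ∏ k, (if k ∈ s then f k - (f k).comp π else (f k).comp π) (x : V) := by
      rw [Finset.prod_congr rfl fun k _ => h2 k, Finset.prod_add, Finset.powerset_univ]
      refine Finset.sum_congr rfl fun s _ => ?_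
      rw [← Finset.prod_filter_mul_prod_filter_not Finset.univ (· ∈ s) (fun k =>
        (if k ∈ s then f k - (f k).comp π else (f k).comp π) (x : V))]
      congr 1
      · have h4 : Finset.univ.filter (· ∈ s) = s := by ext k; simp
        rw [h4]
        exact Finset.prod_congr rfl fun k hk => by rw [if_pos hk]
      · have h4 : Finset.univ.filter (fun k => ¬ k ∈ s) = Finset.univ \ s := by ext k; simp
        rw [h4]
        refine Finset.prod_congr rfl fun k hk => ?_
        rw [if_neg (Finset.mem_sdiff.1 hk).2]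
    rw [h3, ← Finset.add_sum_erase _ _ (Finset.mem_univ (∅ : Finset (Fin (e + 1))))]
    have h5 : ∏ k, (if k ∈ (∅ : Finset (Fin (e + 1))) then f k - (f k).comp π else
        (f k).comp π) (x : V) = ∏ k, f k (π (x : V)) := by
      refine Finset.prod_congr rfl fun k _ => ?_
      rw [if_neg (Finset.notMem_empty k)]
      rfl
    rw [h5]
    ring
  rw [h1]
  refine Submodule.sum_mem _ fun s hs => ?_
  obtain ⟨j, hj⟩ := Finset.nonempty_iff_ne_empty.2 (Finset.mem_erase.1 hs).1
  refine cancel_mem (fun k => if k ∈ s then f k - (f k).comp π else (f k).comp π) τ j ?_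
  rw [if_pos hj]
  exact hπ _

variable [FiniteDimensional ℂ V]

/-- The vectors of `W` realise all values of every `q` of the forms. -/
def Reali (ℓ : ι → V →ₗ[ℂ] ℂ) (W : Submodule ℂ V) (q : ℕ) : Prop :=
  ∀ t : Fin q → ι, ∀ y : V, ∃ w ∈ W, ∀ k, ℓ (t k) w = ℓ (t k) y

theorem Reali.lower {ℓ : ι → V →ₗ[ℂ] ℂ} {W : Submodule ℂ V} {q : ℕ}
    (h : Reali ℓ W (q + 1)) : Reali ℓ W q := by
  intro t y
  rcases Nat.eq_zero_or_pos q with h0 | h0
  · subst h0
    exact ⟨0, W.zero_mem, fun k => k.elim0⟩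
  · obtain ⟨w, hw, h1⟩ := h (Fin.cons (t ⟨0, h0⟩) t) y
    refine ⟨w, hw, fun k => ?_⟩
    have := h1 k.succ
    simpa using this

/-- **The leading parts vanish.** -/
theorem part_zero {ℓ : ι → V →ₗ[ℂ] ℂ} {W : Submodule ℂ V} {κ : Type} [Fintype κ]
    [DecidableEq κ] {v : κ → V} (hv : Submodule.span ℂ (Set.range v) = ⊤) {e : ℕ}
    (hW : Reali ℓ W (e + 1)) {α : Type} [Fintype α] (c : α → ℂ)
    (μ : α → Fin e → V →ₗ[ℂ] ℂ) (τ : α → Fin e → ι)
    (hR : ∀ J : Finset κ, J.card ≤ e → ∀ x ∈ Gd ℓ, x ∈ W ⊔ Submodule.span ℂ (v '' J) →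
      ∑ a, c a * ((∏ k, μ a k x) / ∏ k, ℓ (τ a k) x) = 0)
    (a₀ : α) (S : Finset α)
    (hS : ∀ a, a ∈ S ↔ ∀ k, (ℓ (τ a k) : Module.Dual ℂ V) ∈
      Submodule.span ℂ (Set.range fun k => (ℓ (τ a₀ k) : Module.Dual ℂ V)))
    (x : V) (hx : ∀ k, ℓ (τ a₀ k) x = 0) (y : V) (hy : y ∈ Gd ℓ) :
    ∑ a ∈ S, c a * ((∏ k, μ a k x) / ∏ k, ℓ (τ a k) y) = 0 := by
  classical
  set Z : Submodule ℂ (Module.Dual ℂ V) :=
    Submodule.span ℂ (Set.range fun k => (ℓ (τ a₀ k) : Module.Dual ℂ V)) with hZ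
  -- values of forms in Z are determined by the values of the generators
  have hZval : ∀ f ∈ Z, ∀ x₁ x₂ : V, (∀ k, ℓ (τ a₀ k) x₁ = ℓ (τ a₀ k) x₂) → f x₁ = f x₂ := by
    intro f hf x₁ x₂ h
    rw [hZ, Submodule.mem_span_range_iff_exists_fun] at hf
    obtain ⟨d, rfl⟩ := hf
    simp only [LinearMap.sum_apply, LinearMap.smul_apply, smul_eq_mul]
    exact Finset.sum_congr rfl fun k _ => by rw [h k]
  have hW' := hW.lower
  -- replace y by a vector of W
  obtain ⟨y', hy'W, hy'⟩ := hW' (τ a₀) y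
  have hyy : ∀ f ∈ Z, f y' = f y := fun f hf => hZval f hf _ _ hy'
  -- a generic vector
  obtain ⟨w₀, hw₀, hw₀'⟩ := exists_genform ℓ
    (W ⊓ (Submodule.dualCoannihilator Z)) {i | (ℓ i : Module.Dual ℂ V) ∉ Z} (by
      intro i hi
      obtain ⟨z, hz1, hz2⟩ := exists_sep Z hi
      obtain ⟨w, hw, h1⟩ := hW (Fin.cons i (τ a₀)) z
      have h2 : ℓ i w = ℓ i z := by simpa using h1 0
      have h3 : ∀ k, ℓ (τ a₀ k) w = ℓ (τ a₀ k) z := fun k => by simpa using h1 k.succ
      refine ⟨w, ⟨hw, ?_⟩, by rw [h2]; exact hz2⟩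
      rw [SetLike.mem_coe, Submodule.mem_dualCoannihilator]
      intro g hg
      rw [hZval g hg w z h3]
      exact hz1 g hg)
  have hw₀Z : ∀ g ∈ Z, g w₀ = 0 := by
    have := hw₀.2
    rw [SetLike.mem_coe, Submodule.mem_dualCoannihilator] at this
    exact this
  -- decompose x
  have hxtop : x ∈ Submodule.span ℂ (Set.range v) := by rw [hv]; trivial
  rw [Submodule.mem_span_range_iff_exists_fun] at hxtop
  obtain ⟨d, hd⟩ := hxtop
  have hvw : ∀ j, ∃ w ∈ W, ∀ k, ℓ (τ a₀ k) w = ℓ (τ a₀ k) (v j) := fun j => hW' (τ a₀) (v j)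
  choose w hwW hwv using hvw
  set w₁ : V := ∑ j, d j • w j with hw₁
  set u : κ → V := fun j => d j • (v j - w j) with hu
  have hxdec : x = w₁ + ∑ j, u j := by
    rw [hw₁, hu, ← Finset.sum_add_distrib, ← hd]
    refine Finset.sum_congr rfl fun j _ => ?_
    rw [smul_sub]
    abel
  have hw₁W : w₁ ∈ W := Submodule.sum_mem _ fun j _ => Submodule.smul_mem _ _ (hwW j)
  have huZ : ∀ j, ∀ k, ℓ (τ a₀ k) (u j) = 0 := by
    intro j k
    rw [hu]
    simp only
    rw [map_smul, map_sub, hwv, sub_self, smul_zero]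
  have hw₁Z : ∀ k, ℓ (τ a₀ k) w₁ = 0 := by
    intro k
    have h1 := hx k
    have h2 : ℓ (τ a₀ k) (∑ j, u j) = 0 := by
      rw [map_sum]
      exact Finset.sum_eq_zero fun j _ => huZ j k
    rw [hxdec, map_add, h2, add_zero] at h1
    exact h1
  -- the form in the first variable
  have key : ∑ a ∈ S, (c a / ∏ k, ℓ (τ a k) y) * ∏ k, μ a k (w₁ + ∑ j, u j) = 0 := by
    apply form_zero
    intro J hJ
    have hx₁Z : ∀ f ∈ Z, f (w₁ + ∑ j ∈ J, u j) = 0 := by
      intro f hf
      rw [hZval f hf _ 0 ?_, map_zero]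
      intro k
      have h2 : ℓ (τ a₀ k) (∑ j ∈ J, u j) = 0 := by
        rw [map_sum]
        exact Finset.sum_eq_zero fun j _ => huZ j k
      rw [map_add, h2, hw₁Z, add_zero, map_zero]
    have h1 := lead_zero ℓ e c μ τ (w₁ + ∑ j ∈ J, u j) w₀ y'
      {i | (ℓ i : Module.Dual ℂ V) ∈ Z} (fun i hi => hx₁Z _ hi) (fun i hi => hw₀Z _ hi)
      (fun i hi => by rw [hyy _ hi]; exact hy i) (fun i hi => hw₀' i hi)
      (fun t ht => hR J hJ _ ht ?_) S hS
    · rw [← h1]
      refine Finset.sum_congr rfl fun a ha => ?_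
      have h2 : ∏ k, ℓ (τ a k) y = ∏ k, ℓ (τ a k) y' :=
        Finset.prod_congr rfl fun k _ => (hyy _ ((hS a).1 ha k)).symm
      rw [h2]
      ring
    · refine Submodule.add_mem _ (Submodule.add_mem _ (Submodule.add_mem _ ?_ ?_) ?_) ?_
      · exact Submodule.mem_sup_left hw₁W
      · refine Submodule.sum_mem _ fun j hj => ?_
        rw [hu]
        simp only
        refine Submodule.smul_mem _ _ (Submodule.sub_mem _ ?_ ?_)
        · exact Submodule.mem_sup_right (Submodule.subset_span ⟨j, hj, rfl⟩)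
        · exact Submodule.mem_sup_left (hwW j)
      · exact Submodule.smul_mem _ _ (Submodule.mem_sup_left hw₀.1)
      · exact Submodule.smul_mem _ _ (Submodule.mem_sup_left hy'W)
  rw [← hxdec] at key
  rw [← key]
  refine Finset.sum_congr rfl fun a _ => ?_
  ring

/-- **A sum of products of `e` quotients of linear forms which vanishes on few directions
vanishes.** -/
theorem Rt_zero {ℓ : ι → V →ₗ[ℂ] ℂ} {W : Submodule ℂ V} {κ : Type} [Fintype κ]
    [DecidableEq κ] {v : κ → V} (hv : Submodule.span ℂ (Set.range v) = ⊤)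
    (hℓ : ∀ i, ∃ x, ℓ i x ≠ 0) : ∀ (e : ℕ), Reali ℓ W (e + 1) → ∀ R ∈ Rt ℓ e,
    (∀ J : Finset κ, J.card ≤ e → ∀ x : Gd ℓ, (x : V) ∈ W ⊔ Submodule.span ℂ (v '' J) →
      R x = 0) → R = 0 := by
  classical
  intro e
  induction e with
  | zero =>
      intro hW R hR h
      obtain ⟨n, c, μ, τ, hR'⟩ := mem_Rt_iff hR
      obtain ⟨w₀, hw₀, hw₀'⟩ := exists_genform ℓ W Set.univ (by
        intro i _
        obtain ⟨x, hx⟩ := hℓ i
        obtain ⟨w, hw, h1⟩ := hW (fun _ => i) x
        exact ⟨w, hw, by rw [h1 0]; exact hx⟩)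
      have h1 := h ∅ (by simp) ⟨w₀, fun i => hw₀' i trivial⟩ (Submodule.mem_sup_left hw₀)
      rw [hR'] at h1
      simp only [Finset.univ_eq_empty, Finset.prod_empty] at h1
      funext x
      rw [hR']
      simp only [Finset.univ_eq_empty, Finset.prod_empty]
      exact h1
  | succ e ih =>
      intro hW R hR h
      obtain ⟨n, c, μ, τ, hR'⟩ := mem_Rt_iff hR
      refine ih hW.lower R ?_ (fun J hJ x hx => h J (by omega) x hx)
      -- the spaces of forms
      set Z : Fin n → Submodule ℂ (Module.Dual ℂ V) := fun a =>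
        Submodule.span ℂ (Set.range fun k => (ℓ (τ a k) : Module.Dual ℂ V)) with hZ
      have hsum : ∀ J : Finset κ, J.card ≤ e + 1 → ∀ x ∈ Gd ℓ,
          x ∈ W ⊔ Submodule.span ℂ (v '' J) →
          ∑ a, c a * ((∏ k, μ a k x) / ∏ k, ℓ (τ a k) x) = 0 := by
        intro J hJ x hx hxJ
        have := h J hJ ⟨x, hx⟩ hxJ
        rwa [hR'] at this
      have hle : ∀ a a₀, Z a ≤ Z a₀ ↔ ∀ k, (ℓ (τ a k) : Module.Dual ℂ V) ∈ Z a₀ := by
        intro a a₀
        rw [hZ]
        simp only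
        rw [Submodule.span_le, Set.range_subset_iff]
        rfl
      have hS : ∀ Y : Submodule ℂ (Module.Dual ℂ V), ∀ x : V, (∀ f ∈ Y, f x = 0) →
          ∀ y ∈ Gd ℓ, ∑ a ∈ Finset.univ.filter (fun a => Z a = Y),
            c a * ((∏ k, μ a k x) / ∏ k, ℓ (τ a k) y) = 0 := by
        intro Y
        induction Y using WellFoundedLT.induction with
        | ind Y ihY =>
            intro x hx y hy
            by_cases hex : ∃ a₀, Z a₀ = Y
            · obtain ⟨a₀, rfl⟩ := hex
              have h1 := part_zero hv hW c μ τ hsum a₀ (Finset.univ.filter fun a => Z a ≤ Z a₀)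
                (fun a => by rw [Finset.mem_filter]; simp only [Finset.mem_univ, true_and]
                             exact hle a a₀) x
                (fun k => hx _ (Submodule.subset_span ⟨k, rfl⟩)) y hy
              have h2 : (Finset.univ.filter fun a => Z a ≤ Z a₀) =
                  (Finset.univ.filter fun a => Z a = Z a₀) ∪
                    (Finset.univ.filter fun a => Z a < Z a₀) := by
                ext a
                simp only [Finset.mem_filter, Finset.mem_univ, true_and, Finset.mem_union]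
                exact le_iff_eq_or_lt
              have h3 : Disjoint (Finset.univ.filter fun a => Z a = Z a₀)
                  (Finset.univ.filter fun a => Z a < Z a₀) := by
                rw [Finset.disjoint_filter]
                intro a _ h4 h5
                exact (ne_of_lt h5) h4
              rw [h2, Finset.sum_union h3] at h1
              have h4 : ∑ a ∈ Finset.univ.filter (fun a => Z a < Z a₀),
                  c a * ((∏ k, μ a k x) / ∏ k, ℓ (τ a k) y) = 0 := by
                rw [← Finset.sum_fiberwise_of_maps_to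
                  (t := (Finset.univ.filter fun a => Z a < Z a₀).image Z) (g := Z)
                  (fun a ha => Finset.mem_image_of_mem Z ha)]
                refine Finset.sum_eq_zero fun Y' hY' => ?_
                rw [Finset.mem_image] at hY'
                obtain ⟨a', ha', rfl⟩ := hY'
                have hlt : Z a' < Z a₀ := (Finset.mem_filter.1 ha').2
                rw [← ihY (Z a') hlt x (fun f hf => hx f (hlt.le hf)) y hy]
                refine Finset.sum_congr ?_ fun _ _ => rfl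
                ext a
                simp only [Finset.mem_filter, Finset.mem_univ, true_and]
                constructor
                · exact fun h5 => h5.2
                · intro h5
                  exact ⟨by rw [h5]; exact hlt, h5⟩
              rw [h4, add_zero] at h1
              exact h1
            · have h1 : (Finset.univ.filter fun a => Z a = Y) = ∅ := by
                rw [Finset.filter_eq_empty_iff]
                intro a _ ha
                exact hex ⟨a, ha⟩
              rw [h1, Finset.sum_empty]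
      -- the projections
      have hπ : ∀ Y : Submodule ℂ (Module.Dual ℂ V), ∃ π : V →ₗ[ℂ] V,
          (∀ f ∈ Y, ∀ x, f (π x) = 0) ∧ ∀ f : Module.Dual ℂ V, f - f.comp π ∈ Y :=
        fun Y => exists_proj Y
      choose π hπ1 hπ2 using hπ
      have h5 : R = ∑ a, c a • (fun x : Gd ℓ => (∏ k, μ a k (x : V)) / (∏ k, ℓ (τ a k) (x : V)) -
          (∏ k, μ a k (π (Z a) (x : V))) / ∏ k, ℓ (τ a k) (x : V)) := by
        funext x
        rw [hR', Finset.sum_apply]
        simp only [Pi.smul_apply, smul_eq_mul, mul_sub]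
        rw [Finset.sum_sub_distrib]
        have h6 : ∑ a, c a * ((∏ k, μ a k (π (Z a) (x : V))) / ∏ k, ℓ (τ a k) (x : V)) = 0 := by
          rw [← Finset.sum_fiberwise_of_maps_to
            (t := (Finset.univ : Finset (Fin n)).image Z) (g := Z)
            (fun a ha => Finset.mem_image_of_mem Z ha)]
          refine Finset.sum_eq_zero fun Y _ => ?_
          rw [← hS Y (π Y (x : V)) (fun f hf => hπ1 Y f hf _) (x : V) x.2]
          refine Finset.sum_congr rfl fun a ha => ?_
          rw [(Finset.mem_filter.1 ha).2]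
        rw [h6, sub_zero]
      rw [h5]
      exact Submodule.sum_mem _ fun a _ => Submodule.smul_mem _ _
        (split_mem (μ a) (τ a) (π (Z a)) fun g => hπ2 (Z a) g)

end

end Pool.Agent.Helper69K1
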