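import Pool.Agent.Helper69K1.Lay3

/-!
# Points of the moment curve realise all values
-/

set_option linter.unusedSectionVars false

namespace Pool.Agent.Helper69K1

open Module

/-- The moment curve. -/
noncomputable def momC (m τ : ℕ) : Fin m → ℂ := fun j => (τ : ℂ) ^ (j : ℕ)

theorem mom_avoid {m : ℕ} {α : Type} (s : Finset α) (f : α → (Fin m → ℂ) →ₗ[ℂ] ℂ)
    (hf : ∀ a ∈ s, f a ≠ 0) {B : ℕ} (hB : s.card * m ≤ B) :
    ∃ τ < B + 1, ∀ a ∈ s, f a (momC m τ) ≠ 0 := by
  classical
  let p : α → Polynomial ℂ := fun a =>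
    ∑ j : Fin m, Polynomial.monomial (j : ℕ) (f a (Pi.single j 1))
  have hpc : ∀ a, ∀ j : Fin m, (p a).coeff (j : ℕ) = f a (Pi.single j 1) := by
    intro a j
    rw [Polynomial.finsetSum_coeff, Finset.sum_eq_single j]
    · rw [Polynomial.coeff_monomial, if_pos rfl]
    · intro i _ hij
      rw [Polynomial.coeff_monomial, if_neg]
      intro h
      exact hij (Fin.ext h)
    · intro h
      exact absurd (Finset.mem_univ j) h
  have hp0 : ∀ a ∈ s, p a ≠ 0 := by
    intro a ha h0
    apply hf a ha
    refine LinearMap.pi_ext' fun j => LinearMap.ext_ring ?_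
    have h1 := hpc a j
    rw [h0, Polynomial.coeff_zero] at h1
    rw [LinearMap.comp_apply, LinearMap.single_apply, LinearMap.zero_comp, LinearMap.zero_apply]
    exact h1.symm
  have hev : ∀ a (τ : ℕ), (p a).eval (τ : ℂ) = f a (momC m τ) := by
    intro a τ
    rw [Polynomial.eval_finsetSum]
    have h1 : momC m τ = ∑ j : Fin m, (τ : ℂ) ^ (j : ℕ) • (Pi.single j 1 : Fin m → ℂ) := by
      funext i
      rw [Finset.sum_apply, Finset.sum_eq_single i]
      · rw [Pi.smul_apply, Pi.single_eq_same, smul_eq_mul, mul_one, momC]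
      · intro j _ hj
        rw [Pi.smul_apply, Pi.single_eq_of_ne (Ne.symm hj), smul_zero]
      · intro h
        exact absurd (Finset.mem_univ i) h
    rw [h1, map_sum]
    refine Finset.sum_congr rfl fun j _ => ?_
    rw [Polynomial.eval_monomial, map_smul, smul_eq_mul, mul_comm]
  have hdeg : ∀ a, (p a).natDegree ≤ m := by
    intro a
    refine Polynomial.natDegree_sum_le_of_forall_le _ _ fun j _ => ?_
    refine (Polynomial.natDegree_monomial_le _).trans ?_
    exact j.2.le
  let q : Polynomial ℂ := ∏ a ∈ s, p a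
  have hq0 : q ≠ 0 := Finset.prod_ne_zero_iff.2 hp0
  have hqd : q.natDegree ≤ B := by
    refine (Polynomial.natDegree_prod_le _ _).trans ?_
    refine (Finset.sum_le_card_nsmul _ _ m fun a _ => hdeg a).trans ?_
    rwa [smul_eq_mul]
  by_contra hcon
  push Not at hcon
  apply hq0
  refine Polynomial.eq_zero_of_natDegree_lt_card_of_eval_eq_zero' q
    ((Finset.range (B + 1)).image fun t : ℕ => (t : ℂ)) ?_ ?_
  · intro x hx
    obtain ⟨τ, hτ, rfl⟩ := Finset.mem_image.1 hx
    obtain ⟨a, ha, h1⟩ := hcon τ (Finset.mem_range.1 hτ)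
    rw [Polynomial.eval_prod]
    exact Finset.prod_eq_zero ha (by rw [hev]; exact h1)
  · rw [Finset.card_image_of_injective _ Nat.cast_injective, Finset.card_range]
    omega

variable {m : ℕ} {ι : Type} [Fintype ι]

/-- The evaluation at a tuple of forms. -/
noncomputable def Ev (ℓ : ι → (Fin m → ℂ) →ₗ[ℂ] ℂ) {q : ℕ} (t : Fin q → ι) :
    (Fin m → ℂ) →ₗ[ℂ] (Fin q → ℂ) := LinearMap.pi fun k => ℓ (t k)

theorem mom_step (ℓ : ι → (Fin m → ℂ) →ₗ[ℂ] ℂ) (q : ℕ) {B : ℕ}
    (hB : Fintype.card ι ^ q * m ≤ B) : ∀ k : ℕ, ∃ σ : Fin k → ℕ, (∀ i, σ i < B + 1) ∧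
    ∀ t : Fin q → ι, LinearMap.range (Ev ℓ t) ≤
        (Submodule.span ℂ (Set.range fun i => momC m (σ i))).map (Ev ℓ t) ∨
      k ≤ finrank ℂ ((Submodule.span ℂ (Set.range fun i => momC m (σ i))).map (Ev ℓ t)) := by
  classical
  intro k
  induction k with
  | zero => exact ⟨Fin.elim0, fun i => i.elim0, fun t => Or.inr (Nat.zero_le _)⟩
  | succ k ih =>
      obtain ⟨σ, hσ, h⟩ := ih
      set W := Submodule.span ℂ (Set.range fun i => momC m (σ i)) with hW
      have hf : ∀ t : Fin q → ι, ∃ f : (Fin m → ℂ) →ₗ[ℂ] ℂ,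
          ¬ (LinearMap.range (Ev ℓ t) ≤ W.map (Ev ℓ t)) →
          f ≠ 0 ∧ ∀ x, f x ≠ 0 → Ev ℓ t x ∉ W.map (Ev ℓ t) := by
        intro t
        by_cases h1 : LinearMap.range (Ev ℓ t) ≤ W.map (Ev ℓ t)
        · exact ⟨0, fun h2 => absurd h1 h2⟩
        · have h2 : (W.map (Ev ℓ t)).comap (Ev ℓ t) < ⊤ := by
            rw [lt_top_iff_ne_top]
            intro h3
            apply h1
            rintro _ ⟨x, rfl⟩
            have h4 : x ∈ (W.map (Ev ℓ t)).comap (Ev ℓ t) := by rw [h3]; trivial
            exact h4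
          obtain ⟨f, hf0, hfk⟩ := Submodule.exists_le_ker_of_lt_top _ h2
          exact ⟨f, fun _ => ⟨hf0, fun x hx h3 => hx (hfk h3)⟩⟩
      choose f hf using hf
      obtain ⟨τ, hτ, hτf⟩ := mom_avoid (Finset.univ.filter fun t : Fin q → ι =>
        ¬ (LinearMap.range (Ev ℓ t) ≤ W.map (Ev ℓ t))) f
        (fun t ht => (hf t (Finset.mem_filter.1 ht).2).1) (B := B) (by
          refine le_trans (Nat.mul_le_mul_right _ ?_) hB
          refine (Finset.card_filter_le _ _).trans ?_
          rw [Finset.card_univ, Fintype.card_fun, Fintype.card_fin])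
      refine ⟨Fin.cons τ σ, fun i => ?_, fun t => ?_⟩
      · refine Fin.cases ?_ (fun i => ?_) i
        · simpa using hτ
        · simpa using hσ i
      · have hrange : (Set.range fun i : Fin (k + 1) =>
            momC m ((Fin.cons τ σ : Fin (k + 1) → ℕ) i)) =
            insert (momC m τ) (Set.range fun i => momC m (σ i)) := by
          ext z
          simp only [Set.mem_range, Set.mem_insert_iff]
          constructor
          · rintro ⟨i, rfl⟩
            refine Fin.cases ?_ (fun i => ?_) i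
            · left; simp
            · right; exact ⟨i, by simp⟩
          · rintro (rfl | ⟨i, rfl⟩)
            · exact ⟨0, by simp⟩
            · exact ⟨i.succ, by simp⟩
        rw [hrange]
        have hle : W ≤ Submodule.span ℂ (insert (momC m τ) (Set.range fun i => momC m (σ i))) :=
          Submodule.span_mono (Set.subset_insert _ _)
        by_cases h1 : LinearMap.range (Ev ℓ t) ≤ W.map (Ev ℓ t)
        · exact Or.inl (h1.trans (Submodule.map_mono hle))
        · right
          have h2 := (h t).resolve_left h1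
          have h3 := (hf t h1).2 _ (hτf t (Finset.mem_filter.2 ⟨Finset.mem_univ _, h1⟩))
          have h4 : W.map (Ev ℓ t) < (Submodule.span ℂ (insert (momC m τ)
              (Set.range fun i => momC m (σ i)))).map (Ev ℓ t) := by
            refine lt_of_le_of_ne (Submodule.map_mono hle) fun h5 => h3 ?_
            rw [h5]
            exact Submodule.mem_map_of_mem (Submodule.subset_span (Set.mem_insert _ _))
          have h5 := Submodule.finrank_lt_finrank_of_lt h4
          omega

/-- **Points of the moment curve realise all values of `q` forms.** -/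
theorem exists_mom (ℓ : ι → (Fin m → ℂ) →ₗ[ℂ] ℂ) (q : ℕ) {B : ℕ}
    (hB : Fintype.card ι ^ q * m ≤ B) : ∃ σ : Fin q → ℕ, (∀ i, σ i < B + 1) ∧
    Reali ℓ (Submodule.span ℂ (Set.range fun i => momC m (σ i))) q := by
  obtain ⟨σ, hσ, h⟩ := mom_step ℓ q hB q
  refine ⟨σ, hσ, fun t y => ?_⟩
  have h1 : LinearMap.range (Ev ℓ t) ≤
      (Submodule.span ℂ (Set.range fun i => momC m (σ i))).map (Ev ℓ t) := by
    rcases h t with h2 | h2
    · exact h2
    · have h3 : (Submodule.span ℂ (Set.range fun i => momC m (σ i))).map (Ev ℓ t) = ⊤ := by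
        apply Submodule.eq_top_of_finrank_eq
        rw [Module.finrank_fintype_fun_eq_card, Fintype.card_fin]
        refine le_antisymm ?_ h2
        have := Submodule.finrank_le
          ((Submodule.span ℂ (Set.range fun i => momC m (σ i))).map (Ev ℓ t))
        rwa [Module.finrank_fintype_fun_eq_card, Fintype.card_fin] at this
      rw [h3]
      exact le_top
  obtain ⟨w, hw, h4⟩ := h1 ⟨y, rfl⟩
  refine ⟨w, hw, fun k => ?_⟩
  exact congrFun h4 k

end Pool.Agent.Helper69K1
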