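import Pool.Agent.Helper69K1.Lay4

/-!
# Determinants of perturbed layered matrices
-/

set_option linter.unusedSectionVars false

namespace Pool.Agent.Helper69K1

open Module

section

variable {V : Type} [AddCommGroup V] [Module ℂ V] {ι : Type} [Fintype ι]
variable {ℓ : ι → V →ₗ[ℂ] ℂ}

theorem Gen_mul {e f : ℕ} {φ ψ : Gd ℓ → ℂ} (hφ : φ ∈ Gen ℓ e) (hψ : ψ ∈ Gen ℓ f) :
    φ * ψ ∈ Gen ℓ (e + f) := by
  obtain ⟨μ, τ, rfl⟩ := hφ
  obtain ⟨ν, σ, rfl⟩ := hψ
  refine ⟨Fin.append μ ν, Fin.append τ σ, ?_⟩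
  funext x
  rw [Pi.mul_apply, Fin.prod_univ_add, Fin.prod_univ_add]
  simp only [Fin.append_left, Fin.append_right]
  rw [div_mul_div_comm]

theorem Rt_mul {e f : ℕ} {φ ψ : Gd ℓ → ℂ} (hφ : φ ∈ Rt ℓ e) (hψ : ψ ∈ Rt ℓ f) :
    φ * ψ ∈ Rt ℓ (e + f) := by
  have h1 : Rt ℓ e * Rt ℓ f ≤ Rt ℓ (e + f) := by
    rw [Rt, Rt, Submodule.span_mul_span, Submodule.span_le]
    rintro _ ⟨a, ha, b, hb, rfl⟩
    exact Submodule.subset_span (Gen_mul ha hb)
  exact h1 (Submodule.mul_mem_mul hφ hψ)

theorem one_mem_Rt_zero : (1 : Gd ℓ → ℂ) ∈ Rt ℓ 0 :=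
  Submodule.subset_span ⟨Fin.elim0, Fin.elim0, by funext x; simp⟩

theorem one_mem_Rt_one (i : ι) : (1 : Gd ℓ → ℂ) ∈ Rt ℓ 1 :=
  Submodule.subset_span ⟨fun _ => ℓ i, fun _ => i, by
    funext x
    simp only [Finset.univ_unique, Finset.prod_const, Finset.card_singleton, pow_one,
      Pi.one_apply]
    rw [div_self (x.2 i)]⟩

theorem quot_mem_Rt_one (μ : V →ₗ[ℂ] ℂ) (i : ι) :
    (fun x : Gd ℓ => μ (x : V) / ℓ i (x : V)) ∈ Rt ℓ 1 :=
  Submodule.subset_span ⟨fun _ => μ, fun _ => i, by funext x; simp⟩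

theorem Rt_succ (i : ι) (e : ℕ) : Rt ℓ e ≤ Rt ℓ (e + 1) := by
  intro φ hφ
  have := Rt_mul hφ (one_mem_Rt_one (ℓ := ℓ) i)
  rwa [mul_one] at this

theorem Rt_mono (i : ι) {e f : ℕ} (h : e ≤ f) : Rt ℓ e ≤ Rt ℓ f := by
  induction h with
  | refl => exact le_rfl
  | step _ ih => exact ih.trans (Rt_succ i _)

theorem Rt_prod {α : Type} (s : Finset α) (φ : α → Gd ℓ → ℂ) (d : α → ℕ)
    (h : ∀ a ∈ s, φ a ∈ Rt ℓ (d a)) : ∏ a ∈ s, φ a ∈ Rt ℓ (∑ a ∈ s, d a) := by
  classical
  induction s using Finset.induction_on with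
  | empty => exact one_mem_Rt_zero
  | insert a s ha ih =>
      rw [Finset.prod_insert ha, Finset.sum_insert ha]
      exact Rt_mul (h a (Finset.mem_insert_self _ _))
        (ih fun b hb => h b (Finset.mem_insert_of_mem hb))

/-- matrices with entries in the class -/
def MRt (ℓ : ι → V →ₗ[ℂ] ℂ) (e : ℕ) {p q : Type} (M : Matrix p q (Gd ℓ → ℂ)) : Prop :=
  ∀ i j, M i j ∈ Rt ℓ e

theorem MRt_mul {e f : ℕ} {p q r : Type} [Fintype q] {M : Matrix p q (Gd ℓ → ℂ)}
    {N : Matrix q r (Gd ℓ → ℂ)} (hM : MRt ℓ e M) (hN : MRt ℓ f N) : MRt ℓ (e + f) (M * N) := by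
  intro i j
  rw [Matrix.mul_apply]
  exact Submodule.sum_mem _ fun k _ => Rt_mul (hM i k) (hN k j)

theorem MRt_one (p : Type) [DecidableEq p] : MRt ℓ 0 (1 : Matrix p p (Gd ℓ → ℂ)) := by
  intro i j
  rw [Matrix.one_apply]
  split_ifs
  · exact one_mem_Rt_zero
  · exact Submodule.zero_mem _

theorem MRt_pow {e : ℕ} {p : Type} [Fintype p] [DecidableEq p] {M : Matrix p p (Gd ℓ → ℂ)}
    (hM : MRt ℓ e M) (k : ℕ) : MRt ℓ (k * e) (M ^ k) := by
  induction k with
  | zero => rw [Nat.zero_mul, pow_zero]; exact MRt_one p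
  | succ k ih => rw [pow_succ, Nat.succ_mul]; exact MRt_mul ih hM

theorem det_mem {d : ℕ} {p : Type} [Fintype p] [DecidableEq p]
    (M : Matrix p p (Gd ℓ → ℂ)) (s : Finset p) (h1 : ∀ i ∈ s, ∀ j, M i j ∈ Rt ℓ d)
    (h2 : ∀ i ∉ s, ∀ j, M i j ∈ Rt ℓ 0) : M.det ∈ Rt ℓ (s.card * d) := by
  rw [← Matrix.det_transpose, Matrix.det_apply]
  refine Submodule.sum_mem _ fun σ _ => ?_
  have h3 : ∏ i, M.transpose (σ i) i ∈ Rt ℓ (s.card * d) := by
    have h4 : s.card * d = ∑ i : p, if i ∈ s then d else 0 := by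
      rw [← Finset.sum_filter, Finset.sum_const, smul_eq_mul]
      congr 2
      ext i; simp
    rw [h4]
    refine Rt_prod _ _ _ fun i _ => ?_
    rw [Matrix.transpose_apply]
    split_ifs with hi
    · exact h1 i hi _
    · exact h2 i hi _
  rcases Int.units_eq_one_or (Equiv.Perm.sign σ) with h4 | h4 <;> rw [h4]
  · rw [one_smul]; exact h3
  · rw [Units.neg_smul, one_smul]; exact Submodule.neg_mem _ h3

end

section

variable {p : Type} [Fintype p] [DecidableEq p]

theorem rank_add_le' {q : Type} [Fintype q] (A B : Matrix q q ℂ) :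
    (A + B).rank ≤ A.rank + B.rank := by
  rw [Matrix.rank, Matrix.rank, Matrix.rank]
  have h1 : LinearMap.range (A + B).mulVecLin ≤
      LinearMap.range A.mulVecLin ⊔ LinearMap.range B.mulVecLin := by
    rintro _ ⟨v, rfl⟩
    rw [Matrix.mulVecLin_apply, Matrix.add_mulVec]
    exact Submodule.add_mem_sup ⟨v, rfl⟩ ⟨v, rfl⟩
  exact (Submodule.finrank_mono h1).trans (Submodule.finrank_add_le_finrank_add_finrank _ _)

/-- Some rows of a matrix and the other rows of the identity matrix. -/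
def pw {R : Type} [CommRing R] (s : Finset p) (K : Matrix p p R) : Matrix p p R :=
  Matrix.of fun i j => if i ∈ s then K i j else (1 : Matrix p p R) i j

theorem pw_mem {R : Type} [CommRing R] {s : Finset p} (K : Matrix p p R) {i : p} (hi : i ∈ s)
    (j : p) : pw s K i j = K i j := if_pos hi

theorem pw_notMem {R : Type} [CommRing R] {s : Finset p} (K : Matrix p p R) {i : p} (hi : i ∉ s)
    (j : p) : pw s K i j = (1 : Matrix p p R) i j := if_neg hi

theorem det_expand {R : Type} [CommRing R] (K : Matrix p p R) :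
    (1 + K).det = ∑ s : Finset p, (pw s K).det := by
  rw [add_comm]
  have h1 := (Matrix.detRowAlternating (R := R) (n := p)).toMultilinearMap.map_add_univ
    (fun i j => K i j) (fun i j => (1 : Matrix p p R) i j)
  refine h1.trans (Finset.sum_congr rfl fun s _ => ?_)
  change Matrix.det _ = _
  congr 1
  ext i j
  by_cases hi : i ∈ s
  · rw [pw_mem K hi, Finset.piecewise_eq_of_mem _ _ _ hi]
  · rw [pw_notMem K hi, Finset.piecewise_eq_of_notMem _ _ _ hi]

/-- Too many rows of a matrix of small rank. -/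
theorem det_piecewise_zero {K : Matrix p p ℂ} {c : ℕ} (hK : K.rank ≤ c) {s : Finset p}
    (hs : c < s.card) : (pw s K).det = 0 := by
  by_contra hcon
  set D₁ : Matrix p p ℂ := Matrix.diagonal fun i => if i ∈ s then 1 else 0 with hD₁
  set D₂ : Matrix p p ℂ := Matrix.diagonal fun i => if i ∈ s then 0 else 1 with hD₂
  have h1 : pw s K = D₁ * K + D₂ := by
    ext i j
    rw [Matrix.add_apply, hD₁, Matrix.diagonal_mul, hD₂]
    by_cases hi : i ∈ s
    · rw [pw_mem K hi, if_pos hi, one_mul]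
      by_cases hij : i = j
      · subst hij
        rw [Matrix.diagonal_apply_eq, if_pos hi, add_zero]
      · rw [Matrix.diagonal_apply_ne _ hij, add_zero]
    · rw [pw_notMem K hi, if_neg hi, zero_mul, zero_add]
      by_cases hij : i = j
      · subst hij
        rw [Matrix.diagonal_apply_eq, if_neg hi, Matrix.one_apply_eq]
      · rw [Matrix.diagonal_apply_ne _ hij, Matrix.one_apply_ne hij]
  have h2 : (pw s K).rank = Fintype.card p :=
    Matrix.rank_of_isUnit _ ((Matrix.isUnit_iff_isUnit_det _).2 (isUnit_iff_ne_zero.2 hcon))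
  rw [h1] at h2
  have h3 := rank_add_le' (D₁ * K) D₂
  have h4 := Matrix.rank_mul_le_right D₁ K
  have h5 : D₂.rank = (Finset.univ \ s).card := by
    rw [hD₂, Matrix.rank_diagonal, Fintype.card_subtype]
    congr 1
    ext i
    simp
  have h6 : (Finset.univ \ s).card = Fintype.card p - s.card := by
    rw [← Finset.compl_eq_univ_sdiff, Finset.card_compl]
  have h7 : s.card ≤ Fintype.card p := Finset.card_le_univ s
  omega

theorem det_layer {R : Type} [CommRing R] (M : Matrix p p R) (h : p → ℕ)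
    (hM : ∀ i j, i ≠ j → ¬ h i < h j → M i j = 0) : M.det = ∏ i, M i i := by
  rw [Matrix.det_apply, Finset.sum_eq_single 1]
  · simp
  · intro σ _ hσ
    have h1 : ∃ i, M (σ i) i = 0 := by
      by_contra hcon
      push Not at hcon
      have h2 : ∀ i, σ i = i ∨ h (σ i) < h i := by
        intro i
        by_cases h3 : σ i = i
        · exact Or.inl h3
        · right
          by_contra h4
          exact hcon i (hM _ _ h3 h4)
      have h3 : ∃ i, σ i ≠ i := by
        by_contra h4
        push Not at h4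
        exact hσ (Equiv.ext h4)
      obtain ⟨i₀, hi₀⟩ := h3
      have h4 : ∑ i, h (σ i) = ∑ i, h i := Equiv.sum_comp σ h
      have h5 : ∑ i, h (σ i) < ∑ i, h i := by
        refine Finset.sum_lt_sum (fun i _ => ?_) ⟨i₀, Finset.mem_univ _, ?_⟩
        · rcases h2 i with h6 | h6
          · rw [h6]
          · exact h6.le
        · exact (h2 i₀).resolve_left hi₀
      omega
    obtain ⟨i, hi⟩ := h1
    have h2 : ∏ i, M (σ i) i = 0 := Finset.prod_eq_zero (Finset.mem_univ i) hi
    rw [h2, smul_zero]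
  · intro h1
    exact absurd (Finset.mem_univ _) h1

theorem pow_layer {R : Type} [CommRing R] (N : Matrix p p R) (h : p → ℕ)
    (hN : ∀ i j, ¬ h i < h j → N i j = 0) (k : ℕ) : ∀ i j, ¬ h i + k ≤ h j → (N ^ k) i j = 0 := by
  induction k with
  | zero =>
      intro i j hij
      rw [pow_zero, Matrix.one_apply_ne]
      rintro rfl
      exact hij (by omega)
  | succ k ih =>
      intro i j hij
      rw [pow_succ, Matrix.mul_apply]
      refine Finset.sum_eq_zero fun r _ => ?_
      by_cases h1 : h i + k ≤ h r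
      · rw [hN r j (by omega), mul_zero]
      · rw [ih i r h1, zero_mul]

end

section

variable {V : Type} [AddCommGroup V] [Module ℂ V] {p : Type} [Fintype p] [DecidableEq p]
  [Nonempty p]

/-- **The determinant of a perturbed layered matrix.** -/
theorem exists_Rt {b c : ℕ} (T L : V →ₗ[ℂ] Matrix p p ℂ) (h : p → ℕ) (hb : ∀ i, h i < b)
    (hT : ∀ x, ∀ i j, i ≠ j → ¬ h i < h j → T x i j = 0) (hL : ∀ x, (L x).rank ≤ c)
    (ℓ : p → V →ₗ[ℂ] ℂ) (hℓ : ∀ i x, ℓ i x = T x i i) :
    ∃ R ∈ Rt ℓ (b * c), ∀ x : Gd ℓ, (T (x : V) + L (x : V)).det = (∏ i, ℓ i (x : V)) * R x := by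
  classical
  obtain ⟨i₀⟩ := (inferInstance : Nonempty p)
  -- entries as linear forms
  let ent : (V →ₗ[ℂ] Matrix p p ℂ) → p → p → V →ₗ[ℂ] ℂ := fun F i j =>
    (LinearMap.proj j).comp ((LinearMap.proj i).comp F)
  let N : Matrix p p (Gd ℓ → ℂ) := fun i j =>
    if i = j then 0 else fun x => ent T i j (x : V) / ℓ i (x : V)
  let M : Matrix p p (Gd ℓ → ℂ) := fun i j => fun x => ent L i j (x : V) / ℓ i (x : V)
  have hN : MRt ℓ 1 N := by
    intro i j
    simp only [N]
    split_ifs
    · exact Submodule.zero_mem _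
    · exact quot_mem_Rt_one _ _
  have hM : MRt ℓ 1 M := fun i j => quot_mem_Rt_one _ _
  have hN0 : ∀ i j, ¬ h i < h j → N i j = 0 := by
    intro i j hij
    simp only [N]
    split_ifs with h1
    · rfl
    · funext x
      change T (x : V) i j / _ = 0
      rw [hT _ i j h1 hij, zero_div]
  have hNb : N ^ b = 0 := by
    ext1 i j
    rw [pow_layer N h hN0 b i j (by have := hb j; omega)]
    rfl
  set S : Matrix p p (Gd ℓ → ℂ) := ∑ k ∈ Finset.range b, (-N) ^ k with hS
  have hinv : (1 + N) * S = 1 := by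
    have h1 := mul_geom_sum (-N) b
    have h2 : (-N - 1) = -(1 + N) := by abel
    rw [h2, neg_pow, hNb, mul_zero, zero_sub, neg_mul, neg_inj] at h1
    exact h1
  set K : Matrix p p (Gd ℓ → ℂ) := S * M with hK
  have hKR : MRt ℓ b K := by
    have h1 : K = ∑ k ∈ Finset.range b, (-N) ^ k * M := by rw [hK, hS, Finset.sum_mul]
    intro i j
    rw [h1, Matrix.sum_apply]
    refine Submodule.sum_mem _ fun k hk => ?_
    have hk' := Finset.mem_range.1 hk
    have h2 : MRt ℓ 1 (-N) := fun i j => Submodule.neg_mem _ (hN i j)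
    have h3 := MRt_mul (MRt_pow h2 k) hM
    exact Rt_mono i₀ (by omega) (h3 i j)
  have hdet1 : (1 + N).det = 1 := by
    rw [det_layer (1 + N) h]
    · refine Finset.prod_eq_one fun i _ => ?_
      rw [Matrix.add_apply, Matrix.one_apply_eq, hN0 i i (lt_irrefl _), add_zero]
    · intro i j hij hh
      rw [Matrix.add_apply, Matrix.one_apply_ne hij, hN0 i j hh, add_zero]
  have hfac : 1 + N + M = (1 + N) * (1 + K) := by
    rw [mul_add, mul_one, hK, ← mul_assoc, hinv, one_mul]
  have hdet2 : (1 + N + M).det = (1 + K).det := by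
    rw [hfac, Matrix.det_mul, hdet1, one_mul]
  -- evaluation at a point
  let ev : Gd ℓ → (Gd ℓ → ℂ) →+* ℂ := fun x => Pi.evalRingHom (fun _ => ℂ) x
  have hrank : ∀ x : Gd ℓ, ((ev x).mapMatrix K).rank ≤ c := by
    intro x
    rw [hK, map_mul]
    refine (Matrix.rank_mul_le_right _ _).trans ?_
    have h1 : (ev x).mapMatrix M = Matrix.diagonal (fun i => (ℓ i (x : V))⁻¹) * L (x : V) := by
      ext i j
      rw [Matrix.diagonal_mul]
      change L (x : V) i j / ℓ i (x : V) = _
      rw [div_eq_inv_mul]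
    rw [h1]
    exact (Matrix.rank_mul_le_right _ _).trans (hL _)
  have hmem : (1 + K).det ∈ Rt ℓ (b * c) := by
    rw [det_expand]
    refine Submodule.sum_mem _ fun s _ => ?_
    by_cases hs : s.card ≤ c
    · have h1 := det_mem (ℓ := ℓ) (d := b) (pw s K) s (by
          intro i hi j
          rw [pw_mem K hi]
          exact hKR i j) (by
          intro i hi j
          rw [pw_notMem K hi]
          exact MRt_one p i j)
      refine Rt_mono i₀ ?_ h1
      rw [mul_comm b c]
      exact Nat.mul_le_mul_right _ hs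
    · have h1 : (pw s K).det = 0 := by
        funext x
        have h2 : (pw s K).det x = ((ev x).mapMatrix (pw s K)).det := by
          rw [← RingHom.map_det]
          rfl
        have h3 : (ev x).mapMatrix (pw s K) = pw s ((ev x).mapMatrix K) := by
          ext i j
          rw [RingHom.mapMatrix_apply, Matrix.map_apply]
          by_cases hi : i ∈ s
          · rw [pw_mem K hi, pw_mem _ hi]
            rfl
          · rw [pw_notMem K hi, pw_notMem _ hi]
            by_cases hij : i = j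
            · subst hij
              rw [Matrix.one_apply_eq, Matrix.one_apply_eq, map_one]
            · rw [Matrix.one_apply_ne hij, Matrix.one_apply_ne hij, map_zero]
        rw [h2, h3, det_piecewise_zero (hrank x) (by omega)]
        rfl
      rw [h1]
      exact Submodule.zero_mem _
  refine ⟨(1 + K).det, hmem, fun x => ?_⟩
  rw [← hdet2]
  have h1 : (1 + N + M).det x = ((ev x).mapMatrix (1 + N + M)).det := by
    rw [← RingHom.map_det]
    rfl
  rw [h1, ← Matrix.det_diagonal, ← Matrix.det_mul]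
  congr 1
  ext i j
  rw [Matrix.add_apply, Matrix.diagonal_mul, RingHom.mapMatrix_apply, Matrix.map_apply,
    Matrix.add_apply, Matrix.add_apply, map_add, map_add]
  have hx := x.2 i
  have h2 : ev x (M i j) = L (x : V) i j / ℓ i (x : V) := rfl
  by_cases hij : i = j
  · subst hij
    have h3 : ev x (N i i) = 0 := by
      rw [hN0 i i (lt_irrefl _), map_zero]
    rw [h2, h3, Matrix.one_apply_eq, map_one, add_zero, mul_add, mul_one, mul_div_cancel₀ _ hx,
      hℓ]
  · have h3 : ev x (N i j) = T (x : V) i j / ℓ i (x : V) := by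
      have : N i j = fun x : Gd ℓ => ent T i j (x : V) / ℓ i (x : V) := if_neg hij
      rw [this]
      rfl
    rw [h2, h3, Matrix.one_apply_ne hij, map_zero, zero_add, mul_add, mul_div_cancel₀ _ hx,
      mul_div_cancel₀ _ hx]

end

end Pool.Agent.Helper69K1
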