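import Pool.Agent.Helper69K1.Lay5

/-!
# Simultaneous directions
-/

set_option linter.unusedSectionVars false

namespace Pool.Agent.Helper69K1

open Module

section poly

variable {V : Type} [AddCommGroup V] [Module ℂ V]

/-- Functions of degree at most `e`. -/
def PF (e : ℕ) (g : V → ℂ) : Prop :=
  ∃ (n : ℕ) (c : Fin n → ℂ) (α : Fin n → Fin e → ℂ) (μ : Fin n → Fin e → V →ₗ[ℂ] ℂ),
    ∀ v, g v = ∑ a, c a * ∏ k, (α a k + μ a k v)

theorem PF_zero {g : V → ℂ} (h : PF 0 g) : ∃ d, ∀ v, g v = d := by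
  obtain ⟨n, c, α, μ, hg⟩ := h
  exact ⟨∑ a, c a, fun v => by rw [hg]; simp⟩

theorem PF_const (e : ℕ) (d : ℂ) : PF e (fun _ : V => d) :=
  ⟨1, fun _ => d, fun _ _ => 1, fun _ _ => 0, fun v => by simp⟩

theorem PF_succ {e : ℕ} {g : V → ℂ} (h : PF e g) : PF (e + 1) g := by
  obtain ⟨n, c, α, μ, hg⟩ := h
  refine ⟨n, c, fun a => Fin.cons 1 (α a), fun a => Fin.cons 0 (μ a), fun v => ?_⟩
  rw [hg]
  refine Finset.sum_congr rfl fun a _ => ?_
  rw [Fin.prod_univ_succ]
  simp

/-- A double sum as a sum over a standard index type. -/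
theorem PF_of_fintype {e : ℕ} {β : Type} [Fintype β] (c : β → ℂ) (α : β → Fin e → ℂ)
    (μ : β → Fin e → V →ₗ[ℂ] ℂ) : PF e (fun v => ∑ a, c a * ∏ k, (α a k + μ a k v)) := by
  classical
  let E := Fintype.equivFin β
  refine ⟨Fintype.card β, fun a => c (E.symm a), fun a => α (E.symm a), fun a => μ (E.symm a),
    fun v => ?_⟩
  exact (Equiv.sum_comp E.symm fun b => c b * ∏ k, (α b k + μ b k v)).symm

/-- The derivative of a function of degree at most `e + 1`. -/
theorem PF_deriv {e : ℕ} {g : V → ℂ} (h : PF (e + 1) g) : ∃ D : V → V →ₗ[ℂ] ℂ,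
    (∀ u, PF e fun v => D v u) ∧
    ∀ u v (s : ℂ), HasDerivAt (fun s : ℂ => g (v + s • u)) (D (v + s • u) u) s := by
  obtain ⟨n, c, α, μ, hg⟩ := h
  let D : V → V →ₗ[ℂ] ℂ := fun v => ∑ a, ∑ j,
    (c a * ∏ k, (α a (j.succAbove k) + μ a (j.succAbove k) v)) • μ a j
  have hD : ∀ v u, D v u = ∑ a, ∑ j,
      (c a * ∏ k, (α a (j.succAbove k) + μ a (j.succAbove k) v)) * μ a j u := by
    intro v u
    simp only [D, LinearMap.sum_apply, LinearMap.smul_apply, smul_eq_mul]
  refine ⟨D, fun u => ?_, fun u v s => ?_⟩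
  · have h1 := PF_of_fintype (e := e) (β := Fin n × Fin (e + 1))
      (fun p => c p.1 * μ p.1 p.2 u) (fun p k => α p.1 (p.2.succAbove k))
      (fun p k => μ p.1 (p.2.succAbove k))
    have h2 : (fun v => D v u) = fun v => ∑ p : Fin n × Fin (e + 1), c p.1 * μ p.1 p.2 u *
        ∏ k, (α p.1 (p.2.succAbove k) + μ p.1 (p.2.succAbove k) v) := by
      funext v
      rw [hD, Fintype.sum_prod_type]
      refine Finset.sum_congr rfl fun a _ => Finset.sum_congr rfl fun j _ => ?_
      ring
    rw [h2]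
    exact h1
  · have h1 : (fun s : ℂ => g (v + s • u)) = fun s : ℂ =>
        ∑ a, c a * ∏ k, (α a k + (μ a k v + s * μ a k u)) := by
      funext s
      rw [hg]
      refine Finset.sum_congr rfl fun a _ => ?_
      congr 1
      refine Finset.prod_congr rfl fun k _ => ?_
      rw [map_add, map_smul, smul_eq_mul]
    rw [h1, hD]
    refine HasDerivAt.fun_sum fun a _ => ?_
    have h2 : ∀ k : Fin (e + 1), HasDerivAt (fun s : ℂ => α a k + (μ a k v + s * μ a k u))
        (μ a k u) s := by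
      intro k
      have h3 : HasDerivAt (fun s : ℂ => s * μ a k u) (1 * μ a k u) s :=
        (hasDerivAt_id s).mul_const _
      rw [one_mul] at h3
      exact (h3.const_add _).const_add _
    have h4 := (HasDerivAt.fun_finsetProd (u := (Finset.univ : Finset (Fin (e + 1))))
      (f := fun k s => α a k + (μ a k v + s * μ a k u)) (f' := fun k => μ a k u)
      (x := s) fun k _ => h2 k).const_mul (c a)
    refine h4.congr_deriv ?_
    rw [Finset.mul_sum]
    refine Finset.sum_congr rfl fun j _ => ?_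
    rw [smul_eq_mul, mul_assoc]
    congr 2
    have h5 : ∏ k ∈ Finset.univ.erase j, (α a k + (μ a k v + s * μ a k u)) =
        ∏ k : Fin e, (α a (j.succAbove k) + (μ a (j.succAbove k) v +
          s * μ a (j.succAbove k) u)) := by
      have h6 : (Finset.univ.erase j : Finset (Fin (e + 1))) =
          Finset.univ.map j.succAboveEmb := by
        ext k
        simp only [Finset.mem_erase, Finset.mem_univ, and_true, Finset.mem_map, true_and]
        constructor
        · intro hk
          obtain ⟨i, hi⟩ := Fin.exists_succAbove_eq hk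
          exact ⟨i, hi⟩
        · rintro ⟨i, rfl⟩
          exact Fin.succAbove_ne j i
      rw [h6, Finset.prod_map]
      rfl
    rw [h5]
    refine Finset.prod_congr rfl fun k _ => ?_
    rw [map_add, map_smul, smul_eq_mul]

theorem PF_eq_const {g : V → ℂ} {D : V → V →ₗ[ℂ] ℂ}
    (hD : ∀ u v (s : ℂ), HasDerivAt (fun s : ℂ => g (v + s • u)) (D (v + s • u) u) s)
    (h0 : ∀ v u, D v u = 0) (v : V) : g v = g 0 := by
  have h1 := is_const_of_deriv_eq_zero (f := fun s : ℂ => g (0 + s • v))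
    (fun s => (hD v 0 s).differentiableAt) (fun s => by rw [(hD v 0 s).deriv, h0]) 1 0
  simpa using h1

end poly

/-- **Few moment vectors for finitely many functions of bounded degree.** -/
theorem mom_simul {m : ℕ} {α : Type} : ∀ (e : ℕ) (S : Finset α) (g : α → (Fin m → ℂ) → ℂ),
    (∀ a ∈ S, PF e (g a)) → (∀ a ∈ S, ∃ v, g a v ≠ 0) → ∀ B : ℕ, S.card * m ≤ B →
    ∃ σ : Fin e → ℕ, (∀ i, σ i < B + 1) ∧
      ∀ a ∈ S, ∃ v ∈ Submodule.span ℂ (Set.range fun i => momC m (σ i)), g a v ≠ 0 := by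
  classical
  intro e0
  induction e0 with
  | zero =>
      intro S g hg hne B _
      refine ⟨Fin.elim0, fun i => i.elim0, fun a ha => ?_⟩
      obtain ⟨d, hd⟩ := PF_zero (hg a ha)
      obtain ⟨v, hv⟩ := hne a ha
      exact ⟨0, Submodule.zero_mem _, by rw [hd, ← hd v]; exact hv⟩
  | succ e ih =>
      intro S g hg hne B hB
      have hD' : ∀ a, ∃ D : (Fin m → ℂ) → (Fin m → ℂ) →ₗ[ℂ] ℂ, a ∈ S →
          (∀ u, PF e fun v => D v u) ∧
          ∀ u v (s : ℂ), HasDerivAt (fun s : ℂ => g a (v + s • u)) (D (v + s • u) u) s := by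
        intro a
        by_cases ha : a ∈ S
        · obtain ⟨D, hD⟩ := PF_deriv (hg a ha)
          exact ⟨D, fun _ => hD⟩
        · exact ⟨fun _ => 0, fun h => absurd h ha⟩
      choose D hD using hD'
      let S' : Finset α := S.filter fun a => ∃ v, D a v ≠ 0
      have hv' : ∀ a, ∃ v, a ∈ S' → D a v ≠ 0 := by
        intro a
        by_cases ha : a ∈ S'
        · obtain ⟨v, hv⟩ := (Finset.mem_filter.1 ha).2
          exact ⟨v, fun _ => hv⟩
        · exact ⟨0, fun h => absurd h ha⟩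
      choose v₀ hv₀ using hv'
      have hcard : S'.card * m ≤ B :=
        (Nat.mul_le_mul_right _ (Finset.card_filter_le _ _)).trans hB
      obtain ⟨τ, hτ, hτf⟩ := mom_avoid S' (fun a => D a (v₀ a)) (fun a ha => hv₀ a ha) hcard
      obtain ⟨σ, hσ, hσg⟩ := ih S' (fun a v => D a v (momC m τ))
        (fun a ha => (hD a (Finset.mem_filter.1 ha).1).1 _)
        (fun a ha => ⟨v₀ a, hτf a ha⟩) B hcard
      refine ⟨Fin.cons τ σ, fun i => ?_, fun a ha => ?_⟩
      · refine Fin.cases ?_ (fun i => ?_) i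
        · simpa using hτ
        · simpa using hσ i
      · by_cases haS : a ∈ S'
        · obtain ⟨v, hv, hne'⟩ := hσg a haS
          have h1 : ∃ s : ℂ, g a (v + s • momC m τ) ≠ 0 := by
            by_contra hcon
            push Not at hcon
            apply hne'
            have h2 := (hD a ha).2 (momC m τ) v 0
            have h3 : (fun s : ℂ => g a (v + s • momC m τ)) = fun _ => 0 := funext hcon
            rw [h3] at h2
            have h4 := h2.unique (hasDerivAt_const (0 : ℂ) (0 : ℂ))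
            simpa using h4
          obtain ⟨s, hs⟩ := h1
          refine ⟨v + s • momC m τ, Submodule.add_mem _ ?_ (Submodule.smul_mem _ _
            (Submodule.subset_span ⟨0, by simp⟩)), hs⟩
          refine Submodule.span_mono ?_ hv
          rintro _ ⟨i, rfl⟩
          exact ⟨i.succ, by simp⟩
        · have h0 : ∀ v u, D a v u = 0 := by
            intro v u
            by_contra h1
            apply haS
            refine Finset.mem_filter.2 ⟨ha, v, fun h2 => h1 ?_⟩
            rw [h2]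
            rfl
          obtain ⟨v, hv⟩ := hne a ha
          refine ⟨0, Submodule.zero_mem _, ?_⟩
          rw [← PF_eq_const (hD a ha).2 h0 v]
          exact hv

section extraction

variable {V : Type} [AddCommGroup V] [Module ℂ V] [FiniteDimensional ℂ V]
variable {ι : Type} [Fintype ι]

/-- If the leading parts vanish then the number of quotients can be lowered. -/
theorem lower_mem {ℓ : ι → V →ₗ[ℂ] ℂ} {e n : ℕ} {R : Gd ℓ → ℂ} (c : Fin n → ℂ)
    (μ : Fin n → Fin (e + 1) → V →ₗ[ℂ] ℂ) (τ : Fin n → Fin (e + 1) → ι)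
    (hR' : ∀ x : Gd ℓ, R x = ∑ a, c a * ((∏ k, μ a k (x : V)) / ∏ k, ℓ (τ a k) (x : V)))
    (hpart : ∀ (a₀ : Fin n) (S : Finset (Fin n)), (∀ a, a ∈ S ↔ ∀ k,
      (ℓ (τ a k) : Module.Dual ℂ V) ∈
        Submodule.span ℂ (Set.range fun k => (ℓ (τ a₀ k) : Module.Dual ℂ V))) →
      ∀ x, (∀ k, ℓ (τ a₀ k) x = 0) → ∀ y ∈ Gd ℓ,
      ∑ a ∈ S, c a * ((∏ k, μ a k x) / ∏ k, ℓ (τ a k) y) = 0) : R ∈ Rt ℓ e := by
  classical
  set Z : Fin n → Submodule ℂ (Module.Dual ℂ V) := fun a =>
    Submodule.span ℂ (Set.range fun k => (ℓ (τ a k) : Module.Dual ℂ V)) with hZ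
  have hle : ∀ a a₀, Z a ≤ Z a₀ ↔ ∀ k, (ℓ (τ a k) : Module.Dual ℂ V) ∈ Z a₀ := by
    intro a a₀
    rw [hZ]
    simp only
    rw [Submodule.span_le, Set.range_subset_iff]
    rfl
  have hS : ∀ Y : Submodule ℂ (Module.Dual ℂ V), ∀ x : V, (∀ f ∈ Y, f x = 0) →
      ∀ y ∈ Gd ℓ, ∑ a ∈ Finset.univ.filter (fun a => Z a = Y),
        c a * ((∏ k, μ a k x) / ∏ k, ℓ (τ a k) y) = 0 := by
    intro Y
    induction Y using WellFoundedLT.induction with
    | ind Y ihY =>
        intro x hx y hy
        by_cases hex : ∃ a₀, Z a₀ = Y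
        · obtain ⟨a₀, rfl⟩ := hex
          have h1 := hpart a₀ (Finset.univ.filter fun a => Z a ≤ Z a₀)
            (fun a => by rw [Finset.mem_filter]; simp only [Finset.mem_univ, true_and]
                         exact hle a a₀) x
            (fun k => hx _ (Submodule.subset_span ⟨k, rfl⟩)) y hy
          have h2 : (Finset.univ.filter fun a => Z a ≤ Z a₀) =
              (Finset.univ.filter fun a => Z a = Z a₀) ∪
                (Finset.univ.filter fun a => Z a < Z a₀) := by
            ext a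
            simp only [Finset.mem_filter, Finset.mem_univ, true_and, Finset.mem_union]
            exact le_iff_eq_or_lt
          have h3 : Disjoint (Finset.univ.filter fun a => Z a = Z a₀)
              (Finset.univ.filter fun a => Z a < Z a₀) := by
            rw [Finset.disjoint_filter]
            intro a _ h4 h5
            exact (ne_of_lt h5) h4
          rw [h2, Finset.sum_union h3] at h1
          have h4 : ∑ a ∈ Finset.univ.filter (fun a => Z a < Z a₀),
              c a * ((∏ k, μ a k x) / ∏ k, ℓ (τ a k) y) = 0 := by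
            rw [← Finset.sum_fiberwise_of_maps_to
              (t := (Finset.univ.filter fun a => Z a < Z a₀).image Z) (g := Z)
              (fun a ha => Finset.mem_image_of_mem Z ha)]
            refine Finset.sum_eq_zero fun Y' hY' => ?_
            rw [Finset.mem_image] at hY'
            obtain ⟨a', ha', rfl⟩ := hY'
            have hlt : Z a' < Z a₀ := (Finset.mem_filter.1 ha').2
            rw [← ihY (Z a') hlt x (fun f hf => hx f (hlt.le hf)) y hy]
            refine Finset.sum_congr ?_ fun _ _ => rfl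
            ext a
            simp only [Finset.mem_filter, Finset.mem_univ, true_and]
            constructor
            · exact fun h5 => h5.2
            · intro h5
              exact ⟨by rw [h5]; exact hlt, h5⟩
          rw [h4, add_zero] at h1
          exact h1
        · have h1 : (Finset.univ.filter fun a => Z a = Y) = ∅ := by
            rw [Finset.filter_eq_empty_iff]
            intro a _ ha
            exact hex ⟨a, ha⟩
          rw [h1, Finset.sum_empty]
  have hπ : ∀ Y : Submodule ℂ (Module.Dual ℂ V), ∃ π : V →ₗ[ℂ] V,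
      (∀ f ∈ Y, ∀ x, f (π x) = 0) ∧ ∀ f : Module.Dual ℂ V, f - f.comp π ∈ Y :=
    fun Y => exists_proj Y
  choose π hπ1 hπ2 using hπ
  have h5 : R = ∑ a, c a • (fun x : Gd ℓ => (∏ k, μ a k (x : V)) / (∏ k, ℓ (τ a k) (x : V)) -
      (∏ k, μ a k (π (Z a) (x : V))) / ∏ k, ℓ (τ a k) (x : V)) := by
    funext x
    rw [hR', Finset.sum_apply]
    simp only [Pi.smul_apply, smul_eq_mul, mul_sub]
    rw [Finset.sum_sub_distrib]
    have h6 : ∑ a, c a * ((∏ k, μ a k (π (Z a) (x : V))) / ∏ k, ℓ (τ a k) (x : V)) = 0 := by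
      rw [← Finset.sum_fiberwise_of_maps_to
        (t := (Finset.univ : Finset (Fin n)).image Z) (g := Z)
        (fun a ha => Finset.mem_image_of_mem Z ha)]
      refine Finset.sum_eq_zero fun Y _ => ?_
      rw [← hS Y (π Y (x : V)) (fun f hf => hπ1 Y f hf _) (x : V) x.2]
      refine Finset.sum_congr rfl fun a ha => ?_
      rw [(Finset.mem_filter.1 ha).2]
    rw [h6, sub_zero]
  rw [h5]
  exact Submodule.sum_mem _ fun a _ => Submodule.smul_mem _ _
    (split_mem (μ a) (τ a) (π (Z a)) fun g => hπ2 (Z a) g)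

/-- **A function of bounded degree which detects that a sum of products of quotients of linear
forms is nonzero.** -/
theorem extract_rt {ℓ : ι → V →ₗ[ℂ] ℂ} {W : Submodule ℂ V} (hℓ : ∀ i, ∃ x, ℓ i x ≠ 0) :
    ∀ (e : ℕ), Reali ℓ W (e + 1) → ∀ R ∈ Rt ℓ e, R ≠ 0 →
    ∃ g : V → ℂ, PF e g ∧ (∃ v, g v ≠ 0) ∧ ∀ v, g v ≠ 0 →
      ∃ x : Gd ℓ, (x : V) ∈ W ⊔ Submodule.span ℂ {v} ∧ R x ≠ 0 := by
  classical
  intro e
  induction e with
  | zero =>
      intro hW R hR hR0
      obtain ⟨n, c, μ, τ, hR'⟩ := mem_Rt_iff hR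
      obtain ⟨w₀, hw₀, hw₀'⟩ := exists_genform ℓ W Set.univ (by
        intro i _
        obtain ⟨x, hx⟩ := hℓ i
        obtain ⟨w, hw, h1⟩ := hW (fun _ => i) x
        exact ⟨w, hw, by rw [h1 0]; exact hx⟩)
      refine ⟨fun _ => 1, PF_const 0 1, ⟨0, one_ne_zero⟩, fun v _ =>
        ⟨⟨w₀, fun i => hw₀' i trivial⟩, Submodule.mem_sup_left hw₀, fun h => hR0 ?_⟩⟩
      funext x
      rw [hR'] at h
      simp only [Finset.univ_eq_empty, Finset.prod_empty] at h
      rw [hR']
      simp only [Finset.univ_eq_empty, Finset.prod_empty]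
      exact h
  | succ e ih =>
      intro hW R hR hR0
      by_cases hRe : R ∈ Rt ℓ e
      · obtain ⟨g, hg, h1, h2⟩ := ih hW.lower R hRe hR0
        exact ⟨g, PF_succ hg, h1, h2⟩
      obtain ⟨n, c, μ, τ, hR'⟩ := mem_Rt_iff hR
      -- a leading part does not vanish
      have key : ∃ (a₀ : Fin n) (S : Finset (Fin n)) (x y : V), (∀ a, a ∈ S ↔ ∀ k,
          (ℓ (τ a k) : Module.Dual ℂ V) ∈
            Submodule.span ℂ (Set.range fun k => (ℓ (τ a₀ k) : Module.Dual ℂ V))) ∧
          (∀ k, ℓ (τ a₀ k) x = 0) ∧ y ∈ Gd ℓ ∧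
          ∑ a ∈ S, c a * ((∏ k, μ a k x) / ∏ k, ℓ (τ a k) y) ≠ 0 := by
        by_contra hcon
        push Not at hcon
        exact hRe (lower_mem c μ τ hR' fun a₀ S hS x hx y hy => hcon a₀ S x y hS hx hy)
      obtain ⟨a₀, S, x, y, hS, hx, hy, hne⟩ := key
      set Z : Submodule ℂ (Module.Dual ℂ V) :=
        Submodule.span ℂ (Set.range fun k => (ℓ (τ a₀ k) : Module.Dual ℂ V)) with hZ
      have hZval : ∀ f ∈ Z, ∀ x₁ x₂ : V, (∀ k, ℓ (τ a₀ k) x₁ = ℓ (τ a₀ k) x₂) →
          f x₁ = f x₂ := by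
        intro f hf x₁ x₂ h
        rw [hZ, Submodule.mem_span_range_iff_exists_fun] at hf
        obtain ⟨d, rfl⟩ := hf
        simp only [LinearMap.sum_apply, LinearMap.smul_apply, smul_eq_mul]
        exact Finset.sum_congr rfl fun k _ => by rw [h k]
      have hW' := hW.lower
      obtain ⟨y', hy'W, hy'⟩ := hW' (τ a₀) y
      have hyy : ∀ f ∈ Z, f y' = f y := fun f hf => hZval f hf _ _ hy'
      obtain ⟨w₀, hw₀, hw₀'⟩ := exists_genform ℓ
        (W ⊓ (Submodule.dualCoannihilator Z)) {i | (ℓ i : Module.Dual ℂ V) ∉ Z} (by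
          intro i hi
          obtain ⟨z, hz1, hz2⟩ := exists_sep Z hi
          obtain ⟨w, hw, h1⟩ := hW (Fin.cons i (τ a₀)) z
          have h2 : ℓ i w = ℓ i z := by simpa using h1 0
          have h3 : ∀ k, ℓ (τ a₀ k) w = ℓ (τ a₀ k) z := fun k => by simpa using h1 k.succ
          refine ⟨w, ⟨hw, ?_⟩, by rw [h2]; exact hz2⟩
          rw [SetLike.mem_coe, Submodule.mem_dualCoannihilator]
          intro g hg
          rw [hZval g hg w z h3]
          exact hz1 g hg)
      have hw₀Z : ∀ g ∈ Z, g w₀ = 0 := by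
        have := hw₀.2
        rw [SetLike.mem_coe, Submodule.mem_dualCoannihilator] at this
        exact this
      -- a linear choice of vectors of `W`
      let bs := Module.finBasis ℂ V
      have hvw : ∀ j, ∃ w ∈ W, ∀ k, ℓ (τ a₀ k) w = ℓ (τ a₀ k) (bs j) :=
        fun j => hW' (τ a₀) (bs j)
      choose w hwW hwv using hvw
      let ω : V →ₗ[ℂ] V := bs.constr ℂ w
      have hωW : ∀ v, ω v ∈ W := by
        intro v
        rw [Basis.constr_apply_fintype]
        exact Submodule.sum_mem _ fun j _ => Submodule.smul_mem _ _ (hwW j)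
      have hωv : ∀ v k, ℓ (τ a₀ k) (ω v) = ℓ (τ a₀ k) v := by
        intro v k
        have h1 : (ℓ (τ a₀ k)).comp ω = ℓ (τ a₀ k) := by
          refine bs.ext fun j => ?_
          rw [LinearMap.comp_apply, Basis.constr_basis]
          exact hwv j k
        exact congrArg (fun f : V →ₗ[ℂ] ℂ => f v) h1
      let ρ : V →ₗ[ℂ] V := LinearMap.id - ω
      have hρ : ∀ v, ρ v = v - ω v := fun v => rfl
      have hρZ : ∀ v k, ℓ (τ a₀ k) (ρ v) = 0 := by
        intro v k
        rw [hρ, map_sub, hωv, sub_self]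
      set w₁ : V := ω x with hw₁
      have hw₁Z : ∀ k, ℓ (τ a₀ k) w₁ = 0 := fun k => by rw [hw₁, hωv, hx]
      have hprod : ∀ a ∈ S, ∏ k, ℓ (τ a k) y = ∏ k, ℓ (τ a k) y' := fun a ha =>
        Finset.prod_congr rfl fun k _ => (hyy _ ((hS a).1 ha k)).symm
      refine ⟨fun v => ∑ a : S, (c a / ∏ k, ℓ (τ a k) y') *
          ∏ k, (μ a k w₁ + ((μ a k).comp ρ) v), PF_of_fintype _ _ _, ⟨x, ?_⟩, fun v hv => ?_⟩
      · beta_reduce
        rw [Finset.sum_coe_sort S fun a => (c a / ∏ k, ℓ (τ a k) y') *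
          ∏ k, (μ a k w₁ + ((μ a k).comp ρ) x)]
        refine fun h0 => hne ?_
        rw [← h0]
        refine Finset.sum_congr rfl fun a ha => ?_
        rw [hprod a ha]
        have h1 : ∏ k, (μ a k w₁ + ((μ a k).comp ρ) x) = ∏ k, μ a k x := by
          refine Finset.prod_congr rfl fun k _ => ?_
          rw [LinearMap.comp_apply, ← map_add, hρ, hw₁]
          congr 1
          abel
        rw [h1]
        ring
      · by_contra hcon
        push Not at hcon
        apply hv
        beta_reduce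
        rw [Finset.sum_coe_sort S fun a => (c a / ∏ k, ℓ (τ a k) y') *
          ∏ k, (μ a k w₁ + ((μ a k).comp ρ) v)]
        have hx₁Z : ∀ f ∈ Z, f (w₁ + ρ v) = 0 := by
          intro f hf
          rw [hZval f hf _ 0 ?_, map_zero]
          intro k
          rw [map_add, hρZ, hw₁Z, add_zero, map_zero]
        have hvmem : ρ v ∈ W ⊔ Submodule.span ℂ {v} := by
          rw [hρ]
          exact Submodule.sub_mem _ (Submodule.mem_sup_right (Submodule.mem_span_singleton_self v))
            (Submodule.mem_sup_left (hωW v))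
        have h1 := lead_zero ℓ (e + 1) c μ τ (w₁ + ρ v) w₀ y'
          {i | (ℓ i : Module.Dual ℂ V) ∈ Z} (fun i hi => hx₁Z _ hi) (fun i hi => hw₀Z _ hi)
          (fun i hi => by rw [hyy _ hi]; exact hy i) (fun i hi => hw₀' i hi)
          (fun t ht => by
            have h2 := hcon ⟨crv (w₁ + ρ v) w₀ y' t, ht⟩ (by
              refine Submodule.add_mem _ (Submodule.add_mem _ (Submodule.add_mem _ ?_ hvmem)
                (Submodule.smul_mem _ _ (Submodule.mem_sup_left hw₀.1)))
                (Submodule.smul_mem _ _ (Submodule.mem_sup_left hy'W))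
              exact Submodule.mem_sup_left (hωW x))
            rwa [hR'] at h2) S hS
        rw [← h1]
        refine Finset.sum_congr rfl fun a ha => ?_
        have h3 : ∏ k, (μ a k w₁ + ((μ a k).comp ρ) v) = ∏ k, μ a k (w₁ + ρ v) := by
          refine Finset.prod_congr rfl fun k _ => ?_
          rw [LinearMap.comp_apply, ← map_add]
        rw [h3]
        ring

end extraction

/-- **Simultaneous directions on the moment curve.** -/
theorem simul {m : ℕ} {ι : Type} [Fintype ι] {ℓ : ι → (Fin m → ℂ) →ₗ[ℂ] ℂ}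
    (hℓ : ∀ i, ∃ x, ℓ i x ≠ 0) (e : ℕ) {α : Type} (S : Finset α) (R : α → Gd ℓ → ℂ)
    (hR : ∀ a ∈ S, R a ∈ Rt ℓ e) (hR0 : ∀ a ∈ S, R a ≠ 0) {B : ℕ}
    (hB : Fintype.card ι ^ (e + 1) * m ≤ B) (hB' : S.card * m ≤ B) :
    ∃ (σ : Fin (e + 1) → ℕ) (σ' : Fin e → ℕ), (∀ i, σ i < B + 1) ∧ (∀ i, σ' i < B + 1) ∧
      ∀ a ∈ S, ∃ x : Gd ℓ, (x : Fin m → ℂ) ∈
        Submodule.span ℂ (Set.range fun i => momC m (σ i)) ⊔
        Submodule.span ℂ (Set.range fun i => momC m (σ' i)) ∧ R a x ≠ 0 := by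
  classical
  obtain ⟨σ, hσ, hW⟩ := exists_mom ℓ (e + 1) hB
  have hex : ∀ a, ∃ g : (Fin m → ℂ) → ℂ, a ∈ S → PF e g ∧ (∃ v, g v ≠ 0) ∧ ∀ v, g v ≠ 0 →
      ∃ x : Gd ℓ, (x : Fin m → ℂ) ∈ Submodule.span ℂ (Set.range fun i => momC m (σ i)) ⊔
        Submodule.span ℂ {v} ∧ R a x ≠ 0 := by
    intro a
    by_cases ha : a ∈ S
    · obtain ⟨g, hg⟩ := extract_rt hℓ e hW (R a) (hR a ha) (hR0 a ha)
      exact ⟨g, fun _ => hg⟩
    · exact ⟨0, fun h => absurd h ha⟩
  choose g hg using hex
  obtain ⟨σ', hσ', h1⟩ := mom_simul e S g (fun a ha => (hg a ha).1) (fun a ha => (hg a ha).2.1)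
    B hB'
  refine ⟨σ, σ', hσ, hσ', fun a ha => ?_⟩
  obtain ⟨v, hv, hgv⟩ := h1 a ha
  obtain ⟨x, hx, hRx⟩ := (hg a ha).2.2 v hgv
  refine ⟨x, ?_, hRx⟩
  have h2 : Submodule.span ℂ {v} ≤ Submodule.span ℂ (Set.range fun i => momC m (σ' i)) := by
    rw [Submodule.span_singleton_le_iff_mem]
    exact hv
  have h3 : Submodule.span ℂ (Set.range fun i => momC m (σ i)) ⊔ Submodule.span ℂ {v} ≤
      Submodule.span ℂ (Set.range fun i => momC m (σ i)) ⊔
        Submodule.span ℂ (Set.range fun i => momC m (σ' i)) := sup_le_sup le_rfl h2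
  exact h3 hx

end Pool.Agent.Helper69K1
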