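import Pool.Agent.Helper69K1.Fit

/-!
# Spaces of matrices closed under double commutators
-/

set_option linter.unusedSectionVars false

namespace Pool.Agent.Helper69K1

open Module

variable {n : Type*} [Fintype n] [DecidableEq n]

/-- The stable rank: the rank of all high powers, or the number of nonzero eigenvalues, counted with
multiplicity. -/
noncomputable def srk (X : Matrix n n ℚ) : ℕ := (X ^ Fintype.card n).rank

theorem srk_eq (X : Matrix n n ℚ) :
    srk X = finrank ℚ (LinearMap.range ((Matrix.toLin' X) ^ Fintype.card n)) := by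
  rw [srk, ← Matrix.toLin'_pow]
  rfl

theorem srk_smul (X : Matrix n n ℚ) {c : ℚ} (hc : c ≠ 0) : srk (c • X) = srk X := by
  rw [srk_eq, srk_eq, map_smul, smul_pow, LinearMap.range_smul _ _ (pow_ne_zero _ hc)]

/-- Closed under double commutators. -/
def IsTriple (B : Submodule ℚ (Matrix n n ℚ)) : Prop :=
  ∀ a ∈ B, ∀ b ∈ B, ∀ c ∈ B, a * (b * c - c * b) - (b * c - c * b) * a ∈ B

section

variable {B : Submodule ℚ (Matrix n n ℚ)} {x : Matrix n n ℚ}

theorem adE_toLin (x y : Matrix n n ℚ) (k : ℕ) :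
    (adE (Matrix.toLin' x) ^ k) (Matrix.toLin' y) = Matrix.toLin' ((adR ℚ x ^ k) y) := by
  induction k with
  | zero => rfl
  | succ k ih =>
      rw [pow_succ', Module.End.mul_apply, ih, pow_succ', Module.End.mul_apply, adE_apply,
        adR_apply, map_sub, Matrix.toLin'_mul, Matrix.toLin'_mul]
      rfl

/-- The null component of `x` in `B`. -/
def nullC (B : Submodule ℚ (Matrix n n ℚ)) (x : Matrix n n ℚ) (E : ℕ) :
    Submodule ℚ (Matrix n n ℚ) := B ⊓ LinearMap.ker (adR ℚ x ^ E)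

/-- The normaliser. -/
def normB (B : Submodule ℚ (Matrix n n ℚ)) : Submodule ℚ (Matrix n n ℚ) where
  carrier := {M | ∀ Y ∈ B, M * Y - Y * M ∈ B}
  add_mem' := fun {a b} ha hb Y hY => by
    have e : (a + b) * Y - Y * (a + b) = (a * Y - Y * a) + (b * Y - Y * b) := by
      rw [mul_add, add_mul]; abel
    rw [e]
    exact B.add_mem (ha Y hY) (hb Y hY)
  zero_mem' := fun Y _ => by rw [zero_mul, mul_zero, sub_zero]; exact B.zero_mem
  smul_mem' := fun c a ha Y hY => by
    rw [smul_mul_assoc, mul_smul_comm, ← smul_sub]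
    exact B.smul_mem _ (ha Y hY)

attribute [local instance 100] LieRing.ofAssociativeRing

theorem mem_engel {x y : Matrix n n ℚ} :
    y ∈ LieSubalgebra.engel ℚ x ↔ ∃ k : ℕ, (adR ℚ x ^ k) y = 0 := by
  rw [LieSubalgebra.mem_engel_iff]
  have : LieAlgebra.ad ℚ (Matrix n n ℚ) x = adR ℚ x := by
    ext y : 1
    rfl
  rw [this]

theorem nullC_triple (hB : IsTriple B) {E : ℕ} (hE : finrank ℚ (Matrix n n ℚ) ≤ E) :
    IsTriple (nullC B x E) := by
  intro a ha b hb c hc
  refine ⟨hB a ha.1 b hb.1 c hc.1, ?_⟩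
  have h1 : ∀ y ∈ nullC B x E, y ∈ LieSubalgebra.engel ℚ x := fun y hy =>
    mem_engel.2 ⟨E, hy.2⟩
  have h2 := (LieSubalgebra.engel ℚ x).lie_mem (h1 a ha)
    ((LieSubalgebra.engel ℚ x).lie_mem (h1 b hb) (h1 c hc))
  obtain ⟨k, hk⟩ := mem_engel.1 h2
  exact LinearMap.mem_ker.2 (mem_ker_of_pow hE hk)

/-- The space is spanned by the null component and commutators with `x`. -/
theorem nullC_decomp (hB : IsTriple B) (hx : x ∈ B) {E : ℕ}
    (hE : finrank ℚ (Matrix n n ℚ) ≤ E) {Y : Matrix n n ℚ} (hY : Y ∈ B) :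
    ∃ s ∈ nullC B x E, ∃ M ∈ normB B, Y = s + (M * x - x * M) := by
  set T := adR ℚ x * adR ℚ x with hT
  have hTB : ∀ y ∈ B, T y ∈ B := fun y hy => by
    rw [hT, Module.End.mul_apply, adR_apply x y]
    exact hB x hx x hx y hy
  set TB : End ℚ B := T.restrict hTB with hTBdef
  have hfin : finrank ℚ B ≤ E + 1 := ((Submodule.finrank_le B).trans hE).trans (by omega)
  have hc := fitting TB hfin
  have h1 : (⟨Y, hY⟩ : B) ∈ LinearMap.ker (TB ^ (E + 1)) ⊔ LinearMap.range (TB ^ (E + 1)) := by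
    rw [hc.sup_eq_top]; trivial
  obtain ⟨⟨s, hsB⟩, hs, _, ⟨⟨y, hyB⟩, rfl⟩, hsum⟩ := Submodule.mem_sup.1 h1
  have hpow : ∀ (k : ℕ) (u : B), ((TB ^ k) u : Matrix n n ℚ) = (T ^ k) u := by
    intro k u
    induction k with
    | zero => rfl
    | succ k ih =>
        rw [pow_succ', Module.End.mul_apply, pow_succ', Module.End.mul_apply, ← ih]
        rfl
  have hs' : (T ^ (E + 1)) s = 0 := by
    rw [← hpow (E + 1) ⟨s, hsB⟩, LinearMap.mem_ker.1 hs]; rfl
  have hs2 : (adR ℚ x ^ (2 * (E + 1))) s = 0 := by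
    rw [pow_mul, pow_two]; exact hs'
  refine ⟨s, ⟨hsB, LinearMap.mem_ker.2 (mem_ker_of_pow hE hs2)⟩, ?_⟩
  set y' : Matrix n n ℚ := (((TB ^ E) ⟨y, hyB⟩ : B) : Matrix n n ℚ) with hy'
  have hy'B : y' ∈ B := ((TB ^ E) ⟨y, hyB⟩).2
  refine ⟨y' * x - x * y', fun Z hZ => ?_, ?_⟩
  · have := hB Z hZ x hx y' hy'B
    convert! this using 1
    noncomm_ring
  · have h2 : Y = s + (((TB ^ (E + 1)) ⟨y, hyB⟩ : B) : Matrix n n ℚ) := by
      have := congrArg Subtype.val hsum
      exact this.symm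
    have h3 : (((TB ^ (E + 1)) ⟨y, hyB⟩ : B) : Matrix n n ℚ) =
        x * (x * y' - y' * x) - (x * y' - y' * x) * x := by
      rw [pow_succ', Module.End.mul_apply]
      rfl
    rw [h2, h3]
    noncomm_ring

/-- **Local maximality of the stable rank decides singularity** for spaces closed under double
commutators. -/
theorem triple_main (hB : IsTriple B) (hx : x ∈ B) {m E : ℕ} (z : Fin m → Matrix n n ℚ)
    (hE : finrank ℚ (Matrix n n ℚ) ≤ E) (hz : ∀ i, z i ∈ nullC B x E)
    (hspan : nullC B x E ≤ Submodule.span ℚ (Set.range z))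
    (hst : ∀ i j (s t : ℚ), srk (x + s • z i + t • z j) ≤ srk x) (hdet : x.det = 0)
    {Y : Matrix n n ℚ} (hY : Y ∈ B) : Y.det = 0 := by
  set X := Matrix.toLin' x with hX
  set d := Fintype.card n with hd
  have hfin : finrank ℚ (n → ℚ) ≤ d := by simp [hd]
  set V0 := LinearMap.ker (X ^ d) with hV0
  have hy0 : ∀ y ∈ nullC B x E, (adE X ^ E) (Matrix.toLin' y) = 0 := fun y hy => by
    rw [hX, adE_toLin, LinearMap.mem_ker.1 hy.2, map_zero]
  have stab : ∀ y ∈ nullC B x E, ∀ v ∈ V0, Matrix.toLin' y v ∈ V0 := fun y hy v hv =>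
    ker_stable hfin (hy0 y hy) hv
  -- nilpotency of small combinations
  have nil : ∀ i j (s t : ℚ), ∀ v ∈ V0, ((Matrix.toLin' (s • z i + t • z j)) ^ d) v = 0 := by
    intro i j s t v hv
    refine nil_of_stuck hfin (hy0 _ ((nullC B x E).add_mem ((nullC B x E).smul_mem s (hz i))
      ((nullC B x E).smul_mem t (hz j)))) (fun e he => ?_) hv
    have h1 : Matrix.toLin' (s • z i + t • z j) + e • X =
        Matrix.toLin' (e • (x + (s / e) • z i + (t / e) • z j)) := by
      rw [hX, ← map_smul, ← map_add]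
      congr 1
      simp only [smul_add, smul_smul, mul_div_cancel₀ _ he]
      abel
    rw [h1, ← srk_eq, ← srk_eq, srk_smul _ he]
    exact hst i j _ _
  -- the restrictions to the null space
  set L : Submodule ℚ (End ℚ V0) :=
    { carrier := {T | ∃ y ∈ nullC B x E, ∀ u : V0, (T u : n → ℚ) = Matrix.toLin' y u}
      add_mem' := fun {S T} ⟨a, ha, ha'⟩ ⟨b, hb, hb'⟩ =>
        ⟨a + b, (nullC B x E).add_mem ha hb, fun u => by
          rw [LinearMap.add_apply, Submodule.coe_add, ha', hb', map_add, LinearMap.add_apply]⟩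
      zero_mem' := ⟨0, (nullC B x E).zero_mem, fun u => by simp⟩
      smul_mem' := fun c T ⟨a, ha, ha'⟩ => ⟨c • a, (nullC B x E).smul_mem c ha, fun u => by
          rw [LinearMap.smul_apply, Submodule.coe_smul, ha', map_smul, LinearMap.smul_apply]⟩ }
    with hLdef
  have hL : ∀ a ∈ L, ∀ b ∈ L, ∀ c ∈ L, a * (b * c - c * b) - (b * c - c * b) * a ∈ L := by
    rintro S ⟨a, ha, ha'⟩ T ⟨b, hb, hb'⟩ U ⟨c, hc, hc'⟩
    refine ⟨_, nullC_triple hB hE a ha b hb c hc, fun u => ?_⟩
    simp only [LinearMap.sub_apply, Module.End.mul_apply, Submodule.coe_sub, ha', hb', hc',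
      map_sub, Matrix.toLin'_mul, LinearMap.comp_apply]
  set Z : Fin m → End ℚ V0 := fun i => (Matrix.toLin' (z i)).restrict (stab _ (hz i)) with hZdef
  have hZapp : ∀ i (u : V0), (Z i u : n → ℚ) = Matrix.toLin' (z i) u := fun i u => rfl
  have hZL : ∀ i, Z i ∈ L := fun i => ⟨z i, hz i, fun u => rfl⟩
  have hLZ : L ≤ Submodule.span ℚ (Set.range Z) := by
    rintro T ⟨y, hy, hT⟩
    obtain ⟨c, hc⟩ := (Submodule.mem_span_range_iff_exists_fun ℚ).1 (hspan hy)
    rw [Submodule.mem_span_range_iff_exists_fun]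
    refine ⟨c, LinearMap.ext fun u => Subtype.ext ?_⟩
    rw [hT, ← hc, LinearMap.sum_apply, map_sum, LinearMap.sum_apply, Submodule.coe_sum]
    refine Finset.sum_congr rfl fun i _ => ?_
    rw [LinearMap.smul_apply, Submodule.coe_smul, hZapp, map_smul, LinearMap.smul_apply]
  have hpow : ∀ (T : End ℚ V0) (y : Matrix n n ℚ), (∀ u : V0, (T u : n → ℚ) = Matrix.toLin' y u) →
      ∀ (k : ℕ) (u : V0), ((T ^ k) u : n → ℚ) = ((Matrix.toLin' y) ^ k) u := by
    intro T y hT k u
    induction k with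
    | zero => rfl
    | succ k ih => rw [pow_succ', Module.End.mul_apply, hT, ih, pow_succ', Module.End.mul_apply]
  have hnil2 : ∀ i j, IsNilpotent (Z i + Z j) := by
    intro i j
    refine ⟨d, LinearMap.ext fun u => Subtype.ext ?_⟩
    rw [hpow (Z i + Z j) ((1 : ℚ) • z i + (1 : ℚ) • z j) (fun u => by
      rw [LinearMap.add_apply, Submodule.coe_add, hZapp, hZapp, one_smul, one_smul, map_add,
        LinearMap.add_apply]), nil i j 1 1 u u.2]
    rfl
  have hnil1 : ∀ i, IsNilpotent (Z i) := by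
    intro i
    refine ⟨d, LinearMap.ext fun u => Subtype.ext ?_⟩
    rw [hpow (Z i) ((1 : ℚ) • z i + (0 : ℚ) • z i) (fun u => by
      rw [hZapp, one_smul, zero_smul, add_zero]), nil i i 1 0 u u.2]
    rfl
  have htrn : ∀ T : End ℚ V0, IsNilpotent T → LinearMap.trace ℚ V0 T = 0 := fun T hT =>
    (LinearMap.isNilpotent_trace_of_isNilpotent hT).eq_zero
  have hsq : ∀ T : End ℚ V0, IsNilpotent T → LinearMap.trace ℚ V0 (T * T) = 0 := fun T hT =>
    htrn _ ((Commute.refl T).isNilpotent_mul_left hT)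
  have htr : ∀ i j, LinearMap.trace ℚ V0 (Z i * Z j) = 0 := by
    intro i j
    have h1 := hsq _ (hnil2 i j)
    have h2 := hsq _ (hnil1 i)
    have h3 := hsq _ (hnil1 j)
    rw [add_mul, mul_add, mul_add, map_add, map_add, map_add, h2, h3,
      LinearMap.trace_mul_comm (f := Z j) (g := Z i)] at h1
    linarith
  -- all elements of the null component are singular
  obtain ⟨v, hv0, hv⟩ := Matrix.exists_mulVec_eq_zero_iff.2 hdet
  have hd0 : 0 < d := by
    rw [hd, Fintype.card_pos_iff]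
    by_contra h
    rw [not_nonempty_iff] at h
    exact hv0 (Subsingleton.elim _ _)
  have hvV : v ∈ V0 := by
    rw [hV0, LinearMap.mem_ker, ← Nat.sub_add_cancel hd0, pow_add, pow_one, Module.End.mul_apply,
      hX, Matrix.toLin'_apply, hv, map_zero]
  have hsing : ∀ s ∈ nullC B x E, s.det = 0 := by
    intro s hs
    obtain ⟨k, hk⟩ := triple_nil hL Z hZL hLZ hnil1 htr
      (z := (Matrix.toLin' s).restrict (stab s hs)) ⟨s, hs, fun u => rfl⟩
    have h1 := hpow ((Matrix.toLin' s).restrict (stab s hs)) s (fun u => rfl) k ⟨v, hvV⟩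
    rw [hk, ← Matrix.toLin'_pow, Matrix.toLin'_apply] at h1
    have h2 : Matrix.mulVec (s ^ k) v = 0 := h1.symm
    have h3 := Matrix.exists_mulVec_eq_zero_iff.1 ⟨v, hv0, h2⟩
    rw [Matrix.det_pow] at h3
    exact eq_zero_of_pow_eq_zero h3
  have hxS : x ∈ nullC B x E := by
    refine ⟨hx, LinearMap.mem_ker.2 ?_⟩
    have hE0 : 0 < E := by
      refine lt_of_lt_of_le ?_ hE
      rw [Module.finrank_matrix]
      simp only [finrank_self, mul_one]
      exact Nat.mul_pos hd0 hd0
    rw [← Nat.sub_add_cancel hE0, pow_add, pow_one, Module.End.mul_apply, adR_apply, sub_self,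
      map_zero]
  exact slice (S := nullC B x E) (k := normB B) inf_le_left (fun M hM Y hY => hM Y hY)
    (fun Y hY => nullC_decomp hB hx hE hY) hxS hsing hY

end

end Pool.Agent.Helper69K1
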