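import Pool.Agent.H671R2.PolyAuto
import Pool.Agent.H670R2.GramPoly
import Pool.Agent.H420_NCF.SelMod
import Pool.Agent.H420_NCF.MemCo
import Pool.Agent.H420_NCF.K1
import Pool.Agent.H420_NCF.K2
import Pool.Agent.Helper69K1.Lts

/-!
# Ranks, kernels and stable ranks in polynomial time
-/

set_option linter.unusedSectionVars false

namespace Pool.Agent.Helper69K1

open Module Pool.Agent.NPC Pool.Agent.NPC.H532 Pool.Agent.H420_NCF Pool.Agent.H687R2.LLL
open Pool.Agent.H670R2

/-! ## Rank -/

theorem selS : SelS := (selMod (memCo (K2 K1)).1).2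

/-- a maximal independent subfamily -/
noncomputable def selF : List (List ℤ) → List (List ℤ) := selS.choose

theorem poly_selF : Poly selF := selS.choose_spec.1

theorem selF_spec (n : ℕ) (L : List (List ℤ)) (h : ∀ v ∈ L, v.length = n) :
    (∀ v ∈ selF L, v ∈ L) ∧ Ind n (selF L) ∧ vspan n (selF L) = vspan n L :=
  selS.choose_spec.2 n L h

/-- the rank -/
noncomputable def rkF (L : List (List ℤ)) : ℕ := (selF L).length

theorem poly_rkF {α : Type} [TEnc α] {L : α → List (List ℤ)} (hL : Poly L) :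
    Poly (fun a => rkF (L a)) := Poly.length (poly_selF.comp hL)

theorem rkF_eq {n : ℕ} {L : List (List ℤ)} (h : ∀ v ∈ L, v.length = n) :
    rkF L = finrank ℚ (vspan n L) := by
  obtain ⟨-, h2, h3⟩ := selF_spec n L h
  rw [← h3, MemCo.vspan_eq, finrank_span_eq_card h2, Fintype.card_fin]
  rfl

/-! ## Kernels -/

/-- all relations -/
noncomputable def kerF : List (List ℤ) → List (List ℤ) := (K2 K1).choose

theorem poly_kerF : Poly kerF := (K2 K1).choose_spec.1

theorem kerF_spec (X : List (List ℤ)) (q : ℕ) (h : ∀ r ∈ X, r.length = q) :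
    (∀ u ∈ kerF X, u.length = X.length ∧ ∀ j, form X (ent u) j = 0) ∧
    ∀ c : Fin X.length → ℚ, ∑ i, c i • vq q (X.getD i []) = 0 → c ∈ vspan X.length (kerF X) :=
  (K2 K1).choose_spec.2 X q h

/-! ## Stable ranks -/

/-- the power of the transpose -/
def pwL (M : List (List ℤ)) : List (List ℤ) := (mulG M)^[min M.length M.length] (idL M.length)

theorem poly_pwL : Poly pwL :=
  Pool.Agent.NPC.H670R2.poly_powG.comp (Poly.pair Poly.id (Poly.length Poly.id))

/-- the stable rank -/
noncomputable def srkL (M : List (List ℤ)) : ℕ := rkF (pwL M)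

theorem poly_srkL : Poly srkL := poly_rkF poly_pwL

theorem pow_mulG {m : ℕ} (A : Matrix (Fin m) (Fin m) ℤ) (i : ℕ) :
    (mulG (toL A))^[i] (idL m) = toL (A.transpose ^ i) := by
  induction i with
  | zero => simp [idL_eq]
  | succ i ih => rw [Function.iterate_succ_apply', ih, mulG_toL, pow_succ]

/-- the integer matrix of a list -/
def mz (n : ℕ) (M : List (List ℤ)) : Matrix (Fin n) (Fin n) ℤ := fun i j => entry M i j

theorem mq_eq (n : ℕ) (M : List (List ℤ)) : mq n M = (mz n M).map (Int.castRingHom ℚ) := rfl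

theorem toL_mz {n : ℕ} {M : List (List ℤ)} (h : IsMat n n M) : toL (mz n M) = M := by
  obtain ⟨h1, h2⟩ := h
  unfold toL mz
  refine List.ext_getElem (by simp [h1]) fun i hi hi' => ?_
  simp only [List.getElem_ofFn]
  have h3 : (M[i]).length = n := h2 _ (List.getElem_mem _)
  refine List.ext_getElem (by simp [h3]) fun j hj hj' => ?_
  simp only [List.getElem_ofFn, entry]
  rw [List.getD_eq_getElem _ _ hi', List.getD_eq_getElem _ _ hj']

theorem vspan_toL {m : ℕ} (C : Matrix (Fin m) (Fin m) ℤ) :
    vspan m (toL C) = Submodule.span ℚ (Set.range (C.map (Int.castRingHom ℚ)).row) := by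
  unfold vspan
  congr 1
  ext w
  simp only [toL, List.mem_ofFn, Set.mem_range]
  constructor
  · rintro ⟨v, ⟨i, rfl⟩, rfl⟩
    refine ⟨i, ?_⟩
    funext j
    simp [vq, Matrix.row]
  · rintro ⟨i, rfl⟩
    refine ⟨_, ⟨i, rfl⟩, ?_⟩
    funext j
    simp [vq, Matrix.row]

theorem srkL_eq {n : ℕ} {M : List (List ℤ)} (h : IsMat n n M) : srkL M = srk (mq n M) := by
  have h1 : pwL M = toL ((mz n M).transpose ^ n) := by
    rw [pwL, min_self, h.1]
    conv_lhs => rw [← toL_mz h]
    exact pow_mulG _ _
  rw [srkL, h1, rkF_eq (n := n), vspan_toL, ← Matrix.rank_eq_finrank_span_row, srk, Fintype.card_fin,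
    mq_eq]
  · rw [← Matrix.transpose_pow]
    have : (((mz n M) ^ n).transpose.map (Int.castRingHom ℚ)) =
        (((mz n M).map (Int.castRingHom ℚ)) ^ n).transpose := by
      rw [Matrix.transpose_map]
      congr 1
      exact map_pow (Int.castRingHom ℚ).mapMatrix (mz n M) n
    rw [this, Matrix.rank_transpose]
  · intro v hv
    unfold toL at hv
    rw [List.mem_ofFn] at hv
    obtain ⟨i, rfl⟩ := hv
    simp

end Pool.Agent.Helper69K1
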