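import Mathlib

/-!
# Derivations of fields of characteristic zero
-/

set_option linter.unusedSectionVars false

namespace Pool.Agent.Helper69K1

open Algebra

/-- The dual numbers, as a bare ring. -/
def DN (L : Type) [Field L] : Type := TrivSqZeroExt L L

noncomputable instance (L : Type) [Field L] : CommRing (DN L) :=
  inferInstanceAs (CommRing (TrivSqZeroExt L L))

section

variable {K L : Type} [Field K] [Field L] [Algebra K L] [CharZero K]

/-- the identity as a ring map -/
noncomputable def toDN : TrivSqZeroExt L L →+* DN L := RingHom.id (TrivSqZeroExt L L)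

/-- the first component -/
noncomputable def dfst : DN L →+* L := (TrivSqZeroExt.fstHom L L L).toRingHom

/-- the second component -/
def dsnd (x : DN L) : L := TrivSqZeroExt.snd (R := L) (M := L) x

theorem dfst_toDN (x : TrivSqZeroExt L L) : dfst (toDN x) = x.fst := rfl

theorem dsnd_toDN (x : TrivSqZeroExt L L) : dsnd (toDN x) = x.snd := rfl

theorem dsnd_add (x y : DN L) : dsnd (x + y) = dsnd x + dsnd y :=
  TrivSqZeroExt.snd_add (R := L) (M := L) x y

theorem dsnd_mul (x y : DN L) : dsnd (x * y) = dfst x * dsnd y + dfst y * dsnd x := by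
  have h := TrivSqZeroExt.snd_mul (R := L) (M := L) x y
  change dsnd (x * y) = dfst x • dsnd y + MulOpposite.op (dfst y) • dsnd x at h
  rw [smul_eq_mul, op_smul_eq_mul] at h
  rw [h, mul_comm (dsnd x)]

theorem DN_ext {x y : DN L} (h1 : dfst x = dfst y) (h2 : dsnd x = dsnd y) : x = y :=
  TrivSqZeroExt.ext (R := L) (M := L) h1 h2

open scoped IntermediateField.algebraAdjoinAdjoin in
theorem smooth_adjoin {t : Set L} (ht : IsTranscendenceBasis K ((↑) : t → L)) :
    Algebra.FormallySmooth (Algebra.adjoin K (Set.range ((↑) : t → L))) L := by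
  have h1 : Algebra.FormallySmooth (Algebra.adjoin K (Set.range ((↑) : t → L)))
      (IntermediateField.adjoin K (Set.range ((↑) : t → L))) :=
    .of_isLocalization (nonZeroDivisors _)
  have h2 : Algebra.IsAlgebraic (IntermediateField.adjoin K (Set.range ((↑) : t → L))) L :=
    ht.isAlgebraic_field
  have h4 : CharZero L := charZero_of_injective_algebraMap (algebraMap K L).injective
  have h3 : Algebra.FormallyEtale (IntermediateField.adjoin K (Set.range ((↑) : t → L))) L :=
    Algebra.FormallyEtale.of_isSeparable _ L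
  exact .comp _ (IntermediateField.adjoin K (Set.range ((↑) : t → L))) _

theorem exists_der (τ : L) (hτ : Transcendental K τ) :
    ∃ D : Derivation K L L, D τ ≠ 0 := by
  classical
  obtain ⟨t, ht1, ht2⟩ := exists_isTranscendenceBasis_superset (R := K) (s := {τ}) (by
    rw [AlgebraicIndepOn]
    exact (algebraicIndependent_unique_type_iff (R := K) (x := fun i : ({τ} : Set L) => id (i : L))).2
      (by simpa using hτ))
  have hs := smooth_adjoin ht2
  set A0 := Algebra.adjoin K (Set.range ((↑) : t → L)) with hA0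
  let ψ : MvPolynomial t K →ₐ[K] TrivSqZeroExt L L :=
    MvPolynomial.aeval fun i => TrivSqZeroExt.inl (i : L) +
      TrivSqZeroExt.inr (if (i : L) = τ then 1 else 0)
  let φ : A0 →ₐ[K] TrivSqZeroExt L L := ψ.comp ht2.1.aevalEquiv.symm.toAlgHom
  have hfst : ∀ a : A0, TrivSqZeroExt.fst (φ a) = (a : L) := by
    intro a
    obtain ⟨p, rfl⟩ := ht2.1.aevalEquiv.surjective a
    have h1 : φ (ht2.1.aevalEquiv p) = ψ p := by
      simp [φ]
    rw [h1]
    have h2 : (TrivSqZeroExt.fstHom K L L).comp ψ =
        (Subalgebra.val A0).comp ht2.1.aevalEquiv.toAlgHom := by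
      apply MvPolynomial.algHom_ext
      intro i
      have h3 : (TrivSqZeroExt.fstHom K L L).comp ψ (MvPolynomial.X i) = (i : L) := by
        change TrivSqZeroExt.fst (ψ (MvPolynomial.X i)) = (i : L)
        rw [MvPolynomial.aeval_X, TrivSqZeroExt.fst_add, TrivSqZeroExt.fst_inl,
          TrivSqZeroExt.fst_inr, add_zero]
      rw [h3]
      simp
    exact DFunLike.congr_fun h2 p
  let φ' : A0 →+* DN L := toDN.comp φ.toRingHom
  let _ : Algebra A0 (DN L) := φ'.toAlgebra
  have hmap : ∀ a : A0, algebraMap A0 (DN L) a = toDN (φ a) := fun a => rfl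
  let g : DN L →ₐ[A0] L :=
    { dfst with
      commutes' := fun a => hfst a }
  have hg : ∀ x : DN L, g x = dfst x := fun x => rfl
  have hsurj : Function.Surjective g := fun x => ⟨toDN (TrivSqZeroExt.inl x), by
    rw [hg, dfst_toDN, TrivSqZeroExt.fst_inl]⟩
  have hnil : IsNilpotent (RingHom.ker (g : DN L →+* L)) := by
    refine ⟨2, ?_⟩
    rw [pow_two, Ideal.zero_eq_bot, eq_bot_iff, Ideal.mul_le]
    intro x hx y hy
    rw [RingHom.mem_ker] at hx hy
    rw [Ideal.mem_bot]
    change dfst x = 0 at hx
    change dfst y = 0 at hy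
    refine DN_ext ?_ ?_
    · rw [map_mul, hx, zero_mul, map_zero]
    · rw [dsnd_mul, hx, hy, zero_mul, zero_mul, add_zero]
      rfl
  let σ : L →ₐ[A0] DN L := Algebra.FormallySmooth.liftOfSurjective (AlgHom.id A0 L) g hsurj hnil
  have hσ : ∀ z : L, dfst (σ z) = z := fun z =>
    Algebra.FormallySmooth.liftOfSurjective_apply (AlgHom.id A0 L) g hsurj hnil z
  have hσA : ∀ a : A0, σ (a : L) = toDN (φ a) := fun a => σ.commutes a
  have hadd : ∀ a b : L, dsnd (σ (a + b)) = dsnd (σ a) + dsnd (σ b) := by
    intro a b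
    rw [map_add, dsnd_add]
  have hmul : ∀ a b : L, dsnd (σ (a * b)) = a * dsnd (σ b) + b * dsnd (σ a) := by
    intro a b
    rw [map_mul, dsnd_mul, hσ, hσ]
  have hK : ∀ k : K, dsnd (σ (algebraMap K L k)) = 0 := by
    intro k
    have h1 : (algebraMap K L k) = ((algebraMap K A0 k : A0) : L) := rfl
    rw [h1, hσA, AlgHom.commutes]
    rfl
  refine ⟨Derivation.mk' { toFun := fun z => dsnd (σ z)
                           map_add' := hadd
                           map_smul' := ?_ } ?_, ?_⟩
  · intro k z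
    rw [Algebra.smul_def, hmul, hK, mul_zero, add_zero, RingHom.id_apply, Algebra.smul_def]
  · intro a b
    exact hmul a b
  · change dsnd (σ τ) ≠ 0
    have hτt : τ ∈ t := ht1 rfl
    have h1 : τ = ((ht2.1.aevalEquiv (MvPolynomial.X (⟨τ, hτt⟩ : t)) : A0) : L) := by
      simp
    rw [h1, hσA]
    have h2 : φ (ht2.1.aevalEquiv (MvPolynomial.X (⟨τ, hτt⟩ : t))) =
        ψ (MvPolynomial.X (⟨τ, hτt⟩ : t)) := by
      simp [φ]
    rw [h2, dsnd_toDN, MvPolynomial.aeval_X, TrivSqZeroExt.snd_add, TrivSqZeroExt.snd_inl,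
      TrivSqZeroExt.snd_inr, if_pos rfl, zero_add]
    exact one_ne_zero

end

end Pool.Agent.Helper69K1
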