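import Pool.Agent.Helper69K1.Mod9

/-!
# The dimension of the orbits as a stable rank
-/

set_option linter.unusedSectionVars false

namespace Pool.Agent.Helper69K1

open Module Pool.Agent.NPC Pool.Agent.NPC.H532 Pool.Agent.H420_NCF Pool.Agent.H687R2.LLL

variable {α : Type} [TEnc α]

/-- The value of an infinitesimal symmetry at a matrix. -/
def brk2 (N : ℕ) (u : List ℤ) (B : Mat) : Mat :=
  tab N fun i j => ((List.range N).map fun k => u.getD (i * N + k) 0 * entry B k j -
    entry B i k * u.getD (N * N + (k * N + j)) 0).sum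

theorem poly_brk2 {N : α → ℕ} {u : α → List ℤ} {B : α → Mat} (hN : UPoly N) (hu : Poly u)
    (hB : Poly B) : Poly (fun a => brk2 (N a) (u a) (B a)) := by
  unfold brk2
  refine Poly_tab (f := fun a i j => ((List.range (N a)).map fun k =>
    (u a).getD (i * N a + k) 0 * entry (B a) k j -
    entry (B a) i k * (u a).getD (N a * N a + (k * N a + j)) 0).sum) hN ?_
  refine Poly_sumZ ?_
  have h1 : Poly (fun p : (α × ℕ) × ℕ => p.1.1) := Poly.fst (Poly.fst Poly.id)
  refine NPC.Poly.map (α := (α × ℕ) × ℕ)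
    (F := fun q k => (u q.1.1).getD (q.1.2 * N q.1.1 + k) 0 * entry (B q.1.1) k q.2 -
      entry (B q.1.1) q.1.2 k * (u q.1.1).getD (N q.1.1 * N q.1.1 + (k * N q.1.1 + q.2)) 0)
    (hN.comp h1).range ?_
  have h2 : Poly (fun p : ((α × ℕ) × ℕ) × ℕ => p.1.1.1) := Poly.fst (Poly.fst (Poly.fst Poly.id))
  have h3 : Poly (fun p : ((α × ℕ) × ℕ) × ℕ => p.1.1.2) := Poly.snd (Poly.fst (Poly.fst Poly.id))
  have h4 : Poly (fun p : ((α × ℕ) × ℕ) × ℕ => p.1.2) := Poly.snd (Poly.fst Poly.id)
  have h5 : Poly (fun p : ((α × ℕ) × ℕ) × ℕ => p.2) := Poly.snd Poly.id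
  have h6 := hN.toPoly.comp h2
  exact Poly_subZ
    (Poly_mulZ (Poly.getD (hu.comp h2) (Poly.add (Poly.mul h3 h6) h5) (NPC.Poly.const 0))
      (Poly_entry (hB.comp h2) h5 h4))
    (Poly_mulZ (Poly_entry (hB.comp h2) h3 h5) (Poly.getD (hu.comp h2)
      (Poly.add (Poly.mul h6 h6) (Poly.add (Poly.mul h5 h6) h4)) (NPC.Poly.const 0)))

theorem mq_brk2 (N : ℕ) (u : List ℤ) (B : Mat) :
    mq N (brk2 N u B) = actL (mq N B) (ump N (qv u)) := by
  ext i j
  rw [mq, brk2, entry_tab _ i.2 j.2, list_sum_range, actL_apply, Matrix.sub_apply,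
    Matrix.mul_apply, Matrix.mul_apply, ← Finset.sum_sub_distrib]
  refine Finset.sum_congr rfl fun k _ => ?_
  push_cast
  rfl

/-- The doubled matrix. -/
def dblM (N : ℕ) (G : List (List ℤ)) (B : Mat) : Mat :=
  tab (G.length + N * N) fun i j =>
    if i < G.length then
      (if j < G.length then 0 else
        entry (brk2 N (G.getD i []) B) ((j - G.length) / N) ((j - G.length) % N))
    else
      (if j < G.length then
        entry (brk2 N (G.getD j []) B) ((i - G.length) / N) ((i - G.length) % N) else 0)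

theorem poly_dblM {N : α → ℕ} {G : α → List (List ℤ)} {B : α → Mat} (hN : UPoly N) (hG : Poly G)
    (hB : Poly B) : Poly (fun a => dblM (N a) (G a) (B a)) := by
  unfold dblM
  refine Poly_tab (f := fun a i j =>
    if i < (G a).length then
      (if j < (G a).length then 0 else
        entry (brk2 (N a) ((G a).getD i []) (B a)) ((j - (G a).length) / N a)
          ((j - (G a).length) % N a))
    else
      (if j < (G a).length then
        entry (brk2 (N a) ((G a).getD j []) (B a)) ((i - (G a).length) / N a)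
          ((i - (G a).length) % N a) else 0)) ((UPoly.length hG).add (hN.mul hN)) ?_
  have h1 : Poly (fun p : (α × ℕ) × ℕ => p.1.1) := Poly.fst (Poly.fst Poly.id)
  have h2 : Poly (fun p : (α × ℕ) × ℕ => p.1.2) := Poly.snd (Poly.fst Poly.id)
  have h3 : Poly (fun p : (α × ℕ) × ℕ => p.2) := Poly.snd Poly.id
  have hg : Poly (fun p : (α × ℕ) × ℕ => (G p.1.1).length) := Poly.length (hG.comp h1)
  have hNN := hN.toPoly.comp h1
  refine Poly.ite (p := fun q : (α × ℕ) × ℕ => q.1.2 < (G q.1.1).length)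
    (Poly.decide_lt h2 hg) ?_ ?_
  · refine Poly.ite (p := fun q : (α × ℕ) × ℕ => q.2 < (G q.1.1).length)
      (Poly.decide_lt h3 hg) (NPC.Poly.const 0) ?_
    exact Poly_entry (poly_brk2 (hN.comp h1) (Poly.getD (hG.comp h1) h2 (NPC.Poly.const []))
      (hB.comp h1)) (NPC.Poly.div (Poly.sub h3 hg) hNN) (NPC.Poly.mod (Poly.sub h3 hg) hNN)
  · refine Poly.ite (p := fun q : (α × ℕ) × ℕ => q.2 < (G q.1.1).length)
      (Poly.decide_lt h3 hg) ?_ (NPC.Poly.const 0)
    exact Poly_entry (poly_brk2 (hN.comp h1) (Poly.getD (hG.comp h1) h3 (NPC.Poly.const []))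
      (hB.comp h1)) (NPC.Poly.div (Poly.sub h2 hg) hNN) (NPC.Poly.mod (Poly.sub h2 hg) hNN)

/-- the entries of a matrix as a vector -/
def fmL (N : ℕ) : Matrix (Fin N) (Fin N) ℚ →ₗ[ℚ] (Fin (N * N) → ℚ) where
  toFun M := fun t => fm N M t
  map_add' a b := by
    funext t
    simp only [fm, Pi.add_apply]
    rw [dif_pos t.2, dif_pos t.2, dif_pos t.2]
    rfl
  map_smul' c a := by
    funext t
    simp only [fm, Pi.smul_apply, RingHom.id_apply]
    rw [dif_pos t.2, dif_pos t.2]
    rfl

theorem fmL_inj (N : ℕ) : Function.Injective (fmL N) := by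
  intro a b h
  rw [← um_fm N a, ← um_fm N b]
  ext i j
  exact congrFun h ⟨i * N + j, idx_lt i j⟩

/-- The rows are the values of the symmetries. -/
def rowM (N : ℕ) (G : List (List ℤ)) (X : Matrix (Fin N) (Fin N) ℚ) :
    Matrix (Fin G.length) (Fin (N * N)) ℚ :=
  fun i => fmL N (actL X (ump N (qv G[i])))

theorem actL_add (N : ℕ) (X Y : Matrix (Fin N) (Fin N) ℚ)
    (p : Matrix (Fin N) (Fin N) ℚ × Matrix (Fin N) (Fin N) ℚ) :
    actL (X + Y) p = actL X p + actL Y p := by
  rw [actL_apply, actL_apply, actL_apply, mul_add, add_mul]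
  abel

theorem actL_smul (N : ℕ) (c : ℚ) (X : Matrix (Fin N) (Fin N) ℚ)
    (p : Matrix (Fin N) (Fin N) ℚ × Matrix (Fin N) (Fin N) ℚ) :
    actL (c • X) p = c • actL X p := by
  rw [actL_apply, actL_apply, mul_smul_comm, smul_mul_assoc, smul_sub]

/-- The doubled matrix as a linear map. -/
noncomputable def dblL (N : ℕ) (G : List (List ℤ)) : Matrix (Fin N) (Fin N) ℚ →ₗ[ℚ]
    Matrix (Fin (G.length + N * N)) (Fin (G.length + N * N)) ℚ where
  toFun X := (Matrix.fromBlocks (0 : Matrix (Fin G.length) (Fin G.length) ℚ) (rowM N G X)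
    (rowM N G X).transpose (0 : Matrix (Fin (N * N)) (Fin (N * N)) ℚ)).submatrix
      finSumFinEquiv.symm finSumFinEquiv.symm
  map_add' X Y := by
    have h : rowM N G (X + Y) = rowM N G X + rowM N G Y := by
      ext i t
      simp only [rowM, Matrix.add_apply, actL_add, map_add, Pi.add_apply]
    rw [h, Matrix.transpose_add]
    have h2 : Matrix.fromBlocks (0 : Matrix (Fin G.length) (Fin G.length) ℚ)
        (rowM N G X + rowM N G Y) ((rowM N G X).transpose + (rowM N G Y).transpose)
        (0 : Matrix (Fin (N * N)) (Fin (N * N)) ℚ) =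
        Matrix.fromBlocks 0 (rowM N G X) (rowM N G X).transpose 0 +
        Matrix.fromBlocks 0 (rowM N G Y) (rowM N G Y).transpose 0 := by
      rw [Matrix.fromBlocks_add, add_zero, add_zero]
    rw [h2]
    rfl
  map_smul' c X := by
    have h : rowM N G (c • X) = c • rowM N G X := by
      ext i t
      simp only [rowM, Matrix.smul_apply, actL_smul, map_smul, Pi.smul_apply]
    rw [h, Matrix.transpose_smul, RingHom.id_apply]
    have h2 : Matrix.fromBlocks (0 : Matrix (Fin G.length) (Fin G.length) ℚ) (c • rowM N G X)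
        (c • (rowM N G X).transpose) (0 : Matrix (Fin (N * N)) (Fin (N * N)) ℚ) =
        c • Matrix.fromBlocks 0 (rowM N G X) (rowM N G X).transpose 0 := by
      rw [Matrix.fromBlocks_smul, smul_zero, smul_zero]
    rw [h2]
    rfl

theorem mq_dblM (N : ℕ) (G : List (List ℤ)) (B : Mat) :
    mq (G.length + N * N) (dblM N G B) = dblL N G (mq N B) := by
  have key : ∀ (i : Fin G.length) (s : Fin (N * N)),
      ((entry (brk2 N (G.getD i []) B) (s / N) (s % N) : ℤ) : ℚ) = rowM N G (mq N B) i s := by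
    intro i s
    have h1 : rowM N G (mq N B) i = fmL N (actL (mq N B) (ump N (qv G[i]))) := rfl
    rw [h1, ← mq_brk2]
    change _ = fm N _ s
    rw [fm, dif_pos s.2, List.getD_eq_getElem _ _ i.2]
    rfl
  ext a b
  obtain ⟨a, rfl⟩ := finSumFinEquiv.surjective a
  obtain ⟨b, rfl⟩ := finSumFinEquiv.surjective b
  change _ = (Matrix.fromBlocks (0 : Matrix (Fin G.length) (Fin G.length) ℚ) (rowM N G (mq N B))
    (rowM N G (mq N B)).transpose (0 : Matrix (Fin (N * N)) (Fin (N * N)) ℚ))
      (finSumFinEquiv.symm (finSumFinEquiv a)) (finSumFinEquiv.symm (finSumFinEquiv b))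
  rw [Equiv.symm_apply_apply, Equiv.symm_apply_apply, mq, dblM,
    entry_tab _ (finSumFinEquiv a).2 (finSumFinEquiv b).2]
  rcases a with i | s <;> rcases b with j | t
  · rw [finSumFinEquiv_apply_left, finSumFinEquiv_apply_left, Fin.val_castAdd, Fin.val_castAdd,
      if_pos i.2, if_pos j.2]
    simp
  · rw [finSumFinEquiv_apply_left, finSumFinEquiv_apply_right, Fin.val_castAdd, Fin.val_natAdd,
      if_pos i.2, if_neg (by omega), Nat.add_sub_cancel_left, key]
    rfl
  · rw [finSumFinEquiv_apply_left, finSumFinEquiv_apply_right, Fin.val_castAdd, Fin.val_natAdd,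
      if_neg (by omega), if_pos j.2, Nat.add_sub_cancel_left, key]
    rfl
  · rw [finSumFinEquiv_apply_right, finSumFinEquiv_apply_right, Fin.val_natAdd, Fin.val_natAdd,
      if_neg (by omega), if_neg (by omega)]
    simp

theorem cq_dblM (N : ℕ) (G : List (List ℤ)) (Bs : List Mat) (c : ℕ → ℚ) :
    cq (G.length + N * N) (Bs.map (dblM N G)) c = dblL N G (cq N Bs c) := by
  rw [cq, cq, map_sum, List.length_map]
  refine Finset.sum_congr rfl fun k hk => ?_
  have hk' := Finset.mem_range.1 hk
  rw [map_smul, ← mq_dblM, List.getD_eq_getElem _ _ (by simpa using hk'),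
    List.getD_eq_getElem _ _ hk', List.getElem_map]

theorem srk_dblL (N : ℕ) (G : List (List ℤ)) (X : Matrix (Fin N) (Fin N) ℚ) :
    srk (dblL N G X) = 2 * (rowM N G X).rank := by
  have h1 : (dblL N G X).transpose = dblL N G X := by
    change ((Matrix.fromBlocks (0 : Matrix (Fin G.length) (Fin G.length) ℚ) (rowM N G X)
      (rowM N G X).transpose (0 : Matrix (Fin (N * N)) (Fin (N * N)) ℚ)).submatrix
      finSumFinEquiv.symm finSumFinEquiv.symm).transpose = _
    rw [Matrix.transpose_submatrix, Matrix.fromBlocks_transpose, Matrix.transpose_transpose,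
      Matrix.transpose_zero, Matrix.transpose_zero]
    rfl
  rw [srk_symm h1, ← rank_dbl]
  exact Matrix.rank_submatrix _ _ _

theorem rank_rowM (N : ℕ) (Bs : List Mat) (X : Matrix (Fin N) (Fin N) ℚ) :
    (rowM N (symF N Bs) X).rank = finrank ℚ (orb (fam N Bs) X) := by
  rw [Matrix.rank_eq_finrank_span_row]
  have h1 : Submodule.span ℚ (Set.range (rowM N (symF N Bs) X).row) =
      (orb (fam N Bs) X).map (fmL N) := by
    rw [orb, ← span_symF, Submodule.map_span, Submodule.map_span, ← Set.range_comp,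
      ← Set.range_comp]
    rfl
  rw [h1]
  exact (LinearEquiv.finrank_eq (Submodule.equivMapOfInjective (fmL N) (fmL_inj N) _)).symm

/-- **The dimension of the orbits as a stable rank.** -/
theorem srk_orb (N : ℕ) (Bs : List Mat) (c : ℕ → ℚ) :
    srk (cq ((symF N Bs).length + N * N) (Bs.map (dblM N (symF N Bs))) c) =
      2 * finrank ℚ (orb (fam N Bs) (cq N Bs c)) := by
  rw [cq_dblM, srk_dblL, rank_rowM]

end Pool.Agent.Helper69K1
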