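import Pool.Agent.Helper69K1.Mod1

/-!
# Transcendence degrees
-/

set_option linter.unusedSectionVars false

namespace Pool.Agent.Helper69K1

open Algebra

theorem exists_generic (k : Subfield ℂ) (hk : Countable k) (K : ℕ) :
    ∃ τ : Fin K → ℂ, AlgebraicIndependent k τ := by
  obtain ⟨t, ht⟩ := exists_isTranscendenceBasis k ℂ
  have h1 := IsAlgClosed.cardinal_le_max_transcendence_basis (R := k) (K := ℂ)
    ((↑) : t → ℂ) ht
  have h2 : ¬ Set.Countable t := by
    intro hc
    have h3 : Cardinal.mk t ≤ Cardinal.aleph0 := Cardinal.mk_le_aleph0_iff.2 hc.to_subtype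
    have h4 : Cardinal.mk k ≤ Cardinal.aleph0 := Cardinal.mk_le_aleph0_iff.2 hk
    have h5 : Cardinal.mk ℂ ≤ Cardinal.aleph0 := by
      rw [Cardinal.lift_id, Cardinal.lift_id, Cardinal.lift_id] at h1
      refine h1.trans ?_
      simp [h3, h4]
    rw [Cardinal.mk_complex] at h5
    exact absurd h5 (not_le.2 Cardinal.aleph0_lt_continuum)
  have h3 : Infinite t := by
    rw [Set.infinite_coe_iff]
    intro hf
    exact h2 hf.countable
  obtain ⟨e⟩ : Nonempty (ℕ ↪ t) := ⟨Infinite.natEmbedding t⟩
  refine ⟨fun i => (e i : ℂ), ?_⟩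
  exact ht.1.comp (fun i : Fin K => e i) (e.injective.comp Fin.val_injective)

open scoped IntermediateField.algebraAdjoinAdjoin in
theorem algebraic_adjoin_iff {k L : Type} [Field k] [Field L] [Algebra k L] (S : Set L) (x : L) :
    IsAlgebraic (IntermediateField.adjoin k S) x ↔ IsAlgebraic (Algebra.adjoin k S) x :=
  (IsFractionRing.isAlgebraic_iff (Algebra.adjoin k S) (IntermediateField.adjoin k S) L).symm

theorem exists_transcendental (k : Subfield ℂ) {K μ : ℕ} (hμ : μ < K) (τ : Fin K → ℂ)
    (hτ : AlgebraicIndependent k τ) (a : Fin μ → ℂ) :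
    ∃ j, Transcendental (IntermediateField.adjoin k (Set.range a)) (τ j) := by
  by_contra hcon
  push Not at hcon
  have h1 : Set.range τ ⊆ (AlgebraicIndependent.matroid k ℂ).closure (Set.range a) := by
    rintro _ ⟨j, rfl⟩
    rw [AlgebraicIndependent.matroid_closure_eq]
    have h2 := hcon j
    rw [Transcendental, not_not, algebraic_adjoin_iff] at h2
    exact h2
  have h2 : (AlgebraicIndependent.matroid k ℂ).Indep (Set.range τ) := by
    rw [AlgebraicIndependent.matroid_indep_iff]
    exact hτ.coe_range
  have h3 := h2.encard_le_eRk_of_subset h1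
  rw [Matroid.eRk_closure_eq] at h3
  have h4 := h3.trans (Matroid.eRk_le_encard _ _)
  have h5 : (Set.range τ).encard = K := by
    rw [← Set.image_univ, hτ.injective.injOn.encard_image, Set.encard_univ]
    simp
  have h6 : (Set.range a).encard ≤ μ := by
    rw [← Set.image_univ]
    refine (Set.encard_image_le _ _).trans ?_
    rw [Set.encard_univ]
    simp
  rw [h5] at h4
  have h7 := h4.trans h6
  have : K ≤ μ := by exact_mod_cast h7
  omega

end Pool.Agent.Helper69K1
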