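import Pool.Agent.Helper69K1.Mod1b

/-!
# Linear independence and minors
-/

set_option linter.unusedSectionVars false

namespace Pool.Agent.Helper69K1

open Module

section

variable {F : Type} [Field F] {κ : Type} [Fintype κ] {r : ℕ}

theorem exists_minor (v : Fin r → κ → F) (h : LinearIndependent F v) :
    ∃ J : Fin r → κ, (Matrix.of fun i j => v i (J j)).det ≠ 0 := by
  classical
  let V : Matrix (Fin r) κ F := Matrix.of v
  have hrank : V.rank = r := by
    rw [← Matrix.rank_transpose, Matrix.rank_eq_finrank_span_cols]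
    have h1 : V.transpose.col = v := rfl
    rw [h1, finrank_span_eq_card h, Fintype.card_fin]
  have hspan : Submodule.span F (Set.range V.col) = ⊤ := by
    apply Submodule.eq_top_of_finrank_eq
    rw [← Matrix.rank_eq_finrank_span_cols, hrank, Module.finrank_fin_fun]
  have hr : Module.finrank F (Submodule.span F (Set.range V.col)) = r := by
    rw [hspan, finrank_top, Module.finrank_fin_fun]
  obtain ⟨f, hf, -, hli⟩ := Submodule.exists_fun_fin_finrank_span_eq F (Set.range V.col)
  choose J hJ using fun i : Fin r => hf (Fin.cast hr.symm i)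
  refine ⟨J, ?_⟩
  have h3 : LinearIndependent F (Matrix.of fun i j => v i (J j)).col := by
    have h4 : (Matrix.of fun i j => v i (J j)).col = f ∘ Fin.cast hr.symm := by
      funext i
      exact hJ i
    rw [h4]
    exact hli.comp _ (Fin.cast_injective _)
  have h5 := Matrix.linearIndependent_cols_iff_isUnit.1 h3
  rw [Matrix.isUnit_iff_isUnit_det] at h5
  exact h5.ne_zero

theorem indep_of_minor (v : Fin r → κ → F) (J : Fin r → κ)
    (h : (Matrix.of fun i j => v i (J j)).det ≠ 0) : LinearIndependent F v := by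
  have h1 : IsUnit (Matrix.of fun i j => v i (J j)) := by
    rw [Matrix.isUnit_iff_isUnit_det]
    exact isUnit_iff_ne_zero.2 h
  have h2 := Matrix.linearIndependent_rows_iff_isUnit.2 h1
  have h3 : (Matrix.of fun i j => v i (J j)).row = (LinearMap.funLeft F F J) ∘ v := by
    funext i
    rfl
  rw [h3] at h2
  exact h2.of_comp _

end

section

variable {κ : Type} [Fintype κ] {r K : ℕ}

theorem map_det_aeval {R : Type} [CommRing R] [Algebra ℚ R] (t : Fin K → R)
    (p : Fin r → κ → MvPolynomial (Fin K) ℚ) (J : Fin r → κ) :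
    (Matrix.of fun i j => MvPolynomial.aeval t (p i (J j))).det =
      MvPolynomial.aeval t (Matrix.of fun i j => p i (J j)).det := by
  rw [AlgHom.map_det]
  rfl

theorem transfer_up (p : Fin r → κ → MvPolynomial (Fin K) ℚ) (t : Fin K → ℚ)
    (h : LinearIndependent ℚ fun i j => MvPolynomial.aeval t (p i j)) {τ : Fin K → ℂ}
    (hτ : AlgebraicIndependent ℚ τ) :
    LinearIndependent ℂ fun i j => MvPolynomial.aeval τ (p i j) := by
  obtain ⟨J, hJ⟩ := exists_minor _ h
  refine indep_of_minor _ J ?_
  rw [map_det_aeval] at hJ ⊢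
  intro h0
  apply hJ
  have h1 : (Matrix.of fun i j => p i (J j)).det = 0 := by
    apply hτ
    rw [h0, map_zero]
  rw [h1, map_zero]

theorem transfer_down (p : Fin r → κ → MvPolynomial (Fin K) ℚ) (τ : Fin K → ℂ)
    (h : LinearIndependent ℂ fun i j => MvPolynomial.aeval τ (p i j)) :
    ∃ t : Fin K → ℚ, LinearIndependent ℚ fun i j => MvPolynomial.aeval t (p i j) := by
  obtain ⟨J, hJ⟩ := exists_minor _ h
  rw [map_det_aeval] at hJ
  have h1 : (Matrix.of fun i j => p i (J j)).det ≠ 0 := fun h0 => hJ (by rw [h0, map_zero])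
  have h2 : ∃ t : Fin K → ℚ, MvPolynomial.aeval t (Matrix.of fun i j => p i (J j)).det ≠ 0 := by
    by_contra hcon
    push Not at hcon
    apply h1
    apply MvPolynomial.funext
    intro t
    rw [map_zero]
    have := hcon t
    rwa [MvPolynomial.aeval_eq_eval] at this
  obtain ⟨t, ht⟩ := h2
  refine ⟨t, indep_of_minor _ J ?_⟩
  rw [map_det_aeval]
  exact ht

end

end Pool.Agent.Helper69K1
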