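import Pool.Agent.Helper69K1.Mod3

/-!
# The directions along which a generic point moves inside a family with few parameters
-/

set_option linter.unusedSectionVars false

namespace Pool.Agent.Helper69K1

open Module

section

variable {n m : Type} [Fintype n] [DecidableEq n] [Fintype m] [DecidableEq m]

theorem der_algebraic {E : Type} [Field E] [Algebra E ℂ] [CharZero E] (D : Derivation E ℂ ℂ)
    {x : ℂ} (hx : IsAlgebraic E x) : D x = 0 := by
  have h1 := D.map_aeval (minpoly E x) x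
  rw [minpoly.aeval, map_zero] at h1
  have h2 : Polynomial.aeval x (Polynomial.derivative (minpoly E x)) ≠ 0 :=
    (minpoly.irreducible hx.isIntegral).separable.aeval_derivative_ne_zero (minpoly.aeval E x)
  rcases smul_eq_zero.1 h1.symm with h | h
  · exact absurd h h2
  · exact h

/-- The derivation on matrices. -/
def dm {E : Type} [Field E] [Algebra E ℂ] (D : Derivation E ℂ ℂ) (M : Matrix n n ℂ) :
    Matrix n n ℂ := M.map fun z => D z

variable {E : Type} [Field E] [Algebra E ℂ] (D : Derivation E ℂ ℂ)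

theorem dm_mul (M N : Matrix n n ℂ) : dm D (M * N) = dm D M * N + M * dm D N := by
  ext i j
  rw [dm, Matrix.map_apply, Matrix.mul_apply, map_sum, Matrix.add_apply, Matrix.mul_apply,
    Matrix.mul_apply, ← Finset.sum_add_distrib]
  refine Finset.sum_congr rfl fun l _ => ?_
  rw [D.leibniz, smul_eq_mul, smul_eq_mul, dm, dm, Matrix.map_apply, Matrix.map_apply]
  ring

theorem der_rat (q : ℚ) : D (q : ℂ) = 0 := by
  have h0 : D (1 : ℂ) = 0 := D.map_one_eq_zero
  have h1 : (q : ℂ) = q • (1 : ℂ) := by rw [Rat.smul_def, mul_one]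
  rw [h1]
  have h2 : D (q • (1 : ℂ)) = q • D (1 : ℂ) := map_rat_smul D q 1
  rw [h2, h0, smul_zero]

theorem dm_cx (M : Matrix n n ℚ) : dm D (cx M) = 0 := by
  ext i j
  rw [dm, Matrix.map_apply, cx_apply, der_rat, Matrix.zero_apply]

theorem dm_valC (Y : m → Matrix n n ℚ) (c : m → ℂ) : dm D (valC Y c) = valC Y fun j => D (c j) := by
  ext i j
  rw [dm, Matrix.map_apply, valC, Matrix.sum_apply, map_sum, valC, Matrix.sum_apply]
  refine Finset.sum_congr rfl fun l _ => ?_
  rw [Matrix.smul_apply, Matrix.smul_apply, cx_apply, smul_eq_mul, smul_eq_mul, D.leibniz,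
    der_rat, smul_zero, zero_add, smul_eq_mul, mul_comm]

/-- The point moved along the chosen generators. -/
noncomputable def ptC {K : ℕ} (x : m → ℚ) (j : Fin K → m) (τ : Fin K → ℂ) : m → ℂ :=
  fun i => (x i : ℂ) + ∑ l, if j l = i then τ l else 0

theorem valC_ptC {K : ℕ} (Y : m → Matrix n n ℚ) (x : m → ℚ) (j : Fin K → m) (τ : Fin K → ℂ) :
    valC Y (ptC x j τ) = cx (valQ Y x) + ∑ l, τ l • cx (Y (j l)) := by
  rw [valC, valQ, cx_sum]
  simp only [ptC, add_smul, Finset.sum_add_distrib]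
  congr 1
  · refine Finset.sum_congr rfl fun i _ => ?_
    ext a b
    rw [Matrix.smul_apply, cx_apply, cx_apply, Matrix.smul_apply, smul_eq_mul, smul_eq_mul]
    push_cast
    rfl
  · simp only [Finset.sum_smul]
    rw [Finset.sum_comm]
    refine Finset.sum_congr rfl fun l _ => ?_
    rw [Finset.sum_eq_single (j l)]
    · rw [if_pos rfl]
    · intro i _ hi
      rw [if_neg (fun h => hi h.symm), zero_smul]
    · intro h
      exact absurd (Finset.mem_univ _) h

/-- **The key lemma.** -/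
theorem moves_tangent {Y : m → Matrix n n ℚ} {μ K : ℕ} (hμ : μ < K) (hmod : ModY Y μ)
    (x : m → ℚ) (j : Fin K → m) : ∃ τ : Fin K → ℂ, AlgebraicIndependent ℚ τ ∧
      ∃ a : Fin K → ℂ, a ≠ 0 ∧ ∑ l, a l • cx (Y (j l)) ∈ Submodule.span ℂ
        ((fun g : Matrix n n ℚ × Matrix n n ℚ => cx g.1 * (cx (valQ Y x) +
          ∑ l, τ l • cx (Y (j l))) - (cx (valQ Y x) + ∑ l, τ l • cx (Y (j l))) * cx g.2) ''
            (sym Y : Set _)) := by
  obtain ⟨k, hk, h⟩ := hmod
  obtain ⟨τ, hτ⟩ := exists_generic k hk K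
  obtain ⟨P, Q, hP, hQ, hPQ, a, ha⟩ := h (ptC x j τ)
  obtain ⟨l₀, hl₀⟩ := exists_transcendental k hμ τ hτ a
  obtain ⟨D, hD⟩ := exists_der (K := IntermediateField.adjoin k (Set.range a)) (τ l₀) hl₀
  have hτQ : AlgebraicIndependent ℚ τ := by
    have hinj : Function.Injective (algebraMap ℚ k) := (algebraMap ℚ k).injective
    exact hτ.restrictScalars hinj
  refine ⟨τ, hτQ, fun l => D (τ l), fun h0 => hD (congrFun h0 l₀), ?_⟩
  rw [← valC_ptC]
  set Z := valC Y (ptC x j τ) with hZ
  -- the derivative of the point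
  have h1 : dm D Z = ∑ l, D (τ l) • cx (Y (j l)) := by
    have h2 : (fun i => D (ptC x j τ i)) = ptC 0 j fun l => D (τ l) := by
      funext i
      rw [ptC, ptC, map_add, der_rat, map_sum, Pi.zero_apply, Rat.cast_zero]
      congr 1
      refine Finset.sum_congr rfl fun l _ => ?_
      split_ifs
      · rfl
      · exact map_zero D
    have h3 : valQ Y 0 = 0 := by
      rw [valQ]
      exact Finset.sum_eq_zero fun i _ => by rw [Pi.zero_apply, zero_smul]
    have h4 : cx (0 : Matrix n n ℚ) = 0 := by ext a b; simp [cx]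
    rw [hZ, dm_valC, h2, valC_ptC, h3, h4, zero_add]
  have h5 : dm D (P * Z * Q) = 0 := by
    ext i i'
    rw [dm, Matrix.map_apply, Matrix.zero_apply]
    exact der_algebraic D (ha i i')
  have hPu : IsUnit P.det := isUnit_iff_ne_zero.2 hP
  have hQu : IsUnit Q.det := isUnit_iff_ne_zero.2 hQ
  set p : Matrix n n ℂ := -(P⁻¹ * dm D P) with hp
  set q : Matrix n n ℂ := dm D Q * Q⁻¹ with hq
  have gen : ∀ M : Matrix n n ℂ, P⁻¹ * dm D (P * M * Q) * Q⁻¹ =
      dm D M - (p * M - M * q) := by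
    intro M
    rw [dm_mul, dm_mul]
    have e1 : P⁻¹ * ((dm D P * M + P * dm D M) * Q + P * M * dm D Q) * Q⁻¹ =
        P⁻¹ * dm D P * M * (Q * Q⁻¹) + (P⁻¹ * P) * dm D M * (Q * Q⁻¹) +
          (P⁻¹ * P) * M * (dm D Q * Q⁻¹) := by
      noncomm_ring
    rw [e1, Matrix.nonsing_inv_mul _ hPu, Matrix.mul_nonsing_inv _ hQu, hp, hq]
    noncomm_ring
  have h6 : ∑ l, D (τ l) • cx (Y (j l)) = p * Z - Z * q := by
    have h7 := gen Z
    rw [h5, mul_zero, zero_mul] at h7
    rw [← h1]
    exact (sub_eq_zero.1 h7.symm)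
  rw [h6]
  refine complex_sym (fun i => ?_) Z
  have h8 := gen (cx (Y i))
  rw [dm_cx, zero_sub] at h8
  have h9 : p * cx (Y i) - cx (Y i) * q = -(P⁻¹ * dm D (P * cx (Y i) * Q) * Q⁻¹) := by
    rw [h8, neg_neg]
  rw [h9]
  refine Submodule.neg_mem _ ?_
  -- the space is stable under the inverse symmetry
  set S := Submodule.span ℂ (Set.range fun j => cx (Y j)) with hS
  have hval : ∀ M ∈ S, P * M * Q ∈ S := by
    intro M hM
    obtain ⟨d, rfl⟩ := exists_valC hM
    obtain ⟨e, he⟩ := hPQ d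
    rw [he]
    exact valC_mem Y e
  let T : S →ₗ[ℂ] S := 
    { toFun := fun M => ⟨P * M.1 * Q, hval M.1 M.2⟩
      map_add' := fun a b => by
        apply Subtype.ext
        change P * (a.1 + b.1) * Q = P * a.1 * Q + P * b.1 * Q
        rw [mul_add, add_mul]
      map_smul' := fun c a => by
        apply Subtype.ext
        change P * (c • a.1) * Q = c • (P * a.1 * Q)
        rw [mul_smul_comm, smul_mul_assoc] }
  have hT : Function.Injective T := by
    intro a b hab
    apply Subtype.ext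
    have h10 : P * a.1 * Q = P * b.1 * Q := congrArg Subtype.val hab
    have h11 := congrArg (fun M => P⁻¹ * M * Q⁻¹) h10
    have e2 : ∀ M : Matrix n n ℂ, P⁻¹ * (P * M * Q) * Q⁻¹ = M := by
      intro M
      have e3 : P⁻¹ * (P * M * Q) * Q⁻¹ = (P⁻¹ * P) * M * (Q * Q⁻¹) := by noncomm_ring
      rw [e3, Matrix.nonsing_inv_mul _ hPu, Matrix.mul_nonsing_inv _ hQu, one_mul, mul_one]
    simpa only [e2] using h11
  have hsurj : Function.Surjective T := LinearMap.injective_iff_surjective.1 hT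
  have hDS : dm D (P * cx (Y i) * Q) ∈ S := by
    obtain ⟨e, he⟩ := exists_valC (hval _ (Submodule.subset_span ⟨i, rfl⟩))
    rw [he, dm_valC]
    exact valC_mem Y _
  obtain ⟨W, hW⟩ := hsurj ⟨_, hDS⟩
  have h12 : P * W.1 * Q = dm D (P * cx (Y i) * Q) := congrArg Subtype.val hW
  rw [← h12]
  have e3 : P⁻¹ * (P * W.1 * Q) * Q⁻¹ = (P⁻¹ * P) * W.1 * (Q * Q⁻¹) := by noncomm_ring
  rw [e3, Matrix.nonsing_inv_mul _ hPu, Matrix.mul_nonsing_inv _ hQu, one_mul, mul_one]
  exact W.2

end

end Pool.Agent.Helper69K1
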