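import Pool.Agent.Helper69K1.Mod4

/-!
# A stuck point has an orbit of small codimension
-/

set_option linter.unusedSectionVars false

namespace Pool.Agent.Helper69K1

open Module

section

variable {n m : Type} [Fintype n] [DecidableEq n] [Fintype m] [DecidableEq m]

/-- the vector of a matrix -/
def vecM (R : Type) [CommRing R] : Matrix n n R →ₗ[R] (n × n → R) where
  toFun M := fun x => M x.1 x.2
  map_add' _ _ := rfl
  map_smul' _ _ := rfl

theorem vecM_ker (R : Type) [CommRing R] : LinearMap.ker (vecM (n := n) R) = ⊥ := by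
  rw [LinearMap.ker_eq_bot]
  intro M N h
  ext i j
  exact congrFun h (i, j)

theorem vecM_indep {R : Type} [Field R] {ι : Type} (v : ι → Matrix n n R) :
    LinearIndependent R (fun i (x : n × n) => v i x.1 x.2) ↔ LinearIndependent R v := by
  have h := LinearMap.linearIndependent_iff (v := v) (vecM (n := n) R) (vecM_ker R)
  exact h

variable {K : ℕ}

/-- the moving point -/
noncomputable def px (X : Matrix n n ℚ) (W : Fin K → Matrix n n ℚ) :
    Matrix n n (MvPolynomial (Fin K) ℚ) :=
  X.map (algebraMap ℚ _) + ∑ l, (MvPolynomial.X l : MvPolynomial (Fin K) ℚ) •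
    (W l).map (algebraMap ℚ (MvPolynomial (Fin K) ℚ))

/-- its tangent vectors -/
noncomputable def pg (X : Matrix n n ℚ) (W : Fin K → Matrix n n ℚ)
    (g : Matrix n n ℚ × Matrix n n ℚ) : Matrix n n (MvPolynomial (Fin K) ℚ) :=
  g.1.map (algebraMap ℚ _) * px X W - px X W * g.2.map (algebraMap ℚ _)

variable {R : Type} [CommRing R] [Algebra ℚ R]

theorem map_alg (t : Fin K → R) (M : Matrix n n ℚ) :
    (M.map (algebraMap ℚ (MvPolynomial (Fin K) ℚ))).map (MvPolynomial.aeval t) =
      M.map (algebraMap ℚ R) := by
  ext i j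
  simp

theorem map_px (t : Fin K → R) (X : Matrix n n ℚ) (W : Fin K → Matrix n n ℚ) :
    (px X W).map (MvPolynomial.aeval t) =
      X.map (algebraMap ℚ R) + ∑ l, t l • (W l).map (algebraMap ℚ R) := by
  ext i j
  simp [px, Matrix.sum_apply]

theorem map_pg (t : Fin K → R) (X : Matrix n n ℚ) (W : Fin K → Matrix n n ℚ)
    (g : Matrix n n ℚ × Matrix n n ℚ) :
    (pg X W g).map (MvPolynomial.aeval t) =
      g.1.map (algebraMap ℚ R) * (X.map (algebraMap ℚ R) + ∑ l, t l • (W l).map (algebraMap ℚ R)) -
      (X.map (algebraMap ℚ R) + ∑ l, t l • (W l).map (algebraMap ℚ R)) *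
        g.2.map (algebraMap ℚ R) := by
  have e1 : (pg X W g).map (MvPolynomial.aeval t) =
      (g.1.map (algebraMap ℚ _) * px X W).map (MvPolynomial.aeval t) -
        (px X W * g.2.map (algebraMap ℚ _)).map (MvPolynomial.aeval t) := by
    rw [pg, Matrix.map_sub _ (fun a b => map_sub _ a b)]
  rw [e1, Matrix.map_mul, Matrix.map_mul, map_px, map_alg, map_alg]

theorem map_pg_Q (t : Fin K → ℚ) (X : Matrix n n ℚ) (W : Fin K → Matrix n n ℚ)
    (g : Matrix n n ℚ × Matrix n n ℚ) :
    (pg X W g).map (MvPolynomial.aeval t) = actL (X + ∑ l, t l • W l) g := by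
  have e0 : ∀ M : Matrix n n ℚ, M.map (algebraMap ℚ ℚ) = M := fun M => by ext i j; simp
  rw [map_pg]
  simp only [e0]
  rfl

theorem map_pg_C (t : Fin K → ℂ) (X : Matrix n n ℚ) (W : Fin K → Matrix n n ℚ)
    (g : Matrix n n ℚ × Matrix n n ℚ) :
    (pg X W g).map (MvPolynomial.aeval t) =
      cx g.1 * (cx X + ∑ l, t l • cx (W l)) - (cx X + ∑ l, t l • cx (W l)) * cx g.2 :=
  map_pg t X W g

/-- A basis of the tangent space made of symmetries. -/
theorem exists_basis_orb (Y : m → Matrix n n ℚ) (X : Matrix n n ℚ) :
    ∃ g : Fin (finrank ℚ (orb Y X)) → Matrix n n ℚ × Matrix n n ℚ, (∀ i, g i ∈ sym Y) ∧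
      LinearIndependent ℚ (fun i => actL X (g i)) ∧
      Submodule.span ℚ (Set.range fun i => actL X (g i)) = orb Y X := by
  have e : Submodule.span ℚ (actL X '' (sym Y : Set (Matrix n n ℚ × Matrix n n ℚ))) =
      orb Y X := by
    rw [← Submodule.map_span, Submodule.span_eq]
    rfl
  obtain ⟨f, hf, hs, hli⟩ : ∃ f : Fin (finrank ℚ (orb Y X)) → Matrix n n ℚ,
      (∀ i, f i ∈ actL X '' (sym Y : Set (Matrix n n ℚ × Matrix n n ℚ))) ∧
      Submodule.span ℚ (Set.range f) = orb Y X ∧ LinearIndependent ℚ f := by
    have h := Submodule.exists_fun_fin_finrank_span_eq ℚ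
      (actL X '' (sym Y : Set (Matrix n n ℚ × Matrix n n ℚ)))
    rw [e] at h
    exact h
  choose g hg1 hg2 using hf
  refine ⟨g, hg1, ?_, ?_⟩
  · have : (fun i => actL X (g i)) = f := funext hg2
    rw [this]; exact hli
  · have : (fun i => actL X (g i)) = f := funext hg2
    rw [this]; exact hs

/-- **A stuck point has an orbit of small codimension.** -/
theorem not_indep_of_stuck {Y : m → Matrix n n ℚ} {μ K : ℕ} (hμ : μ < K) (hmod : ModY Y μ)
    (x : m → ℚ) (hstuck : ∀ (j : Fin K → m) (t : Fin K → ℚ),
      finrank ℚ (orb Y (valQ Y x + ∑ l, t l • Y (j l))) ≤ finrank ℚ (orb Y (valQ Y x)))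
    (j : Fin K → m) :
    ¬ LinearIndependent ℚ (fun l => (orb Y (valQ Y x)).mkQ (Y (j l))) := by
  intro hind
  set X := valQ Y x with hX
  obtain ⟨τ, hτ, a, ha, hmem⟩ := moves_tangent hμ hmod x j
  rw [← hX] at hmem
  set W : Fin K → Matrix n n ℚ := fun l => Y (j l) with hW
  set d := finrank ℚ (orb Y X) with hd
  obtain ⟨g, hg1, hg2, hg3⟩ := exists_basis_orb Y X
  -- independence at the origin
  have h1 : LinearIndependent ℚ (Sum.elim (fun i => actL X (g i)) W) := by
    refine LinearIndependent.sum_type hg2 ?_ ?_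
    · exact LinearIndependent.of_comp (orb Y X).mkQ hind
    · rw [hg3, Submodule.disjoint_def]
      intro y hy hy'
      obtain ⟨c, hc⟩ := (Submodule.mem_span_range_iff_exists_fun ℚ).1 hy'
      have h2 : ∑ l, c l • (orb Y X).mkQ (W l) = 0 := by
        have h3 : (orb Y X).mkQ y = 0 := by
          rw [Submodule.mkQ_apply, Submodule.Quotient.mk_eq_zero]
          exact hy
        rw [← hc, map_sum] at h3
        rw [← h3]
        exact Finset.sum_congr rfl fun l _ => by rw [map_smul]
      have h4 := Fintype.linearIndependent_iff.1 hind c h2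
      rw [← hc]
      exact Finset.sum_eq_zero fun l _ => by rw [h4 l, zero_smul]
  -- the polynomial family
  let p : Fin (d + K) → n × n → MvPolynomial (Fin K) ℚ := fun i y =>
    (Sum.elim (fun i => pg X W (g i)) (fun l => (W l).map (algebraMap ℚ _))
      (finSumFinEquiv.symm i)) y.1 y.2
  have hp0 : LinearIndependent ℚ fun i y => MvPolynomial.aeval (0 : Fin K → ℚ) (p i y) := by
    have e1 : (fun i y => MvPolynomial.aeval (0 : Fin K → ℚ) (p i y)) =
        fun i (y : n × n) => (Sum.elim (fun i => actL X (g i)) W (finSumFinEquiv.symm i)) y.1 y.2 := by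
      funext i y
      obtain ⟨s, rfl⟩ := finSumFinEquiv.surjective i
      simp only [p, Equiv.symm_apply_apply]
      cases s with
      | inl s =>
          rw [Sum.elim_inl, Sum.elim_inl]
          have e2 := map_pg_Q (0 : Fin K → ℚ) X W (g s)
          have e3 : X + ∑ l, (0 : Fin K → ℚ) l • W l = X := by simp
          rw [e3] at e2
          exact congrFun (congrFun e2 y.1) y.2
      | inr s =>
          rw [Sum.elim_inr, Sum.elim_inr]
          simp
    rw [e1, vecM_indep]
    exact h1.comp _ finSumFinEquiv.symm.injective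
  have hpτ := transfer_up p 0 hp0 hτ
  set Z := cx X + ∑ l, τ l • cx (W l) with hZ
  have hpτ' : LinearIndependent ℂ (Sum.elim (fun i => cx (g i).1 * Z - Z * cx (g i).2)
      (fun l => cx (W l))) := by
    have e1 : (fun i y => MvPolynomial.aeval τ (p i y)) =
        fun i (y : n × n) => (Sum.elim (fun i => cx (g i).1 * Z - Z * cx (g i).2)
          (fun l => cx (W l)) (finSumFinEquiv.symm i)) y.1 y.2 := by
      funext i y
      obtain ⟨s, rfl⟩ := finSumFinEquiv.surjective i
      simp only [p, Equiv.symm_apply_apply]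
      cases s with
      | inl s =>
          rw [Sum.elim_inl, Sum.elim_inl]
          exact congrFun (congrFun (map_pg_C τ X W (g s)) y.1) y.2
      | inr s =>
          rw [Sum.elim_inr, Sum.elim_inr]
          exact congrFun (congrFun (map_alg τ (W s)) y.1) y.2
    rw [e1, vecM_indep] at hpτ
    have h5 := hpτ.comp _ finSumFinEquiv.injective
    have e2 : (fun i => Sum.elim (fun i => cx (g i).1 * Z - Z * cx (g i).2)
        (fun l => cx (W l)) (finSumFinEquiv.symm i)) ∘ finSumFinEquiv =
        Sum.elim (fun i => cx (g i).1 * Z - Z * cx (g i).2) (fun l => cx (W l)) := by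
      funext s
      simp
    rwa [e2] at h5
  -- the tangent space at the generic point is larger
  set U := Submodule.span ℂ ((fun g : Matrix n n ℚ × Matrix n n ℚ => cx g.1 * Z - Z * cx g.2) ''
    (sym Y : Set _)) with hU
  have h6 : d + 1 ≤ finrank ℂ U := by
    let f : Option (Fin d) → U := fun o => o.elim ⟨∑ l, a l • cx (W l), hmem⟩
      fun i => ⟨cx (g i).1 * Z - Z * cx (g i).2, Submodule.subset_span ⟨g i, hg1 i, rfl⟩⟩
    have hf : LinearIndependent ℂ f := by
      have h7 : LinearIndependent ℂ (U.subtype ∘ f) := by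
        rw [Fintype.linearIndependent_iff]
        intro c hc
        rw [Fintype.sum_option] at hc
        simp only [Function.comp_apply, f, Option.elim] at hc
        have h8 := Fintype.linearIndependent_iff.1 hpτ'
          (Sum.elim (fun i => c (some i)) fun l => c none * a l) (by
            rw [Fintype.sum_sum_type]
            simp only [Sum.elim_inl, Sum.elim_inr]
            rw [add_comm]
            rw [← hc]
            congr 1
            rw [Submodule.subtype_apply, Finset.smul_sum]
            exact Finset.sum_congr rfl fun l _ => by rw [mul_smul])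
        have h9 : c none = 0 := by
          by_contra h0
          apply ha
          funext l
          have := h8 (Sum.inr l)
          rw [Sum.elim_inr] at this
          rcases mul_eq_zero.1 this with h | h
          · exact absurd h h0
          · exact h
        intro o
        cases o with
        | none => exact h9
        | some i => exact h8 (Sum.inl i)
      exact LinearIndependent.of_comp U.subtype h7
    have h10 := hf.fintype_card_le_finrank
    simpa using h10
  obtain ⟨f, hf1, hf2, hf3⟩ := Submodule.exists_fun_fin_finrank_span_eq ℂ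
    ((fun g : Matrix n n ℚ × Matrix n n ℚ => cx g.1 * Z - Z * cx g.2) '' (sym Y : Set _))
  choose g' hg1' hg2' using hf1
  let emb : Fin (d + 1) → Fin (finrank ℂ U) := Fin.castLE h6
  have h11 : LinearIndependent ℂ fun i : Fin (d + 1) => cx (g' (emb i)).1 * Z -
      Z * cx (g' (emb i)).2 := by
    have h12 := hf3.comp emb (Fin.castLE_injective h6)
    have e1 : f ∘ emb = fun i : Fin (d + 1) => cx (g' (emb i)).1 * Z - Z * cx (g' (emb i)).2 := by
      funext i
      exact (hg2' (emb i)).symm
    rwa [e1] at h12
  let p' : Fin (d + 1) → n × n → MvPolynomial (Fin K) ℚ := fun i y => pg X W (g' (emb i)) y.1 y.2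
  obtain ⟨t, ht⟩ := transfer_down p' τ (by
    have e1 : (fun i y => MvPolynomial.aeval τ (p' i y)) =
        fun i (y : n × n) => (cx (g' (emb i)).1 * Z - Z * cx (g' (emb i)).2) y.1 y.2 := by
      funext i y
      exact congrFun (congrFun (map_pg_C τ X W (g' (emb i))) y.1) y.2
    rw [e1, vecM_indep]
    exact h11)
  have e3 : (fun i y => MvPolynomial.aeval t (p' i y)) =
      fun i (y : n × n) => (actL (X + ∑ l, t l • W l) (g' (emb i))) y.1 y.2 := by
    funext i y
    exact congrFun (congrFun (map_pg_Q t X W (g' (emb i))) y.1) y.2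
  rw [e3, vecM_indep] at ht
  have h13 : d + 1 ≤ finrank ℚ (orb Y (X + ∑ l, t l • W l)) := by
    have h14 : LinearIndependent ℚ (fun i : Fin (d + 1) => (⟨actL (X + ∑ l, t l • W l)
        (g' (emb i)), Submodule.mem_map_of_mem (hg1' (emb i))⟩ :
          orb Y (X + ∑ l, t l • W l))) := by
      exact LinearIndependent.of_comp (orb Y (X + ∑ l, t l • W l)).subtype ht
    have h15 := h14.fintype_card_le_finrank
    simpa using h15
  have h16 : finrank ℚ (orb Y (X + ∑ l, t l • W l)) ≤ d := hstuck j t
  omega

end

end Pool.Agent.Helper69K1
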