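import Pool.Agent.Helper69K1.Mod5

/-!
# A determinant vanishing on a transversal slice vanishes on the whole space
-/

set_option linter.unusedSectionVars false

namespace Pool.Agent.Helper69K1

open Module Polynomial

section

variable {n m : Type} [Fintype n] [DecidableEq n] [Fintype m] [DecidableEq m]

theorem jacobi {R : Type} [CommRing R] (N : Matrix n n R[X]) :
    derivative N.det = (N.adjugate * N.map derivative).trace := by
  have h1 : ∀ j, (N.adjugate * N.map derivative) j j =
      (N.updateCol j (fun x => derivative (N x j))).det := by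
    intro j
    rw [← Matrix.cramer_apply, Matrix.cramer_eq_adjugate_mulVec]
    rfl
  rw [Matrix.trace]
  simp only [Matrix.diag_apply, h1]
  rw [Matrix.det_apply, derivative_sum]
  simp only [Matrix.det_apply]
  rw [Finset.sum_comm]
  apply Finset.sum_congr rfl
  intro σ _
  rw [← Finset.smul_sum]
  have h2 : derivative (∏ i, N (σ i) i) =
      ∑ j, ∏ i, (N.updateCol j (fun x => derivative (N x j))) (σ i) i := by
    rw [derivative_prod_finset]
    apply Finset.sum_congr rfl
    intro j _
    rw [← Finset.prod_erase_mul _ _ (Finset.mem_univ j)]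
    congr 1
    · apply Finset.prod_congr rfl
      intro i hi
      rw [Finset.mem_erase] at hi
      rw [Matrix.updateCol_ne hi.1]
    · rw [Matrix.updateCol_self]
  rw [← h2, Units.smul_def, Units.smul_def, zsmul_eq_mul, zsmul_eq_mul]
  rw [Polynomial.derivative_mul, Polynomial.derivative_intCast, zero_mul, zero_add]

theorem coeff_one_det {R : Type} [CommRing R] (M H : Matrix n n R) :
    (M.map C + (X : R[X]) • H.map C).det.coeff 1 = (M.adjugate * H).trace := by
  set N : Matrix n n R[X] := M.map C + (X : R[X]) • H.map C with hN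
  have h1 : N.det.coeff 1 = (derivative N.det).eval 0 := by
    rw [← coeff_zero_eq_eval_zero, coeff_derivative]
    simp
  rw [h1, jacobi]
  have h2 : N.map derivative = H.map C := by
    ext1 i j
    rw [Matrix.map_apply, hN, Matrix.add_apply, Matrix.smul_apply, Matrix.map_apply,
      Matrix.map_apply, derivative_add, derivative_C, zero_add, smul_eq_mul, derivative_mul,
      derivative_X, derivative_C, one_mul, mul_zero, add_zero]
  rw [h2, ← Polynomial.coe_evalRingHom, Matrix.trace, map_sum]
  have h3 : (Polynomial.evalRingHom (0 : R)).mapMatrix N = M := by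
    ext i j
    simp [hN]
  have h4 : (Polynomial.evalRingHom (0 : R)).mapMatrix N.adjugate = M.adjugate := by
    rw [RingHom.map_adjugate, h3]
  have h5 : (Polynomial.evalRingHom (0 : R)).mapMatrix (N.adjugate * H.map C) =
      M.adjugate * H := by
    rw [map_mul, h4]
    congr 1
    ext i j
    simp
  rw [Matrix.trace]
  refine Finset.sum_congr rfl fun i _ => ?_
  exact congrFun (congrFun h5 i) i

/-- If all rational values are divisible, then so are the coefficients. -/
theorem dvd_coeff (k : ℕ) (g : ℚ[X][X]) (h : ∀ t : ℚ, (X : ℚ[X]) ^ k ∣ g.eval (C t)) (i : ℕ) :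
    (X : ℚ[X]) ^ k ∣ g.coeff i := by
  rw [X_pow_dvd_iff]
  intro j hj
  let P : ℚ[X] := ∑ i ∈ g.support, monomial i ((g.coeff i).coeff j)
  have h1 : ∀ t : ℚ, P.eval t = (g.eval (C t)).coeff j := by
    intro t
    rw [eval_finsetSum, eval_eq_sum, Polynomial.sum, finsetSum_coeff]
    refine Finset.sum_congr rfl fun i _ => ?_
    rw [eval_monomial, ← C_pow, coeff_mul_C]
  have h2 : P = 0 := by
    apply Polynomial.funext
    intro t
    rw [h1, eval_zero]
    exact X_pow_dvd_iff.1 (h t) j hj
  have h3 : P.coeff i = (g.coeff i).coeff j := by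
    rw [finsetSum_coeff]
    simp only [coeff_monomial]
    rw [Finset.sum_ite_eq' g.support i]
    split_ifs with h4
    · rfl
    · rw [notMem_support_iff.1 h4, coeff_zero]
  rw [← h3, h2, coeff_zero]

theorem dvd_trace (k : ℕ) (M H : Matrix n n ℚ[X])
    (h : ∀ t : ℚ, (X : ℚ[X]) ^ k ∣ (M + C t • H).det) :
    (X : ℚ[X]) ^ k ∣ (M.adjugate * H).trace := by
  rw [← coeff_one_det]
  refine dvd_coeff k _ (fun t => ?_) 1
  have h1 : ((M.map C + (X : ℚ[X][X]) • H.map C).det).eval (C t) = (M + C t • H).det := by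
    rw [← Polynomial.coe_evalRingHom, RingHom.map_det]
    congr 1
    ext1 i j
    simp
    exact mul_comm _ _
  rw [h1]
  exact h t

/-- constant matrices -/
noncomputable def cm (M : Matrix n n ℚ) : Matrix n n ℚ[X] := M.map C

theorem cm_add (M N : Matrix n n ℚ) : cm (M + N) = cm M + cm N :=
  Matrix.map_add _ (fun a b => map_add _ a b) _ _

theorem cm_sub (M N : Matrix n n ℚ) : cm (M - N) = cm M - cm N :=
  Matrix.map_sub _ (fun a b => map_sub _ a b) _ _

theorem cm_mul (M N : Matrix n n ℚ) : cm (M * N) = cm M * cm N := Matrix.map_mul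

theorem cm_smul (t : ℚ) (M : Matrix n n ℚ) : cm (t • M) = C t • cm M := by
  ext1 i j
  simp [cm]

/-- The determinant along a line. -/
noncomputable def lineP (A r : Matrix n n ℚ) : ℚ[X] := (cm A + (X : ℚ[X]) • cm r).det

theorem lineP_eval (A r : Matrix n n ℚ) (t : ℚ) : (lineP A r).eval t = (A + t • r).det := by
  rw [lineP, ← Polynomial.coe_evalRingHom, RingHom.map_det]
  congr 1
  ext1 i j
  simp [cm]
  exact mul_comm _ _

theorem lineP_deriv (A r : Matrix n n ℚ) : derivative (lineP A r) =
    ((cm A + (X : ℚ[X]) • cm r).adjugate * cm r).trace := by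
  rw [lineP, jacobi]
  congr 2
  ext1 i j
  rw [Matrix.map_apply, Matrix.add_apply, Matrix.smul_apply, cm, cm, Matrix.map_apply,
    Matrix.map_apply, derivative_add, derivative_C, zero_add, smul_eq_mul, derivative_mul,
    derivative_X, derivative_C, one_mul, mul_zero, add_zero]

/-- One step at a good point. -/
theorem step_good {Y : m → Matrix n n ℚ} {S : Submodule ℚ (Matrix n n ℚ)}
    (X₀ : Matrix n n ℚ) {k : ℕ} (hk : 1 ≤ k)
    (hv : ∀ s ∈ S, ∀ r ∈ spn Y, (X : ℚ[X]) ^ k ∣ lineP (X₀ + s) r)
    {s : Matrix n n ℚ} (hs : s ∈ S) (hgood : spn Y ≤ orb Y (X₀ + s) ⊔ S)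
    {r : Matrix n n ℚ} (hr : r ∈ spn Y) : (X : ℚ[X]) ^ (k + 1) ∣ lineP (X₀ + s) r := by
  set A := X₀ + s with hA
  obtain ⟨u, hu, y, hy, huy⟩ := Submodule.mem_sup.1 (hgood hr)
  obtain ⟨g, hg, rfl⟩ := hu
  rw [actL_apply] at huy
  set h := g.1 * r - r * g.2 with hh
  have hhY : h ∈ spn Y := sym_apply hg hr
  set M := cm A + (X : ℚ[X]) • cm r with hM
  have hdet : lineP A r = M.det := rfl
  -- the decomposition of the direction
  have e1 : cm r = (cm g.1 * M - M * cm g.2) - (X : ℚ[X]) • cm h + cm y := by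
    have e2 : cm r = (cm g.1 * cm A - cm A * cm g.2) + cm y := by
      rw [← cm_mul, ← cm_mul, ← cm_sub, ← cm_add, huy]
    have e3 : cm h = cm g.1 * cm r - cm r * cm g.2 := by
      rw [hh, cm_sub, cm_mul, cm_mul]
    rw [e3, hM]
    rw [mul_add, add_mul, mul_smul_comm, smul_mul_assoc, smul_sub]
    conv_lhs => rw [e2]
    abel
  have d1 : (X : ℚ[X]) ^ k ∣ M.det := hv s hs r hr
  have t1 : (M.adjugate * (cm g.1 * M)).trace = M.det * (cm g.1).trace := by
    rw [← mul_assoc, Matrix.trace_mul_comm, ← mul_assoc, Matrix.mul_adjugate, Matrix.smul_mul,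
      one_mul, Matrix.trace_smul, smul_eq_mul]
  have t2 : (M.adjugate * (M * cm g.2)).trace = M.det * (cm g.2).trace := by
    rw [← mul_assoc, Matrix.adjugate_mul, Matrix.smul_mul, one_mul, Matrix.trace_smul, smul_eq_mul]
  have d2 : (X : ℚ[X]) ^ k ∣ (M.adjugate * cm y).trace := by
    refine dvd_trace k M (cm y) fun t => ?_
    have e4 : M + C t • cm y = cm (X₀ + (s + t • y)) + (X : ℚ[X]) • cm r := by
      rw [hM, hA, ← add_assoc, cm_add (X₀ + s) (t • y), cm_smul]
      abel
    rw [e4]
    exact hv _ (S.add_mem hs (S.smul_mem t hy)) r hr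
  have d3 : (X : ℚ[X]) ^ k ∣ (M.adjugate * ((X : ℚ[X]) • cm h)).trace := by
    refine dvd_trace k M ((X : ℚ[X]) • cm h) fun t => ?_
    have e4 : M + C t • ((X : ℚ[X]) • cm h) = cm A + (X : ℚ[X]) • cm (r + t • h) := by
      rw [hM, cm_add r (t • h), cm_smul, smul_add, smul_comm (C t) (X : ℚ[X])]
      abel
    rw [e4]
    exact hv s hs _ ((spn Y).add_mem hr ((spn Y).smul_mem t hhY))
  have d4 : (X : ℚ[X]) ^ k ∣ derivative (lineP A r) := by
    rw [lineP_deriv]
    have e5 : (M.adjugate * cm r).trace = M.det * (cm g.1).trace - M.det * (cm g.2).trace -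
        (M.adjugate * ((X : ℚ[X]) • cm h)).trace + (M.adjugate * cm y).trace := by
      rw [← t1, ← t2, ← Matrix.trace_sub, ← Matrix.trace_sub, ← Matrix.trace_add, ← mul_sub,
        ← mul_sub, ← mul_add, ← e1]
    change (X : ℚ[X]) ^ k ∣ (M.adjugate * cm r).trace
    rw [e5]
    exact dvd_add (dvd_sub (dvd_sub (Dvd.dvd.mul_right d1 _) (Dvd.dvd.mul_right d1 _)) d3) d2
  -- comparison of coefficients
  rw [X_pow_dvd_iff]
  intro j hj
  rcases Nat.lt_or_ge j k with hjk | hjk
  · exact X_pow_dvd_iff.1 d1 j hjk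
  · have hjk' : j = k := by omega
    subst hjk'
    obtain ⟨j', rfl⟩ : ∃ j', j = j' + 1 := ⟨j - 1, by omega⟩
    have h6 := X_pow_dvd_iff.1 d4 j' (by omega)
    rw [coeff_derivative] at h6
    rcases mul_eq_zero.1 h6 with h7 | h7
    · exact h7
    · exfalso
      have : ((j' : ℚ) + 1) ≠ 0 := by positivity
      exact this h7

end

end Pool.Agent.Helper69K1
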