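import Pool.Agent.Helper69K1.Mod6

/-!
# The main lemma on spaces with few parameters
-/

set_option linter.unusedSectionVars false

namespace Pool.Agent.Helper69K1

open Module Polynomial

section

variable {n m : Type} [Fintype n] [DecidableEq n] [Fintype m] [DecidableEq m]

theorem coeff_poly (g : ℚ[X][X]) (j : ℕ) :
    ∃ P : ℚ[X], ∀ t : ℚ, P.eval t = (g.eval (C t)).coeff j := by
  refine ⟨∑ i ∈ g.support, monomial i ((g.coeff i).coeff j), fun t => ?_⟩
  rw [eval_finsetSum, eval_eq_sum, Polynomial.sum, finsetSum_coeff]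
  refine Finset.sum_congr rfl fun i _ => ?_
  rw [eval_monomial, ← C_pow, coeff_mul_C]

theorem orb_le {Y : m → Matrix n n ℚ} {X₀ : Matrix n n ℚ} (h : X₀ ∈ spn Y) :
    orb Y X₀ ≤ spn Y := by
  rintro _ ⟨g, hg, rfl⟩
  exact sym_apply hg h

/-- Good points are generic. -/
theorem good_generic {Y : m → Matrix n n ℚ} {S : Submodule ℚ (Matrix n n ℚ)} (hS : S ≤ spn Y)
    {X₀ : Matrix n n ℚ} (hX : X₀ ∈ spn Y) (h0 : spn Y ≤ orb Y X₀ ⊔ S) {s : Matrix n n ℚ}
    (hs : s ∈ S) : ∃ q : ℚ[X], q ≠ 0 ∧ ∀ t : ℚ, q.eval t ≠ 0 →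
      spn Y ≤ orb Y (X₀ + t • s) ⊔ S := by
  classical
  set D := finrank ℚ (spn Y) with hD
  let b := Module.finBasis ℚ (spn Y)
  have hb : ∀ i, ∃ g ∈ sym Y, ∃ w ∈ S, actL X₀ g + w = (b i : Matrix n n ℚ) := by
    intro i
    obtain ⟨u, hu, y, hy, huy⟩ := Submodule.mem_sup.1 (h0 (b i).2)
    obtain ⟨g, hg, rfl⟩ := hu
    exact ⟨g, hg, y, hy, huy⟩
  choose g hg w hw hgw using hb
  have hli : LinearIndependent ℚ fun i => ((b i : spn Y) : Matrix n n ℚ) :=
    b.linearIndependent.map' (spn Y).subtype (Submodule.ker_subtype _)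
  have hli' : LinearIndependent ℚ fun i (x : n × n) => ((b i : spn Y) : Matrix n n ℚ) x.1 x.2 :=
    (vecM_indep _).2 hli
  obtain ⟨J, hJ⟩ := exists_minor _ hli'
  let V : Matrix (Fin D) (Fin D) ℚ := Matrix.of fun i j => (b i : Matrix n n ℚ) (J j).1 (J j).2
  let V' : Matrix (Fin D) (Fin D) ℚ := Matrix.of fun i j => (actL s (g i)) (J j).1 (J j).2
  let q : ℚ[X] := (V.map C + (X : ℚ[X]) • V'.map C).det
  have hq : ∀ t : ℚ, q.eval t = (V + t • V').det := by
    intro t
    rw [← Polynomial.coe_evalRingHom, RingHom.map_det]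
    congr 1
    ext1 i j
    simp
    exact mul_comm _ _
  refine ⟨q, fun h => hJ ?_, fun t ht => ?_⟩
  · have h1 := hq 0
    rw [h, eval_zero, zero_smul, add_zero] at h1
    exact h1.symm
  · rw [hq] at ht
    have e1 : (V + t • V') = Matrix.of fun i j =>
        (fun i (x : n × n) => (actL (X₀ + t • s) (g i) + w i) x.1 x.2) i (J j) := by
      ext i j
      simp only [V, V', Matrix.add_apply, Matrix.smul_apply, Matrix.of_apply, smul_eq_mul]
      rw [← hgw i]
      have e2 : actL (X₀ + t • s) (g i) = actL X₀ (g i) + t • actL s (g i) := by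
        rw [actL_apply, actL_apply, actL_apply, mul_add, add_mul, mul_smul_comm, smul_mul_assoc,
          smul_sub]
        abel
      rw [e2]
      simp only [Matrix.add_apply, Matrix.smul_apply, smul_eq_mul]
      ring
    rw [e1] at ht
    have h2 := indep_of_minor
      (fun i (x : n × n) => (actL (X₀ + t • s) (g i) + w i) x.1 x.2) J ht
    rw [vecM_indep] at h2
    have h3 : Submodule.span ℚ (Set.range fun i => actL (X₀ + t • s) (g i) + w i) = spn Y := by
      apply Submodule.eq_of_le_of_finrank_eq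
      · refine Submodule.span_le.2 ?_
        rintro _ ⟨i, rfl⟩
        refine (spn Y).add_mem ?_ (hS (hw i))
        exact sym_apply (hg i) ((spn Y).add_mem hX ((spn Y).smul_mem t (hS hs)))
      · rw [finrank_span_eq_card h2, Fintype.card_fin]
    rw [← h3]
    refine Submodule.span_le.2 ?_
    rintro _ ⟨i, rfl⟩
    exact Submodule.add_mem_sup (Submodule.mem_map_of_mem (hg i)) (hw i)

/-- **Vanishing on a transversal slice.** -/
theorem vanish {Y : m → Matrix n n ℚ} {S : Submodule ℚ (Matrix n n ℚ)} (hS : S ≤ spn Y)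
    {X₀ : Matrix n n ℚ} (hX : X₀ ∈ spn Y) (h0 : spn Y ≤ orb Y X₀ ⊔ S)
    (hdet : ∀ s ∈ S, (X₀ + s).det = 0) {M : Matrix n n ℚ} (hM : M ∈ spn Y) : M.det = 0 := by
  have key : ∀ k : ℕ, ∀ s ∈ S, ∀ r ∈ spn Y, (X : ℚ[X]) ^ (k + 1) ∣ lineP (X₀ + s) r := by
    intro k
    induction k with
    | zero =>
        intro s hs r _
        rw [zero_add, pow_one, X_dvd_iff, coeff_zero_eq_eval_zero, lineP_eval, zero_smul, add_zero]
        exact hdet s hs
    | succ k ih =>
        intro s hs r hr
        rw [X_pow_dvd_iff]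
        intro j hj
        obtain ⟨q, hq0, hq⟩ := good_generic hS hX h0 hs
        let g : ℚ[X][X] := ((cm X₀ + (X : ℚ[X]) • cm r).map C +
          (X : ℚ[X][X]) • (cm s).map C).det
        have hg : ∀ t : ℚ, g.eval (C t) = lineP (X₀ + t • s) r := by
          intro t
          rw [← Polynomial.coe_evalRingHom, RingHom.map_det, lineP]
          congr 1
          ext1 i j
          simp [cm]
          ring
        obtain ⟨P, hP⟩ := coeff_poly g j
        have h1 : P * q = 0 := by
          apply Polynomial.funext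
          intro t
          rw [eval_mul, eval_zero]
          by_cases ht : q.eval t = 0
          · rw [ht, mul_zero]
          · have h2 := step_good X₀ (k := k + 1) (by omega) ih (S.smul_mem t hs) (hq t ht) hr
            rw [hP, hg, X_pow_dvd_iff.1 h2 j hj, zero_mul]
        have h3 : P = 0 := by
          rcases mul_eq_zero.1 h1 with h | h
          · exact h
          · exact absurd h hq0
        have h4 := hP 1
        rw [h3, eval_zero, hg, one_smul] at h4
        exact h4.symm
  have h1 : lineP X₀ (M - X₀) = 0 := by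
    ext j
    have h2 := key j 0 S.zero_mem (M - X₀) ((spn Y).sub_mem hM hX)
    rw [add_zero] at h2
    rw [coeff_zero]
    exact X_pow_dvd_iff.1 h2 j (by omega)
  have h2 := lineP_eval X₀ (M - X₀) 1
  rw [h1, eval_zero, one_smul, add_sub_cancel] at h2
  exact h2.symm

/-- **The main lemma.** -/
theorem modality_main {Y : m → Matrix n n ℚ} {μ K : ℕ} (hμ : μ < K) (hmod : ModY Y μ)
    (x : m → ℚ) (hstuck : ∀ (j : Fin K → m) (t : Fin K → ℚ),
      finrank ℚ (orb Y (valQ Y x + ∑ l, t l • Y (j l))) ≤ finrank ℚ (orb Y (valQ Y x)))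
    {M : Matrix n n ℚ} (hM : M ∈ spn Y) (hdet : M.det ≠ 0) :
    ∃ (e : ℕ) (j : Fin e → m) (t : Fin e → ℚ), e ≤ K ∧
      (valQ Y x + ∑ l, t l • Y (j l)).det ≠ 0 := by
  classical
  set X₀ := valQ Y x with hX₀
  have hX : X₀ ∈ spn Y := Submodule.sum_mem _ fun j _ =>
    Submodule.smul_mem _ _ (Submodule.subset_span ⟨j, rfl⟩)
  -- a complement spanned by generators
  have hspan : Submodule.span ℚ (Set.range fun j => (orb Y X₀).mkQ (Y j)) =
      (spn Y).map (orb Y X₀).mkQ := by
    rw [spn, Submodule.map_span, ← Set.range_comp]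
    rfl
  obtain ⟨e, f, hf1, hf2, hf3⟩ : ∃ (e : ℕ) (f : Fin e → Matrix n n ℚ ⧸ orb Y X₀),
      (∀ i, f i ∈ Set.range fun j => (orb Y X₀).mkQ (Y j)) ∧
      Submodule.span ℚ (Set.range f) =
        Submodule.span ℚ (Set.range fun j => (orb Y X₀).mkQ (Y j)) ∧
      LinearIndependent ℚ f :=
    ⟨_, Submodule.exists_fun_fin_finrank_span_eq ℚ
      (Set.range fun j => (orb Y X₀).mkQ (Y j))⟩
  choose j hj using hf1
  have hfj : f = fun l => (orb Y X₀).mkQ (Y (j l)) := funext fun l => (hj l).symm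
  have heK : e ≤ K := by
    by_contra hcon
    push Not at hcon
    let emb : Fin K → Fin e := Fin.castLE hcon.le
    apply not_indep_of_stuck hμ hmod x hstuck fun l => j (emb l)
    have h1 := hf3.comp emb (Fin.castLE_injective hcon.le)
    rw [hfj] at h1
    exact h1
  set S := Submodule.span ℚ (Set.range fun l => Y (j l)) with hS
  have hSle : S ≤ spn Y := by
    refine Submodule.span_le.2 ?_
    rintro _ ⟨l, rfl⟩
    exact Submodule.subset_span ⟨j l, rfl⟩
  have h0 : spn Y ≤ orb Y X₀ ⊔ S := by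
    intro y hy
    have h1 : (orb Y X₀).mkQ y ∈ Submodule.span ℚ (Set.range f) := by
      rw [hf2, hspan]
      exact Submodule.mem_map_of_mem hy
    obtain ⟨c, hc⟩ := (Submodule.mem_span_range_iff_exists_fun ℚ).1 h1
    have h2 : y - ∑ l, c l • Y (j l) ∈ orb Y X₀ := by
      rw [← Submodule.Quotient.mk_eq_zero, ← Submodule.mkQ_apply, map_sub, map_sum, ← hc,
        sub_eq_zero]
      refine Finset.sum_congr rfl fun l _ => ?_
      rw [map_smul, hfj]
    have h3 : y = (y - ∑ l, c l • Y (j l)) + ∑ l, c l • Y (j l) := by abel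
    rw [h3]
    refine Submodule.add_mem_sup h2 ?_
    exact Submodule.sum_mem _ fun l _ => Submodule.smul_mem _ _ (Submodule.subset_span ⟨l, rfl⟩)
  by_contra hcon
  push Not at hcon
  apply hdet
  refine vanish hSle hX h0 (fun s hs => ?_) hM
  obtain ⟨t, ht⟩ := (Submodule.mem_span_range_iff_exists_fun ℚ).1 hs
  rw [← ht]
  exact hcon e j t heK

end

end Pool.Agent.Helper69K1
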