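import Pool.Agent.Helper69K1.Mod7
import Pool.Agent.Helper69K1.AlgPow

/-!
# The stable rank of symmetric matrices
-/

set_option linter.unusedSectionVars false

namespace Pool.Agent.Helper69K1

open Module

section

variable {n m : Type} [Fintype n] [DecidableEq n] [Fintype m] [DecidableEq m]

theorem symm_pow {S : Matrix n n ℚ} (hS : S.transpose = S) (k : ℕ) :
    (S ^ k).transpose = S ^ k := by
  rw [Matrix.transpose_pow, hS]

theorem rank_pow_two {S : Matrix n n ℚ} (hS : S.transpose = S) (j : ℕ) :
    (S ^ (2 ^ j)).rank = S.rank := by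
  induction j with
  | zero => rw [pow_zero, pow_one]
  | succ j ih =>
      have e : S ^ (2 ^ (j + 1)) = (S ^ (2 ^ j)).transpose * S ^ (2 ^ j) := by
        rw [symm_pow hS, ← pow_add]
        congr 1
        ring
      rw [e, Matrix.rank_transpose_mul_self, ih]

theorem rank_pow_symm {S : Matrix n n ℚ} (hS : S.transpose = S) {k : ℕ} (hk : 1 ≤ k) :
    (S ^ k).rank = S.rank := by
  apply le_antisymm
  · obtain ⟨j, rfl⟩ := Nat.exists_eq_add_of_le hk
    rw [pow_add, pow_one]
    exact Matrix.rank_mul_le_left _ _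
  · rw [← rank_pow_two hS k]
    have h1 : k ≤ 2 ^ k := Nat.lt_two_pow_self.le
    obtain ⟨j, hj⟩ := Nat.exists_eq_add_of_le h1
    rw [hj, pow_add]
    exact Matrix.rank_mul_le_left _ _

theorem srk_symm {S : Matrix n n ℚ} (hS : S.transpose = S) : srk S = S.rank := by
  rw [srk]
  rcases Nat.eq_zero_or_pos (Fintype.card n) with h | h
  · have h1 : S.rank ≤ 0 := by
      rw [← h]
      exact Matrix.rank_le_card_width _
    have h2 : (S ^ Fintype.card n).rank ≤ 0 := by
      conv_rhs => rw [← h]
      exact Matrix.rank_le_card_width _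
    omega
  · exact rank_pow_symm hS h

/-- A product of subspaces. -/
def prodEq {V W : Type} [AddCommGroup V] [Module ℚ V] [AddCommGroup W] [Module ℚ W]
    (p : Submodule ℚ V) (q : Submodule ℚ W) : (p.prod q) ≃ₗ[ℚ] (p × q) where
  toFun x := (⟨x.1.1, x.2.1⟩, ⟨x.1.2, x.2.2⟩)
  invFun x := ⟨(x.1.1, x.2.1), x.1.2, x.2.2⟩
  map_add' _ _ := rfl
  map_smul' _ _ := rfl
  left_inv _ := rfl
  right_inv _ := rfl

/-- The rank of the symmetric matrix with two off-diagonal blocks. -/
theorem rank_dbl (M : Matrix n m ℚ) :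
    (Matrix.fromBlocks (0 : Matrix n n ℚ) M M.transpose (0 : Matrix m m ℚ)).rank =
      2 * M.rank := by
  have h2 : (Matrix.fromBlocks (0 : Matrix n n ℚ) M M.transpose (0 : Matrix m m ℚ)).rank =
      finrank ℚ (LinearMap.range (LinearMap.prodMap M.mulVecLin M.transpose.mulVecLin)) := by
    rw [Matrix.rank]
    let e1 : (n ⊕ m → ℚ) ≃ₗ[ℚ] (n → ℚ) × (m → ℚ) := LinearEquiv.sumArrowLequivProdArrow n m ℚ ℚ
    have h3 : e1.toLinearMap ∘ₗ (Matrix.fromBlocks (0 : Matrix n n ℚ) M M.transpose
        (0 : Matrix m m ℚ)).mulVecLin =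
        (LinearMap.prodMap M.mulVecLin M.transpose.mulVecLin) ∘ₗ
          (e1.trans (LinearEquiv.prodComm ℚ _ _)).toLinearMap := by
      apply LinearMap.ext
      intro v
      apply Prod.ext
      · funext i
        change (Matrix.fromBlocks (0 : Matrix n n ℚ) M M.transpose
          (0 : Matrix m m ℚ)).mulVec v (Sum.inl i) = M.mulVec (fun j => v (Sum.inr j)) i
        rw [Matrix.mulVec, dotProduct, Fintype.sum_sum_type]
        simp [Matrix.mulVec, dotProduct]
      · funext i
        change (Matrix.fromBlocks (0 : Matrix n n ℚ) M M.transpose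
          (0 : Matrix m m ℚ)).mulVec v (Sum.inr i) =
            M.transpose.mulVec (fun j => v (Sum.inl j)) i
        rw [Matrix.mulVec, dotProduct, Fintype.sum_sum_type]
        simp [Matrix.mulVec, dotProduct]
    have h4 : LinearMap.range (e1.toLinearMap ∘ₗ (Matrix.fromBlocks (0 : Matrix n n ℚ) M
        M.transpose (0 : Matrix m m ℚ)).mulVecLin) =
        LinearMap.range (LinearMap.prodMap M.mulVecLin M.transpose.mulVecLin) := by
      rw [h3, LinearMap.range_comp_of_range_eq_top]
      exact LinearEquiv.range _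
    rw [← h4, LinearMap.range_comp]
    exact (LinearEquiv.finrank_map_eq e1 _).symm
  rw [h2, LinearMap.range_prodMap]
  have h5 : finrank ℚ ((LinearMap.range M.mulVecLin).prod
      (LinearMap.range M.transpose.mulVecLin)) =
      finrank ℚ (LinearMap.range M.mulVecLin) +
        finrank ℚ (LinearMap.range M.transpose.mulVecLin) := by
    rw [← Module.finrank_prod]
    exact LinearEquiv.finrank_eq (prodEq _ _)
  rw [h5]
  have h6 : finrank ℚ (LinearMap.range M.transpose.mulVecLin) = M.rank := by
    rw [← Matrix.rank_transpose M]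
    rfl
  rw [h6]
  change M.rank + M.rank = _
  ring

end

end Pool.Agent.Helper69K1
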