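import Pool.Agent.Helper69K1.Mod8
import Pool.Agent.Helper69K1.Conj

/-!
# The infinitesimal symmetries, computed
-/

set_option linter.unusedSectionVars false

namespace Pool.Agent.Helper69K1

open Module Pool.Agent.NPC Pool.Agent.NPC.H532 Pool.Agent.H420_NCF Pool.Agent.H687R2.LLL

variable {α : Type} [TEnc α]

/-- The conditions. -/
noncomputable def colsG (N : ℕ) (Bs : List Mat) : List (Mat × List ℤ) :=
  Bs.flatMap fun B => (annF N Bs).map fun l => (B, l)

theorem mem_colsG {N : ℕ} {Bs : List Mat} {x : Mat × List ℤ} :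
    x ∈ colsG N Bs ↔ x.1 ∈ Bs ∧ x.2 ∈ annF N Bs := by
  obtain ⟨B, l⟩ := x
  simp [colsG]

theorem poly_colsG {N : α → ℕ} {Bs : α → List Mat} (hN : UPoly N) (hB : Poly Bs) :
    Poly (fun a => colsG (N a) (Bs a)) := by
  unfold colsG
  refine Poly.flatMap (F := fun a B => (annF (N a) (Bs a)).map fun l => (B, l)) hB ?_
  refine NPC.Poly.map (α := α × Mat) (l := fun p => annF (N p.1) (Bs p.1))
    (F := fun p l => (p.2, l))
    (poly_annF (hN.comp (Poly.fst Poly.id)) (hB.comp (Poly.fst Poly.id))) ?_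
  exact Poly.pair (Poly.snd (Poly.fst Poly.id)) (Poly.snd Poly.id)

/-- The value of a condition at a pair of matrix units. -/
def phiG (N : ℕ) (x : Mat × List ℤ) (k : ℕ) : ℤ :=
  if k < N * N then
    ((List.range N).map fun b => x.2.getD (k / N * N + b) 0 * entry x.1 (k % N) b).sum
  else
    ((List.range N).map fun a => -(x.2.getD (a * N + (k - N * N) % N) 0 *
      entry x.1 a ((k - N * N) / N))).sum

theorem poly_phiG {N k : α → ℕ} {x : α → Mat × List ℤ} (hN : UPoly N)
    (hx : Poly x) (hk : Poly k) : Poly (fun a => phiG (N a) (x a) (k a)) := by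
  unfold phiG
  have h0 : Poly (fun p : α × ℕ => p.1) := Poly.fst Poly.id
  have hNN : Poly (fun p : α × ℕ => N p.1) := hN.toPoly.comp h0
  have hX := hx.comp h0
  have hK := hk.comp h0
  have ht : Poly (fun p : α × ℕ => p.2) := Poly.snd Poly.id
  refine Poly.ite (p := fun a => k a < N a * N a) (Poly.decide_lt hk (hN.mul hN).toPoly) ?_ ?_
  · refine Poly_sumZ (NPC.Poly.map (F := fun a b => (x a).2.getD (k a / N a * N a + b) 0 *
      entry (x a).1 (k a % N a) b) hN.range ?_)
    exact Poly_mulZ (Poly.getD (Poly.snd hX) (Poly.add (Poly.mul (NPC.Poly.div hK hNN) hNN) ht)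
      (NPC.Poly.const 0)) (Poly_entry (Poly.fst hX) (NPC.Poly.mod hK hNN) ht)
  · refine Poly_sumZ (NPC.Poly.map (F := fun a b => -((x a).2.getD
      (b * N a + (k a - N a * N a) % N a) 0 * entry (x a).1 b ((k a - N a * N a) / N a)))
      hN.range ?_)
    have hK' : Poly (fun p : α × ℕ => k p.1 - N p.1 * N p.1) :=
      Poly.sub hK (Poly.mul hNN hNN)
    exact Poly_neg (Poly_mulZ (Poly.getD (Poly.snd hX)
      (Poly.add (Poly.mul ht hNN) (NPC.Poly.mod hK' hNN)) (NPC.Poly.const 0))
      (Poly_entry (Poly.fst hX) ht (NPC.Poly.div hK' hNN)))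

theorem pr_sub (N : ℕ) (c : ℕ → ℚ) (M M' : Matrix (Fin N) (Fin N) ℚ) :
    pr N c (M - M') = pr N c M - pr N c M' := by
  unfold pr
  rw [← Finset.sum_sub_distrib]
  refine Finset.sum_congr rfl fun i _ => ?_
  rw [← Finset.sum_sub_distrib]
  refine Finset.sum_congr rfl fun j _ => ?_
  rw [Matrix.sub_apply, mul_sub]

theorem phiG_sum (N : ℕ) (x : Mat × List ℤ) (c : ℕ → ℚ) :
    ∑ k ∈ Finset.range (N * N + N * N), c k * (phiG N x k : ℚ) =
      pr N (qv x.2) (um N c * mq N x.1 - mq N x.1 * um N fun k => c (N * N + k)) := by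
  rw [pr_sub, Finset.sum_range_add, sub_eq_add_neg]
  congr 1
  · rw [Finset.sum_congr rfl fun k hk => by
      rw [phiG, if_pos (Finset.mem_range.1 hk), list_sum_range], sum_idx, pr]
    refine Finset.sum_congr rfl fun i _ => ?_
    have h1 : ∀ j : Fin N, c (i * N + j) * ∑ b : Fin N,
        (((x.2.getD ((i * N + j) / N * N + b) 0 * entry x.1 ((i * N + j) % N) b : ℤ)) : ℚ) =
        ∑ b : Fin N, qv x.2 (i * N + b) * (c (i * N + j) * mq N x.1 j b) := by
      intro j
      obtain ⟨h2, h3⟩ := idx_div i j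
      rw [h2, h3, Finset.mul_sum]
      refine Finset.sum_congr rfl fun b _ => ?_
      simp only [qv, mq]
      push_cast
      ring
    rw [Finset.sum_congr rfl fun j _ => h1 j, Finset.sum_comm]
    refine Finset.sum_congr rfl fun b _ => ?_
    rw [← Finset.mul_sum, Matrix.mul_apply]
    rfl
  · rw [Finset.sum_congr rfl fun k hk => by
      rw [phiG, if_neg (by omega), Nat.add_sub_cancel_left, list_sum_range],
      sum_idx N fun k => c (N * N + k) * ∑ a : Fin N,
        (((-(x.2.getD (a * N + k % N) 0 * entry x.1 a (k / N)) : ℤ)) : ℚ), pr]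
    have h1 : ∀ i j : Fin N, c (N * N + (i * N + j)) * ∑ a : Fin N,
        (((-(x.2.getD (a * N + (i * N + j) % N) 0 * entry x.1 a ((i * N + j) / N)) : ℤ)) : ℚ) =
        ∑ a : Fin N, -(qv x.2 (a * N + j) * (mq N x.1 a i * c (N * N + (i * N + j)))) := by
      intro i j
      obtain ⟨h2, h3⟩ := idx_div i j
      rw [h2, h3, Finset.mul_sum]
      refine Finset.sum_congr rfl fun a _ => ?_
      simp only [qv, mq]
      push_cast
      ring
    rw [Finset.sum_congr rfl fun i _ => Finset.sum_congr rfl fun j _ => h1 i j,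
      ← Finset.sum_neg_distrib]
    rw [Finset.sum_congr rfl fun i _ => Finset.sum_comm, Finset.sum_comm]
    refine Finset.sum_congr rfl fun a _ => ?_
    rw [Finset.sum_comm, ← Finset.sum_neg_distrib]
    refine Finset.sum_congr rfl fun j _ => ?_
    rw [Finset.sum_neg_distrib, ← Finset.mul_sum, Matrix.mul_apply]
    rfl

/-- A spanning list of the infinitesimal symmetries. -/
noncomputable def symF (N : ℕ) (Bs : List Mat) : List (List ℤ) :=
  kerT (N * N + N * N) (colsG N Bs) (phiG N)

theorem poly_symF {N : α → ℕ} {Bs : α → List Mat} (hN : UPoly N) (hB : Poly Bs) :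
    Poly (fun a => symF (N a) (Bs a)) := by
  unfold symF
  refine poly_kerT (φ := fun a x k => phiG (N a) x k) ((hN.mul hN).add (hN.mul hN))
    (poly_colsG hN hB) ?_
  exact poly_phiG (hN.comp (Poly.fst (Poly.fst Poly.id))) (Poly.snd Poly.id)
    (Poly.snd (Poly.fst Poly.id))

/-- The generators as a family. -/
def fam (N : ℕ) (Bs : List Mat) : Fin Bs.length → Matrix (Fin N) (Fin N) ℚ :=
  fun j => mq N Bs[j]

theorem spn_fam (N : ℕ) (Bs : List Mat) : spn (fam N Bs) = spB N Bs := by
  unfold spn spB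
  congr 1
  ext M
  constructor
  · rintro ⟨j, rfl⟩
    exact ⟨_, List.getElem_mem _, rfl⟩
  · rintro ⟨B, hB, rfl⟩
    obtain ⟨i, hi, rfl⟩ := List.getElem_of_mem hB
    exact ⟨⟨i, hi⟩, rfl⟩

/-- the pair of matrices of a sequence -/
def ump (N : ℕ) (c : ℕ → ℚ) : Matrix (Fin N) (Fin N) ℚ × Matrix (Fin N) (Fin N) ℚ :=
  (um N c, um N fun k => c (N * N + k))

theorem symF_key {N : ℕ} {Bs : List Mat} (c : ℕ → ℚ) :
    (∀ x ∈ colsG N Bs, ∑ k ∈ Finset.range (N * N + N * N), c k * (phiG N x k : ℚ) = 0) ↔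
      ump N c ∈ sym (fam N Bs) := by
  rw [mem_sym, spn_fam]
  constructor
  · intro h j
    refine mem_spB_iff_ann.2 fun l hl => ?_
    have h3 := h (Bs[j], l) (mem_colsG.2 ⟨List.getElem_mem _, hl⟩)
    rw [phiG_sum] at h3
    exact h3
  · intro h x hx
    obtain ⟨h3, h4⟩ := mem_colsG.1 hx
    obtain ⟨i, hi, h5⟩ := List.getElem_of_mem h3
    rw [phiG_sum, ← h5]
    exact mem_spB_iff_ann.1 (h ⟨i, hi⟩) _ h4

/-- the pair of matrices of a vector, as a linear map -/
noncomputable def umpL (N : ℕ) : (Fin (N * N + N * N) → ℚ) →ₗ[ℚ]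
    Matrix (Fin N) (Fin N) ℚ × Matrix (Fin N) (Fin N) ℚ where
  toFun d := ump N fun k => if h : k < N * N + N * N then d ⟨k, h⟩ else 0
  map_add' a b := by
    apply Prod.ext
    · ext i j
      have h := idx_lt i j
      simp only [ump, um, Matrix.add_apply, Prod.fst_add]
      rw [dif_pos (by omega), dif_pos (by omega), dif_pos (by omega)]
      rfl
    · ext i j
      have h := idx_lt i j
      simp only [ump, um, Matrix.add_apply, Prod.snd_add]
      rw [dif_pos (by omega), dif_pos (by omega), dif_pos (by omega)]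
      rfl
  map_smul' c a := by
    apply Prod.ext
    · ext i j
      have h := idx_lt i j
      simp only [ump, um, Matrix.smul_apply, Prod.smul_fst, RingHom.id_apply]
      rw [dif_pos (by omega), dif_pos (by omega)]
      rfl
    · ext i j
      have h := idx_lt i j
      simp only [ump, um, Matrix.smul_apply, Prod.smul_snd, RingHom.id_apply]
      rw [dif_pos (by omega), dif_pos (by omega)]
      rfl

theorem umpL_apply (N : ℕ) (c : ℕ → ℚ) : umpL N (fun k => c k) = ump N c := by
  apply Prod.ext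
  · ext i j
    have h := idx_lt i j
    change um N (fun k => if h : k < N * N + N * N then
      (fun k : Fin (N * N + N * N) => c k) ⟨k, h⟩ else 0) i j = _
    rw [um, dif_pos (by omega)]
    rfl
  · ext i j
    have h := idx_lt i j
    change um N (fun k => if h : N * N + k < N * N + N * N then
      (fun k : Fin (N * N + N * N) => c k) ⟨N * N + k, h⟩ else 0) i j = _
    rw [um, dif_pos (by omega)]
    rfl

theorem ump_surj (N : ℕ) (p : Matrix (Fin N) (Fin N) ℚ × Matrix (Fin N) (Fin N) ℚ) :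
    ∃ c : ℕ → ℚ, ump N c = p := by
  refine ⟨fun k => if k < N * N then fm N p.1 k else fm N p.2 (k - N * N), ?_⟩
  apply Prod.ext
  · ext i j
    have h := idx_lt i j
    have h1 := congrFun (congrFun (um_fm N p.1) i) j
    simp only [ump, um] at h1 ⊢
    rw [if_pos h]
    exact h1
  · ext i j
    have h1 := congrFun (congrFun (um_fm N p.2) i) j
    simp only [ump, um] at h1 ⊢
    rw [if_neg (by omega), Nat.add_sub_cancel_left]
    exact h1

/-- **The symmetries.** -/
theorem span_symF (N : ℕ) (Bs : List Mat) :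
    Submodule.span ℚ (Set.range fun i : Fin (symF N Bs).length => ump N (qv (symF N Bs)[i])) =
      sym (fam N Bs) := by
  obtain ⟨h1, h2⟩ := kerT_spec (N * N + N * N) (colsG N Bs) (phiG N)
  apply le_antisymm
  · refine Submodule.span_le.2 ?_
    rintro _ ⟨i, rfl⟩
    have hu : (symF N Bs)[i] ∈ kerT (N * N + N * N) (colsG N Bs) (phiG N) := List.getElem_mem _
    refine symF_key _ |>.1 fun x hx => ?_
    have h3 := (h1 _ hu).2 x hx
    have h4 : ((∑ k ∈ Finset.range (N * N + N * N), (symF N Bs)[i].getD k 0 * phiG N x k : ℤ)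
      : ℚ) = 0 := by
      rw [h3]; rfl
    push_cast at h4
    exact h4
  · intro p hp
    obtain ⟨c, rfl⟩ := ump_surj N p
    have h4 := h2 c (symF_key c |>.2 hp)
    rw [← umpL_apply]
    have h5 := Submodule.mem_map_of_mem (f := umpL N) h4
    rw [vspan, Submodule.map_span] at h5
    refine Submodule.span_mono ?_ h5
    rintro _ ⟨_, ⟨u, hu, rfl⟩, rfl⟩
    obtain ⟨i, hi, rfl⟩ := List.getElem_of_mem hu
    exact ⟨⟨i, hi⟩, (umpL_apply N (qv _)).symm⟩

end Pool.Agent.Helper69K1
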