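import Pool.Agent.TH744.LS.Dyn

set_option autoImplicit false
set_option linter.unusedSectionVars false

/-!
# Order preserving actions of the groups of surgeries on once-punctured torus bundles

The closed 3-manifold is obtained from a once-punctured torus bundle whose monodromy is minus a
product of twists, by surgery on level curves and a Dehn filling of the boundary torus.
-/

namespace Pool.Agent.Helper69K1.PTB

open Pool.Agent.TH744.LS (Mono inv_fix iso iso_apply)

/-- Wherever `c` moves weakly up (down), `m` moves weakly up (down). -/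
def Fol {G : Type*} (X : Type*) [Group G] [LinearOrder X] [MulAction G X] (c m : G) : Prop :=
  ∀ v : X, (v ≤ c • v → v ≤ m • v) ∧ (c • v ≤ v → m • v ≤ v)

/-- The commutator. -/
def co {G : Type*} [Group G] (a b : G) : G := a * b * a⁻¹ * b⁻¹

/-- The data of the bundle: bases `a j, b j` of the fibre group at the levels `j`, the meridians
`m j` of the surgery curves, and the meridian `t` of the boundary torus. -/
structure Dat {G : Type*} (X : Type*) [Group G] [LinearOrder X] [MulAction G X] {N : ℕ}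
    (a b : Fin (N + 1) → G) (m : Fin N → G) (t : G) : Prop where
  step : ∀ j : Fin N,
    (a j.succ = a j.castSucc ∧ b j.succ = b j.castSucc * m j ∧
      m j * a j.castSucc = a j.castSucc * m j ∧ Fol X (a j.castSucc) (m j)) ∨
    (a j.succ = a j.castSucc * m j ∧ b j.succ = b j.castSucc ∧
      m j * b j.castSucc = b j.castSucc * m j ∧ Fol X (b j.castSucc) (m j))
  ca : t * a 0 * t⁻¹ = (a (Fin.last N))⁻¹ * co (a 0) (b 0)
  cb : t * b 0 * t⁻¹ = (co (a 0) (b 0))⁻¹ * (b (Fin.last N))⁻¹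
  fil : ∀ v : X, (t • v ≤ v ∨ co (a 0) (b 0) • t • v ≤ v) ∧
    (v ≤ t • v ∨ v ≤ co (a 0) (b 0) • t • v)

section pt
variable {G X : Type*} [Group G] [LinearOrder X] [MulAction G X] {N : ℕ}
  {a b : Fin (N + 1) → G} {m : Fin N → G} {t : G}

theorem Fol.dual {c m : G} (h : Fol X c m) : Fol Xᵒᵈ c m := fun v => ⟨(h v).2, (h v).1⟩

theorem Dat.dual (h : Dat X a b m t) : Dat Xᵒᵈ a b m t := by
  refine ⟨fun j => ?_, h.ca, h.cb, fun v => ⟨(h.fil v).2, (h.fil v).1⟩⟩
  rcases h.step j with ⟨h1, h2, h3, h4⟩ | ⟨h1, h2, h3, h4⟩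
  · exact Or.inl ⟨h1, h2, h3, h4.dual⟩
  · exact Or.inr ⟨h1, h2, h3, h4.dual⟩

theorem Fol.fix {c m : G} (h : Fol X c m) {v : X} (hv : c • v = v) : m • v = v :=
  le_antisymm ((h v).2 hv.le) ((h v).1 hv.ge)

theorem Dat.co_eq (h : Dat X a b m t) (j : Fin (N + 1)) : co (a j) (b j) = co (a 0) (b 0) := by
  induction j using Fin.induction with
  | zero => rfl
  | succ j ih =>
    rw [← ih]
    rcases h.step j with ⟨h1, h2, h3, -⟩ | ⟨h1, h2, h3, -⟩
    · rw [h1, h2]
      unfold co
      have e : m j * (a j.castSucc)⁻¹ = (a j.castSucc)⁻¹ * m j := by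
        rw [mul_inv_eq_iff_eq_mul, mul_assoc, h3, inv_mul_cancel_left]
      rw [mul_inv_rev, mul_assoc (a j.castSucc), mul_assoc (b j.castSucc), e]
      group
    · rw [h1, h2]
      unfold co
      rw [mul_inv_rev, mul_assoc (a j.castSucc), h3]
      group

/-- Positive words: the fibre classes of all levels move up where the ones of level 0 do. -/
theorem Dat.up (hm : Mono G X) (h : Dat X a b m t) {y : X} (ha : y ≤ a 0 • y)
    (hb : y ≤ b 0 • y) (j : Fin (N + 1)) : y ≤ a j • y ∧ y ≤ b j • y := by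
  induction j using Fin.induction with
  | zero => exact ⟨ha, hb⟩
  | succ j ih =>
    rcases h.step j with ⟨h1, h2, -, h4⟩ | ⟨h1, h2, -, h4⟩
    · rw [h1, h2, mul_smul]
      exact ⟨ih.1, ih.2.trans ((hm.le _).mpr ((h4 y).1 ih.1))⟩
    · rw [h1, h2, mul_smul]
      exact ⟨ih.1.trans ((hm.le _).mpr ((h4 y).1 ih.2)), ih.2⟩

theorem Dat.down (hm : Mono G X) (h : Dat X a b m t) {y : X} (ha : a 0 • y ≤ y)
    (hb : b 0 • y ≤ y) (j : Fin (N + 1)) : a j • y ≤ y ∧ b j • y ≤ y :=
  h.dual.up (X := Xᵒᵈ) hm.dual (y := y) ha hb j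

/-- Opposite signs at a level imply the same opposite signs at level 0. -/
theorem Dat.desc (hm : Mono G X) (h : Dat X a b m t) {y : X} (j : Fin (N + 1)) :
    a j • y < y → y < b j • y → a 0 • y < y ∧ y < b 0 • y := by
  induction j using Fin.induction with
  | zero => exact fun h1 h2 => ⟨h1, h2⟩
  | succ j ih =>
    intro ha hb
    rcases h.step j with ⟨h1, h2, -, h4⟩ | ⟨h1, h2, -, h4⟩
    · rw [h1] at ha
      rw [h2, mul_smul] at hb
      have h5 : m j • y ≤ y := (h4 y).2 ha.le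
      exact ih ha (lt_of_lt_of_le hb ((hm.le _).mpr h5))
    · rw [h1, mul_smul] at ha
      rw [h2] at hb
      have h5 : y ≤ m j • y := (h4 y).1 hb.le
      exact ih (lt_of_le_of_lt ((hm.le _).mpr h5) ha) hb

/-- The element that conjugates `a 0` to the inverse of `a N` and `b 0` to the inverse of
`b N`. -/
def uu (a b : Fin (N + 1) → G) (t : G) : G := (b (Fin.last N) * a (Fin.last N))⁻¹ * t

theorem Dat.ua (h : Dat X a b m t) : uu a b t * a 0 * (uu a b t)⁻¹ = (a (Fin.last N))⁻¹ := by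
  have h1 := h.ca
  rw [← h.co_eq (Fin.last N)] at h1
  unfold uu
  calc (b (Fin.last N) * a (Fin.last N))⁻¹ * t * a 0 * ((b (Fin.last N) * a (Fin.last N))⁻¹ * t)⁻¹
      = (b (Fin.last N) * a (Fin.last N))⁻¹ * (t * a 0 * t⁻¹) *
        (b (Fin.last N) * a (Fin.last N)) := by group
    _ = _ := by rw [h1]; unfold co; group

theorem Dat.ub (h : Dat X a b m t) : uu a b t * b 0 * (uu a b t)⁻¹ = (b (Fin.last N))⁻¹ := by
  have h1 := h.cb
  rw [← h.co_eq (Fin.last N)] at h1
  unfold uu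
  calc (b (Fin.last N) * a (Fin.last N))⁻¹ * t * b 0 * ((b (Fin.last N) * a (Fin.last N))⁻¹ * t)⁻¹
      = (b (Fin.last N) * a (Fin.last N))⁻¹ * (t * b 0 * t⁻¹) *
        (b (Fin.last N) * a (Fin.last N)) := by group
    _ = _ := by rw [h1]; unfold co; group

theorem Dat.t_eq (_h : Dat X a b m t) :
    t = b (Fin.last N) * a (Fin.last N) * uu a b t := by
  unfold uu; group

theorem Dat.lt_eq (h : Dat X a b m t) :
    co (a 0) (b 0) * t = a (Fin.last N) * b (Fin.last N) * uu a b t := by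
  rw [← h.co_eq (Fin.last N)]; unfold uu co; group

/-- A point that is moved weakly up by `a 0` and `b 0` is moved weakly down by `u⁻¹`'s inverse. -/
theorem Dat.up_u (hm : Mono G X) (h : Dat X a b m t) {y : X} (ha : y ≤ a 0 • y)
    (hb : y ≤ b 0 • y) : y ≤ (uu a b t)⁻¹ • y := by
  obtain ⟨h1, h2⟩ := h.up hm ha hb (Fin.last N)
  have e1 : t • (uu a b t)⁻¹ • y = b (Fin.last N) • a (Fin.last N) • y := by
    rw [← mul_smul, ← mul_smul]; congr 1
    calc t * (uu a b t)⁻¹ = b (Fin.last N) * a (Fin.last N) * uu a b t * (uu a b t)⁻¹ := by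
          rw [← h.t_eq]
      _ = _ := by group
  have e2 : co (a 0) (b 0) • t • (uu a b t)⁻¹ • y = a (Fin.last N) • b (Fin.last N) • y := by
    rw [← mul_smul, ← mul_smul, ← mul_smul]; congr 1
    calc co (a 0) (b 0) * t * (uu a b t)⁻¹
        = a (Fin.last N) * b (Fin.last N) * uu a b t * (uu a b t)⁻¹ := by rw [← h.lt_eq]
      _ = _ := by group
  rcases (h.fil ((uu a b t)⁻¹ • y)).1 with h3 | h3
  · rw [e1] at h3
    exact (h2.trans ((hm.le _).mpr h1)).trans h3
  · rw [e2] at h3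
    exact (h1.trans ((hm.le _).mpr h2)).trans h3

/-- Weakly equal signs of `a 0` and `b 0`: the point is fixed. -/
theorem Dat.same (hm : Mono G X) (h : Dat X a b m t) {y : X} (ha : y ≤ a 0 • y)
    (hb : y ≤ b 0 • y) : a 0 • y = y ∧ b 0 • y = y ∧ uu a b t • y = y := by
  obtain ⟨h1, h2⟩ := h.up hm ha hb (Fin.last N)
  have hv := h.up_u hm ha hb
  have ua := h.ua
  have ub := h.ub
  have up := h.dual.up_u (X := Xᵒᵈ) hm.dual (y := (uu a b t)⁻¹ • y)
  generalize uu a b t = u at *
  have ha' : a 0 • u⁻¹ • y ≤ u⁻¹ • y := by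
    have e : a 0 • u⁻¹ • y = u⁻¹ • (a (Fin.last N))⁻¹ • y := by
      rw [← ua, ← mul_smul, ← mul_smul]; congr 1; group
    rw [e, hm.le, ← hm.le (a (Fin.last N)), smul_inv_smul]
    exact h1
  have hb' : b 0 • u⁻¹ • y ≤ u⁻¹ • y := by
    have e : b 0 • u⁻¹ • y = u⁻¹ • (b (Fin.last N))⁻¹ • y := by
      rw [← ub, ← mul_smul, ← mul_smul]; congr 1; group
    rw [e, hm.le, ← hm.le (b (Fin.last N)), smul_inv_smul]
    exact h2
  have h3 : u⁻¹ • u⁻¹ • y ≤ u⁻¹ • y := up ha' hb'
  have h4 : u⁻¹ • y ≤ u⁻¹ • u⁻¹ • y := (hm.le _).mpr hv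
  have h5 : u⁻¹ • u⁻¹ • y = u⁻¹ • y := le_antisymm h3 h4
  have h6 : u⁻¹ • y = y := by
    have := congrArg (fun z => u • z) h5
    simpa only [smul_inv_smul] using this
  rw [h6] at ha' hb'
  refine ⟨le_antisymm ha' ha, le_antisymm hb' hb, ?_⟩
  have := inv_fix h6
  rwa [inv_inv] at this

theorem Dat.same' (hm : Mono G X) (h : Dat X a b m t) {y : X} (ha : a 0 • y ≤ y)
    (hb : b 0 • y ≤ y) : a 0 • y = y ∧ b 0 • y = y ∧ uu a b t • y = y :=
  h.dual.same (X := Xᵒᵈ) hm.dual (y := y) ha hb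

/-- A fixed point of `a 0` is fixed by `b 0` and `u`. -/
theorem Dat.fixa (hm : Mono G X) (h : Dat X a b m t) {y : X} (ha : a 0 • y = y) :
    b 0 • y = y ∧ uu a b t • y = y := by
  rcases le_total y (b 0 • y) with hb | hb
  · exact (h.same hm ha.ge hb).2
  · exact (h.same' hm ha.le hb).2

/-- `u` reverses the direction of `a 0`. -/
theorem Dat.flip (hm : Mono G X) (h : Dat X a b m t) {y : X} (ha : y < a 0 • y) :
    a 0 • uu a b t • y < uu a b t • y := by
  have hb : b 0 • y < y := by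
    by_contra hcon
    rw [not_lt] at hcon
    exact absurd (h.same hm ha.le hcon).1 ha.ne'
  have ua := h.ua
  have ub := h.ub
  refine (h.desc hm (y := uu a b t • y) (Fin.last N) ?_ ?_).1
  · rw [← hm.lt (a (Fin.last N))⁻¹, inv_smul_smul, ← ua]
    have e : (uu a b t * a 0 * (uu a b t)⁻¹) • uu a b t • y = uu a b t • a 0 • y := by
      rw [← mul_smul, ← mul_smul]; congr 1; group
    rw [e, hm.lt]; exact ha
  · rw [← hm.lt (b (Fin.last N))⁻¹, inv_smul_smul, ← ub]
    have e : (uu a b t * b 0 * (uu a b t)⁻¹) • uu a b t • y = uu a b t • b 0 • y := by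
      rw [← mul_smul, ← mul_smul]; congr 1; group
    rw [e, hm.lt]; exact hb

end pt

section comp
variable {G X : Type*} [Group G] [CompleteLinearOrder X] [MulAction G X]

open Pool.Agent.W705.Borr in
/-- An element that fixes the fixed points of `x` cannot reverse its direction. -/
theorem not_up (hm : Mono G X) {x u : G} (hfix : ∀ v : X, x • v = v → u • v = v)
    (hflip : ∀ v : X, v < x • v → x • u • v < u • v) {s : X} (hx : s < x • s) : False := by
  set A : Set X := {f | f ≤ s ∧ x • f = f} with hA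
  set B : Set X := {f | s ≤ f ∧ x • f = f} with hB
  set α := sSup A with hα
  set β := sInf B with hβ
  have xα : x • α = α := by
    apply le_antisymm
    · rw [← iso_apply hm, hα, (iso hm x).map_sSup]
      refine iSup₂_le fun v hv => ?_
      rw [iso_apply, hv.2]; exact le_sSup hv
    · refine sSup_le fun v hv => ?_
      rw [← hv.2]; exact (hm.le x).mpr (le_sSup hv)
  have xβ : x • β = β := by
    apply le_antisymm
    · refine le_sInf fun v hv => ?_
      rw [← hv.2]; exact (hm.le x).mpr (sInf_le hv)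
    · rw [← iso_apply hm, hβ, (iso hm x).map_sInf]
      refine le_iInf₂ fun v hv => ?_
      rw [iso_apply, hv.2]; exact sInf_le hv
  have hsx : x • s ≠ s := ne_of_gt hx
  have hαs : α < s := by
    refine lt_of_le_of_ne (sSup_le fun v hv => hv.1) ?_
    intro e; rw [e] at xα; exact hsx xα
  have hsβ : s < β := by
    refine lt_of_le_of_ne (le_sInf fun v hv => hv.1) ?_
    intro e; rw [← e] at xβ; exact hsx xβ
  have hJx : ∀ v, α < v → v < β → x • v ≠ v := by
    rintro v h1 h2 e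
    rcases le_total v s with h3 | h3
    · exact absurd (le_sSup (show v ∈ A from ⟨h3, e⟩)) (not_le.mpr h1)
    · exact absurd (sInf_le (show v ∈ B from ⟨h3, e⟩)) (not_le.mpr h2)
  have hu1 : α < u • s := by
    have := (hm.lt u).mpr hαs
    rwa [hfix α xα] at this
  have hu2 : u • s < β := by
    have := (hm.lt u).mpr hsβ
    rwa [hfix β xβ] at this
  have hf := hflip s hx
  rcases le_total (u • s) s with h3 | h3
  · obtain ⟨w, t1, t2, t3⟩ := ivt (iso hm x) h3 hf.le hx
    exact hJx w (lt_of_lt_of_le hu1 t1) (t2.trans hsβ) t3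
  · obtain ⟨w, t1, t2, t3⟩ := ivt' (iso hm x) h3 hf.le hx
    exact hJx w (hαs.trans t1) (lt_of_le_of_lt t2 hu2) t3

variable {N : ℕ} {a b : Fin (N + 1) → G} {m : Fin N → G} {t : G}

theorem Dat.a_fix (hm : Mono G X) (h : Dat X a b m t) (s : X) : a 0 • s = s := by
  rcases lt_trichotomy (a 0 • s) s with h1 | h1 | h1
  · exact (not_up (X := Xᵒᵈ) hm.dual (x := a 0) (u := uu a b t) (s := s)
      (fun v hv => (h.fixa hm (y := v) hv).2)
      (fun v hv => h.dual.flip (X := Xᵒᵈ) hm.dual (y := v) hv) h1).elim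
  · exact h1
  · exact (not_up hm (x := a 0) (u := uu a b t) (fun v hv => (h.fixa hm hv).2)
      (fun v hv => h.flip hm hv) h1).elim

/-- All elements act trivially. -/
theorem Dat.all_fix (hm : Mono G X) (h : Dat X a b m t) (s : X) :
    (∀ j, a j • s = s ∧ b j • s = s) ∧ (∀ j, m j • s = s) ∧ t • s = s := by
  have ha := h.a_fix hm s
  obtain ⟨hb, hu⟩ := h.fixa hm ha
  have hj : ∀ j, a j • s = s ∧ b j • s = s := fun j => by
    have h1 := h.up hm ha.ge hb.ge j
    have h2 := h.down hm ha.le hb.le j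
    exact ⟨le_antisymm h2.1 h1.1, le_antisymm h2.2 h1.2⟩
  refine ⟨hj, fun j => ?_, ?_⟩
  · rcases h.step j with ⟨-, -, -, h4⟩ | ⟨-, -, -, h4⟩
    · exact h4.fix (hj j.castSucc).1
    · exact h4.fix (hj j.castSucc).2
  · rw [h.t_eq, mul_smul, hu, mul_smul, (hj _).1, (hj _).2]

end comp

section group

/-- The sign of a root. -/
theorem fol_of_root {G X : Type*} [Group G] [LinearOrder X] [MulAction G X] (hm : Mono G X)
    {c m : G} {p q : ℤ} (hp : 1 ≤ p) (hq : 0 ≤ q) (h : m ^ p = c ^ q) : Fol X c m := by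
  intro v
  constructor
  · intro hv
    refine hm.zroot_le hp ?_
    rw [h]; exact hm.zpow_le hv hq
  · intro hv
    refine Mono.zroot_le (X := Xᵒᵈ) hm.dual (f := v) hp ?_
    rw [h]; exact Mono.zpow_le (X := Xᵒᵈ) hm.dual (f := v) hv hq

/-- The filling slopes of the closed interval between `t` and `t * l`. -/
theorem fil_of_slope {G X : Type*} [Group G] [LinearOrder X] [MulAction G X] (hm : Mono G X)
    {t l : G} (hc : Commute t l) {P Q : ℤ} (hP : 1 ≤ P) (hQ : 0 ≤ Q) (hQP : Q ≤ P)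
    (h : t ^ P * l ^ Q = 1) (v : X) : t • v ≤ v ∨ l • t • v ≤ v := by
  by_contra hcon
  rw [not_or, not_le, not_le, ← mul_smul] at hcon
  obtain ⟨h1, h2⟩ := hcon
  have e : t ^ (P - Q) * (l * t) ^ Q = 1 := by
    rw [hc.symm.mul_zpow, ← h, (hc.symm.zpow_zpow Q Q).eq, ← mul_assoc, ← zpow_add]
    congr 2; ring
  have h3 : v < (t ^ (P - Q) * (l * t) ^ Q) • v := by
    rw [mul_smul]
    rcases lt_or_ge 0 Q with h4 | h4
    · have h5 := hm.zpow_lt h2 (n := Q) (by omega)
      have h6 := hm.zpow_le h1.le (n := P - Q) (by omega)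
      exact lt_of_le_of_lt h6 ((hm.lt _).mpr h5)
    · have h5 : Q = 0 := by omega
      rw [h5, zpow_zero, one_smul]
      exact hm.zpow_lt h1 (by omega)
  rw [e, one_smul] at h3
  exact absurd h3 (lt_irrefl _)

open Pool.Agent.W705.Borr in
/-- In a left-ordered group the relations force triviality. -/
theorem trivial_of_rel {H : Type*} [Group H] [LinearOrder H]
    (hinv : ∀ a b c : H, a ≤ b ↔ c * a ≤ c * b) {N : ℕ}
    {a b : Fin (N + 1) → H} {m : Fin N → H} {t : H} {p q : Fin N → ℤ} {P Q : ℤ}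
    (hp : ∀ j, 1 ≤ p j) (hq : ∀ j, 0 ≤ q j) (hP : 1 ≤ P) (hQ : 0 ≤ Q) (hQP : Q ≤ P)
    (step : ∀ j : Fin N,
      (a j.succ = a j.castSucc ∧ b j.succ = b j.castSucc * m j ∧
        m j * a j.castSucc = a j.castSucc * m j ∧ m j ^ p j = a j.castSucc ^ q j) ∨
      (a j.succ = a j.castSucc * m j ∧ b j.succ = b j.castSucc ∧
        m j * b j.castSucc = b j.castSucc * m j ∧ m j ^ p j = b j.castSucc ^ q j))
    (ca : t * a 0 * t⁻¹ = (a (Fin.last N))⁻¹ * co (a 0) (b 0))
    (cb : t * b 0 * t⁻¹ = (co (a 0) (b 0))⁻¹ * (b (Fin.last N))⁻¹)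
    (fil : t ^ P * co (a 0) (b 0) ^ Q = 1) :
    (∀ j, a j = 1 ∧ b j = 1) ∧ (∀ j, m j = 1) ∧ t = 1 := by
  let _ : MulAction H (LowerSet H) :=
    { smul := fun g v => act hinv g v
      one_smul := fun v => act_one hinv v
      mul_smul := fun g k v => act_mul hinv g k v }
  have hm : Mono H (LowerSet H) := fun g u v huv => by
    show act hinv g u < act hinv g v
    exact (act hinv g).lt_iff_lt.mpr huv
  have hstep : ∀ j : Fin N,
    (a j.succ = a j.castSucc ∧ b j.succ = b j.castSucc * m j ∧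
      m j * a j.castSucc = a j.castSucc * m j ∧ Fol (LowerSet H) (a j.castSucc) (m j)) ∨
    (a j.succ = a j.castSucc * m j ∧ b j.succ = b j.castSucc ∧
      m j * b j.castSucc = b j.castSucc * m j ∧ Fol (LowerSet H) (b j.castSucc) (m j)) := by
    intro j
    rcases step j with ⟨h1, h2, h3, h4⟩ | ⟨h1, h2, h3, h4⟩
    · exact Or.inl ⟨h1, h2, h3, fol_of_root hm (hp j) (hq j) h4⟩
    · exact Or.inr ⟨h1, h2, h3, fol_of_root hm (hp j) (hq j) h4⟩
  -- `t` commutes with the boundary class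
  have hco : ∀ j : Fin (N + 1), co (a j) (b j) = co (a 0) (b 0) := by
    intro j
    induction j using Fin.induction with
    | zero => rfl
    | succ j ih =>
      rw [← ih]
      rcases hstep j with ⟨h1, h2, h3, -⟩ | ⟨h1, h2, h3, -⟩
      · rw [h1, h2]
        unfold co
        have e : m j * (a j.castSucc)⁻¹ = (a j.castSucc)⁻¹ * m j := by
          rw [mul_inv_eq_iff_eq_mul, mul_assoc, h3, inv_mul_cancel_left]
        rw [mul_inv_rev, mul_assoc (a j.castSucc), mul_assoc (b j.castSucc), e]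
        group
      · rw [h1, h2]
        unfold co
        rw [mul_inv_rev, mul_assoc (a j.castSucc), h3]
        group
  have hc : Commute t (co (a 0) (b 0)) := by
    have h1 : t * co (a 0) (b 0) * t⁻¹ = co (a 0) (b 0) := by
      have e : t * co (a 0) (b 0) * t⁻¹ = co (t * a 0 * t⁻¹) (t * b 0 * t⁻¹) := by
        unfold co; group
      rw [e, ca, cb, ← hco (Fin.last N)]
      unfold co; group
    exact mul_inv_eq_iff_eq_mul.mp h1
  have key : Dat (LowerSet H) a b m t :=
    ⟨hstep, ca, cb, fun v => ⟨fil_of_slope hm hc hP hQ hQP fil v,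
      fil_of_slope (X := (LowerSet H)ᵒᵈ) hm.dual hc hP hQ hQP fil v⟩⟩
  refine ⟨fun j => ⟨?_, ?_⟩, fun j => ?_, ?_⟩
  · exact eq_one_of_act hinv _ fun v => ((key.all_fix hm v).1 j).1
  · exact eq_one_of_act hinv _ fun v => ((key.all_fix hm v).1 j).2
  · exact eq_one_of_act hinv _ fun v => (key.all_fix hm v).2.1 j
  · exact eq_one_of_act hinv _ fun v => (key.all_fix hm v).2.2

end group

end Pool.Agent.Helper69K1.PTB
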