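import Pool.Agent.Helper69K1.Lts

/-!
# Spaces closed under a power
-/

set_option linter.unusedSectionVars false

namespace Pool.Agent.Helper69K1

open Module

/-- Coefficients of a polynomial curve in a subspace lie in the subspace. -/
theorem extract {M : Type*} [AddCommGroup M] [Module ℚ M] {B : Submodule ℚ M} {c : ℕ → M} {d : ℕ}
    (h : ∀ t : ℚ, ∑ i ∈ Finset.range d, t ^ i • c i ∈ B) {i : ℕ} (hi : i < d) : c i ∈ B := by
  by_contra hc
  obtain ⟨f, hf1, hf2⟩ := Submodule.exists_le_ker_of_notMem hc
  apply hf1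
  set p : Polynomial ℚ := ∑ i ∈ Finset.range d, Polynomial.monomial i (f (c i)) with hp
  have h1 : ∀ t, p.eval t = 0 := by
    intro t
    have h2 : f (∑ i ∈ Finset.range d, t ^ i • c i) = 0 := hf2 (h t)
    rw [map_sum] at h2
    rw [hp, Polynomial.eval_finsetSum, ← h2]
    refine Finset.sum_congr rfl fun i _ => ?_
    rw [map_smul, Polynomial.eval_monomial, smul_eq_mul, mul_comm]
  have h2 : p = 0 := Polynomial.funext fun t => by rw [h1, Polynomial.eval_zero]
  have h3 : p.coeff i = f (c i) := by
    rw [hp, Polynomial.finsetSum_coeff, Finset.sum_eq_single i]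
    · rw [Polynomial.coeff_monomial, if_pos rfl]
    · intro j _ hj
      rw [Polynomial.coeff_monomial, if_neg hj]
    · intro h
      exact absurd (Finset.mem_range.2 hi) h
  rw [← h3, h2, Polynomial.coeff_zero]

section

variable {A : Type*} [Ring A] [Algebra ℚ A]

/-- The derivative of the `k`-th power at `a` in the direction `b`. -/
def dpow (a b : A) (k : ℕ) : A := ∑ i ∈ Finset.range k, a ^ i * b * a ^ (k - 1 - i)

theorem dpow_succ (a b : A) (k : ℕ) : dpow a b (k + 1) = a * dpow a b k + b * a ^ k := by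
  rw [dpow, Finset.sum_range_succ', dpow, Finset.mul_sum]
  congr 1
  · refine Finset.sum_congr rfl fun i _ => ?_
    rw [pow_succ', mul_assoc, mul_assoc, mul_assoc]
    congr 4
    omega
  · simp

theorem pow_expand1 (a b : A) (k : ℕ) : ∃ c : ℕ → A, c 0 = a ^ k ∧ c 1 = dpow a b k ∧
    ∀ M, k + 1 ≤ M → ∀ t : ℚ, (a + t • b) ^ k = ∑ i ∈ Finset.range M, t ^ i • c i := by
  have key : ∃ c : ℕ → A, c 0 = a ^ k ∧ c 1 = dpow a b k ∧ (∀ i, k < i → c i = 0) ∧
      ∀ M, k + 1 ≤ M → ∀ t : ℚ, (a + t • b) ^ k = ∑ i ∈ Finset.range M, t ^ i • c i := by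
    induction k with
    | zero =>
        refine ⟨fun i => if i = 0 then 1 else 0, by simp, by simp [dpow], ?_, ?_⟩
        · intro i hi
          change (if i = 0 then (1 : A) else 0) = 0
          rw [if_neg (by omega)]
        · intro M hM t
          rw [Finset.sum_eq_single 0]
          · simp
          · intro i _ hi
            change t ^ i • (if i = 0 then (1 : A) else 0) = 0
            rw [if_neg hi, smul_zero]
          · intro h
            exact absurd (Finset.mem_range.2 (by omega)) h
    | succ k ih =>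
        obtain ⟨c, h0, h1, h2, h3⟩ := ih
        refine ⟨fun i => a * c i + (if i = 0 then 0 else b * c (i - 1)), ?_, ?_, ?_, ?_⟩
        · simp [h0, pow_succ']
        · simp [h0, h1, dpow_succ]
        · intro i hi
          change a * c i + (if i = 0 then 0 else b * c (i - 1)) = 0
          rw [h2 i (by omega), h2 (i - 1) (by omega)]
          simp
        · intro M hM t
          obtain ⟨M', rfl⟩ : ∃ M', M = M' + 1 := ⟨M - 1, by omega⟩
          rw [pow_succ', add_mul]
          simp only [smul_add, Finset.sum_add_distrib]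
          congr 1
          · rw [h3 (M' + 1) (by omega), Finset.mul_sum]
            refine Finset.sum_congr rfl fun i _ => ?_
            rw [mul_smul_comm]
          · rw [Finset.sum_range_succ', h3 M' (by omega), Finset.mul_sum]
            simp only [Nat.add_eq_zero_iff, one_ne_zero, and_false, if_false, if_true, smul_zero,
              add_zero, add_tsub_cancel_right]
            refine Finset.sum_congr rfl fun i _ => ?_
            rw [smul_mul_smul_comm, pow_succ']
  obtain ⟨c, h0, h1, -, h3⟩ := key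
  exact ⟨c, h0, h1, h3⟩

variable {B : Submodule ℚ A}

theorem dpow_mem {k : ℕ} (h : ∀ X ∈ B, X ^ k ∈ B) {a b : A} (ha : a ∈ B) (hb : b ∈ B) :
    dpow a b k ∈ B := by
  obtain ⟨c, -, h1, h2⟩ := pow_expand1 a b k
  rw [← h1]
  refine extract (d := k + 2) (fun t => ?_) (by omega)
  rw [← h2 (k + 2) (by omega)]
  exact h _ (B.add_mem ha (B.smul_mem _ hb))

theorem dpow_comm {a : A} (j k : ℕ) : dpow a (a ^ j) k = (k : ℚ) • a ^ (j + k - 1) := by
  rcases Nat.eq_zero_or_pos k with hk | hk
  · subst hk
    simp [dpow]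
  rw [dpow]
  have : ∀ i ∈ Finset.range k, a ^ i * a ^ j * a ^ (k - 1 - i) = a ^ (j + k - 1) := by
    intro i hi
    have := Finset.mem_range.1 hi
    rw [← pow_add, ← pow_add]
    congr 1
    omega
  rw [Finset.sum_congr rfl this, Finset.sum_const, Finset.card_range]
  exact (Nat.cast_smul_eq_nsmul ℚ _ _).symm

/-- Closure under a power gives closure under further powers. -/
theorem pow_mem_of {ν : ℕ} (h : ∀ X ∈ B, X ^ (1 + ν) ∈ B) (k : ℕ) {X : A} (hX : X ∈ B) :
    X ^ (1 + k * ν) ∈ B := by
  induction k with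
  | zero => simpa using hX
  | succ k ih =>
      have h1 := dpow_mem h hX ih
      rw [dpow_comm] at h1
      have h2 := B.smul_mem ((1 + ν : ℕ) : ℚ)⁻¹ h1
      rw [smul_smul, inv_mul_cancel₀ (by positivity), one_smul] at h2
      have e : 1 + (k + 1) * ν = 1 + k * ν + (1 + ν) - 1 := by
        have : (k + 1) * ν = k * ν + ν := by ring
        omega
      rw [e]
      exact h2

theorem dpow_mem_of {ν : ℕ} (h : ∀ X ∈ B, X ^ (1 + ν) ∈ B) (k : ℕ) {a b : A} (ha : a ∈ B)
    (hb : b ∈ B) : dpow a b (1 + k * ν) ∈ B :=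
  dpow_mem (fun _ hX => pow_mem_of h k hX) ha hb

/-- Closure under the polynomials `X g(X ^ ν)`. -/
theorem poly_mem_of {ν : ℕ} (h : ∀ X ∈ B, X ^ (1 + ν) ∈ B) (g : Polynomial ℚ) {X : A}
    (hX : X ∈ B) : X * Polynomial.aeval (X ^ ν) g ∈ B := by
  rw [Polynomial.aeval_eq_sum_range, Finset.mul_sum]
  refine Submodule.sum_mem _ fun k _ => ?_
  rw [mul_smul_comm, ← pow_mul, ← pow_succ', mul_comm ν k, add_comm]
  exact B.smul_mem _ (pow_mem_of h k hX)

end

end Pool.Agent.Helper69K1
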