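import Pool.Agent.Helper69K1.Pow1

/-!
# The corner of a space closed under a power
-/

set_option linter.unusedSectionVars false

namespace Pool.Agent.Helper69K1

open Module Polynomial

/-! ## A computation in commutative rings -/

section

variable {O : Type*} [CommRing O]

theorem idem_pow {T i : O} (hi : i * i = i) {N : ℕ} (hN : 0 < N) : (T * i) ^ N = T ^ N * i := by
  rw [mul_pow]
  congr 1
  obtain ⟨k, rfl⟩ : ∃ k, N = k + 1 := ⟨N - 1, by omega⟩
  clear hN
  induction k with
  | zero => simp
  | succ k ih => rw [pow_succ, ih, hi]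

theorem corner_pow {a b T D l r : O} {N : ℕ} (hN : 0 < N) (ha : a * a = a) (hb : b * b = b)
    (h1 : T = b + l * D) (h2 : T = a + r * D) (h3 : D * (a + b - 1) = 0) (hl : (l * a) ^ N = 0)
    (hr : (r * b) ^ N = 0) : T ^ N = a * b := by
  have hD1 : D * (a * b) = 0 := by
    have : D * (a * b) = D * (a + b - 1) * (a * b) := by
      linear_combination (-(D * b)) * ha - (D * a) * hb
    rw [this, h3, zero_mul]
  have e1 : T * (a * b) = a * b := by
    rw [h1]
    linear_combination a * hb + l * hD1
  have e2 : T * ((1 - a) * (1 - b)) = 0 := by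
    rw [h1]
    linear_combination (a - 1) * hb - l * h3 + l * hD1
  have e3 : T * (a * (1 - b)) = (l * a) * (D * (1 - b)) := by
    rw [h1]
    linear_combination (-a) * hb
  have e4 : T * ((1 - a) * b) = (r * b) * (D * (1 - a)) := by
    rw [h2]
    linear_combination (-b) * ha
  have i1 : (a * b) * (a * b) = a * b := by linear_combination (b * b) * ha + a * hb
  have i2 : ((1 - a) * (1 - b)) * ((1 - a) * (1 - b)) = (1 - a) * (1 - b) := by
    linear_combination ((1 - b) * (1 - b)) * ha + (1 - a) * hb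
  have i3 : (a * (1 - b)) * (a * (1 - b)) = a * (1 - b) := by
    linear_combination ((1 - b) * (1 - b)) * ha + a * hb
  have i4 : ((1 - a) * b) * ((1 - a) * b) = (1 - a) * b := by
    linear_combination (b * b) * ha + (1 - a) * hb
  have f1 := idem_pow (T := T) i1 hN
  have f2 := idem_pow (T := T) i2 hN
  have f3 := idem_pow (T := T) i3 hN
  have f4 := idem_pow (T := T) i4 hN
  have g1 : T ^ N * (a * b) = a * b := by
    rw [← f1, e1]
    have := idem_pow (T := 1) i1 hN
    rwa [one_mul, one_pow, one_mul] at this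
  rw [e2, zero_pow hN.ne'] at f2
  rw [e3, mul_pow, hl, zero_mul] at f3
  rw [e4, mul_pow, hr, zero_mul] at f4
  linear_combination g1 - f2 - f3 - f4

variable [Algebra ℚ O]

/-- The triangular matrix which computes divided differences. -/
def triM (l r : O) : Matrix (Fin 2) (Fin 2) O := !![l, 1; 0, r]

theorem triM_pow (l r : O) (k : ℕ) : (triM l r) ^ k =
    !![l ^ k, ∑ i ∈ Finset.range k, l ^ i * r ^ (k - 1 - i); 0, r ^ k] := by
  induction k with
  | zero =>
      rw [pow_zero]
      ext i j
      fin_cases i <;> fin_cases j <;> simp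
  | succ k ih =>
      rw [pow_succ', ih, triM]
      have hs : l * (∑ i ∈ Finset.range k, l ^ i * r ^ (k - 1 - i)) + r ^ k =
          ∑ i ∈ Finset.range (k + 1), l ^ i * r ^ (k + 1 - 1 - i) := by
        rw [Finset.sum_range_succ', Finset.mul_sum]
        congr 1
        · refine Finset.sum_congr rfl fun i _ => ?_
          rw [pow_succ', mul_assoc]
          congr 3
          omega
        · simp
      rw [← hs]
      ext i j
      fin_cases i <;> fin_cases j <;> simp [Matrix.mul_apply, Fin.sum_univ_two, pow_succ']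

/-- The divided difference. -/
noncomputable def dd (l r : O) (p : ℚ[X]) : O := (aeval (triM l r) p) 0 1

theorem aeval_triM (l r : O) (p : ℚ[X]) :
    aeval (triM l r) p = !![aeval l p, dd l r p; 0, aeval r p] := by
  have key : (aeval (triM l r) p) 0 0 = aeval l p ∧ (aeval (triM l r) p) 1 0 = 0 ∧
      (aeval (triM l r) p) 1 1 = aeval r p := by
    rw [aeval_eq_sum_range, aeval_eq_sum_range, aeval_eq_sum_range]
    simp only [Matrix.sum_apply, Matrix.smul_apply, triM_pow]
    refine ⟨?_, ?_, ?_⟩
    · simp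
    · simp
    · simp
  ext i j
  fin_cases i <;> fin_cases j
  · exact key.1
  · rfl
  · exact key.2.1
  · exact key.2.2

theorem dd_mul (l r : O) (p q : ℚ[X]) :
    dd l r (p * q) = aeval l p * dd l r q + dd l r p * aeval r q := by
  have h : aeval (triM l r) (p * q) = aeval (triM l r) p * aeval (triM l r) q := map_mul _ _ _
  rw [dd, h, aeval_triM l r p, aeval_triM l r q, Matrix.mul_apply, Fin.sum_univ_two]
  simp

theorem dd_X (l r : O) : dd l r X = 1 := by
  rw [dd, aeval_X]
  simp [triM]

theorem dd_add (l r : O) (p q : ℚ[X]) : dd l r (p + q) = dd l r p + dd l r q := by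
  rw [dd, map_add]; rfl

theorem dd_sub (l r : O) (p q : ℚ[X]) : dd l r (p - q) = dd l r p - dd l r q := by
  rw [dd, map_sub]; rfl

theorem dd_one (l r : O) : dd l r 1 = 0 := by
  rw [dd, map_one]; rfl

theorem dd_smul (l r : O) (c : ℚ) (p : ℚ[X]) : dd l r (c • p) = c • dd l r p := by
  rw [dd, map_smul]; rfl

theorem dd_pow (l r : O) (k : ℕ) :
    dd l r (X ^ k) = ∑ i ∈ Finset.range k, l ^ i * r ^ (k - 1 - i) := by
  rw [dd, map_pow, aeval_X, triM_pow]
  simp

theorem dd_sum {ι : Type*} (l r : O) (s : Finset ι) (p : ι → ℚ[X]) :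
    dd l r (∑ i ∈ s, p i) = ∑ i ∈ s, dd l r (p i) := by
  rw [dd, map_sum, Matrix.sum_apply]; rfl

/-- The idempotent polynomial. -/
noncomputable def phiP (h : ℚ[X]) : ℚ[X] := h * h * (3 - 2 * h)

theorem corner_comm {l r : O} {h : ℚ[X]} {N : ℕ} (hN : 0 < N)
    (hl : aeval l h * aeval l h = aeval l h) (hr : aeval r h * aeval r h = aeval r h)
    (hl' : (l * (1 - aeval l h)) ^ N = 0) (hr' : (r * (1 - aeval r h)) ^ N = 0) :
    (dd l r (X * (1 - phiP h))) ^ N = (1 - aeval l h) * (1 - aeval r h) := by
  have hφ : ∀ {O' : Type _} [CommRing O'] [Algebra ℚ O'] (u : O'),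
      aeval u (phiP h) = aeval u h * aeval u h * (3 - 2 * aeval u h) := by
    intro O' _ _ u
    rw [phiP, map_mul, map_mul, map_sub, map_mul, map_ofNat, map_ofNat]
  have hφl : aeval l (phiP h) = aeval l h := by
    rw [hφ l]
    linear_combination (1 - 2 * aeval l h) * hl
  have hφr : aeval r (phiP h) = aeval r h := by
    rw [hφ r]
    linear_combination (1 - 2 * aeval r h) * hr
  set p := phiP h with hp
  have hid : dd l r (p * p - p) = 0 := by
    have e : p * p - p = (h * h - h) * ((h * h - h) * (-((3 - 2 * h) * (1 + 2 * h)))) := by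
      rw [hp, phiP]; ring
    have e1 : aeval l (h * h - h) = 0 := by rw [map_sub, map_mul, hl, sub_self]
    have e2 : aeval r ((h * h - h) * (-((3 - 2 * h) * (1 + 2 * h)))) = 0 := by
      rw [map_mul, map_sub, map_mul, hr, sub_self, zero_mul]
    rw [e, dd_mul, e1, e2, zero_mul, mul_zero, add_zero]
  rw [dd_sub, dd_mul, hφl, hφr] at hid
  have hG : dd l r (1 - p) = -dd l r p := by rw [dd_sub, dd_one, zero_sub]
  refine corner_pow (D := dd l r (1 - p)) hN ?_ ?_ ?_ ?_ ?_ hl' hr'
  · linear_combination hl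
  · linear_combination hr
  · rw [dd_mul, dd_X, aeval_X, map_sub, map_one, hφr]
    ring
  · rw [mul_comm X, dd_mul, dd_X, aeval_X, map_sub, map_one, hφl]
    ring
  · rw [hG]
    linear_combination hid

end

/-! ## The corner -/

section

variable {A : Type*} [Ring A] [Algebra ℚ A]

theorem aeval_mulLeft (x : A) (p : ℚ[X]) :
    aeval (LinearMap.mulLeft ℚ x) p = LinearMap.mulLeft ℚ (aeval x p) := by
  refine LinearMap.ext fun Y => ?_
  rw [aeval_eq_sum_range, LinearMap.sum_apply, LinearMap.mulLeft_apply, aeval_eq_sum_range,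
    Finset.sum_mul]
  refine Finset.sum_congr rfl fun i _ => ?_
  rw [LinearMap.smul_apply, LinearMap.pow_mulLeft, LinearMap.mulLeft_apply, smul_mul_assoc]

theorem aeval_mulRight (x : A) (p : ℚ[X]) :
    aeval (LinearMap.mulRight ℚ x) p = LinearMap.mulRight ℚ (aeval x p) := by
  refine LinearMap.ext fun Y => ?_
  rw [aeval_eq_sum_range, LinearMap.sum_apply, LinearMap.mulRight_apply, aeval_eq_sum_range,
    Finset.mul_sum]
  refine Finset.sum_congr rfl fun i _ => ?_
  rw [LinearMap.smul_apply, LinearMap.pow_mulRight, LinearMap.mulRight_apply, mul_smul_comm]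

/-- Polynomials in the left and the right multiplication. -/
noncomputable def Phi (x : A) : ℚ[X][X] →+* End ℚ A :=
  eval₂RingHom' (aeval (LinearMap.mulLeft ℚ x) : ℚ[X] →ₐ[ℚ] End ℚ A).toRingHom
    (LinearMap.mulRight ℚ x) fun p => by
      change Commute (aeval (LinearMap.mulLeft ℚ x) p) _
      rw [aeval_mulLeft]
      exact LinearMap.commute_mulLeft_right _ _

/-- **The corner of a space closed under a power lies in the space.** -/
theorem corner_mem {B : Submodule ℚ A} {ν : ℕ} (h : ∀ X ∈ B, X ^ (1 + ν) ∈ B) {x : A}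
    (hx : x ∈ B) {H : ℚ[X]} (he : aeval (x ^ ν) H * aeval (x ^ ν) H = aeval (x ^ ν) H) {N : ℕ}
    (hN : (x * (1 - aeval (x ^ ν) H)) ^ N = 0) {Y : A} (hY : Y ∈ B) :
    (1 - aeval (x ^ ν) H) * Y * (1 - aeval (x ^ ν) H) ∈ B := by
  set Φ : (ℚ[X][X] ⧸ RingHom.ker (Phi x)) →+* End ℚ A := RingHom.kerLift (Phi x) with hΦ
  have hinj : Function.Injective Φ := RingHom.kerLift_injective _
  set l : ℚ[X][X] ⧸ RingHom.ker (Phi x) := Ideal.Quotient.mk _ (C X) with hl
  set r : ℚ[X][X] ⧸ RingHom.ker (Phi x) := Ideal.Quotient.mk _ X with hr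
  have hΦl : Φ l = LinearMap.mulLeft ℚ x := by
    rw [hΦ, hl, RingHom.kerLift_mk]
    change eval₂ _ _ (C X) = _
    rw [eval₂_C]
    change aeval (LinearMap.mulLeft ℚ x) X = _
    rw [aeval_X]
  have hΦr : Φ r = LinearMap.mulRight ℚ x := by
    rw [hΦ, hr, RingHom.kerLift_mk]
    change eval₂ _ _ X = _
    rw [eval₂_X]
  have hΦp : ∀ (u : ℚ[X][X] ⧸ RingHom.ker (Phi x)) (p : ℚ[X]),
      Φ (aeval u p) = aeval (Φ u) p := fun u p =>
    (Polynomial.aeval_algHom_apply Φ.toRatAlgHom u p).symm
  set h' : ℚ[X] := H.comp (X ^ ν) with hh'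
  have hev : ∀ {S : Type _} [Ring S] [Algebra ℚ S] (u : S), aeval u h' = aeval (u ^ ν) H := by
    intro S _ _ u
    rw [hh', aeval_comp, map_pow, aeval_X]
  have hL : Φ (aeval l h') = LinearMap.mulLeft ℚ (aeval (x ^ ν) H) := by
    rw [hΦp, hΦl, aeval_mulLeft, hev]
  have hR : Φ (aeval r h') = LinearMap.mulRight ℚ (aeval (x ^ ν) H) := by
    rw [hΦp, hΦr, aeval_mulRight, hev]
  set e := aeval (x ^ ν) H with hedef
  have hcomm : Commute x e := by
    have h1 : x = aeval x (X : ℚ[X]) := (aeval_X x).symm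
    have h2 : e = aeval x h' := (hev x).symm
    rw [h2]
    nth_rw 1 [h1]
    rw [Commute, SemiconjBy, ← map_mul, ← map_mul, mul_comm]
  have hN1 : (x * (1 - e)) ^ (N + 1) = 0 := by rw [pow_succ, hN, zero_mul]
  have key := corner_comm (l := l) (r := r) (h := h') (N := N + 1) (by omega) ?_ ?_ ?_ ?_
  · -- the operator preserves `B`
    have hT : ∀ Z ∈ B, Φ (dd l r (X * (1 - phiP h'))) Z ∈ B := by
      intro Z hZ
      set G : ℚ[X] := 1 - phiP H with hG
      have e1 : (X * (1 - phiP h') : ℚ[X]) =
          ∑ k ∈ Finset.range (G.natDegree + 1), G.coeff k • X ^ (1 + k * ν) := by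
        have e2 : (1 - phiP h' : ℚ[X]) = G.comp (X ^ ν) := by
          rw [hG, hh', phiP, phiP]
          simp
        rw [e2, comp_eq_sum_left, Polynomial.sum_def, Finset.mul_sum]
        rw [Finset.sum_subset (Polynomial.supp_subset_range (Nat.lt_succ_self _))]
        · refine Finset.sum_congr rfl fun k _ => ?_
          rw [smul_eq_C_mul, ← pow_mul, pow_add, pow_one, mul_comm ν k]
          ring
        · intro k _ hk
          rw [notMem_support_iff.1 hk, C_0, zero_mul, mul_zero]
      rw [e1, dd_sum, map_sum, LinearMap.sum_apply]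
      refine Submodule.sum_mem _ fun k _ => ?_
      rw [dd_smul, map_rat_smul, LinearMap.smul_apply]
      refine B.smul_mem _ ?_
      have e3 : Φ (dd l r (X ^ (1 + k * ν))) Z = dpow x Z (1 + k * ν) := by
        rw [dd_pow, map_sum, LinearMap.sum_apply, dpow]
        refine Finset.sum_congr rfl fun i _ => ?_
        rw [map_mul, map_pow, map_pow, hΦl, hΦr, Module.End.mul_apply, LinearMap.pow_mulLeft,
          LinearMap.pow_mulRight, LinearMap.mulRight_apply, LinearMap.mulLeft_apply, mul_assoc]
      rw [e3]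
      exact dpow_mem_of h k hx hZ
    have hTN : ∀ k : ℕ, ∀ Z ∈ B, (Φ (dd l r (X * (1 - phiP h'))) ^ k) Z ∈ B := by
      intro k
      induction k with
      | zero => intro Z hZ; exact hZ
      | succ k ih =>
          intro Z hZ
          rw [pow_succ, Module.End.mul_apply]
          exact ih _ (hT Z hZ)
    have h1 := hTN (N + 1) Y hY
    rw [← map_pow, key, map_mul, map_sub, map_sub, map_one, hL, hR, Module.End.mul_apply] at h1
    have h2 : (1 - LinearMap.mulLeft ℚ e) ((1 - LinearMap.mulRight ℚ e) Y) =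
        (1 - e) * Y * (1 - e) := by
      rw [LinearMap.sub_apply, LinearMap.sub_apply, Module.End.one_apply, Module.End.one_apply,
        LinearMap.mulLeft_apply, LinearMap.mulRight_apply]
      noncomm_ring
    rwa [h2] at h1
  · apply hinj
    rw [map_mul, hL]
    refine LinearMap.ext fun Z => ?_
    rw [Module.End.mul_apply, LinearMap.mulLeft_apply, LinearMap.mulLeft_apply, ← mul_assoc, he]
  · apply hinj
    rw [map_mul, hR]
    refine LinearMap.ext fun Z => ?_
    rw [Module.End.mul_apply, LinearMap.mulRight_apply, LinearMap.mulRight_apply, mul_assoc, he]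
  · apply hinj
    rw [map_pow, map_mul, map_sub, map_one, hL, hΦl, map_zero]
    have e1 : LinearMap.mulLeft ℚ x * (1 - LinearMap.mulLeft ℚ e) =
        LinearMap.mulLeft ℚ (x * (1 - e)) := by
      refine LinearMap.ext fun Z => ?_
      simp only [Module.End.mul_apply, LinearMap.sub_apply, Module.End.one_apply,
        LinearMap.mulLeft_apply]
      noncomm_ring
    rw [e1, LinearMap.pow_mulLeft, hN1]
    refine LinearMap.ext fun Z => ?_
    rw [LinearMap.mulLeft_apply, zero_mul]; rfl
  · apply hinj
    rw [map_pow, map_mul, map_sub, map_one, hR, hΦr, map_zero]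
    have e1 : LinearMap.mulRight ℚ x * (1 - LinearMap.mulRight ℚ e) =
        LinearMap.mulRight ℚ (x * (1 - e)) := by
      refine LinearMap.ext fun Z => ?_
      simp only [Module.End.mul_apply, LinearMap.sub_apply, Module.End.one_apply,
        LinearMap.mulRight_apply]
      rw [sub_mul, mul_sub, mul_sub, mul_one, hcomm.eq]
      noncomm_ring
    rw [e1, LinearMap.pow_mulRight, hN1]
    refine LinearMap.ext fun Z => ?_
    rw [LinearMap.mulRight_apply, mul_zero]; rfl

end

end Pool.Agent.Helper69K1
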