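import Pool.Agent.Helper69K1.Pow1

/-!
# Traces of powers and the reversed characteristic polynomial
-/

set_option linter.unusedSectionVars false

namespace Pool.Agent.Helper69K1

open Module Polynomial

section

variable {n : Type} [Fintype n] [DecidableEq n] {R : Type*} [CommRing R]

theorem charpolyRev_mul {M N : Matrix n n R} (h : M * N = 0) :
    (M + N).charpolyRev = M.charpolyRev * N.charpolyRev := by
  rw [Matrix.charpolyRev, Matrix.charpolyRev, Matrix.charpolyRev, ← Matrix.det_mul]
  congr 1
  have h1 : M.map C * N.map C = 0 := by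
    have := Matrix.map_mul (L := M) (M := N) (f := (C : R →+* R[X]))
    rw [← this, h]
    ext i j
    simp
  have h2 : (M + N).map C = M.map C + N.map C := by
    ext1 i j
    simp [Matrix.map_apply]
  rw [h2, sub_mul, mul_sub, mul_sub, smul_mul_smul_comm, h1]
  simp only [smul_zero, one_mul, mul_one, smul_add, sub_zero]
  abel

theorem pow_zero_of_rev {V : Matrix n n R} (h : V.charpolyRev = 1) :
    V ^ Fintype.card n = 0 := by
  nontriviality R
  have h1 := V.reverse_charpoly
  rw [h] at h1
  have hd := Matrix.charpoly_natDegree_eq_dim V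
  have h2 : V.charpoly = X ^ Fintype.card n := by
    ext i
    rw [coeff_X_pow]
    by_cases hi : i ≤ Fintype.card n
    · have h3 : V.charpoly.reverse.coeff (Fintype.card n - i) = V.charpoly.coeff i := by
        rw [coeff_reverse, hd, revAt_le (Nat.sub_le _ _)]
        congr 1
        omega
      rw [← h3, h1, coeff_one]
      by_cases hi' : i = Fintype.card n
      · rw [if_pos (by omega), if_pos hi']
      · rw [if_neg (by omega), if_neg hi']
    · rw [coeff_eq_zero_of_natDegree_lt (by omega), if_neg (by omega)]
  have h3 := V.aeval_self_charpoly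
  rwa [h2, map_pow, aeval_X] at h3

theorem det_of_rev {V : Matrix n n R} (h : V.charpolyRev = 1) {S : Type*} [CommRing S]
    (f : R →+* S) (u : S) : (1 - u • V.map f).det = 1 := by
  have h1 := congrArg (eval₂RingHom f u) h
  rw [map_one, Matrix.charpolyRev, RingHom.map_det] at h1
  rw [← h1]
  congr 1
  ext i j
  by_cases hij : i = j
  · subst hij
    simp
    ring
  · simp [hij]
    ring

theorem rev_shift {V : Matrix n n R} (h : V.charpolyRev = 1) {N W : Matrix n n R[X]}
    (hW : W = (X : R[X]) • V.map C) (h1 : (1 - W) * N = V.map C) : N.charpolyRev = 1 := by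
  have h3 := det_of_rev h (S := R[X][X]) (C.comp C) (C X + X)
  have h4 : (1 - (C X + X : R[X][X]) • V.map ((C : R[X] →+* R[X][X]).comp (C : R →+* R[X]))) =
      (1 - W).map C * (1 - (X : R[X][X]) • N.map C) := by
    have h5 : ((1 - W).map C * N.map C : Matrix n n R[X][X]) = (V.map C).map C := by
      rw [← h1]
      exact (Matrix.map_mul (L := 1 - W) (M := N) (f := (C : R[X] →+* R[X][X]))).symm
    rw [mul_sub, mul_one, mul_smul_comm, h5]
    ext1 i j
    by_cases hij : i = j
    · subst hij
      simp [hW, Matrix.map_apply]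
      ring
    · simp [hW, hij, Matrix.map_apply]
      ring
  have h6 : ((1 - W).map C : Matrix n n R[X][X]).det = 1 := by
    have := det_of_rev h (S := R[X][X]) (C.comp C) (C X)
    rw [← this]
    congr 1
    ext1 i j
    by_cases hij : i = j
    · subst hij
      simp [hW, Matrix.map_apply]
      ring
    · simp [hW, hij, Matrix.map_apply]
      ring
  rw [h4, Matrix.det_mul, h6, one_mul] at h3
  exact h3

theorem trace_map_C (V : Matrix n n R) : (V.map (C : R →+* R[X])).trace = C V.trace := by
  rw [Matrix.trace, Matrix.trace, map_sum]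
  rfl

theorem trace_geom (V : Matrix n n R) (d : ℕ) :
    ((∑ i ∈ Finset.range d, ((X : R[X]) • V.map C) ^ i) * V.map C).trace =
      ∑ i ∈ Finset.range d, X ^ i * C ((V ^ (i + 1)).trace) := by
  rw [Finset.sum_mul, Matrix.trace_sum]
  refine Finset.sum_congr rfl fun i _ => ?_
  have h5 : (V.map C : Matrix n n R[X]) ^ i * V.map C = (V ^ (i + 1)).map C := by
    rw [← pow_succ]
    exact (map_pow (C : R →+* R[X]).mapMatrix V (i + 1)).symm
  rw [_root_.smul_pow, smul_mul_assoc, Matrix.trace_smul, smul_eq_mul, h5, trace_map_C]

theorem coeff_sum_geom (f : ℕ → R) {d k : ℕ} (hk : k < d) :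
    (∑ i ∈ Finset.range d, X ^ i * C (f i) : R[X]).coeff k = f k := by
  rw [finsetSum_coeff, Finset.sum_eq_single k]
  · rw [coeff_X_pow_mul', if_pos le_rfl, Nat.sub_self, coeff_C_zero]
  · intro i _ hi
    rw [coeff_X_pow_mul']
    split_ifs with h6
    · rw [coeff_C, if_neg (by omega)]
    · rfl
  · intro h6
    exact absurd (Finset.mem_range.2 hk) h6

/-- If `det (1 - t V) = 1` then all powers of `V` have trace zero. -/
theorem trace_of_rev {V : Matrix n n R} (h : V.charpolyRev = 1) {k : ℕ} (hk : 0 < k) :
    (V ^ k).trace = 0 := by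
  have hV := pow_zero_of_rev h
  have hWd : ((X : R[X]) • V.map C) ^ Fintype.card n = 0 := by
    have h5 : (V.map C : Matrix n n R[X]) ^ Fintype.card n = (V ^ Fintype.card n).map C :=
      (map_pow (C : R →+* R[X]).mapMatrix V _).symm
    rw [_root_.smul_pow, h5, hV, Matrix.map_zero _ (map_zero _), smul_zero]
  have h1 : (1 - (X : R[X]) • V.map C) *
      ((∑ i ∈ Finset.range (Fintype.card n), ((X : R[X]) • V.map C) ^ i) * V.map C) =
      V.map C := by
    rw [← mul_assoc, mul_neg_geom_sum, hWd, sub_zero, one_mul]
  have h2 := rev_shift h rfl h1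
  have h3 : ((∑ i ∈ Finset.range (Fintype.card n), ((X : R[X]) • V.map C) ^ i) *
      V.map C).trace = 0 := by
    have h4 := Matrix.coeff_charpolyRev_eq_neg_trace
      ((∑ i ∈ Finset.range (Fintype.card n), ((X : R[X]) • V.map C) ^ i) * V.map C)
    rw [h2, coeff_one, if_neg one_ne_zero] at h4
    exact neg_eq_zero.1 h4.symm
  rw [trace_geom] at h3
  by_cases hkd : k ≤ Fintype.card n
  · have h5 := coeff_sum_geom (fun i => (V ^ (i + 1)).trace) (d := Fintype.card n)
      (k := k - 1) (by omega)
    rw [h3, coeff_zero] at h5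
    rw [← Nat.sub_add_cancel hk]
    exact h5.symm
  · have : V ^ k = 0 := by
      obtain ⟨j, rfl⟩ := Nat.exists_eq_add_of_lt (not_le.1 hkd)
      rw [add_assoc, pow_add, hV, zero_mul]
    rw [this, Matrix.trace_zero]

/-- Entries of powers of a line of matrices. -/
theorem line_pow_coeff (P Q : Matrix n n R) (k : ℕ) (i j : n) :
    (((P.map C + (X : R[X]) • Q.map C) ^ k) i j).natDegree ≤ k ∧
      (((P.map C + (X : R[X]) • Q.map C) ^ k) i j).coeff k = (Q ^ k) i j := by
  induction k generalizing i j with
  | zero =>
      by_cases h : i = j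
      · subst h; simp
      · simp [h]
  | succ k ih =>
      have hb : ∀ a b, ((P.map C + (X : R[X]) • Q.map C) a b).natDegree ≤ 1 ∧
          ((P.map C + (X : R[X]) • Q.map C) a b).coeff 1 = Q a b := by
        intro a b
        have e : (P.map C + (X : R[X]) • Q.map C) a b = C (P a b) + X * C (Q a b) := by
          simp [Matrix.map_apply]
        rw [e]
        constructor
        · refine (natDegree_add_le _ _).trans (max_le (by simp) ?_)
          refine natDegree_mul_le.trans ?_
          have := natDegree_X_le (R := R)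
          simp
          exact this
        · simp [coeff_C]
      rw [pow_succ, Matrix.mul_apply]
      constructor
      · refine natDegree_sum_le_of_forall_le _ _ fun a _ => ?_
        refine natDegree_mul_le.trans ?_
        have := (ih i a).1
        have := (hb a j).1
        omega
      · rw [finsetSum_coeff, pow_succ, Matrix.mul_apply]
        refine Finset.sum_congr rfl fun a _ => ?_
        rw [coeff_mul_add_eq_of_natDegree_le (ih i a).1 (hb a j).1, (ih i a).2, (hb a j).2]

theorem trace_line_coeff (P Q : Matrix n n R) (k : ℕ) :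
    (((P.map C + (X : R[X]) • Q.map C) ^ k).trace).coeff k = (Q ^ k).trace := by
  rw [Matrix.trace, finsetSum_coeff, Matrix.trace]
  exact Finset.sum_congr rfl fun i _ => (line_pow_coeff P Q k i i).2

end

end Pool.Agent.Helper69K1
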