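import Pool.Agent.Helper69K1.SearchDef

/-!
# The local search: correctness
-/

set_option linter.unusedSectionVars false

namespace Pool.Agent.Helper69K1

open Module Pool.Agent.NPC Pool.Agent.NPC.H532 Pool.Agent.H420_NCF Pool.Agent.H687R2.LLL

/-! ## The stable rank and the characteristic polynomial -/

section

variable {n : Type} [Fintype n] [DecidableEq n]

theorem srk_natDegree (X : Matrix n n ℚ) : srk X = X.charpolyRev.natDegree := by
  rw [← Matrix.reverse_charpoly, Polynomial.reverse_natDegree, Matrix.charpoly_natDegree_eq_dim,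
    ← Matrix.charpoly_toLin', ← LinearMap.finrank_maxGenEigenspace_zero_eq, srk_eq]
  have h1 : Module.End.maxGenEigenspace (Matrix.toLin' X) 0 =
      LinearMap.ker ((Matrix.toLin' X) ^ Fintype.card n) := by
    ext v
    rw [Module.End.mem_maxGenEigenspace, LinearMap.mem_ker]
    simp only [zero_smul, sub_zero]
    constructor
    · rintro ⟨k, hk⟩
      exact mem_ker_of_pow (by simp) hk
    · intro h
      exact ⟨_, h⟩
  rw [h1]
  have h2 := LinearMap.finrank_range_add_finrank_ker ((Matrix.toLin' X) ^ Fintype.card n)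
  rw [Module.finrank_fintype_fun_eq_card] at h2
  omega

theorem srk_le_card (X : Matrix n n ℚ) : srk X ≤ Fintype.card n := by
  rw [srk]
  exact Matrix.rank_le_card_width _

theorem srk_eq_card_iff (X : Matrix n n ℚ) : srk X = Fintype.card n ↔ X.det ≠ 0 := by
  rw [srk]
  constructor
  · intro h hd
    have h1 : Matrix.rank (X ^ Fintype.card n) = Fintype.card n := h
    rcases isEmpty_or_nonempty n with h0 | h0
    · simp at hd
    · have h2 : IsUnit (X ^ Fintype.card n) := by
        rw [← Matrix.mulVec_surjective_iff_isUnit]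
        have h3 : LinearMap.range (X ^ Fintype.card n).mulVecLin = ⊤ := by
          apply Submodule.eq_top_of_finrank_eq
          rw [Module.finrank_fintype_fun_eq_card]
          exact h1
        intro v
        have : v ∈ LinearMap.range (X ^ Fintype.card n).mulVecLin := by rw [h3]; trivial
        obtain ⟨w, hw⟩ := this
        exact ⟨w, hw⟩
      rw [Matrix.isUnit_iff_isUnit_det, Matrix.det_pow, hd,
        zero_pow Fintype.card_pos.ne'] at h2
      exact not_isUnit_zero h2
  · intro hd
    apply Matrix.rank_of_isUnit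
    exact ((Matrix.isUnit_iff_isUnit_det _).2 (isUnit_iff_ne_zero.2 hd)).pow _

/-- The coefficients along a line are polynomials of small degree. -/
theorem coeff_line (X B : Matrix n n ℚ) (k : ℕ) : ∃ p : Polynomial ℚ,
    p.natDegree ≤ Fintype.card n ∧ ∀ t : ℚ, p.eval t = (X + t • B).charpolyRev.coeff k := by
  by_cases hk : k ≤ Fintype.card n
  · refine ⟨∑ s ∈ Finset.univ.powersetCard k, (-1) ^ k * ((Polynomial.X : Polynomial ℚ) •
      (B.submatrix (Subtype.val : s → n) Subtype.val).map Polynomial.C +
      (X.submatrix (Subtype.val : s → n) Subtype.val).map Polynomial.C).det, ?_, fun t => ?_⟩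
    · refine Polynomial.natDegree_sum_le_of_forall_le _ _ fun s hs => ?_
      have h1 : ((-1 : Polynomial ℚ) ^ k) = Polynomial.C ((-1) ^ k) := by simp
      rw [h1]
      refine (Polynomial.natDegree_C_mul_le _ _).trans ?_
      refine (Polynomial.natDegree_det_X_add_C_le _ _).trans ?_
      rw [Fintype.card_coe]
      exact Finset.card_le_univ s
    · have h1 : (X + t • B).charpolyRev =
          (1 + (Polynomial.X : Polynomial ℚ) • (-(X + t • B)).map Polynomial.C).det := by
        rw [Matrix.charpolyRev]
        congr 1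
        rw [sub_eq_add_neg]
        congr 1
        ext1 i j
        simp only [Matrix.neg_apply, Matrix.smul_apply, Matrix.map_apply, smul_eq_mul, map_neg,
          mul_neg]
      rw [h1, Matrix.coeff_det_one_add_X_smul_eq_sum_minors, Polynomial.eval_finsetSum]
      refine Finset.sum_congr rfl fun s hs => ?_
      have hs' : s.card = k := (Finset.mem_powersetCard.1 hs).2
      rw [Polynomial.eval_mul, Polynomial.eval_pow, Polynomial.eval_neg, Polynomial.eval_one,
        ← Polynomial.coe_evalRingHom, RingHom.map_det]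
      have h2 : ((-(X + t • B)).submatrix (Subtype.val : s → n) (Subtype.val : s → n)) =
          -((X + t • B).submatrix (Subtype.val : s → n) (Subtype.val : s → n)) := rfl
      rw [h2, Matrix.det_neg, Fintype.card_coe, hs']
      congr 2
      ext i j
      simp
      ring
  · refine ⟨0, by simp, fun t => ?_⟩
    rw [Polynomial.eval_zero, Polynomial.coeff_eq_zero_of_natDegree_lt]
    rw [← srk_natDegree]
    have := srk_le_card (X + t • B)
    omega

/-- Small parameters suffice on a line. -/
theorem small_line (X B : Matrix n n ℚ) {σ : ℕ} {t₀ : ℚ} (h : σ ≤ srk (X + t₀ • B)) :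
    ∃ t < Fintype.card n + 1, σ ≤ srk (X + (t : ℚ) • B) := by
  set k := srk (X + t₀ • B) with hk
  obtain ⟨p, hp1, hp2⟩ := coeff_line X B k
  have h1 : p.eval t₀ ≠ 0 := by
    rw [hp2, hk, srk_natDegree]
    rw [Polynomial.coeff_natDegree]
    refine Polynomial.leadingCoeff_ne_zero.2 fun h0 => ?_
    have := Matrix.eval_charpolyRev (M := X + t₀ • B)
    rw [h0] at this
    simp at this
  have hp0 : p ≠ 0 := fun h0 => h1 (by rw [h0, Polynomial.eval_zero])
  by_contra hcon
  push Not at hcon
  have h2 : ∀ t ∈ Finset.range (Fintype.card n + 1), p.eval (t : ℚ) = 0 := by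
    intro t ht
    rw [hp2]
    apply Polynomial.coeff_eq_zero_of_natDegree_lt
    rw [← srk_natDegree]
    have := hcon t (Finset.mem_range.1 ht)
    omega
  apply hp0
  refine Polynomial.eq_zero_of_natDegree_lt_card_of_eval_eq_zero' p
    ((Finset.range (Fintype.card n + 1)).image fun t : ℕ => (t : ℚ)) ?_ ?_
  · intro x hx
    obtain ⟨t, ht, rfl⟩ := Finset.mem_image.1 hx
    exact h2 t ht
  · rw [Finset.card_image_of_injective _ Nat.cast_injective, Finset.card_range]
    omega

end

/-! ## Combinations -/

/-- The combination with rational coefficients. -/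
noncomputable def cq (N : ℕ) (Bs : List Mat) (c : ℕ → ℚ) : Matrix (Fin N) (Fin N) ℚ :=
  ∑ k ∈ Finset.range Bs.length, c k • mq N (Bs.getD k [])

/-- The rational sequence of a list of integers. -/
def qv (c : List ℤ) : ℕ → ℚ := fun k => ((c.getD k 0 : ℤ) : ℚ)

theorem cq_add (N : ℕ) (Bs : List Mat) (c d : ℕ → ℚ) :
    cq N Bs (c + d) = cq N Bs c + cq N Bs d := by
  unfold cq
  rw [← Finset.sum_add_distrib]
  exact Finset.sum_congr rfl fun k _ => by rw [Pi.add_apply, add_smul]

theorem cq_smul (N : ℕ) (Bs : List Mat) (t : ℚ) (c : ℕ → ℚ) :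
    cq N Bs (t • c) = t • cq N Bs c := by
  unfold cq
  rw [Finset.smul_sum]
  exact Finset.sum_congr rfl fun k _ => by rw [Pi.smul_apply, smul_eq_mul, mul_smul]

theorem cq_congr (N : ℕ) (Bs : List Mat) {c d : ℕ → ℚ} (h : ∀ k < Bs.length, c k = d k) :
    cq N Bs c = cq N Bs d :=
  Finset.sum_congr rfl fun k hk => by rw [h k (Finset.mem_range.1 hk)]

theorem sum_zipWith (f : Mat → ℤ) (Bs : List Mat) (c : List ℤ) :
    (List.zipWith (fun B t => t * f B) Bs c).sum =
      ∑ k ∈ Finset.range Bs.length, c.getD k 0 * f (Bs.getD k []) := by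
  induction Bs generalizing c with
  | nil => simp
  | cons B Bs ih =>
      cases c with
      | nil => simp
      | cons t c =>
          rw [List.zipWith_cons_cons, List.sum_cons, ih, List.length_cons,
            Finset.sum_range_succ']
          simp [add_comm]

theorem mq_cmb (N : ℕ) (Bs : List Mat) (c : List ℤ) :
    mq N (cmb N Bs c) = cq N Bs (qv c) := by
  ext i j
  rw [mq, cmb, entry_tab _ i.2 j.2, sum_zipWith (fun B => entry B i j), cq,
    Matrix.sum_apply]
  push_cast
  refine Finset.sum_congr rfl fun k _ => ?_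
  rw [Matrix.smul_apply, smul_eq_mul]
  rfl

theorem isMat_tab (N : ℕ) (f : ℕ → ℕ → ℤ) : IsMat N N (tab N f) := by
  refine ⟨by simp [tab], fun v hv => ?_⟩
  unfold tab at hv
  obtain ⟨i, -, rfl⟩ := List.mem_map.1 hv
  simp

theorem sr_eq (I : Inp) (c : List ℤ) : sr I c = srk (cq I.1.length I.2 (qv c)) := by
  have h : IsMat I.1.length I.1.length (cmb I.1.length I.2 c) := isMat_tab _ _
  rw [sr, srkL_eq h, mq_cmb]

/-! ## Shrinking -/

theorem qv_upd (c : List ℤ) {k : ℕ} (hk : k < c.length) (t : ℕ) :
    qv (upd c k t) = (qv c + (-(qv c k)) • Pi.single k 1) + (t : ℚ) • Pi.single k 1 := by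
  funext j
  simp only [qv, getD_upd, Pi.add_apply, Pi.smul_apply, smul_eq_mul]
  by_cases hj : j = k
  · subst hj
    rw [if_pos hk, if_pos rfl, Pi.single_eq_same]
    push_cast
    ring
  · rw [Pi.single_eq_of_ne hj]
    by_cases hj' : j < c.length
    · rw [if_pos hj', if_neg hj]; ring
    · rw [if_neg hj', List.getD_eq_default _ _ (by omega)]; push_cast; ring

theorem le_shrink1 (I : Inp) (c : List ℤ) {k : ℕ} (hk : k < c.length) :
    sr I c ≤ sr I (shrink1 I c k) := by
  refine shrink1_le I c k ?_
  set X := cq I.1.length I.2 (qv c + (-(qv c k)) • Pi.single k 1) with hX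
  set B := cq I.1.length I.2 (Pi.single k 1) with hB
  have h1 : cq I.1.length I.2 (qv c) = X + (qv c k) • B := by
    rw [hX, hB, ← cq_smul, ← cq_add]
    congr 1
    module
  obtain ⟨t, ht, h2⟩ := small_line X B (σ := sr I c) (t₀ := qv c k) (by rw [← h1, ← sr_eq])
  rw [Fintype.card_fin] at ht
  refine ⟨t, ht, ?_⟩
  rw [sr_eq I (upd c k t), qv_upd c hk, cq_add, cq_smul]
  exact h2

theorem le_shrink (I : Inp) (c : List ℤ) : sr I c ≤ sr I (shrink I c) := by
  have key : ∀ (l : List ℕ) (c : List ℤ), (∀ k ∈ l, k < c.length) →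
      sr I c ≤ sr I (l.foldl (fun s k => shrink1 I s k) c) := by
    intro l
    induction l with
    | nil => intro c _; exact le_rfl
    | cons k l ih =>
        intro c hc
        rw [List.foldl_cons]
        refine (le_shrink1 I c (hc k (by simp))).trans (ih _ fun j hj => ?_)
        rw [length_shrink1]
        exact hc j (List.mem_cons_of_mem _ hj)
  exact key _ c fun k hk => List.mem_range.1 hk

/-! ## The search -/

/-- The vectors reached by `r` moves in the directions `D`, with rational parameters. -/
def Ws (D : List (List ℤ)) : ℕ → Set (ℕ → ℚ)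
  | 0 => {0}
  | r + 1 => {v | ∃ w ∈ Ws D r, ∃ u ∈ D, ∃ t : ℚ, v = w + t • qv u}

theorem zero_mem_Ws_succ {D : List (List ℤ)} {r : ℕ} {w : ℕ → ℚ} {u : List ℤ} (hu : u ∈ D)
    (hw : w ∈ Ws D r) : w ∈ Ws D (r + 1) := ⟨w, hw, u, hu, 0, by simp⟩

theorem cq_addv {N : ℕ} {Bs : List Mat} {c : List ℤ} (hc : Bs.length ≤ c.length) (u : List ℤ)
    (t : ℕ) (X : ℕ → ℚ) :
    cq N Bs (qv (addv c u t) + X) = cq N Bs (qv c + (X + (t : ℚ) • qv u)) := by
  refine cq_congr _ _ fun k hk => ?_
  simp only [qv, Pi.add_apply, Pi.smul_apply, smul_eq_mul]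
  have h1 : (addv c u t).getD k 0 = c.getD k 0 + (t : ℤ) * u.getD k 0 := by
    unfold addv
    rw [List.getD_eq_getElem _ _ (by simp; omega)]
    simp
  rw [h1]
  push_cast
  ring

theorem rational_moves {N : ℕ} {Bs : List Mat} {D : List (List ℤ)} {c : List ℤ}
    (hc : Bs.length ≤ c.length) {σ : ℕ} (r : ℕ) : ∀ X : ℕ → ℚ,
    (∀ c' ∈ moves N D r c, srk (cq N Bs (qv c' + X)) ≤ σ) →
    ∀ w ∈ Ws D r, srk (cq N Bs (qv c + (w + X))) ≤ σ := by
  induction r with
  | zero =>
      intro X h w hw
      rw [Ws, Set.mem_singleton_iff] at hw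
      rw [hw, zero_add]
      exact h c (by simp [moves])
  | succ r ih =>
      rintro X h _ ⟨w, hw, u, hu, t₀, rfl⟩
      by_contra hcon
      push Not at hcon
      have e1 : cq N Bs (qv c + (w + t₀ • qv u + X)) =
          cq N Bs (qv c + (w + X)) + t₀ • cq N Bs (qv u) := by
        rw [← cq_smul, ← cq_add]
        congr 1
        module
      rw [e1] at hcon
      obtain ⟨t, ht, h2⟩ := small_line _ _ (Nat.succ_le_of_lt hcon)
      rw [Fintype.card_fin] at ht
      have h3 := ih (X + (t : ℚ) • qv u) (fun c' hc' => by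
        have hlen := length_moves hc'
        rw [← cq_addv (by omega)]
        refine h _ ?_
        simp only [moves, List.mem_flatMap, List.mem_map, List.mem_range]
        exact ⟨c', hc', u, hu, t, ht, rfl⟩) w hw
      have e2 : cq N Bs (qv c + (w + (X + (t : ℚ) • qv u))) =
          cq N Bs (qv c + (w + X)) + (t : ℚ) • cq N Bs (qv u) := by
        rw [← cq_smul, ← cq_add]
        congr 1
        module
      rw [e2] at h3
      omega

theorem loc_stuck (dirs : Inp × List ℤ → List (List ℤ)) (r : ℕ) (I : Inp) :
    ∀ c' ∈ moves I.1.length (dirs (I, loc dirs r I)) r (loc dirs r I),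
      sr I c' ≤ sr I (loc dirs r I) := by
  have key : ∀ K : ℕ, (∀ c' ∈ moves I.1.length
      (dirs (I, (step dirs r I)^[K] (List.replicate I.2.length 0))) r
      ((step dirs r I)^[K] (List.replicate I.2.length 0)),
      sr I c' ≤ sr I ((step dirs r I)^[K] (List.replicate I.2.length 0))) ∨
      K ≤ sr I ((step dirs r I)^[K] (List.replicate I.2.length 0)) := by
    intro K
    induction K with
    | zero => right; exact Nat.zero_le _
    | succ K ih =>
        rw [Function.iterate_succ_apply']
        set c := (step dirs r I)^[K] (List.replicate I.2.length 0) with hc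
        rcases step_cases dirs r I c with ⟨h1, h2⟩ | ⟨c', hc', h1, h2⟩
        · left
          rw [h1]
          exact h2
        · rcases ih with h3 | h3
          · have := h3 c' hc'
            omega
          · right
            rw [h2]
            have := le_shrink I c'
            omega
  rcases key (I.1.length + 1) with h | h
  · exact h
  · exfalso
    rw [sr_eq] at h
    have := srk_le_card (cq I.1.length I.2
      (qv ((step dirs r I)^[I.1.length + 1] (List.replicate I.2.length 0))))
    rw [Fintype.card_fin] at this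
    omega

/-- **The local search.** -/
theorem loc_spec (dirs : Inp × List ℤ → List (List ℤ)) (r : ℕ) (I : Inp) :
    (loc dirs r I).length = I.2.length ∧ ∀ w ∈ Ws (dirs (I, loc dirs r I)) r,
      srk (cq I.1.length I.2 (qv (loc dirs r I) + w)) ≤
        srk (cq I.1.length I.2 (qv (loc dirs r I))) := by
  have hlen : (loc dirs r I).length = I.2.length := (iter_bound dirs r I _).1
  refine ⟨hlen, fun w hw => ?_⟩
  have h1 := rational_moves (N := I.1.length) (Bs := I.2) (D := dirs (I, loc dirs r I))
    (c := loc dirs r I) (by omega) (σ := srk (cq I.1.length I.2 (qv (loc dirs r I)))) r 0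
    (fun c' hc' => by
      rw [add_zero, ← sr_eq, ← sr_eq]
      exact loc_stuck dirs r I c' hc') w hw
  rwa [add_zero] at h1

end Pool.Agent.Helper69K1
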