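import Pool.Agent.Helper69K1.Pow3
import Pool.Agent.Helper69K1.Search

/-!
# Stuck points and low order terms
-/

set_option linter.unusedSectionVars false

namespace Pool.Agent.Helper69K1

open Module Polynomial

section

variable {n : Type} [Fintype n] [DecidableEq n]

theorem rev_map {R S : Type*} [CommRing R] [CommRing S] (f : R →+* S) (M : Matrix n n R) :
    (M.map f).charpolyRev = M.charpolyRev.map f := by
  rw [Matrix.charpolyRev, Matrix.charpolyRev, ← coe_mapRingHom, RingHom.map_det]
  congr 1
  ext1 i j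
  by_cases hij : i = j
  · subst hij
    simp [Matrix.map_apply]
  · simp [Matrix.map_apply, hij]

theorem rev_coeff_map {R S : Type*} [CommRing R] [CommRing S] (f : R →+* S) (M : Matrix n n R)
    (k : ℕ) : (M.map f).charpolyRev.coeff k = f (M.charpolyRev.coeff k) := by
  rw [rev_map, coeff_map]

end

/-! ## Monomials of small support -/

section

variable {m : ℕ}

/-- Setting the indeterminates outside `s` to zero. -/
noncomputable def killS (s : Finset (Fin m)) :
    MvPolynomial (Fin m) ℚ →ₐ[ℚ] MvPolynomial (Fin m) ℚ :=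
  MvPolynomial.aeval fun i => if i ∈ s then MvPolynomial.X i else 0

theorem killS_coeff (s : Finset (Fin m)) (p : MvPolynomial (Fin m) ℚ) (d : Fin m →₀ ℕ)
    (hd : d.support ⊆ s) : MvPolynomial.coeff d (killS s p) = MvPolynomial.coeff d p := by
  induction p using MvPolynomial.induction_on' with
  | monomial u a =>
      by_cases hu : u.support ⊆ s
      · have h1 : killS s (MvPolynomial.monomial u a) = MvPolynomial.monomial u a := by
          rw [killS, MvPolynomial.aeval_monomial, MvPolynomial.monomial_eq]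
          congr 1
          refine Finsupp.prod_congr fun i hi => ?_
          rw [if_pos (hu hi)]
        rw [h1]
      · have h1 : killS s (MvPolynomial.monomial u a) = 0 := by
          obtain ⟨i, hi, his⟩ := Finset.not_subset.1 hu
          rw [killS, MvPolynomial.aeval_monomial, Finsupp.prod, Finset.prod_eq_zero hi, mul_zero]
          rw [if_neg his, zero_pow (Finsupp.mem_support_iff.1 hi)]
        rw [h1, MvPolynomial.coeff_zero, MvPolynomial.coeff_monomial, if_neg]
        rintro rfl
        exact hu hd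
  | add p q hp hq => rw [map_add, MvPolynomial.coeff_add, MvPolynomial.coeff_add, hp, hq]

theorem coeff_zero_of_support {p : MvPolynomial (Fin m) ℚ} {ν : ℕ}
    (h : ∀ τ : Fin m → ℚ, (Finset.univ.filter fun i => τ i ≠ 0).card ≤ ν →
      MvPolynomial.eval τ p = 0) (d : Fin m →₀ ℕ) (hd : d.support.card ≤ ν) :
    MvPolynomial.coeff d p = 0 := by
  rw [← killS_coeff d.support p d (Finset.Subset.refl _)]
  have h1 : killS d.support p = 0 := by
    refine MvPolynomial.funext fun τ => ?_
    rw [map_zero]
    have h2 : MvPolynomial.eval τ (killS d.support p) =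
        MvPolynomial.eval (fun i => if i ∈ d.support then τ i else 0) p := by
      rw [killS, MvPolynomial.aeval_def, MvPolynomial.eval_eval₂]
      rw [MvPolynomial.eval, MvPolynomial.coe_eval₂Hom]
      congr 1
      · ext; simp
      · funext i
        split_ifs <;> simp
    rw [h2]
    refine h _ (le_trans (Finset.card_le_card fun i hi => ?_) hd)
    by_contra hcon
    rw [Finset.mem_filter, if_neg hcon] at hi
    exact hi.2 rfl
  rw [h1, MvPolynomial.coeff_zero]

theorem dvd_of_support {p : MvPolynomial (Fin m) ℚ} {ν : ℕ}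
    (h : ∀ τ : Fin m → ℚ, (Finset.univ.filter fun i => τ i ≠ 0).card ≤ ν →
      MvPolynomial.eval τ p = 0) (c : Fin m → ℚ) :
    X ^ (ν + 1) ∣ MvPolynomial.aeval (fun i => (C (c i) * X : ℚ[X])) p := by
  rw [MvPolynomial.aeval_def, MvPolynomial.eval₂_eq']
  refine Finset.dvd_sum fun d hd => ?_
  have h1 : ν < d.support.card := by
    by_contra hcon
    exact MvPolynomial.mem_support_iff.1 hd (coeff_zero_of_support h d (not_lt.1 hcon))
  refine Dvd.dvd.mul_left ?_ _
  have h2 : ∏ i, (C (c i) * X : ℚ[X]) ^ d i = (∏ i, C (c i) ^ d i) * X ^ (∑ i, d i) := by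
    rw [Finset.prod_congr rfl fun i _ => mul_pow _ _ _, Finset.prod_mul_distrib,
      Finset.prod_pow_eq_pow_sum]
  rw [h2]
  refine Dvd.dvd.mul_left (pow_dvd_pow _ ?_) _
  calc ν + 1 ≤ d.support.card := h1
    _ = ∑ i ∈ d.support, 1 := by simp
    _ ≤ ∑ i ∈ d.support, d i := Finset.sum_le_sum fun i hi =>
        Nat.one_le_iff_ne_zero.2 (Finsupp.mem_support_iff.1 hi)
    _ ≤ ∑ i, d i := Finset.sum_le_sum_of_subset (Finset.subset_univ _)

end

/-! ## Stuck points -/

section

variable {n : Type} [Fintype n] [DecidableEq n] {m : ℕ}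

/-- At a stuck point the top coefficients of the reversed characteristic polynomial vanish to
high order. -/
theorem stuck_dvd (z : Fin m → Matrix n n ℚ) (x : Matrix n n ℚ) {ν σ : ℕ}
    (hst : ∀ τ : Fin m → ℚ, (Finset.univ.filter fun i => τ i ≠ 0).card ≤ ν →
      srk (x + ∑ i, τ i • z i) ≤ σ) (c : Fin m → ℚ) {k : ℕ} (hk : σ < k) :
    X ^ (ν + 1) ∣ (x.map C + (X : ℚ[X]) • (∑ i, c i • z i).map C).charpolyRev.coeff k := by
  set M : Matrix n n (MvPolynomial (Fin m) ℚ) :=
    x.map MvPolynomial.C + ∑ i, (MvPolynomial.X i : MvPolynomial (Fin m) ℚ) •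
      (z i).map MvPolynomial.C with hM
  have h1 : ∀ τ : Fin m → ℚ, M.map (MvPolynomial.eval τ) = x + ∑ i, τ i • z i := by
    intro τ
    ext a b
    simp [hM, Matrix.sum_apply, Matrix.map_apply]
  have h2 : M.map (MvPolynomial.aeval (fun i => (C (c i) * X : ℚ[X])) :
      MvPolynomial (Fin m) ℚ →ₐ[ℚ] ℚ[X]) =
      x.map C + (X : ℚ[X]) • (∑ i, c i • z i).map C := by
    ext1 a b
    simp only [hM, Matrix.map_apply, Matrix.add_apply, Matrix.sum_apply, Matrix.smul_apply,
      smul_eq_mul, map_add, map_sum, map_mul, MvPolynomial.aeval_X]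
    have e : ∀ q : ℚ, (MvPolynomial.aeval (fun i => (C (c i) * X : ℚ[X])) :
        MvPolynomial (Fin m) ℚ →ₐ[ℚ] ℚ[X]) (MvPolynomial.C q) = C q := fun q => by
      rw [MvPolynomial.aeval_C]; rfl
    simp only [e, Finset.mul_sum]
    congr 1
    refine Finset.sum_congr rfl fun i _ => ?_
    ring
  have h3 := dvd_of_support (p := M.charpolyRev.coeff k) (ν := ν) (fun τ hτ => by
    rw [← rev_coeff_map, h1, coeff_eq_zero_of_natDegree_lt]
    rw [← srk_natDegree]
    exact lt_of_le_of_lt (hst τ hτ) hk) c
  have h4 := rev_coeff_map ((MvPolynomial.aeval (fun i => (C (c i) * X : ℚ[X])) :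
      MvPolynomial (Fin m) ℚ →ₐ[ℚ] ℚ[X]) : MvPolynomial (Fin m) ℚ →+* ℚ[X]) M k
  rw [← h2]
  change X ^ (ν + 1) ∣ (M.map ((MvPolynomial.aeval (fun i => (C (c i) * X : ℚ[X])) :
      MvPolynomial (Fin m) ℚ →ₐ[ℚ] ℚ[X]) : MvPolynomial (Fin m) ℚ →+* ℚ[X])).charpolyRev.coeff k
  rw [h4]
  exact h3

/-- **The trace of the `ν`-th power vanishes on the corner of a stuck point.** -/
theorem stuck_trace {x e w : Matrix n n ℚ} {ν : ℕ} (hν : 0 < ν)
    (he : e * e = e) (hxe : x * e = e * x) (hnil : IsNilpotent (x * (1 - e)))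
    (hew : e * w = 0)
    (hdvd : ∀ k, srk x < k →
      X ^ (ν + 1) ∣ (x.map C + (X : ℚ[X]) • w.map C).charpolyRev.coeff k) :
    (w ^ ν).trace = 0 := by
  -- the stable rank of `x e`
  have hsrk : srk (x * e) = srk x := by
    rcases isEmpty_or_nonempty n with h0 | h0
    · have h1 := srk_le_card (x * e)
      have h2 := srk_le_card x
      rw [Fintype.card_eq_zero] at h1 h2
      omega
    · obtain ⟨j, hj⟩ := hnil
      have hc : Commute x (1 - e) := by
        rw [Commute, SemiconjBy, mul_sub, sub_mul, mul_one, one_mul, hxe]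
      have hid : ∀ k, (1 - e) ^ (k + 1) = 1 - e := by
        intro k
        induction k with
        | zero => simp
        | succ k ih =>
            rw [pow_succ, ih, mul_sub, mul_one, sub_mul, one_mul, he]
            abel
      have hide : ∀ k, e ^ (k + 1) = e := by
        intro k
        induction k with
        | zero => simp
        | succ k ih => rw [pow_succ, ih, he]
      have hxj : x ^ Fintype.card n * (1 - e) = 0 := by
        have h1 : (x * (1 - e)) ^ Fintype.card n = 0 := by
          have h2 := LinearMap.ext_iff.1 (congrArg Matrix.toLin' hj)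
          apply Matrix.toLin'.injective
          rw [map_zero]
          refine LinearMap.ext fun v => ?_
          rw [Matrix.toLin'_pow]
          refine mem_ker_of_pow (by simp) (k := j) ?_
          have h3 := h2 v
          rw [Matrix.toLin'_pow] at h3
          rw [h3]
          simp
        rw [hc.mul_pow] at h1
        obtain ⟨k, hk⟩ : ∃ k, Fintype.card n = k + 1 :=
          ⟨Fintype.card n - 1, by have := Fintype.card_pos (α := n); omega⟩
        rw [hk] at h1 ⊢
        rwa [hid] at h1
      rw [srk, srk]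
      congr 1
      have hc2 : Commute x e := hxe
      rw [hc2.mul_pow]
      obtain ⟨k, hk⟩ : ∃ k, Fintype.card n = k + 1 :=
        ⟨Fintype.card n - 1, by have := Fintype.card_pos (α := n); omega⟩
      rw [hk] at hxj ⊢
      rw [hide]
      rw [mul_sub, mul_one, sub_eq_zero] at hxj
      exact hxj.symm
  -- the factorisation
  set N : Matrix n n ℚ[X] := (x * (1 - e)).map C + (X : ℚ[X]) • w.map C with hN
  have hfac : (x.map C + (X : ℚ[X]) • w.map C).charpolyRev =
      ((x * e).map C : Matrix n n ℚ[X]).charpolyRev * N.charpolyRev := by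
    rw [← charpolyRev_mul]
    · congr 1
      rw [hN, ← add_assoc]
      congr 1
      have hx : x * e + x * (1 - e) = x := by noncomm_ring
      ext1 i j
      change C (x i j) = C ((x * e) i j) + C ((x * (1 - e)) i j)
      rw [← C_add, ← Matrix.add_apply, hx]
    · rw [hN, mul_add, mul_smul_comm]
      have e1 : ((x * e).map C * (x * (1 - e)).map C : Matrix n n ℚ[X]) = 0 := by
        rw [← Matrix.map_mul (f := (C : ℚ →+* ℚ[X]))]
        have : x * e * (x * (1 - e)) = 0 := by
          have e3 : x * e * (x * (1 - e)) = x * (e * x) * (1 - e) := by noncomm_ring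
          rw [e3, ← hxe]
          have e4 : x * (x * e) * (1 - e) = x * x * (e - e * e) := by noncomm_ring
          rw [e4, he, sub_self, mul_zero]
        rw [this, Matrix.map_zero _ (map_zero _)]
      have e2 : ((x * e).map C * w.map C : Matrix n n ℚ[X]) = 0 := by
        rw [← Matrix.map_mul (f := (C : ℚ →+* ℚ[X]))]
        rw [mul_assoc, hew, mul_zero, Matrix.map_zero _ (map_zero _)]
      rw [e1, e2, smul_zero, add_zero]
  -- the truncation
  set I : Ideal ℚ[X] := Ideal.span {X ^ (ν + 1)} with hI
  set π : ℚ[X] →+* ℚ[X] ⧸ I := Ideal.Quotient.mk I with hπ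
  have hπ0 : ∀ p : ℚ[X], π p = 0 ↔ X ^ (ν + 1) ∣ p := fun p => by
    rw [hπ, Ideal.Quotient.eq_zero_iff_mem, hI, Ideal.mem_span_singleton]
  set a : ℚ[X] := (x * e).charpolyRev with ha
  have hamap : ((x * e).map C : Matrix n n ℚ[X]).charpolyRev.map π = a.map (π.comp C) := by
    rw [ha, rev_map (C : ℚ →+* ℚ[X]), Polynomial.map_map]
  have hadeg : a.natDegree = srk x := by rw [ha, ← srk_natDegree, hsrk]
  have ha0 : a ≠ 0 := by
    intro h0
    have := Matrix.eval_charpolyRev (M := x * e)
    rw [← ha, h0] at this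
    simp at this
  have hunit : IsUnit ((π.comp C) a.leadingCoeff) :=
    (isUnit_iff_ne_zero.2 (leadingCoeff_ne_zero.2 ha0)).map _
  have hprod : (a.map (π.comp C) * (N.map π).charpolyRev).natDegree ≤ srk x := by
    rw [natDegree_le_iff_coeff_eq_zero]
    intro k hk
    rw [rev_map, ← hamap, ← Polynomial.map_mul, ← hfac, coeff_map, hπ0]
    exact hdvd k hk
  have hNrev : (N.map π).charpolyRev = 1 := by
    set b := (N.map π).charpolyRev with hb
    have hb0 : b.coeff 0 = 1 := by
      rw [coeff_zero_eq_eval_zero, hb, Matrix.eval_charpolyRev]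
    by_cases htriv : Subsingleton (ℚ[X] ⧸ I)
    · exact Subsingleton.elim _ _
    rw [not_subsingleton_iff_nontrivial] at htriv
    have hlead : (a.map (π.comp C)).leadingCoeff = (π.comp C) a.leadingCoeff :=
      leadingCoeff_map_of_leadingCoeff_ne_zero _ (hunit.ne_zero)
    have hdeg : (a.map (π.comp C)).natDegree = srk x := by
      rw [natDegree_map_of_leadingCoeff_ne_zero _ hunit.ne_zero, hadeg]
    have hbne : b ≠ 0 := by
      intro h0
      rw [h0, coeff_zero] at hb0
      exact zero_ne_one hb0
    have h5 : (a.map (π.comp C)).leadingCoeff * b.leadingCoeff ≠ 0 := by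
      rw [hlead]
      intro h6
      exact leadingCoeff_ne_zero.2 hbne (hunit.mul_right_eq_zero.1 h6)
    rw [natDegree_mul' h5, hdeg] at hprod
    have h6 : b.natDegree = 0 := by omega
    rw [eq_C_of_natDegree_eq_zero h6, hb0, C_1]
  -- the trace
  have h7 := trace_of_rev hNrev hν
  have h8 : ((N.map π) ^ ν).trace = π ((N ^ ν).trace) := by
    have h9 : (N.map π) ^ ν = (N ^ ν).map π := (map_pow π.mapMatrix N ν).symm
    rw [h9, Matrix.trace, Matrix.trace, map_sum]
    rfl
  rw [h8, hπ0, X_pow_dvd_iff] at h7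
  have h10 := h7 ν (Nat.lt_succ_self ν)
  rwa [hN, trace_line_coeff] at h10

end

end Pool.Agent.Helper69K1
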