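import Pool.Agent.Helper69K1.Pow2
import Pool.Agent.Helper69K1.Pow4

/-!
# Stuck points in spaces closed under a power
-/

set_option linter.unusedSectionVars false

namespace Pool.Agent.Helper69K1

open Module Polynomial

section

variable {n : Type} [Fintype n] [DecidableEq n]

/-- The Fitting idempotent is a polynomial without constant term. -/
theorem fit_poly (y : Matrix n n ℚ) : ∃ (H : ℚ[X]) (N : ℕ), aeval y (X * H) * aeval y (X * H) =
    aeval y (X * H) ∧ y ^ N * (1 - aeval y (X * H)) = 0 := by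
  have hχ : y.charpoly ≠ 0 := y.charpoly_monic.ne_zero
  obtain ⟨c, hc1, hc2⟩ := exists_eq_pow_rootMultiplicity_mul_and_not_dvd y.charpoly hχ 0
  rw [C_0, sub_zero] at hc1 hc2
  set a := rootMultiplicity 0 y.charpoly with ha
  have hcop : IsCoprime (X ^ (a + 1)) c :=
    ((irreducible_X.coprime_iff_not_dvd).2 hc2).pow_left
  obtain ⟨u, v, huv⟩ := hcop
  have h0 : aeval y (X ^ a * c) = 0 := by rw [← hc1, y.aeval_self_charpoly]
  refine ⟨u * X ^ a, a, ?_, ?_⟩
  · have e1 : (X * (u * X ^ a) : ℚ[X]) * (X * (u * X ^ a)) =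
        X * (u * X ^ a) - (u * X * v) * (X ^ a * c) := by
      linear_combination (u * X ^ (a + 1)) * huv
    rw [← map_mul, e1, map_sub, map_mul _ _ (X ^ a * c), h0, mul_zero, sub_zero]
  · have e1 : (X ^ a : ℚ[X]) * (1 - X * (u * X ^ a)) = v * (X ^ a * c) := by
      linear_combination (-(X ^ a : ℚ[X])) * huv
    have e2 : y ^ a * (1 - aeval y (X * (u * X ^ a))) =
        aeval y ((X ^ a : ℚ[X]) * (1 - X * (u * X ^ a))) := by
      rw [map_mul (aeval y) (X ^ a) (1 - X * (u * X ^ a)), map_sub, map_one, map_pow, aeval_X]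
    rw [e2, e1, map_mul, h0, mul_zero]

/-- The inverse is a polynomial. -/
theorem inv_poly {y : Matrix n n ℚ} (hy : y.det ≠ 0) : ∃ g : ℚ[X], aeval y (X * g) = 1 := by
  obtain ⟨H, N, -, h⟩ := fit_poly y
  refine ⟨H, ?_⟩
  have hu : IsUnit (y ^ N) := ((Matrix.isUnit_iff_isUnit_det y).2 (isUnit_iff_ne_zero.2 hy)).pow N
  have := (hu.mul_right_eq_zero).1 h
  exact (sub_eq_zero.1 this).symm

theorem idem_trace {f : Matrix n n ℚ} (hf : f * f = f) (ht : f.trace = 0) : f = 0 := by
  have h1 : IsIdempotentElem (Matrix.toLin' f) := by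
    rw [IsIdempotentElem, Module.End.mul_eq_comp, ← Matrix.toLin'_mul, hf]
  have h2 := (LinearMap.isProj_range_iff_isIdempotentElem _).2 h1
  have h3 := h2.trace
  rw [Matrix.trace_toLin'_eq, ht] at h3
  have h4 : finrank ℚ (LinearMap.range (Matrix.toLin' f)) = 0 := by exact_mod_cast h3.symm
  have h5 := LinearMap.range_eq_bot.1 (Submodule.finrank_eq_zero.1 h4)
  exact Matrix.toLin'.injective (by rw [h5, map_zero])

variable {B : Submodule ℚ (Matrix n n ℚ)} {ν : ℕ}

theorem eval_ne {p q : ℚ[X]} (hp : p ≠ 0) (hq : q ≠ 0) : ∃ s : ℚ, p.eval s ≠ 0 ∧ q.eval s ≠ 0 := by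
  by_contra hcon
  push Not at hcon
  apply mul_ne_zero hp hq
  refine Polynomial.funext fun s => ?_
  rw [eval_mul, eval_zero]
  by_cases h : p.eval s = 0
  · rw [h, zero_mul]
  · rw [hcon s h, mul_zero]

/-- **Local maximality of the stable rank decides singularity** for spaces closed under a
power. -/
theorem power_main (hν : 0 < ν) (hB : ∀ X ∈ B, X ^ (1 + ν) ∈ B) {x : Matrix n n ℚ} (hx : x ∈ B)
    (hdet : x.det = 0) (hdvd : ∀ w ∈ B, ∀ k, srk x < k →
      X ^ (ν + 1) ∣ (x.map C + (X : ℚ[X]) • w.map C).charpolyRev.coeff k)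
    {W : Matrix n n ℚ} (hW : W ∈ B) : W.det = 0 := by
  by_contra hWd
  obtain ⟨H, N, he, hN⟩ := fit_poly (x ^ ν)
  set e := aeval (x ^ ν) (X * H) with hedef
  -- commutation
  have hc : ∀ p : ℚ[X], Commute x (aeval (x ^ ν) p) := by
    intro p
    have h1 : aeval (x ^ ν) p = aeval x (p.comp (X ^ ν)) := by
      rw [aeval_comp, map_pow, aeval_X]
    have h2 : x = aeval x (X : ℚ[X]) := (aeval_X x).symm
    rw [h1]
    nth_rw 1 [h2]
    rw [Commute, SemiconjBy, ← map_mul, ← map_mul, mul_comm]
  have hxe : x * e = e * x := hc _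
  have hnil : (x * (1 - e)) ^ (ν * N + 1) = 0 := by
    have h1 : Commute x (1 - e) := by
      rw [Commute, SemiconjBy, mul_sub, sub_mul, mul_one, one_mul, hxe]
    rw [h1.mul_pow, pow_succ (1 - e), mul_comm ν N]
    have h3 : ∀ k, (1 - e) ^ k * (1 - e) = 1 - e := by
      intro k
      induction k with
      | zero => simp
      | succ k ih =>
          rw [pow_succ, ih]
          rw [mul_sub, mul_one, sub_mul, one_mul, he]
          abel
    rw [h3, mul_comm N ν, pow_succ, pow_mul, mul_assoc]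
    have h4 : x * (1 - e) = (1 - e) * x := h1
    rw [h4, ← mul_assoc, hN, zero_mul]
  have hee : e * (1 - e) = 0 := by rw [mul_sub, mul_one, he, sub_self]
  have hee' : (1 - e) * e = 0 := by rw [sub_mul, one_mul, he, sub_self]
  have hff : (1 - e) * (1 - e) = 1 - e := by rw [mul_sub, mul_one, hee', sub_zero]
  -- the inverse of `x` on the regular part
  set b := x * aeval (x ^ ν) H with hb
  have hbx : e = x ^ (ν - 1) * b := by
    rw [hedef, map_mul, aeval_X, hb, ← mul_assoc, ← pow_succ, Nat.sub_add_cancel hν]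
  -- `1 - e` is nonzero
  have hf0 : 1 - e ≠ 0 := by
    intro h0
    have h1 : e = 1 := (sub_eq_zero.1 h0).symm
    have h2 : x * (x ^ (ν - 1) * aeval (x ^ ν) H) = 1 := by
      rw [← mul_assoc, ← pow_succ', Nat.sub_add_cancel hν, ← h1, hedef, map_mul, aeval_X]
    have h3 := congrArg Matrix.det h2
    rw [Matrix.det_mul, hdet, zero_mul, Matrix.det_one] at h3
    exact zero_ne_one h3
  -- a good point
  set P1 : ℚ[X] := ((X : ℚ[X]) • W.map C + x.map C).det with hP1
  have hP1' : P1 ≠ 0 := by
    intro h0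
    have := coeff_det_X_add_C_card W x
    rw [← hP1, h0, coeff_zero] at this
    exact hWd this.symm
  set P2 : ℚ[X] := (e.map C * ((X : ℚ[X]) • W.map C + x.map C) ^ (ν - 1) * e.map C +
    (1 - e).map C).det with hP2
  have hmapev : ∀ (s : ℚ), ((X : ℚ[X]) • W.map C + x.map C).map (evalRingHom s) =
      s • W + x := by
    intro s
    ext i j
    simp [Matrix.map_apply]
    ring
  have hmapC : ∀ (s : ℚ) (M : Matrix n n ℚ), (M.map (C : ℚ →+* ℚ[X])).map (evalRingHom s) = M := by
    intro s M
    ext i j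
    simp [Matrix.map_apply]
  have hev1 : ∀ s : ℚ, P1.eval s = (s • W + x).det := by
    intro s
    rw [hP1, ← coe_evalRingHom, RingHom.map_det, RingHom.mapMatrix_apply, hmapev]
  have hev2 : ∀ s : ℚ, P2.eval s = (e * (s • W + x) ^ (ν - 1) * e + (1 - e)).det := by
    intro s
    rw [hP2, ← coe_evalRingHom, RingHom.map_det, map_add, map_mul, map_mul, map_pow]
    simp only [RingHom.mapMatrix_apply]
    rw [hmapev, hmapC, hmapC]
  have hP2' : P2 ≠ 0 := by
    intro h0
    have h1 := hev2 0
    rw [h0, eval_zero, zero_smul, zero_add] at h1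
    have h2 : (e * x ^ (ν - 1) * e + (1 - e)) * (e * b + (1 - e)) = 1 := by
      have hbe : b * e = e * b := by
        rw [hb]
        have h3 : x * aeval (x ^ ν) H * e = e * (x * aeval (x ^ ν) H) := by
          have h4 : aeval (x ^ ν) H * e = e * aeval (x ^ ν) H := by
            rw [hedef, ← map_mul, ← map_mul, mul_comm]
          rw [mul_assoc, h4, ← mul_assoc, hxe, mul_assoc]
        exact h3
      have e1 : (e * x ^ (ν - 1) * e + (1 - e)) * (e * b + (1 - e)) =
          e * x ^ (ν - 1) * (e * e) * b + e * x ^ (ν - 1) * (e * (1 - e)) +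
            ((1 - e) * e) * b + (1 - e) * (1 - e) := by noncomm_ring
      rw [e1, hee, hee', hff, he, mul_zero, zero_mul, add_zero, add_zero]
      have e2 : e * x ^ (ν - 1) * e * b = e * (x ^ (ν - 1) * (b * e)) := by
        rw [hbe]; noncomm_ring
      rw [e2, ← mul_assoc (x ^ (ν - 1)), ← hbx, he, he]
      abel
    have h3 := congrArg Matrix.det h2
    rw [Matrix.det_mul, ← h1, zero_mul, Matrix.det_one] at h3
    exact zero_ne_one h3
  obtain ⟨s, hs1, hs2⟩ := eval_ne hP1' hP2'
  rw [hev1] at hs1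
  rw [hev2] at hs2
  set U := s • W + x with hU
  have hUB : U ∈ B := B.add_mem (B.smul_mem _ hW) hx
  set V := U ^ (ν - 1) with hV
  -- the inverse of `V` in `B`
  have hUν : (U ^ ν).det ≠ 0 := by rw [Matrix.det_pow]; exact pow_ne_zero _ hs1
  obtain ⟨g, hg⟩ := inv_poly hUν
  set Z := U * aeval (U ^ ν) g with hZ
  have hZB : Z ∈ B := poly_mem_of hB g hUB
  have hZV : Z * V = 1 := by
    have h1 : Commute U (aeval (U ^ ν) g) := by
      have h1 : aeval (U ^ ν) g = aeval U (g.comp (X ^ ν)) := by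
        rw [aeval_comp, map_pow, aeval_X]
      have h2 : U = aeval U (X : ℚ[X]) := (aeval_X U).symm
      rw [h1]
      nth_rw 1 [h2]
      rw [Commute, SemiconjBy, ← map_mul, ← map_mul, mul_comm]
    rw [hZ, h1.eq, mul_assoc, hV, ← pow_succ', Nat.sub_add_cancel hν, ← hg, mul_comm X, map_mul,
      aeval_X]
  -- the corner of `Z`
  set f := 1 - e with hf
  set z := f * Z * f with hz
  have hzB : z ∈ B := corner_mem hB hx he hnil hZB
  have hez : e * z = 0 := by
    rw [hz, ← mul_assoc, ← mul_assoc, hee, zero_mul, zero_mul]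
  have hze : z * e = 0 := by rw [hz, mul_assoc, hee', mul_zero]
  have hfz : f * z = z := by rw [hz, ← mul_assoc, ← mul_assoc, hff]
  -- `z + e` is invertible
  have hzdet : (z + e).det ≠ 0 := by
    have h1 : (1 + e * V * f) * (e * V * e + f) = e * V + f := by
      have e1 : (1 + e * V * f) * (e * V * e + f) =
          e * V * e + f + e * V * (f * e) * V * e + e * V * (f * f) := by noncomm_ring
      rw [e1, hee', hff, hf]
      noncomm_ring
    have h2 : (1 + f * Z * e) * (z + e) = e + f * Z := by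
      have e1 : (1 + f * Z * e) * (z + e) = z + e + f * Z * (e * z) + f * Z * (e * e) := by
        noncomm_ring
      rw [e1, hez, he, hz, hf]
      noncomm_ring
    have h3 : (e + f * Z) * V = e * V + f := by
      rw [add_mul, mul_assoc f, hZV, mul_one]
    have h4 : (1 + e * V * f) * (1 - e * V * f) = 1 := by
      have e1 : (1 + e * V * f) * (1 - e * V * f) = 1 - e * V * (f * e) * V * f := by
        noncomm_ring
      rw [e1, hee', mul_zero, zero_mul, zero_mul, sub_zero]
    have h5 : (1 + e * V * f).det ≠ 0 := by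
      intro h0
      have := congrArg Matrix.det h4
      rw [Matrix.det_mul, h0, zero_mul, Matrix.det_one] at this
      exact zero_ne_one this
    intro h0
    have h6 := congrArg Matrix.det h2
    rw [Matrix.det_mul, h0, mul_zero] at h6
    have h7 := congrArg Matrix.det h3
    rw [Matrix.det_mul, ← h6, zero_mul, ← h1, Matrix.det_mul] at h7
    exact mul_ne_zero h5 hs2 h7.symm
  -- traces of powers of `z`
  have htr : ∀ j : ℕ, (z ^ ((j + 1) * ν)).trace = 0 := by
    intro j
    obtain ⟨c, -, h1, h2⟩ := pow_expand1 z (z ^ (1 + j * ν)) ν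
    have h3 : c 1 ∈ LinearMap.ker (Matrix.traceLinearMap n ℚ ℚ) := by
      refine extract (d := ν + 2) (fun t => ?_) (by omega)
      rw [← h2 (ν + 2) (by omega), LinearMap.mem_ker]
      have hwB : z + t • z ^ (1 + j * ν) ∈ B :=
        B.add_mem hzB (B.smul_mem _ (pow_mem_of hB j hzB))
      refine stuck_trace hν he hxe ⟨_, hnil⟩ ?_ (hdvd _ hwB)
      rw [mul_add, hez, mul_smul_comm, add_comm 1 (j * ν), pow_succ', ← mul_assoc, hez, zero_mul,
        smul_zero, add_zero]
    rw [h1, dpow_comm, LinearMap.mem_ker, map_smul] at h3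
    have h4 : ((ν : ℕ) : ℚ) ≠ 0 := by exact_mod_cast hν.ne'
    have h5 := (smul_eq_zero.1 h3).resolve_left h4
    have e1 : 1 + j * ν + ν - 1 = (j + 1) * ν := by
      have : (j + 1) * ν = j * ν + ν := by ring
      omega
    rw [e1] at h5
    exact h5
  -- the contradiction
  have hzν : ((z + e) ^ ν).det ≠ 0 := by rw [Matrix.det_pow]; exact pow_ne_zero _ hzdet
  obtain ⟨p, hp⟩ := inv_poly hzν
  have hpow : ∀ k : ℕ, f * (z + e) ^ (k + 1) = z ^ (k + 1) := by
    intro k
    induction k with
    | zero => rw [zero_add, pow_one, pow_one, mul_add, hfz, hee', add_zero]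
    | succ k ih =>
        rw [pow_succ, ← mul_assoc, ih, mul_add, ← pow_succ, pow_succ z k, mul_assoc (z ^ k), hze,
          mul_zero, add_zero]
  have hfe : f = ∑ k ∈ Finset.range (p.natDegree + 1), p.coeff k • z ^ ((k + 1) * ν) := by
    have h1 : f = f * aeval ((z + e) ^ ν) (X * p) := by rw [hp, mul_one]
    rw [h1, map_mul, aeval_X, aeval_eq_sum_range, Finset.mul_sum, Finset.mul_sum]
    refine Finset.sum_congr rfl fun k _ => ?_
    rw [mul_smul_comm, mul_smul_comm, ← pow_succ', ← pow_mul, mul_comm ν (k + 1)]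
    congr 1
    have hpos : 0 < (k + 1) * ν := by positivity
    obtain ⟨i, hi⟩ : ∃ i, (k + 1) * ν = i + 1 := ⟨(k + 1) * ν - 1, by omega⟩
    rw [hi]
    exact hpow i
  apply hf0
  refine idem_trace hff ?_
  rw [hfe, Matrix.trace_sum]
  refine Finset.sum_eq_zero fun k _ => ?_
  rw [Matrix.trace_smul, htr, smul_zero]

end

end Pool.Agent.Helper69K1
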