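import Pool.Agent.H420_NCF.Spec
import Mathlib.Algebra.MvPolynomial.Funext

/-!
# Symbolic matrices
-/

namespace Pool.Agent.Helper69K1

/-- A symbolic matrix, given row by row; each entry is a list of pairs (coefficient, index of an
indeterminate). -/
abbrev SMat : Type := List (List (List (ℤ × ℕ)))

/-- Every row is as long as the number of rows. -/
def IsSquare (A : SMat) : Prop := ∀ r ∈ A, r.length = A.length

/-- The linear form of a list of pairs (coefficient, index). -/
noncomputable def linForm (e : List (ℤ × ℕ)) : MvPolynomial ℕ ℤ :=
  (e.map fun t => MvPolynomial.C t.1 * MvPolynomial.X t.2).sum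

/-- The matrix of linear forms. -/
noncomputable def symMat (A : SMat) : Matrix (Fin A.length) (Fin A.length) (MvPolynomial ℕ ℤ) :=
  fun i j => linForm ((A.getD i []).getD j [])

/-- The matrix obtained by substituting the rational numbers `c 0, c 1, ...` for the
indeterminates. -/
noncomputable def subst (A : SMat) (c : ℕ → ℚ) : Matrix (Fin A.length) (Fin A.length) ℚ :=
  fun i j => MvPolynomial.aeval c (symMat A i j)

end Pool.Agent.Helper69K1
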