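import Pool.Agent.Helper69K1.Sdit
import Pool.Agent.Helper69K1.Kdir

/-!
# The coefficient matrices of a symbolic matrix
-/

set_option linter.unusedSectionVars false

namespace Pool.Agent.Helper69K1

open Module Pool.Agent.NPC Pool.Agent.NPC.H532 Pool.Agent.H420_NCF Pool.Agent.H687R2.LLL

/-! ## Spans -/

/-- The space of the combinations. -/
noncomputable def spB (N : ℕ) (Bs : List Mat) : Submodule ℚ (Matrix (Fin N) (Fin N) ℚ) :=
  Submodule.span ℚ {M | ∃ B ∈ Bs, M = mq N B}

theorem cq_mem_spB (N : ℕ) (Bs : List Mat) (c : ℕ → ℚ) : cq N Bs c ∈ spB N Bs := by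
  refine Submodule.sum_mem _ fun k hk => Submodule.smul_mem _ _ (Submodule.subset_span ?_)
  have hk' := Finset.mem_range.1 hk
  refine ⟨Bs[k], List.getElem_mem _, ?_⟩
  rw [List.getD_eq_getElem _ _ hk']

theorem cq_single {N : ℕ} {Bs : List Mat} {k : ℕ} (hk : k < Bs.length) :
    cq N Bs (Pi.single k 1) = mq N (Bs.getD k []) := by
  rw [cq, Finset.sum_eq_single k]
  · rw [Pi.single_eq_same, one_smul]
  · intro b _ hb
    rw [Pi.single_eq_of_ne hb, zero_smul]
  · intro h
    exact absurd (Finset.mem_range.2 hk) h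

/-- the combinations as a linear map -/
noncomputable def cqL (N : ℕ) (Bs : List Mat) : (ℕ → ℚ) →ₗ[ℚ] Matrix (Fin N) (Fin N) ℚ where
  toFun := cq N Bs
  map_add' := cq_add N Bs
  map_smul' := cq_smul N Bs

theorem mem_spB {N : ℕ} {Bs : List Mat} {M : Matrix (Fin N) (Fin N) ℚ} :
    M ∈ spB N Bs ↔ ∃ c : ℕ → ℚ, M = cq N Bs c := by
  constructor
  · intro h
    have h1 : spB N Bs ≤ LinearMap.range (cqL N Bs) := by
      refine Submodule.span_le.2 ?_
      rintro _ ⟨B, hB, rfl⟩
      obtain ⟨k, hk, rfl⟩ := List.getElem_of_mem hB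
      refine ⟨Pi.single k 1, ?_⟩
      change cq N Bs (Pi.single k 1) = _
      rw [cq_single hk, List.getD_eq_getElem _ _ hk]
    obtain ⟨c, hc⟩ := h1 h
    exact ⟨c, hc.symm⟩
  · rintro ⟨c, rfl⟩
    exact cq_mem_spB _ _ _

/-! ## Reading the coefficient matrices -/

/-- The indices which occur. -/
def vars (A : SMat) : List ℕ := A.flatMap fun r => r.flatMap fun e => e.map fun t => t.2

/-- A coefficient matrix. -/
def coefM (A : SMat) (v : ℕ) : Mat :=
  tab A.length fun i j => (((A.getD i []).getD j []).map fun t => if t.2 = v then t.1 else 0).sum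

/-- The coefficient matrices. -/
def coeffs (A : SMat) : List Mat := (vars A).map fun v => coefM A v

/-- The size in unary, and the coefficient matrices. -/
def inp (A : SMat) : Inp := (A.map fun _ => (), coeffs A)

theorem length_inp (A : SMat) : (inp A).1.length = A.length := by simp [inp]

section

variable {α : Type} [TEnc α]

theorem poly_vars {A : α → SMat} (hA : Poly A) : Poly (fun a => vars (A a)) := by
  unfold vars
  refine Poly.flatMap (F := fun _ (r : List (List (ℤ × ℕ))) =>
    r.flatMap fun e => e.map fun t => t.2) hA ?_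
  refine Poly.flatMap (α := α × List (List (ℤ × ℕ))) (l := fun p => p.2)
    (F := fun _ (e : List (ℤ × ℕ)) => e.map fun t => t.2) (Poly.snd Poly.id) ?_
  exact NPC.Poly.map (α := (α × List (List (ℤ × ℕ))) × List (ℤ × ℕ)) (l := fun p => p.2)
    (F := fun _ (t : ℤ × ℕ) => t.2) (Poly.snd Poly.id) (Poly.snd (Poly.snd Poly.id))

theorem poly_coefM {A : α → SMat} {v : α → ℕ} (hA : Poly A) (hv : Poly v) :
    Poly (fun a => coefM (A a) (v a)) := by
  unfold coefM
  refine Poly_tab (f := fun a i j => ((((A a).getD i []).getD j []).map fun t =>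
    if t.2 = v a then t.1 else 0).sum) (UPoly.length hA) ?_
  refine Poly_sumZ ?_
  have h1 : Poly (fun p : (α × ℕ) × ℕ => A p.1.1) := hA.comp (Poly.fst (Poly.fst Poly.id))
  refine NPC.Poly.map (α := (α × ℕ) × ℕ) (F := fun p (t : ℤ × ℕ) =>
    if t.2 = v p.1.1 then t.1 else 0)
    (Poly.getD (Poly.getD h1 (Poly.snd (Poly.fst Poly.id)) (NPC.Poly.const []))
      (Poly.snd Poly.id) (NPC.Poly.const [])) ?_
  exact Poly.ite (p := fun q : ((α × ℕ) × ℕ) × (ℤ × ℕ) => q.2.2 = v q.1.1.1)
    (Poly.decide_eq (Poly.snd (Poly.snd Poly.id)) (hv.comp (Poly.fst (Poly.fst (Poly.fst Poly.id)))))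
    (Poly.fst (Poly.snd Poly.id)) (NPC.Poly.const 0)

theorem poly_coeffs {A : α → SMat} (hA : Poly A) : Poly (fun a => coeffs (A a)) := by
  unfold coeffs
  refine NPC.Poly.map (F := fun a v => coefM (A a) v) (poly_vars hA) ?_
  exact poly_coefM (hA.comp (Poly.fst Poly.id)) (Poly.snd Poly.id)

theorem poly_unit {A : α → SMat} (hA : Poly A) : Poly (fun a => (A a).map fun _ => ()) :=
  NPC.Poly.map (F := fun _ (_ : List (List (ℤ × ℕ))) => ()) hA (NPC.Poly.const ())

theorem poly_inp {A : α → SMat} (hA : Poly A) : Poly (fun a => inp (A a)) :=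
  Poly.pair (poly_unit hA) (poly_coeffs hA)

theorem poly_isSquare {A : α → SMat} (hA : Poly A) :
    Poly (fun a => (A a).all fun r => decide (r.length = (A a).length)) := by
  refine Poly.all (p := fun a (r : List (List (ℤ × ℕ))) => decide (r.length = (A a).length)) hA ?_
  exact Poly.decide_eq (Poly.length (Poly.snd Poly.id)) (Poly.length (hA.comp (Poly.fst Poly.id)))

end

theorem isSquare_iff (A : SMat) :
    (A.all fun r => decide (r.length = A.length)) = true ↔ IsSquare A := by
  simp [IsSquare]

/-! ## Substitutions -/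

theorem aeval_linForm (c : ℕ → ℚ) (e : List (ℤ × ℕ)) :
    MvPolynomial.aeval c (linForm e) = (e.map fun t => (t.1 : ℚ) * c t.2).sum := by
  unfold linForm
  induction e with
  | nil => simp
  | cons t e ih =>
      rw [List.map_cons, List.sum_cons, map_add, ih, List.map_cons, List.sum_cons, map_mul,
        MvPolynomial.aeval_X, MvPolynomial.aeval_C]
      simp

/-- substitution as a linear map -/
noncomputable def substL (A : SMat) : (ℕ → ℚ) →ₗ[ℚ] Matrix (Fin A.length) (Fin A.length) ℚ where
  toFun := subst A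
  map_add' c d := by
    ext i j
    simp only [subst, symMat, aeval_linForm, Matrix.add_apply]
    generalize ((A.getD i []).getD j []) = e
    induction e with
    | nil => simp
    | cons t e ih =>
        rw [List.map_cons, List.sum_cons, ih, List.map_cons, List.sum_cons, List.map_cons,
          List.sum_cons, Pi.add_apply]
        ring
  map_smul' s c := by
    ext i j
    simp only [subst, symMat, aeval_linForm, Matrix.smul_apply, RingHom.id_apply, smul_eq_mul]
    generalize ((A.getD i []).getD j []) = e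
    induction e with
    | nil => simp
    | cons t e ih =>
        rw [List.map_cons, List.sum_cons, ih, List.map_cons, List.sum_cons, Pi.smul_apply,
          smul_eq_mul]
        ring

theorem subst_single (A : SMat) (v : ℕ) :
    subst A (Pi.single v 1) = mq A.length (coefM A v) := by
  ext i j
  rw [mq, coefM, entry_tab _ i.2 j.2]
  simp only [subst, symMat, aeval_linForm]
  generalize ((A.getD i []).getD j []) = e
  induction e with
  | nil => simp
  | cons t e ih =>
      rw [List.map_cons, List.sum_cons, ih, List.map_cons, List.sum_cons]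
      push_cast
      congr 1
      by_cases h : t.2 = v
      · rw [h]; simp
      · rw [Pi.single_eq_of_ne h]; simp [h]

theorem sum_split (c : ℕ → ℚ) (F : Finset ℕ) (e : List (ℤ × ℕ)) (he : ∀ t ∈ e, t.2 ∈ F) :
    (e.map fun t => (t.1 : ℚ) * c t.2).sum =
      ∑ v ∈ F, c v * (((e.map fun t => if t.2 = v then t.1 else 0).sum : ℤ) : ℚ) := by
  induction e with
  | nil => simp
  | cons t e ih =>
      rw [List.map_cons, List.sum_cons, ih fun s hs => he s (List.mem_cons_of_mem _ hs)]
      have h1 : (t.1 : ℚ) * c t.2 = ∑ v ∈ F, c v * ((if t.2 = v then t.1 else 0 : ℤ) : ℚ) := by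
        rw [Finset.sum_eq_single t.2]
        · rw [if_pos rfl]; ring
        · intro b _ hb
          rw [if_neg (Ne.symm hb)]; simp
        · intro h
          exact absurd (he t (by simp)) h
      rw [h1, ← Finset.sum_add_distrib]
      refine Finset.sum_congr rfl fun v _ => ?_
      rw [List.map_cons, List.sum_cons]
      push_cast
      ring

theorem subst_eq_sum (A : SMat) (c : ℕ → ℚ) :
    subst A c = ∑ v ∈ (vars A).toFinset, c v • mq A.length (coefM A v) := by
  ext i j
  rw [Matrix.sum_apply]
  simp only [subst, symMat, aeval_linForm]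
  rw [sum_split c (vars A).toFinset]
  · refine Finset.sum_congr rfl fun v _ => ?_
    rw [Matrix.smul_apply, smul_eq_mul, mq, coefM, entry_tab _ i.2 j.2]
  · intro t ht
    rw [List.mem_toFinset]
    unfold vars
    rw [List.mem_flatMap]
    have h1 : (i : ℕ) < A.length := i.2
    rw [List.getD_eq_getElem _ _ h1] at ht
    by_cases h2 : (j : ℕ) < A[(i : ℕ)].length
    · rw [List.getD_eq_getElem _ _ h2] at ht
      exact ⟨_, List.getElem_mem h1, List.mem_flatMap.2 ⟨_, List.getElem_mem h2,
        List.mem_map.2 ⟨t, ht, rfl⟩⟩⟩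
    · rw [List.getD_eq_default _ _ (not_lt.1 h2)] at ht
      simp at ht

theorem mem_range_subst {A : SMat} {M : Matrix (Fin A.length) (Fin A.length) ℚ} :
    (∃ c, M = subst A c) ↔ M ∈ spB A.length (coeffs A) := by
  constructor
  · rintro ⟨c, rfl⟩
    rw [subst_eq_sum]
    refine Submodule.sum_mem _ fun v hv => Submodule.smul_mem _ _ (Submodule.subset_span ?_)
    exact ⟨coefM A v, List.mem_map.2 ⟨v, List.mem_toFinset.1 hv, rfl⟩, rfl⟩
  · intro h
    have h1 : spB A.length (coeffs A) ≤ LinearMap.range (substL A) := by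
      refine Submodule.span_le.2 ?_
      rintro _ ⟨B, hB, rfl⟩
      obtain ⟨v, -, rfl⟩ := List.mem_map.1 hB
      exact ⟨Pi.single v 1, subst_single A v⟩
    obtain ⟨c, hc⟩ := h1 h
    exact ⟨c, hc.symm⟩

theorem aeval_det (A : SMat) (c : ℕ → ℚ) :
    MvPolynomial.aeval c (symMat A).det = (subst A c).det := by
  have h := RingHom.map_det ((MvPolynomial.aeval c : MvPolynomial ℕ ℤ →ₐ[ℤ] ℚ) :
    MvPolynomial ℕ ℤ →+* ℚ) (symMat A)
  exact h

theorem det_ne_zero_iff (A : SMat) : (symMat A).det ≠ 0 ↔ ∃ c, (subst A c).det ≠ 0 := by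
  constructor
  · intro h
    by_contra hcon
    push Not at hcon
    apply h
    have hinj : Function.Injective (MvPolynomial.map (σ := ℕ) (Int.castRingHom ℚ)) :=
      MvPolynomial.map_injective _ Int.cast_injective
    apply hinj
    rw [map_zero]
    refine MvPolynomial.funext fun c => ?_
    rw [map_zero, MvPolynomial.eval_map, ← hcon c, ← aeval_det]
    rfl
  · rintro ⟨c, hc⟩ h
    apply hc
    rw [← aeval_det, h, map_zero]

end Pool.Agent.Helper69K1
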