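import Pool.Agent.Helper69K1.LinAlg

/-!
# The local search: definitions and running time
-/

set_option linter.unusedSectionVars false

namespace Pool.Agent.Helper69K1

open Module Pool.Agent.NPC Pool.Agent.NPC.H532 Pool.Agent.H420_NCF Pool.Agent.H687R2.LLL

variable {α : Type} [TEnc α]

/-- A combination of integer matrices. -/
def cmb (N : ℕ) (Bs : List Mat) (c : List ℤ) : Mat :=
  tab N fun i j => (List.zipWith (fun B t => t * entry B i j) Bs c).sum

theorem poly_cmb {N : α → ℕ} {Bs : α → List Mat} {c : α → List ℤ} (hN : UPoly N) (hB : Poly Bs)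
    (hc : Poly c) : Poly (fun a => cmb (N a) (Bs a) (c a)) := by
  unfold cmb
  refine Poly_tab (f := fun a i j =>
    (List.zipWith (fun B t => t * entry B i j) (Bs a) (c a)).sum) hN ?_
  refine Poly_sumZ ?_
  have h1 : Poly (fun p : (α × ℕ) × ℕ => p.1.1) := Poly.fst (Poly.fst Poly.id)
  refine Poly.zipWith (F := fun (p : (α × ℕ) × ℕ) (B : Mat) (t : ℤ) => t * entry B p.1.2 p.2)
    (hB.comp h1) (hc.comp h1) ?_
  refine Poly_mulZ (Poly.snd (Poly.snd Poly.id)) (Poly_entry (Poly.fst (Poly.snd Poly.id)) ?_ ?_)
  · exact Poly.snd (Poly.fst (Poly.fst Poly.id))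
  · exact Poly.snd (Poly.fst Poly.id)

/-- Changing a coefficient. -/
def upd (c : List ℤ) (k t : ℕ) : List ℤ :=
  (List.range c.length).map fun j => if j = k then (t : ℤ) else c.getD j 0

/-- Adding a multiple of a vector. -/
def addv (c u : List ℤ) (t : ℕ) : List ℤ :=
  (List.range c.length).map fun j => c.getD j 0 + (t : ℤ) * u.getD j 0

theorem poly_upd {c : α → List ℤ} {k t : α → ℕ} (hc : Poly c) (hk : Poly k) (ht : Poly t) :
    Poly (fun a => upd (c a) (k a) (t a)) := by
  unfold upd
  refine NPC.Poly.map (F := fun a j => if j = k a then (t a : ℤ) else (c a).getD j 0)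
    (Poly.range_length hc) ?_
  refine Poly.ite (p := fun q : α × ℕ => q.2 = k q.1)
    (Poly.decide_eq (Poly.snd Poly.id) (hk.comp (Poly.fst Poly.id))) ?_ ?_
  · exact Poly_ofNat (ht.comp (Poly.fst Poly.id))
  · exact Poly.getD (hc.comp (Poly.fst Poly.id)) (Poly.snd Poly.id) (NPC.Poly.const 0)

theorem poly_addv {c u : α → List ℤ} {t : α → ℕ} (hc : Poly c) (hu : Poly u) (ht : Poly t) :
    Poly (fun a => addv (c a) (u a) (t a)) := by
  unfold addv
  refine NPC.Poly.map (F := fun a j => (c a).getD j 0 + (t a : ℤ) * (u a).getD j 0)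
    (Poly.range_length hc) ?_
  refine Poly_addZ (Poly.getD (hc.comp (Poly.fst Poly.id)) (Poly.snd Poly.id) (NPC.Poly.const 0)) ?_
  exact Poly_mulZ (Poly_ofNat (ht.comp (Poly.fst Poly.id)))
    (Poly.getD (hu.comp (Poly.fst Poly.id)) (Poly.snd Poly.id) (NPC.Poly.const 0))

/-- The size of the matrices (in unary) and a list of matrices. -/
abbrev Inp : Type := List Unit × List Mat

/-- The stable rank of a combination. -/
noncomputable def sr (I : Inp) (c : List ℤ) : ℕ := srkL (cmb I.1.length I.2 c)

theorem poly_sr {I : α → Inp} {c : α → List ℤ} (hI : Poly I) (hc : Poly c) :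
    Poly (fun a => sr (I a) (c a)) :=
  poly_srkL.comp (poly_cmb (UPoly.length (Poly.fst hI)) (Poly.snd hI) hc)

/-- All points reached from `c` by `r` moves in the directions `D`. -/
def moves (N : ℕ) (D : List (List ℤ)) : ℕ → List ℤ → List (List ℤ)
  | 0, c => [c]
  | r + 1, c => (moves N D r c).flatMap fun c' => D.flatMap fun u =>
      (List.range (N + 1)).map fun t => addv c' u t

theorem poly_moves {N : α → ℕ} {D : α → List (List ℤ)} {c : α → List ℤ} (hN : UPoly N)
    (hD : Poly D) (hc : Poly c) (r : ℕ) : Poly (fun a => moves (N a) (D a) r (c a)) := by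
  induction r with
  | zero => exact Poly.cons hc (NPC.Poly.const [])
  | succ r ih =>
      refine Poly.flatMap (F := fun a c' => (D a).flatMap fun u =>
        (List.range (N a + 1)).map fun t => addv c' u t) ih ?_
      refine Poly.flatMap (α := α × List ℤ) (l := fun p => D p.1) (F := fun p u =>
        (List.range (N p.1 + 1)).map fun t => addv p.2 u t) (hD.comp (Poly.fst Poly.id)) ?_
      refine NPC.Poly.map (α := (α × List ℤ) × List ℤ) (l := fun p => List.range (N p.1.1 + 1))
        (F := fun p t => addv p.1.2 p.2 t)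
        ((hN.add (UPoly.const 1)).comp (Poly.fst (Poly.fst Poly.id))).range ?_
      exact poly_addv (Poly.snd (Poly.fst (Poly.fst Poly.id))) (Poly.snd (Poly.fst Poly.id))
        (Poly.snd Poly.id)

/-- Replacing a coefficient by a small one. -/
noncomputable def shrink1 (I : Inp) (c : List ℤ) (k : ℕ) : List ℤ :=
  ((((List.range (I.1.length + 1)).map fun t => upd c k t).filter
    fun c' => decide (sr I c ≤ sr I c')).head?).getD (upd c k 0)

theorem poly_shrink1 {I : α → Inp} {c : α → List ℤ} {k : α → ℕ} (hI : Poly I) (hc : Poly c)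
    (hk : Poly k) : Poly (fun a => shrink1 (I a) (c a) (k a)) := by
  unfold shrink1
  refine Poly.optGetD (Poly.head? (Poly.filter (p := fun a c' =>
    decide (sr (I a) (c a) ≤ sr (I a) c')) (NPC.Poly.map (F := fun a t => upd (c a) (k a) t)
      ((UPoly.length (Poly.fst hI)).add (UPoly.const 1)).range ?_) ?_))
      (poly_upd hc hk (NPC.Poly.const 0))
  · exact poly_upd (hc.comp (Poly.fst Poly.id)) (hk.comp (Poly.fst Poly.id)) (Poly.snd Poly.id)
  · exact Poly.decide_le (poly_sr (hI.comp (Poly.fst Poly.id)) (hc.comp (Poly.fst Poly.id)))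
      (poly_sr (hI.comp (Poly.fst Poly.id)) (Poly.snd Poly.id))

theorem shrink1_mem (I : Inp) (c : List ℤ) (k : ℕ) :
    ∃ t < I.1.length + 1, shrink1 I c k = upd c k t := by
  unfold shrink1
  cases h : (((List.range (I.1.length + 1)).map fun t => upd c k t).filter
    fun c' => decide (sr I c ≤ sr I c')).head? with
  | none => exact ⟨0, by omega, rfl⟩
  | some c' =>
      have h1 := List.mem_of_mem_head? h
      rw [List.mem_filter, List.mem_map] at h1
      obtain ⟨⟨t, ht, rfl⟩, h2⟩ := h1
      exact ⟨t, List.mem_range.1 ht, rfl⟩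

theorem shrink1_le (I : Inp) (c : List ℤ) (k : ℕ)
    (hex : ∃ t < I.1.length + 1, sr I c ≤ sr I (upd c k t)) : sr I c ≤ sr I (shrink1 I c k) := by
  unfold shrink1
  cases h : (((List.range (I.1.length + 1)).map fun t => upd c k t).filter
    fun c' => decide (sr I c ≤ sr I c')).head? with
  | none =>
      exfalso
      obtain ⟨t, ht, h1⟩ := hex
      rw [List.head?_eq_none_iff, List.filter_eq_nil_iff] at h
      exact h (upd c k t) (List.mem_map.2 ⟨t, List.mem_range.2 ht, rfl⟩) (by simpa using h1)
  | some c' =>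
      have h1 := List.mem_of_mem_head? h
      rw [List.mem_filter, List.mem_map] at h1
      simpa using h1.2

/-- Replacing all coefficients by small ones. -/
noncomputable def shrink (I : Inp) (c : List ℤ) : List ℤ :=
  (List.range c.length).foldl (fun s k => shrink1 I s k) c

theorem length_upd (c : List ℤ) (k t : ℕ) : (upd c k t).length = c.length := by simp [upd]

theorem length_shrink1 (I : Inp) (c : List ℤ) (k : ℕ) : (shrink1 I c k).length = c.length := by
  obtain ⟨t, -, h⟩ := shrink1_mem I c k
  rw [h, length_upd]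

theorem upd_bound {c : List ℤ} {k t e : ℕ} (hc : ∀ x ∈ c, x.natAbs < 2 ^ e) (ht : t < 2 ^ e) :
    ∀ x ∈ upd c k t, x.natAbs < 2 ^ e := by
  intro x hx
  rw [upd, List.mem_map] at hx
  obtain ⟨j, hj, rfl⟩ := hx
  split_ifs
  · simpa using ht
  · rw [List.getD_eq_getElem _ _ (List.mem_range.1 hj)]
    exact hc _ (List.getElem_mem _)

theorem shrink1_bound {I : Inp} {c : List ℤ} {k e : ℕ} (hc : ∀ x ∈ c, x.natAbs < 2 ^ e)
    (hI : I.1.length < 2 ^ e) : ∀ x ∈ shrink1 I c k, x.natAbs < 2 ^ e := by
  obtain ⟨t, ht, h⟩ := shrink1_mem I c k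
  rw [h]
  exact upd_bound hc (by omega)

theorem foldl_shrink1 {I : Inp} {e : ℕ} (l : List ℕ) : ∀ (c : List ℤ),
    (∀ x ∈ c, x.natAbs < 2 ^ e) → I.1.length < 2 ^ e →
    (l.foldl (fun s k => shrink1 I s k) c).length = c.length ∧
      ∀ x ∈ l.foldl (fun s k => shrink1 I s k) c, x.natAbs < 2 ^ e := by
  induction l with
  | nil => intro c hc _; exact ⟨rfl, hc⟩
  | cons k l ih =>
      intro c hc hI
      rw [List.foldl_cons]
      obtain ⟨h1, h2⟩ := ih (shrink1 I c k) (shrink1_bound hc hI) hI
      exact ⟨h1.trans (length_shrink1 I c k), h2⟩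

theorem natAbs_lt_of_mem {c : List ℤ} {x : ℤ} (hx : x ∈ c) : x.natAbs < 2 ^ sz c := by
  have h1 := sz_le_of_mem hx
  have h2 := ib_le_sz x
  exact (ib_le_iff x _).1 (by omega)

theorem lt_two_pow_sz {β : Type} [TEnc β] (l : List β) : l.length < 2 ^ sz l :=
  lt_of_lt_of_le (length_lt_sz l) Nat.lt_two_pow_self.le

theorem poly_shrink {I : α → Inp} {c : α → List ℤ} (hI : Poly I) (hc : Poly c) :
    Poly (fun a => shrink (I a) (c a)) := by
  unfold shrink
  obtain ⟨p, hp⟩ := hI.sz_le
  obtain ⟨q, hq⟩ := hc.sz_le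
  refine Poly.foldl (l := fun a => List.range (c a).length) (F := fun a s k => shrink1 (I a) s k)
    (Poly.range_length hc) hc ?_
    (q * (Polynomial.C 4 * (p + q) + Polynomial.C 6) + Polynomial.C 1) ?_
  · exact poly_shrink1 (hI.comp (Poly.fst Poly.id)) (Poly.fst (Poly.snd Poly.id))
      (Poly.snd (Poly.snd Poly.id))
  · intro a k _
    have hpa := hp a
    have hqa := hq a
    have h1 : ∀ x ∈ c a, x.natAbs < 2 ^ (p.eval (sz a) + q.eval (sz a)) := fun x hx =>
      lt_of_lt_of_le (natAbs_lt_of_mem hx) (Nat.pow_le_pow_right (by norm_num) (by omega))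
    have h2 : (I a).1.length < 2 ^ (p.eval (sz a) + q.eval (sz a)) := by
      refine lt_of_lt_of_le (lt_two_pow_sz (I a).1) (Nat.pow_le_pow_right (by norm_num) ?_)
      have : sz (I a) = sz (I a).1 + sz (I a).2 + 1 := sz_pair _ _
      omega
    obtain ⟨h3, h4⟩ := foldl_shrink1 ((List.range (c a).length).take k) (c a) h1 h2
    have h5 := length_lt_sz (c a)
    refine (Pool.Agent.NPC.H670R2.sz_vec_le (b := q.eval (sz a)) (by omega) h4).trans ?_
    simp only [Polynomial.eval_add, Polynomial.eval_mul, Polynomial.eval_C]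
    exact le_rfl

/-- One step of the local search. -/
noncomputable def step (dirs : Inp × List ℤ → List (List ℤ)) (r : ℕ) (I : Inp) (c : List ℤ) :
    List ℤ :=
  (((moves I.1.length (dirs (I, c)) r c).filter fun c' =>
    decide (sr I c < sr I c')).head?.map (shrink I)).getD c

theorem poly_step {dirs : Inp × List ℤ → List (List ℤ)} (hd : Poly dirs) (r : ℕ) :
    Poly (fun p : Inp × List ℤ => step dirs r p.1 p.2) := by
  unfold step
  have h1 : Poly (fun p : Inp × List ℤ => moves p.1.1.length (dirs (p.1, p.2)) r p.2) :=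
    poly_moves (UPoly.length (Poly.fst (Poly.fst Poly.id)))
      (hd.comp (Poly.pair (Poly.fst Poly.id) (Poly.snd Poly.id))) (Poly.snd Poly.id) r
  refine Poly.optGetD (Poly.optMap_fp (h := fun (p : Inp × List ℤ) c' => shrink p.1 c')
    (Poly.head? (Poly.filter (p := fun (p : Inp × List ℤ) c' => decide (sr p.1 p.2 < sr p.1 c'))
      h1 ?_)) ?_) (Poly.snd Poly.id)
  · exact Poly.decide_lt (poly_sr (Poly.fst (Poly.fst Poly.id)) (Poly.snd (Poly.fst Poly.id)))
      (poly_sr (Poly.fst (Poly.fst Poly.id)) (Poly.snd Poly.id))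
  · exact poly_shrink (Poly.fst (Poly.fst Poly.id)) (Poly.snd Poly.id)

/-- The local search. -/
noncomputable def loc (dirs : Inp × List ℤ → List (List ℤ)) (r : ℕ) (I : Inp) : List ℤ :=
  (step dirs r I)^[I.1.length + 1] (List.replicate I.2.length 0)

theorem getD_upd (c : List ℤ) (k t j : ℕ) : (upd c k t).getD j 0 =
    if j < c.length then (if j = k then (t : ℤ) else c.getD j 0) else 0 := by
  unfold upd
  split_ifs with h1 h2
  · rw [List.getD_eq_getElem _ _ (by simpa using h1)]
    simp [h2]
  · rw [List.getD_eq_getElem _ _ (by simpa using h1)]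
    simp [h2]
  · rw [List.getD_eq_default _ _ (by simpa using h1)]

theorem foldl_small {I : Inp} (l : List ℕ) : ∀ (c : List ℤ) (S : Set ℕ),
    (∀ j ∈ S, (c.getD j 0).natAbs ≤ I.1.length) →
    ∀ j, j ∈ S ∨ j ∈ l → ((l.foldl (fun s k => shrink1 I s k) c).getD j 0).natAbs ≤ I.1.length := by
  induction l with
  | nil => intro c S hc j hj; simpa using hc j (by simpa using hj)
  | cons k l ih =>
      intro c S hc j hj
      rw [List.foldl_cons]
      refine ih (shrink1 I c k) (insert k S) (fun i hi => ?_) j ?_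
      · obtain ⟨t, ht, h⟩ := shrink1_mem I c k
        rw [h, getD_upd]
        split_ifs with h1 h2
        · simp; omega
        · exact hc i (by
            rcases hi with hi | hi
            · exact absurd hi h2
            · exact hi)
        · simp
      · rcases hj with hj | hj
        · exact Or.inl (Set.mem_insert_of_mem _ hj)
        · rcases List.mem_cons.1 hj with hj | hj
          · exact Or.inl (by rw [hj]; exact Set.mem_insert _ _)
          · exact Or.inr hj

theorem shrink_spec (I : Inp) (c : List ℤ) : (shrink I c).length = c.length ∧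
    ∀ x ∈ shrink I c, x.natAbs ≤ I.1.length := by
  have hlen : (shrink I c).length = c.length := by
    have key : ∀ (l : List ℕ) (c : List ℤ),
        (l.foldl (fun s k => shrink1 I s k) c).length = c.length := by
      intro l
      induction l with
      | nil => intro c; rfl
      | cons k l ih => intro c; rw [List.foldl_cons, ih, length_shrink1]
    exact key _ c
  refine ⟨hlen, fun x hx => ?_⟩
  obtain ⟨j, hj, rfl⟩ := List.getElem_of_mem hx
  have h1 := foldl_small (I := I) (List.range c.length) c ∅ (by simp) j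
    (Or.inr (List.mem_range.2 (by omega)))
  change ((shrink I c).getD j 0).natAbs ≤ _ at h1
  rwa [List.getD_eq_getElem _ _ hj] at h1

theorem length_moves {N : ℕ} {D : List (List ℤ)} {r : ℕ} {c c' : List ℤ}
    (h : c' ∈ moves N D r c) : c'.length = c.length := by
  induction r generalizing c' with
  | zero => simp only [moves, List.mem_singleton] at h; rw [h]
  | succ r ih =>
      simp only [moves, List.mem_flatMap, List.mem_map] at h
      obtain ⟨a, ha, u, _, t, _, rfl⟩ := h
      rw [addv, List.length_map, List.length_range, ih ha]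

theorem step_cases (dirs : Inp × List ℤ → List (List ℤ)) (r : ℕ) (I : Inp) (c : List ℤ) :
    (step dirs r I c = c ∧ ∀ c' ∈ moves I.1.length (dirs (I, c)) r c, sr I c' ≤ sr I c) ∨
    ∃ c' ∈ moves I.1.length (dirs (I, c)) r c, sr I c < sr I c' ∧ step dirs r I c = shrink I c' := by
  unfold step
  cases h : ((moves I.1.length (dirs (I, c)) r c).filter fun c' =>
    decide (sr I c < sr I c')).head? with
  | none =>
      left
      refine ⟨rfl, fun c' hc' => ?_⟩
      rw [List.head?_eq_none_iff, List.filter_eq_nil_iff] at h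
      have := h c' hc'
      simp only [decide_eq_true_eq, not_lt] at this
      exact this
  | some c' =>
      right
      have h1 := List.mem_of_mem_head? h
      rw [List.mem_filter] at h1
      exact ⟨c', h1.1, by simpa using h1.2, rfl⟩

theorem iter_bound (dirs : Inp × List ℤ → List (List ℤ)) (r : ℕ) (I : Inp) (k : ℕ) :
    ((step dirs r I)^[k] (List.replicate I.2.length 0)).length = I.2.length ∧
    ∀ x ∈ (step dirs r I)^[k] (List.replicate I.2.length 0), x.natAbs ≤ I.1.length := by
  induction k with
  | zero =>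
      refine ⟨by simp, fun x hx => ?_⟩
      rw [Function.iterate_zero, id_eq] at hx
      rw [List.eq_of_mem_replicate hx]
      simp
  | succ k ih =>
      rw [Function.iterate_succ_apply']
      rcases step_cases dirs r I ((step dirs r I)^[k] (List.replicate I.2.length 0)) with
        ⟨h, -⟩ | ⟨c', hc', -, h⟩
      · rw [h]; exact ih
      · rw [h]
        obtain ⟨h1, h2⟩ := shrink_spec I c'
        exact ⟨h1.trans ((length_moves hc').trans ih.1), h2⟩

theorem poly_loc {dirs : Inp × List ℤ → List (List ℤ)} (hd : Poly dirs) (r : ℕ) :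
    Poly (loc dirs r) := by
  unfold loc
  have hrep : Poly (fun I : Inp => List.replicate I.2.length (0 : ℤ)) := by
    refine (NPC.Poly.map (F := fun (_ : Inp) (_ : Mat) => (0 : ℤ)) (Poly.snd Poly.id)
      (NPC.Poly.const 0)).congr fun I => ?_
    rw [List.map_const']
  refine (Poly.iterLen (l := fun I : Inp => () :: I.1) (F := fun I c => step dirs r I c)
    (Poly.cons (NPC.Poly.const ()) (Poly.fst Poly.id)) hrep (poly_step hd r)
    (Polynomial.X * (Polynomial.C 4 * Polynomial.X + Polynomial.C 6) + Polynomial.C 1)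
    ?_).congr fun I => by rw [List.length_cons]
  intro I k _
  obtain ⟨h1, h2⟩ := iter_bound dirs r I k
  have h3 : sz I = sz I.1 + sz I.2 + 1 := sz_pair _ _
  have h4 := length_lt_sz I.1
  have h5 := length_lt_sz I.2
  have h6 : I.1.length < 2 ^ sz I := lt_of_lt_of_le (lt_two_pow_sz I.1)
    (Nat.pow_le_pow_right (by norm_num) (by omega))
  refine (Pool.Agent.NPC.H670R2.sz_vec_le (b := sz I) (e := sz I) (by omega) fun x hx =>
    lt_of_le_of_lt (h2 x hx) h6).trans ?_
  simp only [Polynomial.eval_add, Polynomial.eval_mul, Polynomial.eval_C, Polynomial.eval_X]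
  exact le_rfl

end Pool.Agent.Helper69K1
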