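import Mathlib

/-!
# Slices for the conjugation action on a space of matrices

Let `B` be a space of rational matrices and `k` a space of matrices with `[M, X] ∈ B` for `M ∈ k`
and `X ∈ B`. Let `S ≤ B` be a subspace and `x ∈ S` with `B = S + [k, x]`. If the determinant
vanishes on `S`, then it vanishes on `B`.
-/

open Matrix Polynomial

set_option linter.unusedSectionVars false

namespace Pool.Agent.Helper69K1

section Conj

variable {A : Type*} [Ring A] [Algebra ℚ A]

/-- Conjugation by an exponential. -/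
theorem exp_conj {a : A} (ha : IsNilpotent a) (z : A) {N : ℕ}
    (hN : (LinearMap.mulLeft ℚ a - LinearMap.mulRight ℚ a) ^ N = 0) :
    IsNilpotent.exp a * z * IsNilpotent.exp (-a) =
      ∑ i ∈ Finset.range N, (i.factorial : ℚ)⁻¹ •
        ((LinearMap.mulLeft ℚ a - LinearMap.mulRight ℚ a) ^ i) z := by
  have hL : IsNilpotent (LinearMap.mulLeft ℚ a) := by
    obtain ⟨k, hk⟩ := ha
    exact ⟨k, by rw [LinearMap.pow_mulLeft, hk, LinearMap.mulLeft_zero_eq_zero]⟩
  have hR : IsNilpotent (LinearMap.mulRight ℚ (-a)) := by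
    obtain ⟨k, hk⟩ := ha.neg
    exact ⟨k, by rw [LinearMap.pow_mulRight, hk, LinearMap.mulRight_zero_eq_zero]⟩
  have hc : Commute (LinearMap.mulLeft ℚ a) (LinearMap.mulRight ℚ (-a)) :=
    LinearMap.commute_mulLeft_right a (-a)
  have h1 := IsNilpotent.exp_add_of_commute hc hL hR
  have h2 : LinearMap.mulLeft ℚ a + LinearMap.mulRight ℚ (-a) =
      LinearMap.mulLeft ℚ a - LinearMap.mulRight ℚ a := by
    ext y; simp
    abel
  rw [h2, IsNilpotent.exp_eq_sum hN] at h1
  have h3 : IsNilpotent.exp (LinearMap.mulLeft ℚ a) = LinearMap.mulLeft ℚ (IsNilpotent.exp a) := by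
    obtain ⟨k, hk⟩ := ha
    have hk' : (LinearMap.mulLeft ℚ a) ^ k = 0 := by
      rw [LinearMap.pow_mulLeft, hk, LinearMap.mulLeft_zero_eq_zero]
    rw [IsNilpotent.exp_eq_sum hk, IsNilpotent.exp_eq_sum hk']
    ext y
    simp [LinearMap.pow_mulLeft, Finset.sum_mul]
  have h4 : IsNilpotent.exp (LinearMap.mulRight ℚ (-a)) =
      LinearMap.mulRight ℚ (IsNilpotent.exp (-a)) := by
    obtain ⟨k, hk⟩ := ha.neg
    have hk' : (LinearMap.mulRight ℚ (-a)) ^ k = 0 := by
      rw [LinearMap.pow_mulRight, hk, LinearMap.mulRight_zero_eq_zero]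
    rw [IsNilpotent.exp_eq_sum hk, IsNilpotent.exp_eq_sum hk']
    ext y
    simp [LinearMap.pow_mulRight, Finset.mul_sum]
  have h5 := congrArg (fun f => f z) h1
  simp only [h3, h4, LinearMap.sum_apply, LinearMap.smul_apply, Module.End.mul_apply,
    LinearMap.mulLeft_apply, LinearMap.mulRight_apply] at h5
  rw [mul_assoc, ← h5]

end Conj

variable {n : Type*} [Fintype n] [DecidableEq n]

/-- If the determinant vanishes on a space of rational matrices, it vanishes on the extended
space over every commutative algebra. -/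
theorem det_eq_zero_of_span {R : Type*} [CommRing R] [Algebra ℚ R]
    (S : Submodule ℚ (Matrix n n ℚ)) (hS : ∀ s ∈ S, s.det = 0) (t : Matrix n n R)
    (ht : t ∈ Submodule.span R ((fun s : Matrix n n ℚ => s.map (algebraMap ℚ R)) '' S)) :
    t.det = 0 := by
  obtain ⟨m, f, g, rfl⟩ := Submodule.mem_span_set'.1 ht
  choose s hs hs' using fun i => (g i).2
  -- the generic determinant
  set P : MvPolynomial (Fin m) ℚ :=
    (∑ i, (MvPolynomial.X i : MvPolynomial (Fin m) ℚ) • (s i).map MvPolynomial.C).det with hP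
  have h0 : P = 0 := by
    refine MvPolynomial.funext fun c => ?_
    rw [map_zero, hP, RingHom.map_det]
    have h1 : (MvPolynomial.eval c).mapMatrix
        (∑ i, (MvPolynomial.X i : MvPolynomial (Fin m) ℚ) • (s i).map MvPolynomial.C) =
        ∑ i, c i • s i := by
      ext a b
      simp [Matrix.sum_apply]
    rw [h1]
    exact hS _ (Submodule.sum_mem _ fun i _ => Submodule.smul_mem _ _ (hs i))
  have h2 := congrArg (MvPolynomial.aeval f) h0
  rw [map_zero, hP, AlgHom.map_det] at h2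
  rw [← h2]
  congr 1
  ext a b
  simp only [Matrix.sum_apply, Matrix.smul_apply, AlgHom.mapMatrix_apply, Matrix.map_apply,
    map_sum, smul_eq_mul, map_mul, MvPolynomial.aeval_X, MvPolynomial.algHom_C]
  refine Finset.sum_congr rfl fun i _ => ?_
  rw [← hs' i]
  simp

/-- The commutator with `M`, as a linear map. -/
def adR (R : Type*) [CommRing R] (M : Matrix n n R) : Matrix n n R →ₗ[R] Matrix n n R :=
  LinearMap.mulLeft R M - LinearMap.mulRight R M

theorem adR_apply {R : Type*} [CommRing R] (M X : Matrix n n R) :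
    adR R M X = M * X - X * M := rfl

theorem ad_pow {R : Type*} [CommRing R] [Algebra ℚ R] (M X : Matrix n n R) (r : R) (i : ℕ) :
    ((LinearMap.mulLeft ℚ (r • M) - LinearMap.mulRight ℚ (r • M)) ^ i) X =
      r ^ i • ((adR R M) ^ i) X := by
  induction i with
  | zero => simp
  | succ i ih =>
      rw [pow_succ', Module.End.mul_apply, ih, pow_succ' (adR R M), Module.End.mul_apply]
      simp only [LinearMap.sub_apply, LinearMap.mulLeft_apply, LinearMap.mulRight_apply, adR_apply]
      rw [pow_succ', mul_smul, smul_mul_assoc, mul_smul_comm, mul_smul_comm, smul_mul_assoc,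
        ← smul_sub, smul_sub]
      rw [smul_sub, smul_sub]

section Main

variable {B S k : Submodule ℚ (Matrix n n ℚ)} {x : Matrix n n ℚ}

/-- The extension of a space of rational matrices. -/
def xt (R : Type*) [CommRing R] [Algebra ℚ R] (B : Submodule ℚ (Matrix n n ℚ)) :
    Submodule R (Matrix n n R) :=
  Submodule.span R ((fun s : Matrix n n ℚ => s.map (algebraMap ℚ R)) '' B)

theorem mem_xt {R : Type*} [CommRing R] [Algebra ℚ R] {B : Submodule ℚ (Matrix n n ℚ)}
    {s : Matrix n n ℚ} (hs : s ∈ B) : s.map (algebraMap ℚ R) ∈ xt R B :=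
  Submodule.subset_span ⟨s, hs, rfl⟩

theorem xt_mono {R : Type*} [CommRing R] [Algebra ℚ R] {B S : Submodule ℚ (Matrix n n ℚ)}
    (h : S ≤ B) : xt R S ≤ xt R B :=
  Submodule.span_mono (Set.image_mono h)

theorem map_comm {R : Type*} [CommRing R] [Algebra ℚ R] (M X : Matrix n n ℚ) :
    (M * X - X * M).map (algebraMap ℚ R) =
      M.map (algebraMap ℚ R) * X.map (algebraMap ℚ R) -
        X.map (algebraMap ℚ R) * M.map (algebraMap ℚ R) := by
  have := map_sub (algebraMap ℚ R).mapMatrix (M * X) (X * M)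
  rw [map_mul, map_mul] at this
  exact this

theorem xt_comm {R : Type*} [CommRing R] [Algebra ℚ R]
    (hk : ∀ M ∈ k, ∀ X ∈ B, M * X - X * M ∈ B) {M X : Matrix n n R} (hM : M ∈ xt R k)
    (hX : X ∈ xt R B) : adR R M X ∈ xt R B := by
  refine Submodule.span_induction (p := fun M _ => adR R M X ∈ xt R B) ?_ ?_ ?_ ?_ hM
  · rintro _ ⟨M, hM, rfl⟩
    refine Submodule.span_induction (p := fun X _ => adR R (M.map (algebraMap ℚ R)) X ∈ xt R B)
      ?_ ?_ ?_ ?_ hX
    · rintro _ ⟨X, hX, rfl⟩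
      rw [adR_apply, ← map_comm]
      exact mem_xt (hk M hM X hX)
    · rw [map_zero]; exact Submodule.zero_mem _
    · intro a b _ _ ha hb
      rw [map_add]; exact Submodule.add_mem _ ha hb
    · intro r a _ ha
      rw [map_smul]; exact Submodule.smul_mem _ _ ha
  · rw [adR_apply, zero_mul, mul_zero, sub_zero]; exact Submodule.zero_mem _
  · intro a b _ _ ha hb
    rw [adR_apply] at ha hb ⊢
    rw [add_mul, mul_add]
    have := Submodule.add_mem _ ha hb
    convert! this using 1
    abel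
  · intro r a _ ha
    rw [adR_apply] at ha ⊢
    rw [smul_mul_assoc, mul_smul_comm, ← smul_sub]
    exact Submodule.smul_mem _ _ ha

theorem xt_decomp {R : Type*} [CommRing R] [Algebra ℚ R]
    (h : ∀ Y ∈ B, ∃ s ∈ S, ∃ M ∈ k, Y = s + (M * x - x * M)) {w : Matrix n n R}
    (hw : w ∈ xt R B) : ∃ σ ∈ xt R S, ∃ M ∈ xt R k,
      w = σ + adR R M (x.map (algebraMap ℚ R)) := by
  refine Submodule.span_induction (p := fun w _ => ∃ σ ∈ xt R S, ∃ M ∈ xt R k,
      w = σ + adR R M (x.map (algebraMap ℚ R))) ?_ ?_ ?_ ?_ hw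
  · rintro _ ⟨Y, hY, rfl⟩
    obtain ⟨s, hs, M, hM, rfl⟩ := h Y hY
    refine ⟨_, mem_xt hs, _, mem_xt hM, ?_⟩
    rw [adR_apply, ← map_comm]
    have := map_add (algebraMap ℚ R).mapMatrix s (M * x - x * M)
    exact this
  · exact ⟨0, Submodule.zero_mem _, 0, Submodule.zero_mem _, by
      rw [adR_apply, zero_mul, mul_zero, sub_zero, add_zero]⟩
  · rintro a b _ _ ⟨σ, hσ, M, hM, rfl⟩ ⟨τ, hτ, L, hL, rfl⟩
    refine ⟨σ + τ, Submodule.add_mem _ hσ hτ, M + L, Submodule.add_mem _ hM hL, ?_⟩
    simp only [adR_apply, add_mul, mul_add]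
    abel
  · rintro r a _ ⟨σ, hσ, M, hM, rfl⟩
    refine ⟨r • σ, Submodule.smul_mem _ _ hσ, r • M, Submodule.smul_mem _ _ hM, ?_⟩
    simp only [adR_apply, smul_mul_assoc, mul_smul_comm, smul_add, smul_sub]

theorem adR_pow_mem {R : Type*} [CommRing R] [Algebra ℚ R]
    (hk : ∀ M ∈ k, ∀ X ∈ B, M * X - X * M ∈ B) {M X : Matrix n n R} (hM : M ∈ xt R k)
    (hX : X ∈ xt R B) (i : ℕ) : ((adR R M) ^ i) X ∈ xt R B := by
  induction i with
  | zero => simpa using hX
  | succ i ih =>
      rw [pow_succ', Module.End.mul_apply]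
      exact xt_comm hk hM ih

/-- Conjugating an infinitesimal deformation of `x` into the slice, up to higher order. -/
theorem conj_step {R : Type*} [CommRing R] [Algebra ℚ R] (hSB : S ≤ B)
    (hk : ∀ M ∈ k, ∀ X ∈ B, M * X - X * M ∈ B)
    (h : ∀ Y ∈ B, ∃ s ∈ S, ∃ M ∈ k, Y = s + (M * x - x * M)) (hx : x ∈ S) {e : R} {N : ℕ}
    (he : e ^ (N + 2) = 0) {v : Matrix n n R} (hv : v ∈ xt R B) (j : ℕ) :
    ∃ g g' : Matrix n n R, g * g' = 1 ∧ ∃ s ∈ xt R S, ∃ w ∈ xt R B, ∃ s' ∈ xt R B,
      g * (x.map (algebraMap ℚ R) + e • v) * g' = s + e ^ (j + 1) • w ∧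
        s = x.map (algebraMap ℚ R) + e • s' := by
  induction j with
  | zero =>
      exact ⟨1, 1, by simp, _, mem_xt hx, v, hv, 0, Submodule.zero_mem _, by simp, by simp⟩
  | succ j ih =>
      obtain ⟨g, g', hg, s, hs, w, hw, s', hs', h1, h2⟩ := ih
      obtain ⟨σ, hσ, M, hM, hwσ⟩ := xt_decomp h hw
      set D := adR R M with hD
      set z := s + e ^ (j + 1) • w with hz
      have hzB : z ∈ xt R B :=
        Submodule.add_mem _ (xt_mono hSB hs) (Submodule.smul_mem _ _ hw)
      -- the nilpotent element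
      have hnil : ((-(e ^ (j + 1))) • M) ^ (N + 2) = 0 := by
        rw [_root_.smul_pow, neg_pow, ← pow_mul, mul_comm (j + 1), pow_mul, he,
          zero_pow (by omega), mul_zero, zero_smul]
      have hnil' : (LinearMap.mulLeft ℚ ((-(e ^ (j + 1))) • M) -
          LinearMap.mulRight ℚ ((-(e ^ (j + 1))) • M)) ^ (N + 2) = 0 := by
        refine LinearMap.ext fun y => ?_
        rw [ad_pow, neg_pow, ← pow_mul, mul_comm (j + 1), pow_mul, he, zero_pow (by omega),
          mul_zero, zero_smul, LinearMap.zero_apply]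
      have hexp := exp_conj (⟨_, hnil⟩ : IsNilpotent ((-(e ^ (j + 1))) • M)) z hnil'
      simp only [ad_pow] at hexp
      rw [Finset.sum_range_succ', Finset.sum_range_succ'] at hexp
      simp only [zero_add, pow_zero, pow_one, Nat.factorial_zero, Nat.factorial_one,
        Nat.cast_one, inv_one, one_smul, Module.End.one_apply] at hexp
      -- the tail
      obtain ⟨t, ht, htail⟩ : ∃ t ∈ xt R B, (∑ i ∈ Finset.range N,
          (((i + 1 + 1).factorial : ℕ) : ℚ)⁻¹ • ((-(e ^ (j + 1))) ^ (i + 1 + 1) •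
            (adR R M ^ (i + 1 + 1)) z)) = e ^ (j + 2) • t := by
        refine ⟨∑ i ∈ Finset.range N, (((i + 1 + 1).factorial : ℕ) : ℚ)⁻¹ •
          (((-1) ^ (i + 1 + 1) * e ^ ((j + 1) * (i + 1) - 1)) • (adR R M ^ (i + 1 + 1)) z),
          Submodule.sum_mem _ fun i _ => ?_, ?_⟩
        · rw [← algebraMap_smul R]
          exact Submodule.smul_mem _ _ (Submodule.smul_mem _ _ (adR_pow_mem hk hM hzB _))
        · rw [Finset.smul_sum]
          refine Finset.sum_congr rfl fun i _ => ?_
          rw [smul_comm (e ^ (j + 2)), smul_smul (e ^ (j + 2))]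
          congr 2
          rw [neg_pow, ← pow_mul, mul_left_comm, ← pow_add]
          congr 2
          have : 1 ≤ (j + 1) * (i + 1) := Nat.mul_pos (by omega) (by omega)
          have e1 : (j + 1) * (i + 1 + 1) = (j + 1) * (i + 1) + (j + 1) := by ring
          omega
      rw [htail] at hexp
      refine ⟨IsNilpotent.exp ((-(e ^ (j + 1))) • M) * g,
        g' * IsNilpotent.exp (-((-(e ^ (j + 1))) • M)), ?_,
        s + e ^ (j + 1) • σ, Submodule.add_mem _ hs (Submodule.smul_mem _ _ hσ),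
        t - D s' - e ^ j • D w, Submodule.sub_mem _ (Submodule.sub_mem _ ht
          (xt_comm hk hM hs')) (Submodule.smul_mem _ _ (xt_comm hk hM hw)),
        s' + e ^ j • σ, Submodule.add_mem _ hs' (Submodule.smul_mem _ _ (xt_mono hSB hσ)),
        ?_, ?_⟩
      · rw [mul_assoc, ← mul_assoc g, hg, one_mul,
          IsNilpotent.exp_mul_exp_neg_self ⟨_, hnil⟩]
      · have e1 : IsNilpotent.exp ((-(e ^ (j + 1))) • M) * g *
            (x.map (algebraMap ℚ R) + e • v) *
            (g' * IsNilpotent.exp (-((-(e ^ (j + 1))) • M))) =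
            IsNilpotent.exp ((-(e ^ (j + 1))) • M) * (g * (x.map (algebraMap ℚ R) + e • v) * g') *
            IsNilpotent.exp (-((-(e ^ (j + 1))) • M)) := by
          simp only [mul_assoc]
        rw [e1, h1, hexp]
        have e2 : D z = D (x.map (algebraMap ℚ R)) + e • D s' + e ^ (j + 1) • D w := by
          rw [hz, h2]
          simp only [map_add, map_smul]
        rw [← hD, e2, hz]
        have e3 : e ^ (j + 1) • w = e ^ (j + 1) • σ + e ^ (j + 1) • D (x.map (algebraMap ℚ R)) := by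
          rw [← smul_add, hD, ← hwσ]
        rw [e3]
        module
      · rw [h2]
        simp only [smul_add, smul_smul, ← pow_succ', add_assoc]

/-- The determinant vanishes on the infinitesimal deformations of `x` in `B`. -/
theorem det_deform {R : Type*} [CommRing R] [Algebra ℚ R] (hSB : S ≤ B)
    (hk : ∀ M ∈ k, ∀ X ∈ B, M * X - X * M ∈ B)
    (h : ∀ Y ∈ B, ∃ s ∈ S, ∃ M ∈ k, Y = s + (M * x - x * M)) (hx : x ∈ S)
    (hdet : ∀ s ∈ S, s.det = 0) {e : R} {N : ℕ}
    (he : e ^ (N + 2) = 0) {v : Matrix n n R} (hv : v ∈ xt R B) :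
    (x.map (algebraMap ℚ R) + e • v).det = 0 := by
  obtain ⟨g, g', hg, s, hs, w, hw, s', hs', h1, h2⟩ := conj_step hSB hk h hx he hv (N + 1)
  have e1 : e ^ (N + 1 + 1) = 0 := he
  rw [e1, zero_smul, add_zero] at h1
  have h3 : s.det = 0 := det_eq_zero_of_span S hdet s hs
  rw [← h1, Matrix.det_mul, Matrix.det_mul] at h3
  have h5 : g.det * g'.det = 1 := by rw [← Matrix.det_mul, hg, Matrix.det_one]
  calc (x.map (algebraMap ℚ R) + e • v).det
      = (g.det * g'.det) * (x.map (algebraMap ℚ R) + e • v).det := by rw [h5, one_mul]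
    _ = g.det * (x.map (algebraMap ℚ R) + e • v).det * g'.det := by ring
    _ = 0 := h3

/-- **The slice theorem.** -/
theorem slice (hSB : S ≤ B) (hk : ∀ M ∈ k, ∀ X ∈ B, M * X - X * M ∈ B)
    (h : ∀ Y ∈ B, ∃ s ∈ S, ∃ M ∈ k, Y = s + (M * x - x * M)) (hx : x ∈ S)
    (hdet : ∀ s ∈ S, s.det = 0) {Y : Matrix n n ℚ} (hY : Y ∈ B) : Y.det = 0 := by
  set N := Fintype.card n with hN
  let I : Ideal ℚ[X] := Ideal.span {X ^ (N + 2)}
  let R := ℚ[X] ⧸ I
  set v : Matrix n n ℚ := Y - x with hv
  have hvB : v ∈ B := Submodule.sub_mem _ hY (hSB hx)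
  set e : R := Ideal.Quotient.mk I X with he
  have he0 : e ^ (N + 2) = 0 := by
    rw [he, ← map_pow]
    exact Ideal.Quotient.eq_zero_iff_mem.2 (Ideal.mem_span_singleton_self _)
  have h4 : (x.map (algebraMap ℚ R) + e • v.map (algebraMap ℚ R)).det = 0 :=
    det_deform hSB hk h hx hdet he0 (mem_xt hvB)
  set p : ℚ[X] := ((X : ℚ[X]) • v.map C + x.map C).det with hp
  have h5 : Ideal.Quotient.mk I p = 0 := by
    rw [hp, RingHom.map_det, ← h4]
    congr 1
    ext a b
    simp only [RingHom.mapMatrix_apply, Matrix.map_apply, Matrix.add_apply, Matrix.smul_apply,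
      smul_eq_mul, map_add, map_mul]
    rw [add_comm]
    rfl
  have h6 : (X : ℚ[X]) ^ (N + 2) ∣ p := by
    rw [Ideal.Quotient.eq_zero_iff_mem, Ideal.mem_span_singleton] at h5
    exact h5
  have h7 : p = 0 := by
    by_contra h0
    have h8 := Polynomial.natDegree_le_of_dvd h6 h0
    have h9 := Polynomial.natDegree_det_X_add_C_le v x
    rw [Polynomial.natDegree_X_pow] at h8
    rw [← hp] at h9
    omega
  have h8 := congrArg (Polynomial.eval 1) h7
  rw [hp, ← Polynomial.coe_evalRingHom, RingHom.map_det, map_zero] at h8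
  rw [← h8]
  congr 1
  ext a b
  simp [hv]

end Main

end Pool.Agent.Helper69K1
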